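import Pool.Agent.PSS.DefsS

/-!
# Squad PSS: the theorem for algebras from the step and the base case
-/

noncomputable section

namespace Pool.Agent.PSS

/-- transport of an action along an isomorphism -/
def trA {V U E : Type} [Group V] [Group U] [Group E] (s : V ≃* U) (φ : E →* MulAut V) :
    E →* MulAut U where
  toFun := fun e => (s.symm.trans (φ e)).trans s
  map_one' := by
    ext u
    simp
  map_mul' := by
    intro e f
    ext u
    simp

theorem trA_apply {V U E : Type} [Group V] [Group U] [Group E] (s : V ≃* U)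
    (φ : E →* MulAut V) (e : E) (u : U) : trA s φ e u = s (φ e (s.symm u)) := rfl

theorem Fre.tr {V U E : Type} [CommGroup V] [CommGroup U] [Group E] (s : V ≃* U)
    {φ : E →* MulAut V} {ψ : E →* MulAut U} (h : ∀ e v, ψ e (s v) = s (φ e v))
    (hf : Fre φ) : Fre ψ := by
  obtain ⟨P, Q, h0, h1, h2, h3, h4⟩ := hf
  have key : ∀ e (u : U), ψ e u = s (φ e (s.symm u)) := by
    intro e u
    have := h e (s.symm u)
    rwa [s.apply_symm_apply] at this
  refine ⟨P.map s.toMonoidHom, Q.map s.toMonoidHom, ?_, ?_, ?_, ?_, ?_⟩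
  · intro hP
    apply h0
    rw [Subgroup.map_eq_bot_iff] at hP
    rw [eq_bot_iff]
    intro x hx
    have hx' := hP hx
    rw [MonoidHom.mem_ker] at hx'
    exact Subgroup.mem_bot.2 (s.injective (by
      rw [map_one]
      exact hx'))
  · constructor
    · rw [disjoint_iff]
      rw [eq_bot_iff]
      rintro x ⟨⟨a, ha, rfl⟩, ⟨b, hb, hab⟩⟩
      have hab' : b = a := s.injective hab
      subst hab'
      have hd := Subgroup.mem_bot.1 (h1.disjoint.le_bot ⟨ha, hb⟩)
      subst hd
      exact Subgroup.mem_bot.2 (map_one _)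
    · rw [codisjoint_iff]
      rw [← Subgroup.map_sup, h1.sup_eq_top]
      exact Subgroup.map_top_of_surjective _ s.surjective
  · rintro e _ ⟨u, hu, rfl⟩
    exact ⟨φ e u, h2 e u hu, (h e u).symm⟩
  · rintro e _ ⟨u, hu, rfl⟩
    exact ⟨φ e u, h3 e u hu, (h e u).symm⟩
  · rintro e _ ⟨u, hu, rfl⟩ hn hfx
    have hu1 : u ≠ 1 := by
      rintro rfl
      exact hn (map_one _)
    have hfu : φ e u = u := by
      apply s.injective
      rw [← h e u]
      exact hfx
    have := h4 e u hu hu1 hfu
    ext v
    rw [key, this]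
    simp

theorem ats (stp : StpStmt) (bas : BasStmt) : AtsStmt := by
  intro n
  induction n with
  | zero =>
    intro ℓ _ F V E A B _ _ _ _ _ _ _ _ _ _ _ φ α W ψ hp hE hc hr hw hA hB
    change W = ⊤ at hc
    subst hc
    refine bas ℓ F V E A B φ α hp hE ?_ hA hB
    rcases hw with hw | hw
    · left
      have : Subsingleton V := by
        constructor
        intro a b
        have ha : a ∈ (⊥ : Subgroup V) := hw ▸ Subgroup.mem_top a
        have hb : b ∈ (⊥ : Subgroup V) := hw ▸ Subgroup.mem_top b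
        rw [Subgroup.mem_bot.1 ha, Subgroup.mem_bot.1 hb]
      exact Nat.card_unique
    · right
      refine Fre.tr (Subgroup.topEquiv (G := V)) (φ := ψ) (ψ := φ) ?_ hw
      intro e v
      exact (hr e v).symm
  | succ n ih =>
    intro ℓ _ F V E A B _ _ _ _ _ _ _ _ _ _ _ φ α W ψ hp hE hc hr hw hA hB
    obtain ⟨Y, W', ψ', hY, hWW, hr', hc'⟩ := hc
    have hst : ∀ e : E, ∀ w ∈ W, φ e w ∈ W := by
      intro e w hw'
      have := hr e ⟨w, hw'⟩
      rw [← this]
      exact (ψ e ⟨w, hw'⟩).2
    have : Fintype W' := Fintype.ofFinite W'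
    obtain ⟨F', C, B', i1, i2, i3, i4, i5, i6, i7, γ, nw, hC, h1, h2⟩ :=
      stp ℓ F V E A B φ α Y W' W ψ' hp hE hY hr' hWW hst hA hB
    let s : W ≃* (W.subgroupOf W') := (Subgroup.subgroupOfEquivOfLe hWW).symm
    have hs : ∀ w : W, (((s w : W.subgroupOf W') : W') : V) = w := by
      intro w
      rfl
    have hrs : IsRs ψ' (W.subgroupOf W') (trA s ψ) := by
      intro e w
      apply Subtype.ext
      rw [hr']
      obtain ⟨v, rfl⟩ := s.surjective w
      rw [trA_apply, s.symm_apply_apply, hs, hs]
      exact hr e v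
    have hfin := ih ℓ F' W' E C B' ψ' γ (W.subgroupOf W') (trA s ψ)
      (hp.to_subgroup W') hE hc' hrs ?_ hC nw
    · rw [← h1, ← h2]
      exact hfin
    · rcases hw with hw | hw
      · left
        subst hw
        exact Subgroup.bot_subgroupOf W'
      · right
        refine Fre.tr s (φ := ψ) ?_ hw
        intro e v
        rw [trA_apply, s.symm_apply_apply]

end Pool.Agent.PSS
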