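import Pool.Agent.PSS.DefsS

/-!
# Squad PSS (theorem (S)), block S0 (helper30): Brauer quotients in characteristic `ℓ`

`R` is a commutative ring with `ℓ = 0` (a field, `F⟦X⟧`), `V` a finite abelian `ℓ`-group,
`α : V →* A`.  For `Q ≤ V` the Brauer quotient `A(Q) = A^Q / BK(Q)` is given by `IsBQ R α Q αB β`:
a ring `B`, the Brauer map `β : A → B` (only its values on the centraliser of `Q` are used) and the
group `αB = β ∘ α`.  All rows are elementary; the proofs in the docstrings are complete.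

Notation of the proofs: `u a = α u * a` etc. (`α` is omitted), `rt(a) = ∑ x k * a * y k`,
`Ω^Q = {ω | (q, q) • ω = ω for all q ∈ Q}`, `Tr` the relative trace.
-/

open scoped BigOperators TensorProduct

noncomputable section

namespace Pool.Agent.PSS.S0

open Pool.Agent.PFC (tw IsTv)
open Pool.Agent.PFD.D2b (FrR)

/-! ## Definitions -/

section defs

variable (R : Type) {V E A Ω : Type} [CommRing R] [CommGroup V] [Group E] [Ring A] [Algebra R A]

/-- `β` is the Brauer map onto `B = A(Q)` (only the values on the centraliser of `Q` are used). -/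
structure IsBQ (α : V →* A) (Q : Subgroup V) {B : Type} [Ring B] [Algebra R B] (αB : V →* B)
    (β : A → B) : Prop where
  add : ∀ a ∈ FxR (cw R α) Q, ∀ b ∈ FxR (cw R α) Q, β (a + b) = β a + β b
  smul : ∀ (r : R), ∀ a ∈ FxR (cw R α) Q, β (r • a) = r • β a
  one : β 1 = 1
  mul : ∀ a ∈ FxR (cw R α) Q, ∀ b ∈ FxR (cw R α) Q, β (a * b) = β a * β b
  ker : ∀ a ∈ FxR (cw R α) Q, (β a = 0 ↔ a ∈ BKR (cw R α) Q)
  surj : ∀ y : B, ∃ a ∈ FxR (cw R α) Q, β a = y
  om : ∀ v, β (α v) = αB v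

/-- A permutation frame `b` of `A` with the dual family `d` with respect to the symmetric form
`lam`; the right action is twisted by `θ`; it is free. -/
structure SF [Fintype Ω] [MulAction (V × V) Ω] (θ : MulAut V) (α : V →* A) (lam : A →ₗ[R] R)
    (b d : Ω → A) : Prop where
  sym : ∀ x y, lam (x * y) = lam (y * x)
  eb : ∀ (g : V × V) (ω : Ω), b (g • ω) = α g.1 * b ω * α (θ g.2)⁻¹
  ed : ∀ (g : V × V) (ω : Ω), d (g • ω) = α (θ g.2) * d ω * α g.1⁻¹
  fr : ∀ a, ∑ ω, lam (d ω * a) • b ω = a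
  free : ∀ (v : V) (ω : Ω), ((1, v) : V × V) • ω = ω → v = 1

/-- The points of `Ω` fixed by all `(q, θ⁻¹ q)`, `q ∈ Q`. -/
def OQt (Q : Subgroup V) (θ : MulAut V) (Ω : Type) [MulAction (V × V) Ω] :
    SubMulAction (V × V) Ω where
  carrier := {ω | ∀ q ∈ Q, ((q, θ⁻¹ q) : V × V) • ω = ω}
  smul_mem' := by
    intro g ω h q hq
    rw [smul_smul, mul_comm, ← smul_smul, h q hq]

/-- The orbits of the right action `(1, v)`. -/
def ROrb (V Ω : Type) [CommGroup V] [MulAction (V × V) Ω] : Setoid Ω where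
  r := fun ω ω' => ∃ v : V, ((1, v) : V × V) • ω = ω'
  iseqv := by
    refine ⟨fun ω => ⟨1, one_smul _ ω⟩, ?_, ?_⟩
    · rintro ω ω' ⟨v, rfl⟩
      refine ⟨v⁻¹, ?_⟩
      rw [smul_smul]
      simp only [Prod.mk_mul_mk, one_mul, inv_mul_cancel]
      exact one_smul _ ω
    · rintro ω ω' ω'' ⟨v, rfl⟩ ⟨w, rfl⟩
      exact ⟨w * v, by rw [smul_smul]; simp⟩

end defs

/-! ## A. Permutation frames -/

/-- BKF.  The Brauer kernel consists of fixed vectors.  Proof: `S` a left transversal of `P'` in `P`,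
`m` fixed by `P'`; for `h ∈ P` the map `x ↦` (the element of `S` in `h x P'`) is a bijection of `S`
and `ρ (h x) m = ρ x' m`. -/
def BkfStmt : Prop :=
  ∀ (R H M : Type) [CommRing R] [Group H] [AddCommGroup M] [Module R M]
    (ρ : H →* (M →ₗ[R] M)) (P : Subgroup H), BKR ρ P ≤ FxR ρ P

/-- FPX.  Sums over an `H`-set modulo the Brauer kernel.  Proof: group `∑ κ, g κ` in `P`-orbits; the
one point orbits give the sum over `K0`; the sum over a larger orbit is `∑_(x ∈ S) ρ x (g κ)`, `S` a left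
transversal in `P` of the stabiliser `P'` of `κ` in `P`, `P' < P`, and `g κ` is fixed by `P'`. -/
def FpxStmt : Prop :=
  ∀ (R H M K : Type) [CommRing R] [Group H] [Finite H] [AddCommGroup M] [Module R M] [Fintype K]
    [MulAction H K] (ρ : H →* (M →ₗ[R] M)) (P : Subgroup H) (g : K → M)
    (K0 : Finset K), (∀ h ∈ P, ∀ κ, g (h • κ) = ρ h (g κ)) →
    (∀ κ, κ ∈ K0 ↔ ∀ h ∈ P, h • κ = κ) →
    ∑ κ, g κ - ∑ κ ∈ K0, g κ ∈ BKR ρ P

/-- FCO.  Coefficients of elements of the Brauer kernel at fixed points.  Proof: for `P' < P`,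
`S` a transversal, `m` fixed by `P'`, `ω` fixed by `P`: `c ω (ρ x m) = c (x⁻¹ ω) m = c ω m` for
`x ∈ P`, so `c ω (∑ ρ x m) = |S| c ω m`, and `ℓ` divides `|S| = |P : P'|`. -/
def FcoStmt : Prop :=
  ∀ (ℓ : ℕ) [Fact ℓ.Prime] (R H M Ω : Type) [CommRing R] [Group H] [Finite H] [AddCommGroup M]
    [Module R M] [Fintype Ω] [MulAction H Ω] (ρ : H →* (M →ₗ[R] M)) (b : Ω → M)
    (c : Ω → (M →ₗ[R] R)), (ℓ : R) = 0 → IsPGroup ℓ H → FrR ρ b c →
    ∀ (P : Subgroup H), ∀ m ∈ BKR ρ P, ∀ ω : Ω, (∀ h ∈ P, h • ω = ω) → c ω m = 0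

/-- FBK (uses FPX).  A fixed vector whose coefficients at the fixed points vanish is in the Brauer
kernel.  Proof: `m = ∑ c ω m • b ω`, and `g ω = c ω m • b ω` satisfies `g (h ω) = ρ h (g ω)` for `h ∈ P`
(`c (h ω) m = c (h ω) (ρ h m) = c ω m`). -/
def FbkStmt : Prop :=
  ∀ (R H M Ω : Type) [CommRing R] [Group H] [Finite H] [AddCommGroup M]
    [Module R M] [Fintype Ω] [MulAction H Ω] (ρ : H →* (M →ₗ[R] M)) (b : Ω → M)
    (c : Ω → (M →ₗ[R] R)), FrR ρ b c →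
    ∀ (P : Subgroup H), ∀ m ∈ FxR ρ P, (∀ ω : Ω, (∀ h ∈ P, h • ω = ω) → c ω m = 0) →
      m ∈ BKR ρ P

/-- FTR (uses FCO, FPX).  Let `m` be fixed by the abelian group `H` and in `BK(P')` for all `P' > P`.
Then `m` is a trace from `P` modulo `BK(P)`.  Proof: `c ω m = 0` if the stabiliser of `ω` is `> P`
(FCO).  The sum over the `ω` with stabiliser `P` is a sum of orbit sums (the stabilisers are constant
on orbits as `H` is abelian): `m' = ∑ c ω m • b ω` over representatives of these orbits is fixed by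
`P`, and `∑_(x ∈ S) ρ x m'` is this part.  The difference with `m` is `∑ g ω`, `g ω = c ω m • b ω` if the
stabiliser of `ω` does not contain `P`, `g ω = 0` otherwise: FPX (`g` is zero on the fixed points). -/
def FtrStmt : Prop :=
  ∀ (ℓ : ℕ) [Fact ℓ.Prime] (R H M Ω : Type) [CommRing R] [CommGroup H] [Finite H]
    [AddCommGroup M] [Module R M] [Fintype Ω] [MulAction H Ω] (ρ : H →* (M →ₗ[R] M)) (b : Ω → M)
    (c : Ω → (M →ₗ[R] R)), (ℓ : R) = 0 → IsPGroup ℓ H → FrR ρ b c →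
    ∀ (P : Subgroup H), ∀ m ∈ FxR ρ ⊤, (∀ P' : Subgroup H, P < P' → m ∈ BKR ρ P') →
      ∃ m' ∈ FxR ρ P, ∃ S : Finset H, IsTv P ⊤ S ∧ m - ∑ x ∈ S, ρ x m' ∈ BKR ρ P

/-- BKI.  The Brauer kernel is an ideal of the centraliser.  Proof: `a` commutes with `P`:
`a ∑ x m x⁻¹ = ∑ x (a m) x⁻¹`, and `a m` is fixed by `P'`. -/
def BkiStmt : Prop :=
  ∀ (R V A : Type) [CommRing R] [CommGroup V] [Ring A] [Algebra R A] (α : V →* A)
    (P : Subgroup V), ∀ a ∈ FxR (cw R α) P, ∀ m ∈ BKR (cw R α) P,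
      a * m ∈ BKR (cw R α) P ∧ m * a ∈ BKR (cw R α) P

/-- RES.  Fixed vectors and Brauer kernels of a subgroup `W` of `V`. Proof: definitions; the
subgroups of `P` mapped to `V` are the subgroups of the image of `P`. -/
def ResStmt : Prop :=
  ∀ (R V A : Type) [CommRing R] [CommGroup V] [Ring A] [Algebra R A] (α : V →* A)
    (W : Subgroup V) (P : Subgroup W),
    FxR (cw R (α.comp W.subtype)) P = FxR (cw R α) (P.map W.subtype) ∧
    BKR (cw R (α.comp W.subtype)) P = BKR (cw R α) (P.map W.subtype)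

/-! ## B. Relative Frobenius systems -/

/-- RFD.  The dual family of a frame.  Proof: `d ω = ∑_(k, v) c ω (x k v) • v⁻¹ y k`; by `RF.e1` (with
`c ω` applied) `lam (d ω a) = c ω a`.  Nondegeneracy: `lam (z a) = 0` for all `a` gives `z = 0`
(`RF.e1` and symmetry).  `ed`: `lam (d (g ω) a) = c (g ω) a = c ω (g⁻¹ a) = lam (v d ω u⁻¹ a)`, `g = (u, v)`. -/
def RfdStmt : Prop :=
  ∀ (R V A K Ω : Type) [CommRing R] [CommGroup V] [Fintype V] [Ring A] [Algebra R A] [Fintype K]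
    [Fintype Ω] [MulAction (V × V) Ω] (α : V →* A) (lam : A →ₗ[R] R) (x y : K → A) (b : Ω → A)
    (c : Ω → (A →ₗ[R] R)), RF R α lam x y → FrR (bw R α) b c →
    (∀ (v : V) (ω : Ω), ((1, v) : V × V) • ω = ω → v = 1) →
    ∃ d : Ω → A, (∀ ω a, c ω a = lam (d ω * a)) ∧ SF R 1 α lam b d

/-- IND.  `rt` does not depend on the system.  Proof: put `E(c) = ∑_v lam (v⁻¹ c) v`.  `e1`, `e2` say
`a = ∑ x k E(y k a) = ∑ E(a x k) y k` (symmetry).  `x' j = ∑_k x k E(y k x' j)`,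
`y k = ∑_j E(y k x' j) y' j`; for `a` in the centraliser of `V`:
`∑_j x' j a y' j = ∑_(j, k) x k E(y k x' j) a y' j = ∑_k x k a y k`. -/
def IndStmt : Prop :=
  ∀ (R V A K K' : Type) [CommRing R] [CommGroup V] [Fintype V] [Ring A] [Algebra R A] [Fintype K]
    [Fintype K'] (α : V →* A) (lam : A →ₗ[R] R) (x y : K → A) (x' y' : K' → A),
    RF R α lam x y → RF R α lam x' y' → ∀ a ∈ FxR (cw R α) ⊤,
      ∑ k, x k * a * y k = ∑ k, x' k * a * y' k

/-- ZRT.  `rt(a)` is central, and `rt(a) * z = rt(a z)` for central `z` (trivial).  Proof: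
`c ∑ x k a y k = ∑_(k, l) x l E(y l c x k) a y k = ∑_l x l a y l c`. -/
def ZrtStmt : Prop :=
  ∀ (R V A K : Type) [CommRing R] [CommGroup V] [Fintype V] [Ring A] [Algebra R A] [Fintype K]
    (α : V →* A) (lam : A →ₗ[R] R) (x y : K → A), RF R α lam x y →
    ∀ a ∈ FxR (cw R α) ⊤, ∀ c : A, c * ∑ k, x k * a * y k = (∑ k, x k * a * y k) * c

/-- TRS.  `rt` is a trace map.  Proof: by nondegeneracy it is enough that `lam (rt(ab) z)` is symmetric
in `a, b`.  `lam (rt(ab) z) = lam (a b m)`, `m = ∑ y k z x k`.  `b m = ∑_(k, l) E(b y k x l) y l z x k`,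
`m b = ∑_(k, l) y l z x k E(y k x l b)` and `E(b y k x l) = E(y k x l b) =: g k l` as `b` commutes
with `V`.  So `lam (a (b m - m b)) = ∑ lam (a g (y l z x k) - a (y l z x k) g) = 0` as `a` commutes
with `g k l`, a combination of the `v ∈ V`; and `lam (a m b) = lam (b a m)`. -/
def TrsStmt : Prop :=
  ∀ (R V A K : Type) [CommRing R] [CommGroup V] [Fintype V] [Ring A] [Algebra R A] [Fintype K]
    (α : V →* A) (lam : A →ₗ[R] R) (x y : K → A), RF R α lam x y →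
    ∀ a ∈ FxR (cw R α) ⊤, ∀ b ∈ FxR (cw R α) ⊤,
      ∑ k, x k * (a * b) * y k = ∑ k, x k * (b * a) * y k

/-- RFS.  A system over a subgroup.  Proof: `(t, q) ↦ t q` is a bijection of `T × Q` onto `V`. -/
def RfsStmt : Prop :=
  ∀ (R V A K : Type) [CommRing R] [CommGroup V] [Fintype V] [Ring A] [Algebra R A] [Fintype K]
    (α : V →* A) (lam : A →ₗ[R] R) (x y : K → A) (Q : Subgroup V) [Fintype Q] (T : Finset V),
    RF R α lam x y → IsTv Q ⊤ T →
    RF R (α.comp Q.subtype) lam (fun p : K × T => x p.1 * α p.2) (fun p => α (p.2 : V)⁻¹ * y p.1)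

/-- RFO.  The system of a frame.  Proof: choose representatives `t κ` of the classes `κ` of `ROrb`;
`(κ, v) ↦ (1, θ⁻¹ v⁻¹) • t κ` is a bijection onto `Ω` (`free`), and with `x = b ∘ t`, `y = d ∘ t`:
`b ((1, θ⁻¹ v⁻¹) t) = x v`, `d (..) = v⁻¹ y`: this is `e1`; `e2` follows by nondegeneracy.  `rt(a)` is
the sum over `κ` of `b a d` at the representatives. -/
def RfoStmt : Prop :=
  ∀ (R V A Ω : Type) [CommRing R] [CommGroup V] [Fintype V] [Ring A] [Algebra R A] [Fintype Ω]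
    [MulAction (V × V) Ω] (θ : MulAut V) (α : V →* A) (lam : A →ₗ[R] R) (b d : Ω → A)
    [Fintype (Quotient (ROrb V Ω))],
    SF R θ α lam b d → ∃ x y : Quotient (ROrb V Ω) → A, RF R α lam x y ∧
      ∀ a ∈ FxR (cw R α) ⊤, ∀ g : Quotient (ROrb V Ω) → A,
        (∀ ω, g (Quotient.mk (ROrb V Ω) ω) = b ω * a * d ω) →
        ∑ κ, x κ * a * y κ = ∑ κ, g κ

/-! ## C. The Brauer quotient -/

/-- BQX.  Existence.  Proof: `FxR (cw R α) Q` is a subalgebra (the centraliser of `α Q`), the Brauer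
kernel is a two-sided ideal of it (BKF, BKI); `B` the quotient, `β a = 0` outside of the subalgebra. -/
def BqxStmt : Prop :=
  ∀ (R V A : Type) [CommRing R] [CommGroup V] [Ring A] [Algebra R A] (α : V →* A)
    (Q : Subgroup V), ∃ (B : Type) (_ : Ring B) (_ : Algebra R B) (αB : V →* B) (β : A → B),
    IsBQ R α Q αB β

/-- LMB.  The form of `A(Q)`.  Proof: `lam (∑_(x ∈ S) x m x⁻¹) = |S| lam m = 0` as `ℓ` divides `|P : P'|`:
`lam` is zero on the Brauer kernel. -/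
def LmbStmt : Prop :=
  ∀ (ℓ : ℕ) [Fact ℓ.Prime] (R V A B : Type) [CommRing R] [CommGroup V] [Finite V] [Ring A]
    [Algebra R A] [Ring B] [Algebra R B] (α : V →* A) (Q : Subgroup V) (αB : V →* B) (β : A → B)
    (lam : A →ₗ[R] R), (ℓ : R) = 0 → IsPGroup ℓ V → (∀ x y, lam (x * y) = lam (y * x)) →
    IsBQ R α Q αB β →
    ∃ lamB : B →ₗ[R] R, ∀ a ∈ FxR (cw R α) Q, lamB (β a) = lam a

/-- SFQ (uses FPX, BKF).  The frame of `A(Q)` from the points of type `θ`.  `n' = n⁻¹`, `n u = θ(u) n`.  For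
`ω ∈ OQt Q θ Ω`: `q b ω = b ω θ⁻¹(q)`, so `q b ω n' = b ω n' q`: `b ω n'` and `n d ω` are in the
centraliser of `Q`.  `eb`, `ed`: `b (g ω) n' = u b ω v⁻¹ n' = u b ω n' θ(v)⁻¹`.  `fr`: let `a` be in the
centraliser of `Q`; then `a n` satisfies `q a n θ⁻¹(q)⁻¹ = a n`, it is fixed by the subgroup
`P = {(q, θ⁻¹ q)}` of `V × V`; FPX with `g ω = lam (d ω a n) b ω` (equivariant for `P`, `OQt` = the fixed
points of `P`): `a n - ∑_(ω ∈ OQt) lam (d ω a n) b ω` is in `BKR (bw) P`, so after multiplication by `n'` on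
the right `a - ∑_(ω ∈ OQt) lam (n d ω a) b ω n'` is in `BKR (cw) Q`: for `m` fixed by `P' < P` and a
transversal `S` of `P'` in `P`, `(∑_(x ∈ S) x.1 m x.2⁻¹) n' = ∑ x.1 (m n') x.1⁻¹` as `θ x.2 = x.1`, and
`m n'` is fixed by the projection of `P'` (which is `< Q`).  Apply `β`. -/
def SfqStmt : Prop :=
  ∀ (R V A B Ω : Type) [CommRing R] [CommGroup V] [Finite V] [Ring A]
    [Algebra R A] [Ring B] [Algebra R B] [Fintype Ω] [MulAction (V × V) Ω] (α : V →* A)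
    (Q : Subgroup V) (αB : V →* B) (β : A → B) (lam : A →ₗ[R] R) (lamB : B →ₗ[R] R)
    (b d : Ω → A) (θ : MulAut V) (n n' : A) [Fintype (OQt Q θ Ω)],
    SF R 1 α lam b d → IsBQ R α Q αB β → (∀ a ∈ FxR (cw R α) Q, lamB (β a) = lam a) →
    n * n' = 1 → n' * n = 1 → (∀ u, n * α u = α (θ u) * n) →
    (∀ ω ∈ OQt Q θ Ω, b ω * n' ∈ FxR (cw R α) Q ∧ n * d ω ∈ FxR (cw R α) Q) ∧
    SF R θ αB lamB (fun ω : OQt Q θ Ω => β (b ω * n')) (fun ω : OQt Q θ Ω => β (n * d ω))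

/-- MCK (uses RFD, IND, RFO, SFQ, FPX).  MACKEY FORMULA.  `T` represents the restrictions to `Q` of the
`(φ e)⁻¹`.  Proof.  RFD: a frame `b, d` (`SF R 1 α lam b d`) with stabilisers `tw (φ e) S`; RFO, IND:
`rt(a) = ∑_κ g κ`, `κ` in the right orbits of `Ω`, `g (mk ω) = b ω a d ω`.  `V` acts on the right orbits by
`q • mk ω = mk ((q, 1) ω)` and `g (q κ) = q g(κ) q⁻¹`.  FPX (`H = V`, `P = Q`, `ρ = cw`): modulo the Brauer
kernel only the fixed `κ` remain.  `mk ω` is fixed iff for every `q ∈ Q` there is `v` with `(q, v) ω = ω`; by the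
form of the stabiliser `q = φ e v`, i.e. `v = (φ e)⁻¹ q`: iff `ω ∈ OQt Q (φ e) Ω`, with `e` from the
stabiliser; there is exactly one `t ∈ T` with `ω ∈ OQt Q (φ t) Ω` (right action free).  So the fixed
`κ` are the disjoint union over `t ∈ T` of the right orbits of `OQt Q (φ t) Ω`.  For such `ω`:
`g (mk ω) = (b ω n'_t) (n_t a n'_t) (n_t d ω)`, all three factors in the centraliser of `Q`.  SFQ, RFO
and IND in `B`: `β (∑_(κ of type t) g κ) = rt_B (β (n_t a n'_t))`. -/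
def MckStmt : Prop :=
  ∀ (ℓ : ℕ) [Fact ℓ.Prime] (R V E A B K KB : Type) [CommRing R] [CommGroup V] [Fintype V] [Group E]
    [Ring A] [Algebra R A] [Ring B] [Algebra R B] [Fintype K] [Fintype KB] (φ : E →* MulAut V)
    (α : V →* A) (Q : Subgroup V) (αB : V →* B) (β : A → B) (lam : A →ₗ[R] R) (x y : K → A)
    (lamB : B →ₗ[R] R) (xB yB : KB → B) (n n' : E → A) (T : Finset E),
    (ℓ : R) = 0 → IsPGroup ℓ V → Per R φ α → RF R α lam x y → IsBQ R α Q αB β →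
    RF R αB lamB xB yB → (∀ a ∈ FxR (cw R α) Q, lamB (β a) = lam a) →
    (∀ e, n e * n' e = 1 ∧ n' e * n e = 1 ∧ ∀ u, n e * α u = α (φ e u) * n e) →
    (∀ e : E, ∃! t, t ∈ T ∧ ∀ q ∈ Q, (φ t)⁻¹ q = (φ e)⁻¹ q) →
    ∀ a ∈ FxR (cw R α) ⊤,
      β (∑ k, x k * a * y k) = ∑ t ∈ T, ∑ k, xB k * β (n t * a * n' t) * yB k

/-- BPU (uses SFQ, LMB, RFD, RFO).  The class is stable under Brauer quotients.  `E1` = the elements
of `E` which act trivially on `Q`.  Proof.  SFQ with `θ = 1`, `n = 1`: frame with a dual family; the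
stabiliser of `ω ∈ OQt Q 1 Ω` is `tw (φ e) S` and contains `(q, q)`, so `q ∈ S` and `φ e q = q`: `e ∈ E1`.
The functionals are `z ↦ lamB (d ω z)`.  `RF`: RFO.  Units: `n_e` for `e ∈ E1` is in the centraliser
of `Q`; take `β n_e`, `β n'_e`. -/
def BpuStmt : Prop :=
  ∀ (ℓ : ℕ) [Fact ℓ.Prime] (R V E A B K : Type) [CommRing R] [CommGroup V] [Fintype V] [Group E]
    [Ring A] [Algebra R A] [Ring B] [Algebra R B] [Fintype K] (φ : E →* MulAut V)
    (α : V →* A) (Q : Subgroup V) (αB : V →* B) (β : A → B) (lam : A →ₗ[R] R) (x y : K → A)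
    (E1 : Subgroup E), (ℓ : R) = 0 → IsPGroup ℓ V → Per R φ α → Uni φ α → RF R α lam x y →
    IsBQ R α Q αB β → (∀ e, e ∈ E1 ↔ ∀ q ∈ Q, φ e q = q) →
    Per R (φ.comp E1.subtype) αB ∧ Uni (φ.comp E1.subtype) αB ∧
    ∃ (lamB : B →ₗ[R] R) (KB : Type) (_ : Fintype KB) (xB yB : KB → B),
      RF R αB lamB xB yB ∧ ∀ a ∈ FxR (cw R α) Q, lamB (β a) = lam a

/-- BBK (uses FCO, FBK, SFQ, LMB, RFD).  Brauer kernels of `A(Q)`.  `P ≤ V`, `PQ = P ⊔ Q`.  (1) If
`a ∈ A^(PQ)` then `β a` is fixed by `P`, and `β a ∈ BK_B(P) ↔ a ∈ BK_A(PQ)`.  (2) Every element of `B`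
fixed by `P` is `β a` with `a ∈ A^(PQ)`.  Proof.  `B` has the frame `β (b ω)`, `ω ∈ Ω^Q`, with the
functionals `lamB (β (d ω) ·)`, `lamB (β (d ω) β a) = lam (d ω a)`.  FCO and FBK for the
conjugation action of `P` on `B` and of `PQ` on `A`: both sides say that `lam (d ω a) = 0` for
all `ω ∈ (Ω^Q)^P = Ω^(PQ)`.  (2): `z = ∑_(ω ∈ Ω^Q) c_ω β (b ω)` with `c` constant on the `P`-orbits
(`Ω^Q` is stable under `(u, u)`); `a = ∑ c_ω b ω` is fixed by `P` and by `Q`. -/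
def BbkStmt : Prop :=
  ∀ (ℓ : ℕ) [Fact ℓ.Prime] (R V E A B K : Type) [CommRing R] [CommGroup V] [Fintype V] [Group E]
    [Ring A] [Algebra R A] [Ring B] [Algebra R B] [Fintype K] (φ : E →* MulAut V)
    (α : V →* A) (Q : Subgroup V) (αB : V →* B) (β : A → B) (lam : A →ₗ[R] R) (x y : K → A)
    (P : Subgroup V), (ℓ : R) = 0 → IsPGroup ℓ V → Per R φ α → RF R α lam x y →
    IsBQ R α Q αB β →
    (∀ a ∈ FxR (cw R α) (P ⊔ Q), β a ∈ FxR (cw R αB) P ∧
      (β a ∈ BKR (cw R αB) P ↔ a ∈ BKR (cw R α) (P ⊔ Q))) ∧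
    ∀ z ∈ FxR (cw R αB) P, ∃ a ∈ FxR (cw R α) (P ⊔ Q), β a = z

/-- BCL (uses MCK, BPU, BBK).  `A(Q)` is in the class with `E1 = C_E(Q)`.  Proof.  `fin`: `B` is a
quotient of `A^Q`.  `per`, `uni`, `RF`: BPU.  `rt`: MCK with `a = 1`: `β (rt(1)) = |T| rt_B(1)`, `|T| = |E : E1|`
(the classes of `T` are the right cosets of `E1`) is prime to `ℓ`, and `β u β (rt(1)) = 1`.  `blk`: for
`P ≤ V` and `e` as in the definition, lift `e` to `e' ∈ A^V` (BBK (2) with `P = ⊤`); by BBK (1), (2)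
`e'` satisfies the hypotheses of `blk` of `A` at `P ⊔ Q`; so `e' ∈ BK_A(P ⊔ Q)`, `e ∈ BK_B(P)`. -/
def BclStmt : Prop :=
  ∀ (ℓ : ℕ) [Fact ℓ.Prime] (F V E A B : Type) [Field F] [CharP F ℓ] [CommGroup V] [Fintype V]
    [Group E] [Finite E] [Ring A] [Algebra F A] [Ring B] [Algebra F B] (φ : E →* MulAut V)
    (α : V →* A) (Q : Subgroup V) (αB : V →* B) (β : A → B) (E1 : Subgroup E),
    IsPGroup ℓ V → ¬ ℓ ∣ Nat.card E → Cl F φ α → IsBQ F α Q αB β →
    (∀ e, e ∈ E1 ↔ ∀ q ∈ Q, φ e q = q) → Cl F (φ.comp E1.subtype) αB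

end Pool.Agent.PSS.S0
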