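import Pool.Agent.PSS.StmtsS4
import Pool.Agent.PSS.StmtsS0
import Pool.Agent.PFE.DefsN
import Pool.Agent.PFD.Chain2

/-!
# Squad PSS (theorem (S)), block S5 (helper18): the base case, and the reduction to local corners

`A` is in the class `Cl F φ α`, `N_W(A)` is given by `IsNW F α W B`, the Brauer quotient `A(Q)` by
`S0.IsBQ F α Q αB β`.  `C` = `FxR (cw F α) ⊤` = the centraliser of `V` in `A`, `K` = `BKR (cw F α) ⊤`, a two-sided
ideal of `C` (`S0.BkiStmt`, `S0.BkfStmt`).  We write `v` for `α v`, `σ = ∑_v v`, and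
`rt z = ∑_k x k * z * y k` for a relative Frobenius system `RF F α lam x y`; for `z ∈ C` it is central
(`S0.ZrtStmt`), it does not depend on the system (`S0.IndStmt`), and `rt (z a) = z rt a` for central `z`.

Plan: (1) for every block `b` of `A` there is a local idempotent `j ∈ C - K` with `b = rt (j c j)`; so
`dim Z(A b) = dim Z(j A j)`, and in the same way for `N_W(A)` (RDL).  (2) The corner `j A j` is in the class
`Lc` of local algebras for the group `Ej` of the automorphisms in `φ(E)` which are realised by units of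
`j A j` (CLJ).  (3) `Lc` is stable under Brauer quotients and under `N_W`; if `E` acts trivially then
`A/J(A)` is a matrix algebra of size prime to `ℓ` (NIL).  So part (0) (`PmzStmt`) can be applied to the
algebras in `Lc`, and `dim Z(A)` is the number of the conjugacy classes of `V ⋊ E` (LKN).

Complete proofs in the docstrings.
-/

open scoped BigOperators TensorProduct

noncomputable section

namespace Pool.Agent.PSS.S5

open Pool.Agent.PFC (tw IsTv Cnr Cz PIn Ctf Lcq PmzStmt PS bi)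
open Pool.Agent.PFD.D2b (FrR)
open Pool.Agent.PSS.S0 (IsBQ)

/-! ## Definitions -/

section defs

variable (F : Type) {V E A Y : Type} [Field F] [CommGroup V] [Group E] [Ring A] [Algebra F A]
  [Ring Y] [Algebra F Y]

/-- `j` is a local idempotent of the centraliser of `V`, not in the Brauer kernel: every element of
`j C j` is nilpotent or a unit of `j C j`. -/
structure Loi (α : V →* A) (j : A) : Prop where
  fx : j ∈ FxR (cw F α) ⊤
  id : j * j = j
  nz : j ∉ BKR (cw F α) ⊤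
  loc : ∀ x ∈ FxR (cw F α) ⊤, IsNilpotent (j * x * j) ∨ ∃ y ∈ FxR (cw F α) ⊤,
    j * x * j * (j * y * j) = j ∧ j * y * j * (j * x * j) = j

/-- `j` and `j'` are equivalent idempotents of the centraliser of `V` -/
def Eqi (α : V →* A) (j j' : A) : Prop :=
  ∃ p ∈ FxR (cw F α) ⊤, ∃ q ∈ FxR (cw F α) ⊤, j * p = p ∧ p * j' = p ∧ j' * q = q ∧ q * j = q ∧
    p * q = j ∧ q * p = j'

/-- a primitive central idempotent: every element of `Z(A) b` is nilpotent or a unit of `Z(A) b` -/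
structure Pci (b : A) : Prop where
  cen : ∀ a, b * a = a * b
  id : b * b = b
  nz : b ≠ 0
  loc : ∀ z, (∀ a, z * a = a * z) → IsNilpotent (z * b) ∨
    ∃ z', (∀ a, z' * a = a * z') ∧ z * b * z' = b

/-- the central elements `z` with `z b = z` -/
def zb (b : A) : Submodule F A where
  carrier := {z | (∀ a, z * a = a * z) ∧ z * b = z}
  add_mem' := by
    rintro x y ⟨h1, h2⟩ ⟨h3, h4⟩
    refine ⟨fun a => ?_, ?_⟩
    · rw [add_mul, mul_add, h1, h3]
    · rw [add_mul, h2, h4]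
  zero_mem' := ⟨fun a => by rw [zero_mul, mul_zero], zero_mul b⟩
  smul_mem' := by
    rintro c x ⟨h1, h2⟩
    refine ⟨fun a => ?_, ?_⟩
    · rw [smul_mul_assoc, h1, mul_smul_comm]
    · rw [smul_mul_assoc, h2]

/-- `Y` is the corner `j A j`, with the inclusion `κ` and the homomorphism `v ↦ v j` -/
structure CorV (α : V →* A) (j : A) (αY : V →* Y) (κ : Y →ₗ[F] A) : Prop where
  inj : Function.Injective κ
  mul : ∀ a b, κ (a * b) = κ a * κ b
  one : κ 1 = j
  ran : ∀ a, j * a = a → a * j = a → ∃ b, κ b = a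
  cov : ∀ v, κ (αY v) = α v * j

variable {F} in
theorem CorV.cnr {α : V →* A} {j : A} {αY : V →* Y} {κ : Y →ₗ[F] A} (h : CorV F α j αY κ) :
    Cnr j κ := ⟨h.inj, h.mul, h.one, h.ran⟩

/-- the automorphisms in `φ(E)` which are realised by units of `Y` -/
def Ej (φ : E →* MulAut V) (αY : V →* Y) : Subgroup (MulAut V) where
  carrier := {s | s ∈ φ.range ∧
    ∃ y y' : Y, y * y' = 1 ∧ y' * y = 1 ∧ ∀ u, y * αY u = αY (s u) * y}
  one_mem' := ⟨φ.range.one_mem, 1, 1, mul_one 1, mul_one 1, fun u => by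
    rw [one_mul, mul_one, MulAut.one_apply]⟩
  mul_mem' := by
    rintro s t ⟨hs, y, y', h1, h2, h3⟩ ⟨ht, z, z', h4, h5, h6⟩
    refine ⟨φ.range.mul_mem hs ht, y * z, z' * y', ?_, ?_, ?_⟩
    · rw [mul_assoc, ← mul_assoc z, h4, one_mul, h1]
    · rw [mul_assoc, ← mul_assoc y', h2, one_mul, h5]
    · intro u
      rw [mul_assoc, h6, ← mul_assoc, h3, mul_assoc, MulAut.mul_apply]
  inv_mem' := by
    rintro s ⟨hs, y, y', h1, h2, h3⟩
    refine ⟨φ.range.inv_mem hs, y', y, h2, h1, ?_⟩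
    intro u
    have h4 : y * αY (s⁻¹ u) = αY u * y := by
      rw [h3, MulAut.apply_inv_self]
    calc y' * αY u = y' * (αY u * y) * y' := by rw [mul_assoc, mul_assoc, h1, mul_one]
      _ = y' * (y * αY (s⁻¹ u)) * y' := by rw [h4]
      _ = αY (s⁻¹ u) * y' := by rw [← mul_assoc, h2, one_mul]

/-- The class of local algebras: `A(V) = F V`, the centraliser of `V` is local, and
`lam (∑ v) ≠ 0`. -/
structure Lc [Fintype V] (φ : E →* MulAut V) (α : V →* A) : Prop where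
  fin : FiniteDimensional F A
  per : Per F φ α
  uni : Uni φ α
  frm : ∃ (lam : A →ₗ[F] F) (K : Type) (_ : Fintype K) (x y : K → A), RF F α lam x y ∧
    lam (∑ v, α v) ≠ 0
  loc : IsLocalRing (Cz F α ⊤)
  spn : ∀ a ∈ FxR (cw F α) ⊤, ∃ c : V → F, a - ∑ u, c u • α u ∈ BKR (cw F α) ⊤

/-- `A / J(A)` is a matrix algebra of size prime to the characteristic -/
def Mxl (F A : Type) [Field F] [Ring A] [Algebra F A] : Prop :=
  ∃ (n : ℕ) (π : A →ₐ[F] Matrix (Fin n) (Fin n) F), 0 < n ∧ Function.Surjective π ∧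
    (∀ a, π a = 0 → IsNilpotent a) ∧ (n : F) ≠ 0

/-- `A'` is the quotient of `A` by the ideal generated by the `q - 1`, `q ∈ Q`, where `Q` is central in
`A` -/
structure Qa {A' : Type} [Ring A'] [Algebra F A'] (α : V →* A) (Q : Subgroup V) [Fintype Q]
    (α' : V ⧸ Q →* A') (p : A →ₐ[F] A') : Prop where
  cen : ∀ q ∈ Q, ∀ a, α q * a = a * α q
  sur : Function.Surjective p
  ker : ∀ a, p a = 0 ↔ (∑ q : Q, α q) * a = 0
  cov : ∀ v : V, p (α v) = α' (v : V ⧸ Q)

end defs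

/-! ## 1. General algebra -/

/-- FIT: an idempotent which is not local splits.

Proof.  `w = j x j`.  Let `X ^ n * q` with `n ≥ 1`, `q 0 ≠ 0`, be a polynomial which vanishes at `w`,
`s * X ^ n + r * q = 1`, `j1 = s(w) w ^ n` (a polynomial in `w` without constant term, so `j j1 = j1 = j1 j`,
`j1 ∈ S`).  `j1 - j1 * j1 = s(w) r(w) w ^ n q(w) = 0`, `w ^ n - w ^ n * j1 = r(w) w ^ n q(w) = 0`: if `j1 = 0` then
`w` is nilpotent.  If `j1 = j` then `w * y' = j = y' * w` with `y' = s(w) w ^ (n-1)`, and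
`y = y'`, `w (j y' j) = w y' j = j` (`w = w j = j w`; `y'` commutes with `w`). -/
def FitStmt : Prop := ∀ (F A : Type) [Field F] [Ring A] [Algebra F A] [FiniteDimensional F A]
  (S : Subalgebra F A) (j x : A), j ∈ S → x ∈ S → j * j = j → ¬ IsNilpotent (j * x * j) →
  (¬ ∃ y ∈ S, j * x * j * (j * y * j) = j ∧ j * y * j * (j * x * j) = j) →
  ∃ j1 ∈ S, j1 * j1 = j1 ∧ j * j1 = j1 ∧ j1 * j = j1 ∧ j1 ≠ 0 ∧ j1 ≠ j

/-- PCX: decomposition of `1` into primitive central idempotents.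

Proof.  Claim for every central idempotent `f`, by strong induction on `finrank (zb F f)`: there is a
finite orthogonal family of `Pci`'s with the sum `f`.  `f = 0`: the empty family.  `f ≠ 0` not `Pci`: FIT for
`S = center`, `j = f`: `f = j1 + (f - j1)`, both nonzero central idempotents, and `zb j1`, `zb (f - j1)` are
proper subspaces of `zb f`.  The elements of the families below `j1` and below `f - j1` are orthogonal. -/
def PcxStmt : Prop := ∀ (F A : Type) [Field F] [Ring A] [Algebra F A] [FiniteDimensional F A],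
  ∃ (n : ℕ) (b : Fin n → A), (∀ i, Pci (b i)) ∧ (∀ i k, i ≠ k → b i * b k = 0) ∧ ∑ i, b i = 1

/-- ZSM: the centre is the direct sum of its parts.

Proof.  `z ↦ (z b_i)_i` is a linear bijection of the centre onto the product of the `zb F (b i)`, the
inverse is the sum. -/
def ZsmStmt : Prop := ∀ (F A : Type) [Field F] [Ring A] [Algebra F A] [FiniteDimensional F A]
  (n : ℕ) (b : Fin n → A), (∀ i a, b i * a = a * b i) → (∀ i, b i * b i = b i) →
  (∀ i k, i ≠ k → b i * b k = 0) → ∑ i, b i = 1 →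
  Module.finrank F (Subalgebra.center F A) = ∑ i, Module.finrank F (zb F (b i))

/-- ZCF: the centre of a corner which is full in the part `A b` (see `ZcnStmt`, `Helper76_PFC/ZCN.lean`).

Proof.  `b = ∑_k s_k j t_k`; replace `s_k` by `b s_k`.  `z ↦ κ⁻¹ (z j)` from `zb F b` to the centre of `Y`:
injective: if `z j = 0` then `z = z b = ∑ z s_k j t_k = ∑ s_k (z j) t_k = 0`.  Surjective: `c` in the centre of `Y`,
`c' = κ c`, `z = ∑_k s_k c' t_k`.  `c'` commutes with all `j x j`.  `x z = x b z = ∑_(k,l) s_l j t_l x s_k c' t_k =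
∑ s_l (j t_l x s_k j) c' t_k = ∑ s_l c' (j t_l x s_k j) t_k = ∑_l s_l c' t_l x b = z x b = z b x`, and with `x = 1`:
`z = z b`; so `x z = z x`.  `z j = j z j = ∑ (j s_k j) c' t_k j = c' ∑ j s_k j t_k j = c' (j b j) = c'`. -/
def ZcfStmt : Prop := ∀ (F A Y : Type) [Field F] [Ring A] [Algebra F A] [Ring Y] [Algebra F Y]
  (b j : A) (κ : Y →ₗ[F] A), Cnr j κ → (∀ a, b * a = a * b) → b * b = b → b * j = j →
  b ∈ Submodule.span F {x : A | ∃ s t : A, x = s * j * t} →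
  Module.finrank F (zb F b) = Module.finrank F (Subalgebra.center F Y)

/-- COE: existence of the corner (see `QceStmt`, `PFC/B4/QCE.lean`). -/
def CoeStmt : Prop := ∀ (F V A : Type) [Field F] [CommGroup V] [Ring A] [Algebra F A]
  (α : V →* A) (j : A), j * j = j → (∀ v, α v * j = j * α v) →
  ∃ (Y : Type) (_ : Ring Y) (_ : Algebra F Y) (αY : V →* Y) (κ : Y →ₗ[F] A), CorV F α j αY κ

/-- NAK: Nakayama's lemma for an `ℓ`-group in characteristic `ℓ`.

Proof.  `I k` = the span of the `(ρ v_1 - 1) ... (ρ v_k - 1) d`, `d ∈ D`.  By induction on `k`: for `m ∈ D` there is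
`m' ∈ D'` with `m - m' ∈ I k` (replace `d` by `d' + ∑ (ρ v - 1) d_v`; `D'` is stable).  `|V| = ℓ ^ a`; the operators
`ρ v - 1` commute, and `(ρ v - 1) ^ (ℓ ^ a) = ρ (v ^ (ℓ ^ a)) - 1 = 0`, so a product of `ℓ ^ a * ℓ ^ a` of them
is zero (one `v` occurs `ℓ ^ a` times). -/
def NakStmt : Prop := ∀ (ℓ : ℕ) [Fact ℓ.Prime] (F V M : Type) [Field F] [CharP F ℓ]
  [CommGroup V] [Finite V] [AddCommGroup M] [Module F M] (ρ : V →* (M →ₗ[F] M))
  (D D' : Submodule F M), IsPGroup ℓ V → (∀ v, ∀ m ∈ D, ρ v m ∈ D) →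
  (∀ v, ∀ m ∈ D', ρ v m ∈ D') →
  (∀ m ∈ D, ∃ m' ∈ D', m - m' ∈ Submodule.span F {x : M | ∃ v, ∃ d ∈ D, x = ρ v d - d}) →
  D ≤ D'

/-- MDV: all composition factors of `L` are the simple module of dimension `n`.

Proof.  Lift the idempotents `E_ii` to orthogonal idempotents `e_i` of `A` with the sum `1`
(`CompleteOrthogonalIdempotents.lift_of_isNilpotent_ker` or similar), lift `E_ij` to `u_ij ∈ e_i A e_j`;
`u_ij u_ji - e_i` is in the kernel of `π`, so nilpotent, and `u_ij u_ji` is a unit of `e_i A e_i`: so `l ↦ u_ji l` is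
injective from `e_i L` to `e_j L`: all `e_i L` have the same dimension, and `L = ⊕ e_i L`.
(Or by induction on `dim L`.  `n = 0`: `π 1 = 0`, so `1` is nilpotent and `A = 0`.) -/
def MdvStmt : Prop := ∀ (F A : Type) [Field F] [Ring A] [Algebra F A] [FiniteDimensional F A]
  (n : ℕ) (π : A →ₐ[F] Matrix (Fin n) (Fin n) F), Function.Surjective π →
  (∀ a, π a = 0 → IsNilpotent a) → ∀ L : Submodule F A, (∀ a, ∀ l ∈ L, a * l ∈ L) →
  n ∣ Module.finrank F L

/-- RYN: a symmetric algebra has only one simple module if the annihilator of the nilpotent central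
elements in the centre has dimension at most `1`.

Proof.  `A/J(A)` is a product of matrix algebras over `F` (Wedderburn, `F` algebraically closed;
`IsSemisimpleRing.exists_algEquiv_pi_matrix_of_isAlgClosed`).  If there are two different factors, let `π`, `π'` be
the projections of `A` onto them.  By nondegeneracy there are `z`, `z'` with `lam (z a) = tr (π a)`,
`lam (z' a) = tr (π' a)` for all `a`; they are central (`lam (z a b) = tr (π (a b)) = lam (z b a) = lam (a z b)`).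
For a nilpotent central `n`: `lam (n z a) = lam (z n a) = tr (π (n a)) = 0` as `n a` is nilpotent, so `n z = 0`, and
`n z' = 0`.  `s z + t z' = 0` gives `s tr π + t tr π' = 0`, and there is `a` with `tr (π a) = 1`, `π' a = 0` and
vice versa: `s = t = 0`, contradiction.  So `A/J(A)` is one matrix algebra (`A ≠ 0`), `J(A)` is nilpotent. -/
def RynStmt : Prop := ∀ (F A : Type) [Field F] [IsAlgClosed F] [Ring A] [Nontrivial A]
  [Algebra F A] [FiniteDimensional F A] (lam : A →ₗ[F] F), (∀ a b, lam (a * b) = lam (b * a)) →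
  (∀ a, (∀ b, lam (a * b) = 0) → a = 0) →
  (∀ z z' : A, (∀ a, z * a = a * z) → (∀ a, z' * a = a * z') →
    (∀ n, (∀ a, n * a = a * n) → IsNilpotent n → n * z = 0 ∧ n * z' = 0) →
    ∃ s t : F, (s ≠ 0 ∨ t ≠ 0) ∧ s • z + t • z' = 0) →
  ∃ (n : ℕ) (π : A →ₐ[F] Matrix (Fin n) (Fin n) F), 0 < n ∧ Function.Surjective π ∧
    ∀ a, π a = 0 → IsNilpotent a

/-! ## 2. Local idempotents -/

/-- LEQ: two local idempotents are equivalent, or the products are nilpotent.

Proof.  If `j p j' q j = j (p j' q) j` is not nilpotent, there is `y` with `j p j' q j (j y j) = j = (j y j) j p j' q j`.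
`P = j p j'`, `Q = j' q j y j`: `P Q = j`, `Q P` is an idempotent of `j' C j'`, so `j' (Q P) j' = Q P` is nilpotent, and
then `Q P = 0`, `j = P (Q P) Q = 0 ∈ K`, a contradiction, or `Q P` is a unit of `j' C j'`, and then `Q P = j'`. -/
def LeqStmt : Prop := ∀ (F V A : Type) [Field F] [CommGroup V] [Ring A] [Algebra F A]
  (α : V →* A) (j j' : A), Loi F α j → Loi F α j' → ∀ p ∈ FxR (cw F α) ⊤,
  ∀ q ∈ FxR (cw F α) ⊤, IsNilpotent (j * p * j' * q * j) ∨ Eqi F α j j'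

/-- LSU: in a sum which is `j` modulo the Brauer kernel there is a summand which is not nilpotent.

Proof.  `D = j C j`, every element of `D` is nilpotent or a unit, `j ≠ 0`.  (1) If `x, y ∈ D` are nilpotent then
`x + y` is nilpotent: otherwise there is `t ∈ D` with `(x + y) t = j`; `x t` is not a unit (`x t s = j` with
`x ^ m = 0`, `m` minimal, gives `x ^ (m-1) = x ^ (m-1) j = x ^ m t s = 0`), so it is nilpotent, and
`y t = j - x t` is a unit (geometric series), a contradiction as for `x`.  (2) An element of `D ∩ K` is not a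
unit (`K` is an ideal of `C` and `j ∉ K`: `S0.BkiStmt`), so it is nilpotent.  (3) `j` is not nilpotent. -/
def LsuStmt : Prop := ∀ (F V A ι : Type) [Field F] [CommGroup V] [Ring A] [Algebra F A]
  [Fintype ι] (α : V →* A) (j : A) (x : ι → A), Loi F α j → (∀ i, x i ∈ FxR (cw F α) ⊤) →
  j - ∑ i, j * x i * j ∈ BKR (cw F α) ⊤ → ∃ i, ¬ IsNilpotent (j * x i * j)

/-- LCN: conjugation of local idempotents.

Proof.  `x ↦ y x y'` is a bijection of `C` onto itself and of `K` onto itself (traces from `P < ⊤` go to traces from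
`φ e P`). -/
def LcnStmt : Prop := ∀ (F V A : Type) [Field F] [CommGroup V] [Ring A] [Algebra F A]
  (α : V →* A) (s : MulAut V) (j y y' : A), Loi F α j → y * y' = 1 → y' * y = 1 →
  (∀ u, y * α u = α (s u) * y) → Loi F α (y * j * y')

/-- LBR: local idempotents in the Brauer quotients.

Proof.  `S0.BbkStmt` with `P = ⊤`: the elements of `B` which commute with `V` are the `β a`, `a ∈ C`, and
`β a ∈ BKR (cw F αB) ⊤` iff `a ∈ BKR (cw F α) ⊤`; `β` is multiplicative on `C`.  (1) is clear.  (2) Let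
`p q` be as in `Eqi F αB (β j) (β j')`, `p = β p₁`, `q = β q₁`: `β (j p₁ j' q₁ j) = p q = β j`, so `j p₁ j' q₁ j` is
not nilpotent (`β j` is an idempotent, not `0` by (1)), LEQ. -/
def LbrStmt : Prop := ∀ (ℓ : ℕ) [Fact ℓ.Prime] (F V E A B K : Type) [Field F] [CharP F ℓ]
  [CommGroup V] [Fintype V] [Group E] [Ring A] [Algebra F A] [Ring B] [Algebra F B] [Fintype K]
  (φ : E →* MulAut V) (α : V →* A) (Q : Subgroup V) (αB : V →* B) (β : A → B) (lam : A →ₗ[F] F)
  (x y : K → A), IsPGroup ℓ V → Per F φ α → RF F α lam x y → IsBQ F α Q αB β →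
  (∀ j, Loi F α j → Loi F αB (β j)) ∧
  ∀ j j', Loi F α j → Loi F α j' → Eqi F αB (β j) (β j') → Eqi F α j j'

/-! ## 3. The blocks of an algebra in the class -/

/-- RTN: the Brauer map of a relative trace is in the ideal generated by the Brauer map of `z`.

Proof.  DFR, DRF: a dual frame `b, d` over `Ω`; RFU: `rt z = ∑_(k : Qt Ω) b k.rep * z * d k.rep`.  QOR for `Q = W`:
modulo `BKR (cw F α) W` (= `BKR (bw F α) (twW W 1)`: `BKR_range`, `BKR_tw` of `Nwe.lean`, killed by `β 1`) it is the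
sum over the orbits `k` fixed by `W × 1`.  For such a `k` let `tw (φ e) S` be the stabiliser of `k.rep`: for
`w ∈ W` there is `v` with `(w, v) k.rep = k.rep` (`qmk_eq`), so `w = φ e v`, `v ∈ S`; as `W` is `E`-stable,
`v = φ e⁻¹ w` runs over `W`, and `(φ e w, w)` fixes `k.rep` for all `w ∈ W`.  `ε` = the restriction of `φ e` to `W`
(`H79.rsE` in `Helper79_PSS/NFP.lean`): `b k.rep` is fixed by `twW W ε`, `d k.rep` by `twW W ε⁻¹` (`DFr.eb`, `DFr.ed`), so
`β 1 (b z d) = β ε b * β 1 z * β ε⁻¹ d`. -/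
def RtnStmt : Prop := ∀ (ℓ : ℕ) [Fact ℓ.Prime] (F V E A B K : Type) [Field F] [CharP F ℓ]
  [CommGroup V] [Fintype V] [Group E] [Ring A] [Algebra F A] [Ring B] [Algebra F B] [Fintype K]
  (φ : E →* MulAut V) (α : V →* A) (lam : A →ₗ[F] F) (x y : K → A) (W : Subgroup V)
  (N : IsNW F α W B), IsPGroup ℓ V → (∀ e : E, ∀ w ∈ W, φ e w ∈ W) → Per F φ α →
  RF F α lam x y → ∀ z ∈ FxR (cw F α) ⊤,
  N.β 1 (∑ k, x k * z * y k) ∈
    Submodule.span F {w : B | ∃ s t : B, w = s * N.β 1 z * t}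

/-- RBK: the relative trace preserves the Brauer kernel of `V`.

Proof.  RTN for `W = ⊤` (`nwe`: existence of `N_V(A)`): `β 1 z = 0` (`ker`), so `β 1 (rt z) = 0`.  (Or: `S0.MckStmt` for
`Q = ⊤`.) -/
def RbkStmt : Prop := ∀ (ℓ : ℕ) [Fact ℓ.Prime] (F V E A K : Type) [Field F] [CharP F ℓ]
  [CommGroup V] [Fintype V] [Group E] [Ring A] [Algebra F A] [Fintype K]
  (φ : E →* MulAut V) (α : V →* A) (lam : A →ₗ[F] F) (x y : K → A), IsPGroup ℓ V →
  Per F φ α → RF F α lam x y → ∀ z ∈ BKR (cw F α) ⊤, ∑ k, x k * z * y k ∈ BKR (cw F α) ⊤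

/-- BPT: every block contains a local idempotent `j` with `b = rt (j c j)`.

Proof.  `ζ = rt 1` is central and `u ζ = 1`, so `u` is central; `rt (u b) = u b ζ = b`.  Among the idempotents
`j ∈ C` with `b j = j` and `rt (z j) = b` for some central `z` (for example `j = b`) choose `j` with
`finrank {x ∈ C : j x j = x}` minimal.  `c = z`: `j c j = z j`.  `Loi`: (`nz`) if `j ∈ K` then `z j ∈ K`, `b = rt (z j) ∈ K`
(RBK), and `Cl.blk` for `Q = ⊥` gives `b ∈ BKR (cw F α) ⊥ = ⊥`, but `b ≠ 0`.  (`loc`) otherwise FIT (`S = C` as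
a subalgebra, `Cz F α ⊤`): `j = j1 + j2` with nonzero orthogonal idempotents of `C`; `z_i = rt (z j_i)` is central,
`z_i b = z_i`, `z_1 + z_2 = b`.  If `z_1` is nilpotent then `z_2 = b - z_1` is a unit of `Z(A) b` (geometric series),
otherwise `z_1` is a unit (`Pci.loc`): so there are `i` and a central `z'` with `z_i z' = b`, `rt (z' z j_i) = b`,
and `j_i C j_i` is smaller than `j C j`. -/
def BptStmt : Prop := ∀ (ℓ : ℕ) [Fact ℓ.Prime] (F V E A K : Type) [Field F] [CharP F ℓ]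
  [CommGroup V] [Fintype V] [Group E] [Ring A] [Algebra F A] [Fintype K]
  (φ : E →* MulAut V) (α : V →* A) (lam : A →ₗ[F] F) (x y : K → A) (u : A), IsPGroup ℓ V →
  Cl F φ α → RF F α lam x y → u * ∑ k, x k * y k = 1 → ∀ b : A, Pci b →
  ∃ j c : A, Loi F α j ∧ b * j = j ∧ c ∈ FxR (cw F α) ⊤ ∧ ∑ k, x k * (j * c * j) * y k = b

/-- BOR: the local idempotents of a block are conjugate under `E`.

Proof.  Units `n e`, `n' e` for all `e`.  `j₀`, `c`, `b = rt (j₀ c j₀)` from BPT.  (1) Let `j'` be as in the statement.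
`B = A(V)` (`S0.BqxStmt`, `S0.BpuStmt`), `T` a set of representatives for the `φ e`.  `S0.MckStmt` for `Q = ⊤`:
`β b = ∑_(t ∈ T) ∑_k x'_k β (n_t j₀ c j₀ n'_t) y'_k`, `x'_k = β p_k`, `y'_k = β q_k` with `p_k, q_k ∈ C`.  With
`j_t = n_t j₀ n'_t`, `c_t = n_t c n'_t`: `j' - ∑_(t, k) j' p_k j_t c_t j_t q_k j' ∈ K` (`β (j' b j') = β j'`, `ker`).
LSU: some `j' p_k j_t c_t j_t q_k j'` is not nilpotent, LEQ (`Loi` of `j_t`: LCN): `Eqi j' j_t`.  (2) (1) for `j` and
for `j'`: `j ~ j_s`, `j' ~ j_t`, `s, t ∈ T`.  `e = t s⁻¹`, `y` a unit for `e`: `y j y' ~ y j_s y'` (conjugate the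
`p, q`), and `w = y n_s n'_t` is a unit of `C` with inverse `w' = n_t n'_s y'`, `y j_s y' = w j_t w'`, which is
equivalent to `j_t` (`p = w j_t`, `q = j_t w'`).  `Eqi` is transitive and symmetric. -/
def BorStmt : Prop := ∀ (ℓ : ℕ) [Fact ℓ.Prime] (F V E A : Type) [Field F] [CharP F ℓ]
  [CommGroup V] [Fintype V] [Group E] [Finite E] [Ring A] [Algebra F A]
  (φ : E →* MulAut V) (α : V →* A), IsPGroup ℓ V → Cl F φ α → ∀ b j j' : A, Pci b →
  Loi F α j → Loi F α j' → b * j = j → b * j' = j' →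
  ∃ e : E, ∀ y y' : A, y * y' = 1 → y' * y = 1 → (∀ u, y * α u = α (φ e u) * y) →
    Eqi F α (y * j * y') j'

/-- STB: the twisted Brauer quotients of the corner.

Proof.  There is `y₀ ∈ Y`, fixed by `tw (φ e) S`, not in `BKR`; `a = κ y₀ = j a j`, `(φ e s) a = a s` for `s ∈ S`.
`R = φ e (S)`, `y, y'` a unit for `e`.  `a y'` commutes with `R`, and `a y' ∉ BKR (cw F α) R` (otherwise
`a = (a y') y ∈ BKR (bw F α) (tw (φ e) S)`, and `y₀ = κ⁻¹ (j a j) ∈ BKR (bw F αY) (tw (φ e) S)`: the traces go to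
traces).  `B = A(R)` (`S0.BqxStmt`), `j₂ = y j y'`: `β j * β (a y') * β j₂ = β (a y') ≠ 0`.  `S0.BclStmt`: `B` is in the
class for `E₁ = {g | φ g r = r for r ∈ R}`.  PCX: a block `b` of `B` with `b β j ≠ 0`; `b β j` is an idempotent of
`(β j) B^V (β j)`, so `b β j = β j` (LBR: `Loi F αB (β j)`; a nilpotent idempotent is `0`, an invertible one is
`β j`); `b β j₂ ≠ 0` because `β j β (a y') b β j₂ = b β j β (a y') β j₂ ≠ 0`, so `b β j₂ = β j₂` (LCN: `Loi F α j₂`).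
BOR: `g ∈ E₁` with `Eqi F αB (β n * β j * β n') (β j₂)`, `n, n'` units of `A` for `g` (they commute with `R`).
LBR: `Eqi F α (n j n') j₂`, with `p, q`.  `z = n' p y`, `z' = y' q n`: `j z = z = z j`, `z z' = j = z' z`,
`z v = (φ (g⁻¹ e) v) z`; so `σ = φ (g⁻¹ e)` is in `Ej φ αY` (`κ⁻¹ z`, `κ⁻¹ z'`), and
`σ s = φ g⁻¹ (φ e s) = φ e s` for `s ∈ S` as `φ e s ∈ R`. -/
def StbStmt : Prop := ∀ (ℓ : ℕ) [Fact ℓ.Prime] (F V E A Y : Type) [Field F] [CharP F ℓ]
  [CommGroup V] [Fintype V] [Group E] [Finite E] [Ring A] [Algebra F A] [Ring Y] [Algebra F Y]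
  (φ : E →* MulAut V) (α : V →* A) (j : A) (αY : V →* Y) (κ : Y →ₗ[F] A), IsPGroup ℓ V →
  ¬ ℓ ∣ Nat.card E → Cl F φ α → Loi F α j → CorV F α j αY κ → ∀ (e : E) (S : Subgroup V),
  ¬ FxR (bw F αY) (tw (φ e).toMonoidHom S) ≤ BKR (bw F αY) (tw (φ e).toMonoidHom S) →
  ∃ σ ∈ Ej φ αY, ∀ s ∈ S, σ s = φ e s

/-! ## 4. The Brauer quotient of `V` -/

/-- SGN: an element all whose multiples are nilpotent is killed by the sum of the elements of the
central group `V`.

Proof.  `σ = ∑ v`, `ζ = ∑ x y`; `ζ` is central (`S0.ZrtStmt`), `u ζ = 1`.  For `m ∈ B`: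
`lam (σ ζ n m) = ∑_k lam (y_k (n m) σ x_k)` (`sym`).  This is the trace of the linear map `f : s ↦ n m s` of the
subspace `S = σ B` (`σ` is central): for `s ∈ S`, `v s = s`, so by `e1` `s = ∑_k lam (y_k s) • (x_k σ)`
(`lam (v⁻¹ y_k s) = lam (y_k s)`, as `v` is central), and `x_k σ ∈ S`; so the trace of `f` is
`∑_k lam (y_k f (x_k σ))`.  `n m` is nilpotent, so `f` is nilpotent and its trace is `0`.  `lam` is nondegenerate
(`e2`), so `σ ζ n = 0` and `σ n = u ζ σ n = 0`. -/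
def SgnStmt : Prop := ∀ (F V B K : Type) [Field F] [CommGroup V] [Fintype V] [Ring B]
  [Algebra F B] [FiniteDimensional F B] [Fintype K] (α : V →* B) (lam : B →ₗ[F] F)
  (x y : K → B) (u n : B), (∀ v b, α v * b = b * α v) → RF F α lam x y →
  u * ∑ k, x k * y k = 1 → (∀ m, IsNilpotent (n * m)) → (∑ v, α v) * n = 0

/-- TPL: a local corner of a relatively separable algebra over the central group algebra `F V` is
`F V`.

Proof.  `σ = ∑ v`, `D = j B j`, `j ∈ D`.
(1) Let `n ∈ D` be nilpotent.  Then `n m` is nilpotent for all `m ∈ B`: `(n m) ^ (k+1) = n (j m j n) ^ k m` (`n = n j = j n`),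
and `j m j n ∈ D` is not a unit of `D` (`n` would have a left inverse `t` in `D`, `t ^ k n ^ k = j`, but `n ^ k = 0`,
`j ≠ 0`), so it is nilpotent.
(2) So `σ n = 0` by SGN.
(3) For `d ∈ D` there is `t ∈ F` with `d - t j` nilpotent (`F` algebraically closed: `t` an eigenvalue of the left
multiplication by `d` on `D`; then `d - t j` is not a unit of `D`).
(4) `h(d) = ∑_k lam (y_k d) • (j x_k j)`: for `d ∈ D`: `d = j d j = ∑_v v h (v⁻¹ d)` (`e1`).  So if `σ d = 0` then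
`d = ∑_v (v - 1) h (v⁻¹ d) + h (σ d) = ∑_v (v - 1) h (v⁻¹ d)`.
(5) NAK for `D`, `D' = ` the span of the `v j` (`ρ v` = the multiplication by `v`): `D = D'` by (2), (3), (4).
(6) `σ j ≠ 0`: otherwise `σ D = 0` and NAK with `D' = ⊥` gives `D = 0`.  If `lam (σ j) = 0`, then
`lam (σ j m) = lam (σ (j m j)) = 0` for all `m ∈ B`, because `j m j = t j + n` and `σ n = 0`; so `σ j = 0`, a
contradiction. -/
def TplStmt : Prop := ∀ (ℓ : ℕ) [Fact ℓ.Prime] (F V B K : Type) [Field F] [IsAlgClosed F]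
  [CharP F ℓ] [CommGroup V] [Fintype V] [Ring B] [Algebra F B] [FiniteDimensional F B]
  [Fintype K] (α : V →* B) (lam : B →ₗ[F] F) (x y : K → B) (u j : B), IsPGroup ℓ V →
  (∀ v b, α v * b = b * α v) → RF F α lam x y → u * ∑ k, x k * y k = 1 → j * j = j → j ≠ 0 →
  (∀ a, IsNilpotent (j * a * j) ∨
    ∃ a', j * a * j * (j * a' * j) = j ∧ j * a' * j * (j * a * j) = j) →
  (∀ a, ∃ c : V → F, j * a * j = ∑ v, c v • (α v * j)) ∧ lam ((∑ v, α v) * j) ≠ 0

/-- TPJ: the Brauer quotient of the corner, and the form.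

Proof.  `B = A(V)` (`S0.BqxStmt`), `V` is central in `B` (every element of `B` is `β a`, `a ∈ C`).
`S0.BpuStmt`: `RF F αB lamB xB yB` with `lamB (β a) = lam a`.  `S0.MckStmt` for `Q = ⊤`, `a = 1`: `β ζ = |T| ζ_B`,
`|T| = |φ(E)|` divides `|E|`, so it is not zero in `F`, and `β (u) * β ζ = 1` (`u ∈ C`: it is central).  So
`u_B ζ_B = 1`, `u_B = |T| β u`.  TPL for `β j` (LBR, or directly: `Loi` and `β` is surjective from `C`).
`β (j a j) = ∑ c_v β v β j` and `ker`; `lamB (σ_B β j) = lam (σ j)`. -/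
def TpjStmt : Prop := ∀ (ℓ : ℕ) [Fact ℓ.Prime] (F V E A K : Type) [Field F] [IsAlgClosed F]
  [CharP F ℓ] [CommGroup V] [Fintype V] [Group E] [Finite E] [Ring A] [Algebra F A] [Fintype K]
  (φ : E →* MulAut V) (α : V →* A) (lam : A →ₗ[F] F) (x y : K → A) (u j : A), IsPGroup ℓ V →
  ¬ ℓ ∣ Nat.card E → Cl F φ α → RF F α lam x y → u * ∑ k, x k * y k = 1 → Loi F α j →
  (∀ a ∈ FxR (cw F α) ⊤, ∃ c : V → F,
    j * a * j - ∑ v, c v • (α v * j) ∈ BKR (cw F α) ⊤) ∧ lam ((∑ v, α v) * j) ≠ 0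

/-! ## 5. The corner -/

/-- RFJ: the relative Frobenius system of a corner.

Proof.  DFR (a dual frame `b, d`).  `b' ω = κ⁻¹ (j b_ω j)`, `d' ω = κ⁻¹ (j d_ω j)` is a dual frame for
`lam ∘ κ` (`j` commutes with `V`; `sum`: for `a = κ y`, `∑ lam (j d_ω j a) j b_ω j = j (∑ lam (d_ω a) b_ω) j = a`).
DRF. -/
def RfjStmt : Prop := ∀ (F V E A Y K : Type) [Field F] [CommGroup V] [Fintype V] [Group E]
  [Ring A] [Algebra F A] [Ring Y] [Algebra F Y] [Fintype K] (φ : E →* MulAut V) (α : V →* A)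
  (lam : A →ₗ[F] F) (x y : K → A) (j : A) (αY : V →* Y) (κ : Y →ₗ[F] A), Per F φ α →
  RF F α lam x y → j * j = j → j ∈ FxR (cw F α) ⊤ → CorV F α j αY κ →
  ∃ (K' : Type) (_ : Fintype K') (x' y' : K' → Y), RF F αY (lam.comp κ) x' y'

/-- CLJ: the corner is in the class of local algebras.

Proof.  `fin`: `κ` is injective.  `per`: the frame `κ⁻¹ (j b_ω j)`, `c_ω ∘ κ` of `Y` for `V × V`; `PFC.PsxStmt`
(`PFC/B4/Psx_h10.lean`, `psx`; `PS`, `IsFr`, `Fx`, `BK`, `bi` are `FrR`, `FxR`, `BKR`, `bw` up to unfolding):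
a frame whose stabilisers are `tw (φ e) S` with `¬ FxR ≤ BKR`; STB: `tw (φ e) S = tw σ S`, `σ ∈ Ej`.  `uni`:
definition of `Ej`.  `frm`: RFJ, TPJ (`κ (∑ αY v) = σ j`).  `loc`: `κ` maps the centraliser of `V` in `Y` onto
`j C j`; every element is nilpotent or a unit, `Loi.loc`.  `spn`: TPJ; `κ⁻¹ (j x j)` maps
`BKR (cw F α) ⊤` into `BKR (cw F αY) ⊤`. -/
def CljStmt : Prop := ∀ (ℓ : ℕ) [Fact ℓ.Prime] (F V E A Y : Type) [Field F] [IsAlgClosed F]
  [CharP F ℓ] [CommGroup V] [Fintype V] [Group E] [Finite E] [Ring A] [Algebra F A] [Ring Y]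
  [Algebra F Y] (φ : E →* MulAut V) (α : V →* A) (j : A) (αY : V →* Y) (κ : Y →ₗ[F] A),
  IsPGroup ℓ V → ¬ ℓ ∣ Nat.card E → Cl F φ α → Loi F α j → CorV F α j αY κ →
  Lc F (Ej φ αY).subtype αY

/-- CNW: `N_W` of a corner is a corner of `N_W`.

Proof.  `β' ε a = κ'⁻¹ (β 1 j * β ε (κ a) * β 1 j)` (linear).  For `a` fixed by `twW W ε`: `κ a` is fixed by `twW W ε`
(`j` commutes with `V`), and `β ε (κ a) = β ε (j κ(a) j) = β 1 j β ε (κ a) β 1 j`.  `one`, `mul` clear.  `ker`: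
`κ a ∈ BKR (bw F α)` iff `a ∈ BKR (bw F αY)` (apply `κ`, and `κ⁻¹ (j x j)`).  `ind`: apply `κ'`.  `spn`: `κ' b' =
∑ β ε (f ε) = β 1 j (..) β 1 j = ∑ β ε (j f(ε) j)`. -/
def CnwStmt : Prop := ∀ (F V A B Y Y' : Type) [Field F] [CommGroup V] [Fintype V] [Ring A]
  [Algebra F A] [Ring B] [Algebra F B] [Ring Y] [Algebra F Y] [Ring Y'] [Algebra F Y']
  (α : V →* A) (W : Subgroup V) (N : IsNW F α W B) (j : A) (αY : V →* Y) (κ : Y →ₗ[F] A)
  (κ' : Y' →ₗ[F] B), j * j = j → j ∈ FxR (cw F α) ⊤ → CorV F α j αY κ → Cnr (N.β 1 j) κ' →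
  Nonempty (IsNW F αY W Y')

/-- RDL: TOP of the first part: reduction to local algebras.

Proof.  PCX: `b i`.  `β 1 (b i)` are central orthogonal idempotents of `B` with the sum `1` (`mul`, `spn`).  ZSM for `A` and
for `B`.  For every `i`: `j`, `c` from BPT (`u`, `x`, `y` from `Cl.rt`), corners `Y` of `A` at `j` and `Y'` of `B` at
`β 1 j` (COE).  ZCF for `A`: `b = rt (j c j)` is in the span of the `s j t`; ZCF for `B`: RTN,
`β 1 (j c j) = β 1 j β 1 c β 1 j`.  CNW: `Y' = N_W(Y)`.  CLJ: `Y` is in `Lc` for `E' = Ej φ αY ≤ φ.range`. -/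
def RdlStmt : Prop := ∀ (ℓ : ℕ) [Fact ℓ.Prime] (F V E A B : Type) [Field F] [IsAlgClosed F]
  [CharP F ℓ] [CommGroup V] [Fintype V] [Group E] [Finite E] [Ring A] [Algebra F A] [Ring B]
  [Algebra F B] (φ : E →* MulAut V) (α : V →* A) (W : Subgroup V), IsPGroup ℓ V →
  ¬ ℓ ∣ Nat.card E → (∀ e : E, ∀ w ∈ W, φ e w ∈ W) → Cl F φ α → IsNW F α W B →
  (∀ (E' : Subgroup (MulAut V)) (Y Y' : Type) (_ : Ring Y) (_ : Algebra F Y) (_ : Ring Y')
    (_ : Algebra F Y') (αY : V →* Y), E' ≤ φ.range → Lc F E'.subtype αY → IsNW F αY W Y' →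
    Module.finrank F (Subalgebra.center F Y) = Module.finrank F (Subalgebra.center F Y')) →
  Module.finrank F (Subalgebra.center F A) = Module.finrank F (Subalgebra.center F B)

/-! ## 6. The class of local algebras -/

/-- LCQ: the class is stable under Brauer quotients.

Proof.  `S0.BpuStmt`: `per`, `uni`, `frm` (`lamB (∑ αB v) = lam (∑ α v)`).  `fin`: `B` is a quotient of a subspace of `A`.
`S0.BbkStmt` with `P = ⊤`: `β` maps `FxR (cw F α) ⊤` onto `FxR (cw F αB) ⊤`, a homomorphism of rings, and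
`1 ≠ 0` in `B` (`lamB (∑ αB v) ≠ 0`): `loc`.  `spn`: `x = β a`, and `BKR (cw F α) ⊤` goes to `BKR (cw F αB) ⊤`. -/
def LcqStmt : Prop := ∀ (ℓ : ℕ) [Fact ℓ.Prime] (F V E A B : Type) [Field F] [CharP F ℓ]
  [CommGroup V] [Fintype V] [Group E] [Ring A] [Algebra F A] [Ring B] [Algebra F B]
  (φ : E →* MulAut V) (α : V →* A) (Q : Subgroup V) (αB : V →* B) (β : A → B)
  (E1 : Subgroup E), IsPGroup ℓ V → Lc F φ α → IsBQ F α Q αB β →
  (∀ e, e ∈ E1 ↔ ∀ q ∈ Q, φ e q = q) → Lc F (φ.comp E1.subtype) αB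

/-- LNP: `N_W(A)`: frame, units and form.

Proof.  `Per`, `Uni`: NFP.  `RF`: DFR, NFD (`lam' (β 1 a) = lam a`), DRF.  `lam' (∑ nwh v) = lam' (β 1 (∑ α v))`.
Finite-dimensional: `spn`, `A` is finite-dimensional and `MulAut W` is finite. -/
def LnpStmt : Prop := ∀ (ℓ : ℕ) [Fact ℓ.Prime] (F V E A B : Type) [Field F] [CharP F ℓ]
  [CommGroup V] [Fintype V] [Group E] [Ring A] [Algebra F A] [Ring B] [Algebra F B]
  (φ : E →* MulAut V) (α : V →* A) (W : Subgroup V) (N : IsNW F α W B), IsPGroup ℓ V →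
  (∀ e : E, ∀ w ∈ W, φ e w ∈ W) → Lc F φ α →
  FiniteDimensional F B ∧ Per F φ N.nwh ∧ Uni φ N.nwh ∧
  ∃ (lam : B →ₗ[F] F) (K : Type) (_ : Fintype K) (x y : K → B), RF F N.nwh lam x y ∧
    lam (∑ v, N.nwh v) ≠ 0

/-- LNS: `N_W(A)(V) = F V`.

Proof.  The frame of `B` (NFR): index set: pairs `(ε, ω)`, `ω` fixed by `twW W ε`.  FRB (2) for the diagonal of `V`: modulo
the Brauer kernel only the `(ε, ω)` with `ω` fixed by the diagonal contribute; `(w, w)` and `(ε w, w)` fix `ω` for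
`w ∈ W`, so `(ε w w⁻¹, 1)` fixes `ω`, and `ε w = w` (the stabiliser of `ω` is a `tw (φ e) S`): `ε = 1`.  So the
element is `∑ c' β 1 (b ω)`, `b ω ∈ FxR (cw F α) ⊤`, and `Lc.spn`: `b ω` is a combination of the `v` modulo
`BKR (cw F α) ⊤`, and `β 1` maps `BKR (cw F α) ⊤` to `BKR (cw F nwh) ⊤`: a trace from `P < ⊤` to `⊤` of `m`: if
`W ≤ P` it goes to the trace of `β 1 m`; otherwise the trace from `P` to `P ⊔ W` is in `BKR (cw F α) W` (it
is a trace from `P ⊓ W` to `W`, `V` is abelian), so `β 1` of the trace is `0`.  (Or use the coordinates and FRB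
(1).) -/
def LnsStmt : Prop := ∀ (ℓ : ℕ) [Fact ℓ.Prime] (F V E A B : Type) [Field F] [CharP F ℓ]
  [CommGroup V] [Fintype V] [Group E] [Ring A] [Algebra F A] [Ring B] [Algebra F B]
  (φ : E →* MulAut V) (α : V →* A) (W : Subgroup V) (N : IsNW F α W B), IsPGroup ℓ V →
  Lc F φ α → ∀ b ∈ FxR (cw F N.nwh) ⊤, ∃ c : V → F,
    b - ∑ u, c u • N.nwh u ∈ BKR (cw F N.nwh) ⊤

/-- LNT: the elements of degree `1` of `N_W(A)` which commute with `V` lift to elements which commute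
with `V`.

Proof.  Frame `(Ω, b, c)`; `a' = ∑_(ω fixed by twW W 1) c ω a • b ω`, `β 1 a' = β 1 a` (FRB (2)).  For `v ∈ V`:
`β 1 (v a v⁻¹) = v β 1 a v⁻¹ = β 1 a`, so `v a v⁻¹ - a ∈ BKR (bw F α) (twW W 1)`, and by FRB (1)
`c ω a = c ω (v a v⁻¹) = c ((v, v)⁻¹ ω) a` for `ω` fixed by `twW W 1`; so `a'` commutes with `V`. -/
def LntStmt : Prop := ∀ (ℓ : ℕ) [Fact ℓ.Prime] (F V E A B : Type) [Field F] [CharP F ℓ]
  [CommGroup V] [Fintype V] [Group E] [Ring A] [Algebra F A] [Ring B] [Algebra F B]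
  (φ : E →* MulAut V) (α : V →* A) (W : Subgroup V) (N : IsNW F α W B), IsPGroup ℓ V →
  Per F φ α → ∀ a ∈ FxR (bw F α) (twW W (1 : MulAut W)), N.β 1 a ∈ FxR (cw F N.nwh) ⊤ →
  ∃ a' ∈ FxR (cw F α) ⊤, N.β 1 a' = N.β 1 a

/-- LNL: the centraliser of `V` in `N_W(A)` is local.

Proof.  `D` = the centraliser of `V` in `B`.  It is the direct sum of the `D_ε` = the set of the `β ε a` in `D`
(`v β ε a v⁻¹ = β ε (v a v⁻¹)`, `ind`).  `D_1` is the image of `FxR (cw F α) ⊤` (LNT) under a homomorphism of rings, so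
it is a local ring (`1 ≠ 0` in `B`).  Let `I` be the span of the `(w - 1) b`, `w ∈ W`, `b ∈ B` (`w = nwh w`).  As
`β ε a w = (ε w) β ε a` it is a two-sided ideal, and `I ^ N = 0` for large `N`: a product of `N` elements is in the
span of the products `(w_1 - 1) ... (w_N - 1) b`, which are `0` for large `N` (see NAK).  Let `ε ≠ 1`, `d ∈ D_ε`:
`d w = w d` and `d w = (ε w) d`, so `d w' = d` for `w' = w⁻¹ ε w`; choose `w` with `w' ≠ 1`, `Q` the group generated by
`w'`.  RF (LNP) `e1`: `d = ∑_k x_k G(y_k d)`, `G(b) = ∑_v lam (v⁻¹ b) v`; `G(y_k d) w' = G(y_k d w') = G(y_k d)`, so the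
coefficients of `G(y_k d) ∈ F V` are constant on the cosets of `Q`, `G(y_k d) = ∑_(q ∈ Q) q g_k = ∑_q (q - 1) g_k`
(`|Q| = 0` in `F`), and `d ∈ I`.  So every `d ∈ D` is `a + i` with `a ∈ D_1`, `i ∈ I ⊓ D`.  If `a` is a unit of
`D_1` then `d` is a unit (`i` is in a nilpotent ideal), otherwise `1 - a` is a unit and `1 - d` is a unit. -/
def LnlStmt : Prop := ∀ (ℓ : ℕ) [Fact ℓ.Prime] (F V E A B : Type) [Field F] [CharP F ℓ]
  [CommGroup V] [Fintype V] [Group E] [Ring A] [Algebra F A] [Ring B] [Algebra F B]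
  (φ : E →* MulAut V) (α : V →* A) (W : Subgroup V) (N : IsNW F α W B), IsPGroup ℓ V →
  (∀ e : E, ∀ w ∈ W, φ e w ∈ W) → Lc F φ α → IsLocalRing (Cz F N.nwh ⊤)

/-- LNW: the class is stable under `N_W`.  Proof.  LNP, LNS, LNL. -/
def LnwStmt : Prop := ∀ (ℓ : ℕ) [Fact ℓ.Prime] (F V E A B : Type) [Field F] [CharP F ℓ]
  [CommGroup V] [Fintype V] [Group E] [Ring A] [Algebra F A] [Ring B] [Algebra F B]
  (φ : E →* MulAut V) (α : V →* A) (W : Subgroup V) (N : IsNW F α W B), IsPGroup ℓ V →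
  (∀ e : E, ∀ w ∈ W, φ e w ∈ W) → Lc F φ α → Lc F φ N.nwh

/-! ## 7. The quotient by a central subgroup of `V` -/

/-- NQA: existence of the quotient.

Proof.  `σ_Q = ∑_(q ∈ Q) q` is central; `{a : σ_Q a = 0}` is a two-sided ideal, `A'` the quotient ring (`RingCon`, or
`TwoSidedIdeal`), an `F`-algebra; `p q = 1` for `q ∈ Q` as `σ_Q (q - 1) = 0`, so `p ∘ α` factors through `V ⧸ Q`. -/
def NqaStmt : Prop := ∀ (F V A : Type) [Field F] [CommGroup V] [Ring A] [Algebra F A]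
  (α : V →* A) (Q : Subgroup V) [Fintype Q], (∀ q ∈ Q, ∀ a, α q * a = a * α q) →
  ∃ (A' : Type) (_ : Ring A') (_ : Algebra F A') (α' : V ⧸ Q →* A') (p : A →ₐ[F] A'),
    Qa F α Q α' p

/-- NQF: if `Q` is central, there is a frame whose stabilisers are `tw id S`, `Q ≤ S`.

Proof.  Frame `(Ω, b, c)` from `Per` (`E` acts trivially).  The frame restricted to the points fixed by `P = tw id Q`
(`Fp Ω P`, `DefsN.lean`): FRB (2) for `P`: every `a` is fixed by `P`, and `BKR (bw F α) P = 0`, because all elements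
are fixed by all `P' < P` and `|P : P'| = 0` in `F`. -/
def NqfStmt : Prop := ∀ (ℓ : ℕ) [Fact ℓ.Prime] (F V E A : Type) [Field F] [CharP F ℓ]
  [CommGroup V] [Fintype V] [Group E] [Ring A] [Algebra F A] (φ : E →* MulAut V) (α : V →* A)
  (Q : Subgroup V), IsPGroup ℓ V → (∀ e, φ e = 1) → Per F φ α →
  (∀ q ∈ Q, ∀ a, α q * a = a * α q) →
  ∃ (Ω : Type) (_ : Fintype Ω) (_ : MulAction (V × V) Ω) (b : Ω → A) (c : Ω → (A →ₗ[F] F)),
    FrR (bw F α) b c ∧ ∀ ω : Ω, ∃ S : Subgroup V, Q ≤ S ∧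
      MulAction.stabilizer (V × V) ω = tw (MonoidHom.id V) S

/-- NQP: the frame of the quotient.

Proof.  `Ω'` = the orbits of `Q × 1` on `Ω`.  `(1, q) ω = (q⁻¹, 1) (q, q) ω = (q⁻¹, 1) ω`, so `Q × Q` acts trivially on
`Ω'` and `(V ⧸ Q) × (V ⧸ Q)` acts.  `b' [ω] = p (b ω)`; `c' [ω] (p a) = c ω (σ_Q a)` (well defined: `Qa.ker`, and
`c ((q, 1) ω) (σ_Q a) = c ω (q⁻¹ σ_Q a)`).  `∑ c' b'`: `p a = ∑_ω c ω a • p (b ω)`, and the sum of `c ((q, 1) ω) a =
c ω (q⁻¹ a)` over `q ∈ Q` is `c ω (σ_Q a)` (`Q × 1` acts freely).  The stabiliser of `[ω]` is `tw id (S/Q)`,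
`S/Q = S.map (QuotientGroup.mk' Q)`: `(u, v) ω = (q, 1) ω` gives `u q⁻¹ = v ∈ S`. -/
def NqpStmt : Prop := ∀ (F V A A' Ω : Type) [Field F] [CommGroup V] [Fintype V] [Ring A]
  [Algebra F A] [Ring A'] [Algebra F A'] [Fintype Ω] [MulAction (V × V) Ω] (α : V →* A)
  (b : Ω → A) (c : Ω → (A →ₗ[F] F)) (Q : Subgroup V) [Fintype Q] (α' : V ⧸ Q →* A')
  (p : A →ₐ[F] A'), Qa F α Q α' p → FrR (bw F α) b c →
  (∀ ω : Ω, ∃ S : Subgroup V, Q ≤ S ∧
    MulAction.stabilizer (V × V) ω = tw (MonoidHom.id V) S) →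
  Per F (1 : Unit →* MulAut (V ⧸ Q)) α'

/-- NQR: the form of the quotient, and the kernel of `p`.

Proof.  `lam' (p a) = lam (σ_Q a)`; it is symmetric as `σ_Q` is central.  `x' = p ∘ x`, `y' = p ∘ y`: let `T` be a
transversal of `Q` in `V`, `v = t q`; `p (e1)`: `p a = ∑_k ∑_t ∑_q lam (q⁻¹ t⁻¹ y_k a) • p (x_k t) = ∑_k ∑_t
lam (σ_Q t⁻¹ y_k a) • p (x_k t)`; in the same way `e2`.  `lam' (∑ α' u) = lam (σ_Q ∑_t t) = lam (∑ α v)`.  The kernel: let
`σ_Q a = 0`; `a = ∑_q q h(q⁻¹ a)` with `h(a) = ∑_k ∑_t lam (t⁻¹ y_k a) • (x_k t)`, so `a = ∑_q (q - 1) h(q⁻¹ a) +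
h(σ_Q a) = ∑_q (q - 1) h(q⁻¹ a)`, and the `q - 1` are central and nilpotent (`(q - 1) ^ (ℓ ^ n) = q ^ (ℓ ^ n) - 1 = 0`),
so `a` is nilpotent. -/
def NqrStmt : Prop := ∀ (ℓ : ℕ) [Fact ℓ.Prime] (F V A A' K : Type) [Field F] [CharP F ℓ]
  [CommGroup V] [Fintype V] [Ring A] [Algebra F A] [Ring A'] [Algebra F A'] [Fintype K]
  (α : V →* A) (lam : A →ₗ[F] F) (x y : K → A) (Q : Subgroup V) [Fintype Q] [Fintype (V ⧸ Q)]
  (α' : V ⧸ Q →* A') (p : A →ₐ[F] A'), IsPGroup ℓ V → Qa F α Q α' p → RF F α lam x y →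
  (∃ lam' : A' →ₗ[F] F, RF F α' lam' (fun k => p (x k)) (fun k => p (y k)) ∧
    lam' (∑ u, α' u) = lam (∑ v, α v)) ∧ ∀ a, p a = 0 → IsNilpotent a

/-- NQS: the elements of `A'` which commute with `V` lift to elements of `A` which commute with `V`.

Proof.  Let `p a` commute with `V`; `l = σ_Q a` commutes with `V` (`Qa.ker`) and `q l = l`.  `l = ∑ c ω l • b ω`, and
`ω ↦ c ω l` is constant on the orbits of the group `H = {(v q, v) : v ∈ V, q ∈ Q}`.  The stabiliser of `ω` in `H` is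
the diagonal of `S` (`(v q, v) ∈ tw id S` gives `q = 1`, `v ∈ S`).  For every `H`-orbit choose `ω₀`, and
let `a₀` be the sum of the `c ω l • b ω` over the orbits of `ω₀` under the diagonal of `V`, for all these `ω₀`: it
commutes with `V`, and `σ_Q a₀ = l`, because `(q, δ) ↦ (q, 1) δ` is a bijection of `Q × (diagonal orbit of ω₀)` onto
the `H`-orbit of `ω₀`.  So `p a₀ = p a`. -/
def NqsStmt : Prop := ∀ (F V A A' Ω : Type) [Field F] [CommGroup V] [Fintype V] [Ring A]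
  [Algebra F A] [Ring A'] [Algebra F A'] [Fintype Ω] [MulAction (V × V) Ω] (α : V →* A)
  (b : Ω → A) (c : Ω → (A →ₗ[F] F)) (Q : Subgroup V) [Fintype Q] (α' : V ⧸ Q →* A')
  (p : A →ₐ[F] A'), Qa F α Q α' p → FrR (bw F α) b c →
  (∀ ω : Ω, ∃ S : Subgroup V, Q ≤ S ∧
    MulAction.stabilizer (V × V) ω = tw (MonoidHom.id V) S) →
  ∀ a' ∈ FxR (cw F α') ⊤, ∃ a ∈ FxR (cw F α) ⊤, p a = a'

/-- NQB: `p` maps the Brauer kernel of `V` into the Brauer kernel of `V ⧸ Q`.

Proof.  A trace `∑_(x ∈ T) x m x⁻¹`, `m` fixed by `P < ⊤`, `T` a transversal.  If `Q ≤ P`: it goes to the trace of `p m`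
from `P/Q` (`T` maps bijectively onto a transversal of `P/Q` in `V ⧸ Q`).  Otherwise `m` is fixed by `P ⊔ Q`, so `x m x⁻¹`
depends only on the coset of `x` modulo `P ⊔ Q`, and every coset contains `|P ⊔ Q : P|` elements of `T`: the
trace is `0` (characteristic `ℓ`). -/
def NqbStmt : Prop := ∀ (ℓ : ℕ) [Fact ℓ.Prime] (F V A A' : Type) [Field F] [CharP F ℓ]
  [CommGroup V] [Fintype V] [Ring A] [Algebra F A] [Ring A'] [Algebra F A'] (α : V →* A)
  (Q : Subgroup V) [Fintype Q] (α' : V ⧸ Q →* A') (p : A →ₐ[F] A'), IsPGroup ℓ V →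
  Qa F α Q α' p → ∀ a ∈ BKR (cw F α) ⊤, p a ∈ BKR (cw F α') ⊤

/-- NQT: the quotient is in the class.

Proof.  NQA, NQF, NQP, NQR, NQS, NQB.  `loc`: the centraliser of `V` in `A'` is a quotient of the one in `A`
(NQS), not zero (`lam' (∑ α' u) ≠ 0`).  `spn`: NQS, `Lc.spn`, NQB; `p (∑ c v • v) = ∑_u (∑_(v ∈ u) c v) • α' u`. -/
def NqtStmt : Prop := ∀ (ℓ : ℕ) [Fact ℓ.Prime] (F V E A : Type) [Field F] [CharP F ℓ]
  [CommGroup V] [Fintype V] [Group E] [Ring A] [Algebra F A] (φ : E →* MulAut V) (α : V →* A)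
  (Q : Subgroup V) [Fintype Q] [Fintype (V ⧸ Q)], IsPGroup ℓ V → (∀ e, φ e = 1) → Lc F φ α →
  (∀ q ∈ Q, ∀ a, α q * a = a * α q) →
  ∃ (A' : Type) (_ : Ring A') (_ : Algebra F A') (α' : V ⧸ Q →* A') (p : A →ₐ[F] A'),
    Function.Surjective p ∧ (∀ a, p a = 0 → IsNilpotent a) ∧
    Lc F (1 : Unit →* MulAut (V ⧸ Q)) α'

/-! ## 8. The nilpotent case -/

/-- NZS: `E` trivial, `dim Z(A) = |V|`: the condition of RYN.

Proof.  `B = A(V)` (`S0.BqxStmt`).  By `spn` `B` is the span of the `αB v`; they are linearly independent: if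
`w = ∑ c_v v`, `β w = 0`, `c ≠ 0`, then there is `w' ∈ F V` with `w' w = σ` (the group algebra of an `ℓ`-group: every
nonzero ideal contains `σ`; or: a nonzero subspace of `F V` stable under `V` has a nonzero fixed vector), and
`lam σ = lamB (β σ) = 0`, a contradiction.  So `B` is commutative and `dim B = |V|`.  `S0.BpuStmt`, `S0.MckStmt` (`Q = ⊤`, one
class): `β (rt a) = rt_B (β a) = ζ_B β a` for `a ∈ C`.  `ζ_B` is a unit: with `G(b) = ∑_v lamB (v⁻¹ b) v` (`F V`-linear, so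
`G(b) = b G(1)`) `e1` for `1` is `1 = ∑_k G(y_k) x_k = ζ_B G(1)`.  So `β : Z(A) → B` is surjective, and bijective
because `dim Z(A) = |V|`.  Let `z` be central and `n z = 0` for all nilpotent central `n`.  For `v ∈ V` there is a
central `n` with `β n = αB v - 1`; it is nilpotent (`β (n ^ N) = 0`); so `(αB v - 1) β z = 0`, and `β z ∈ F β σ`.  So
`β z`, `β z'` are linearly dependent, and so are `z`, `z'`. -/
def NzsStmt : Prop := ∀ (ℓ : ℕ) [Fact ℓ.Prime] (F V E A : Type) [Field F] [CharP F ℓ]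
  [CommGroup V] [Fintype V] [Group E] [Finite E] [Ring A] [Algebra F A] (φ : E →* MulAut V)
  (α : V →* A), IsPGroup ℓ V → (∀ e, φ e = 1) → Lc F φ α →
  Module.finrank F (Subalgebra.center F A) = Nat.card V →
  ∀ z z' : A, (∀ a, z * a = a * z) → (∀ a, z' * a = a * z') →
    (∀ n, (∀ a, n * a = a * n) → IsNilpotent n → n * z = 0 ∧ n * z' = 0) →
    ∃ s t : F, (s ≠ 0 ∨ t ≠ 0) ∧ s • z + t • z' = 0

/-- NDL: `dim {l : l v = l} = 1` modulo `ℓ`.

Proof.  `L` is a left ideal, `V` acts on it by `ρ u l = u l`.  Frame `(Ω, b, c)` (`tw id S`).  For `l ∈ L`: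
`c ((1, v) ω) l = c ω (l v) = c ω l`, so `l = ∑_(k : Qt Ω) c k.rep l • b k.rep σ` (`1 × V` acts freely): a frame of `L`
over `Qt Ω` with the action of `V × 1` (`b k.rep σ` depends only on the orbit).  `PFC.DimStmt` for
`P = ⊤` with the model `π = lam` of the Brauer quotient: `lam` vanishes on the traces
(`lam (∑ x l) = ∑ lam (l x) = |S| lam l`), `lam σ ≠ 0`, and if `l` is fixed by `V` with `lam l = 0` then `l ∈ BK`:
modulo `BK` `l` is the sum over the orbits `k` fixed by `V × 1`; the stabiliser of `k.rep` is then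
`tw id ⊤`, `b k.rep ∈ C`, and by `spn` `b k.rep σ = (∑ c_u) σ + m σ`, `m ∈ BKR (cw F α) ⊤`,
`(∑ x m' x⁻¹) σ = ∑ x (m' σ)`; so `l = t σ` modulo `BK`, and `0 = lam l = t lam σ`. -/
def NdlStmt : Prop := ∀ (ℓ : ℕ) [Fact ℓ.Prime] (F V E A : Type) [Field F] [CharP F ℓ]
  [CommGroup V] [Fintype V] [Group E] [Ring A] [Algebra F A] (φ : E →* MulAut V)
  (α : V →* A), IsPGroup ℓ V → (∀ e, φ e = 1) → Lc F φ α → ∀ L : Submodule F A,
  (∀ l, l ∈ L ↔ ∀ v, l * α v = l) → (Module.finrank F L : F) = 1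

/-- NDM: the size of the matrix algebra is prime to `ℓ`.  Proof.  NDL and MDV: `1 = n * m` in `F`. -/
def NdmStmt : Prop := ∀ (ℓ : ℕ) [Fact ℓ.Prime] (F V E A : Type) [Field F] [CharP F ℓ]
  [CommGroup V] [Fintype V] [Group E] [Ring A] [Algebra F A] (φ : E →* MulAut V)
  (α : V →* A), IsPGroup ℓ V → (∀ e, φ e = 1) → Lc F φ α → ∀ (n : ℕ)
  (π : A →ₐ[F] Matrix (Fin n) (Fin n) F), Function.Surjective π →
  (∀ a, π a = 0 → IsNilpotent a) → (n : F) ≠ 0

/-- LCP: the input of part (0).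

Proof.  `frm`: `sym` from `RF.sym`, `nd`: if `lam (a b) = 0` for all `b`, then `a = 0` by `RF.e2`.  `ps`: `Per` (unfold).
`top.free`: if `w = ∑ c_u u ∈ BK` and `c ≠ 0`, there is `w' ∈ F V` with `w' w = σ`, in `BK` (an ideal of the
centraliser of `V`), and `lam` vanishes on `BK` (`lam (∑_(x ∈ S) x m x⁻¹) = |S| lam m`, `ℓ` divides `|S|`), so
`lam σ = 0`, a contradiction. -/
def LcpStmt : Prop := ∀ (ℓ : ℕ) [Fact ℓ.Prime] (F V E A : Type) [Field F] [CharP F ℓ]
  [CommGroup V] [Fintype V] [Group E] [Ring A] [Algebra F A] (φ : E →* MulAut V)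
  (α : V →* A) (NN : Subgroup V → Prop), IsPGroup ℓ V → Lc F φ α →
  (∀ Q, NN Q → ∃ n π, Lcq F α Q n π) → PFE.PInN F φ NN α

/-- KLN: the number of the classes, from the local conditions.

Proof.  LCP for `NN Q = ¬ Q ≤ W`; `PInN` is `PIn`.  `PmzStmt`, `KalStmt`. -/
def KlnStmt : Prop := ∀ (ℓ : ℕ) [Fact ℓ.Prime] (F V E A : Type) [Field F] [IsAlgClosed F]
  [CharP F ℓ] [CommGroup V] [Fintype V] [Group E] [Finite E] [Ring A] [Algebra F A]
  (φ : E →* MulAut V) (α : V →* A) (W : Subgroup V), Ctf ℓ φ W → Lc F φ α →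
  (∀ Q : Subgroup V, ¬ Q ≤ W → ∃ n π, Lcq F α Q n π) →
  Module.finrank F (Subalgebra.center F A) = Nat.card (ConjClasses (V ⋊[φ] E))

/-- LQX: the local condition from the Brauer quotient.

Proof.  `π (β a)` on the centraliser of `Q`, where `β` is a homomorphism of algebras (`IsBQ`; `Cz F α Q` and
`FxR (cw F α) Q` have the same elements). -/
def LqxStmt : Prop := ∀ (F V A B : Type) [Field F] [CommGroup V] [Ring A] [Algebra F A]
  [Ring B] [Algebra F B] (α : V →* A) (Q : Subgroup V) (αB : V →* B) (β : A → B),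
  IsBQ F α Q αB β → Mxl F B → ∃ n π, Lcq F α Q n π

/-- NIL: the nilpotent case.

Proof.  Strong induction on `|V|`.  `|V| = 1`: `BKR (cw F α) ⊤ = 0` (there is no proper subgroup), so by `spn`
`A = F 1`, and `1 ≠ 0` (`loc`): `n = 1`.  `|V| > 1`.  (1) For `Q ≠ ⊥`: `B = A(Q)` (`S0.BqxStmt`) is in `Lc` (LCQ), `Q` is
central in `B`; NQT: `p : B → B'`, `B'` in `Lc` for `V ⧸ Q`, `|V ⧸ Q| < |V|`; by induction `Mxl F B'`, and `Mxl F B`
(compose with `p`; the kernel consists of nilpotent elements: if `π (p b) = 0` then `p b` is nilpotent,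
`p (b ^ N) = 0`).  LQX: `Lcq F α Q n π`.  (2) `Ctf ℓ (1 : Unit →* MulAut V) ⊥`, KLN (`Lc F 1 α` from
`Lc F φ α`): `dim Z(A)` is the number of the conjugacy classes of `V ⋊ Unit`, a commutative group with `|V|` elements.
(3) NZS, RYN (`lam` from `frm`; `A ≠ 0`): `n`, `π`; NDM. -/
def NilStmt : Prop := ∀ (ℓ : ℕ) [Fact ℓ.Prime] (F V E A : Type) [Field F] [IsAlgClosed F]
  [CharP F ℓ] [CommGroup V] [Fintype V] [Group E] [Finite E] [Ring A] [Algebra F A]
  (φ : E →* MulAut V) (α : V →* A), IsPGroup ℓ V → (∀ e, φ e = 1) → Lc F φ α → Mxl F A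

/-! ## 9. The base case -/

/-- LKC: the local condition for the subgroups with a trivial centraliser in `E`.

Proof.  `S0.BqxStmt`, LCQ with `E1` = the centraliser of `Q` (all elements of `φ (E1)` are `1`), NIL, LQX. -/
def LkcStmt : Prop := ∀ (ℓ : ℕ) [Fact ℓ.Prime] (F V E A : Type) [Field F] [IsAlgClosed F]
  [CharP F ℓ] [CommGroup V] [Fintype V] [Group E] [Finite E] [Ring A] [Algebra F A]
  (φ : E →* MulAut V) (α : V →* A) (Q : Subgroup V), IsPGroup ℓ V → Lc F φ α →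
  (∀ e : E, (∀ u ∈ Q, φ e u = u) → φ e = 1) → ∃ n π, Lcq F α Q n π

/-- LKN: the number of the classes.  Proof.  KLN, LKC (`Ctf.free`). -/
def LknStmt : Prop := ∀ (ℓ : ℕ) [Fact ℓ.Prime] (F V E A : Type) [Field F] [IsAlgClosed F]
  [CharP F ℓ] [CommGroup V] [Fintype V] [Group E] [Finite E] [Ring A] [Algebra F A]
  (φ : E →* MulAut V) (α : V →* A) (W : Subgroup V), Ctf ℓ φ W → Lc F φ α →
  Module.finrank F (Subalgebra.center F A) = Nat.card (ConjClasses (V ⋊[φ] E))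

/-- VON: the case `V = 1`.

Proof.  `β 1 : A → B` is an isomorphism of algebras: `FxR` is everything, `BKR (bw F α) (twW ⊤ 1) = 0` (there is no
proper subgroup), `MulAut ⊤` is trivial. -/
def VonStmt : Prop := ∀ (F V A B : Type) [Field F] [CommGroup V] [Ring A] [Algebra F A]
  [Ring B] [Algebra F B] (α : V →* A), Nat.card V = 1 → IsNW F α ⊤ B →
  Module.finrank F (Subalgebra.center F A) = Module.finrank F (Subalgebra.center F B)

/-- FRC: the groups.

Proof.  `U`, `W` from `Fre`.  `nt`: `U ≠ ⊥`, `U ⊓ W = ⊥`.  `cop`: `|E'|` divides `|φ.range|`, which divides `|E|`.  `free`: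
`s = φ e`, `u = u₁ u₂` (`u₁ ∈ U`, `u₂ ∈ W`), `s u = u` gives `s u₁ = u₁`; if `u ∉ W` then `u₁ ≠ 1` and `φ e = 1`. -/
def FrcStmt : Prop := ∀ (ℓ : ℕ) [Fact ℓ.Prime] (V E : Type) [CommGroup V] [Finite V] [Group E]
  [Finite E] (φ : E →* MulAut V) (E' : Subgroup (MulAut V)), IsPGroup ℓ V →
  ¬ ℓ ∣ Nat.card E → Fre φ → E' ≤ φ.range → ∃ W : Subgroup V, Ctf ℓ E'.subtype W

end Pool.Agent.PSS.S5
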