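import Pool.Agent.PFC.DefsP2
import Pool.Agent.PFD.DefsD2b

/-!
# Squad PSS (theorem (S)): definitions

`R` is a commutative ring (a field `F`, a complete discrete valuation ring `O`, `O⟦X⟧`, `F⟦X⟧`),
`V` a finite abelian `ℓ`-group, `E` an `ℓ'`-group which acts on `V` (not necessarily faithfully),
`A` an `R`-algebra with `α : V →* A`.

* `bw R α`: the representation of `V × V` on `A`, `(u, v) a = α u * a * α v⁻¹` (for a field this is
  `PFC.bi`); `cw R α`: conjugation.
* `FxR`, `BKR`: fixed vectors and Brauer kernel over a commutative ring (for a field `PFC.Fx`, `PFC.BK`).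
* `RF R α lam x y`: `lam` is symmetric and `x k * α v`, `α v⁻¹ * y k` are dual families.
* `C0 R φ α`: the class: a form with a relative Frobenius system over `V`, a permutation frame for
  `V × V` whose stabilisers are `tw (φ e) S`, units which induce `φ e`.
* `Cl F φ α`: the class over a field, with `∑ x k * y k` a unit, and `br_V(e) ≠ 0` for all nonzero
  central idempotents `e` of `A(Q)`, for all `Q ≤ V` (`Q = ⊥`: the central idempotents of `A`).
* `IsNW R α W B`: `B` is `N_W(A) = ⊕ A(W, ε)`, `ε : MulAut W`, the sum of the twisted Brauer quotients.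
* `Cpl R p`: `R` is complete for the powers of the nonzero divisor `p`.
* `Df`: a deformation `A'` over `R` of the algebra `A` over `R₀ = R/p`, relative to `W`.
* `Cyp n φ W`: `V` is the product of `W` and of `n` cyclic `E`-stable subgroups.
-/

open scoped BigOperators TensorProduct

noncomputable section

namespace Pool.Agent.PSS

open Pool.Agent.PFC (tw IsTv)
open Pool.Agent.PFD.D2b (FrR)

/-! ## Representations over a commutative ring -/

section rep

variable {R H M : Type} [CommRing R] [Group H] [AddCommGroup M] [Module R M]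

/-- The vectors fixed by the subgroup `P`. -/
def FxR (ρ : H →* (M →ₗ[R] M)) (P : Subgroup H) : Submodule R M where
  carrier := {m | ∀ h ∈ P, ρ h m = m}
  add_mem' := by
    intro a b ha hb h hh
    rw [map_add, ha h hh, hb h hh]
  zero_mem' := by
    intro h _
    exact map_zero _
  smul_mem' := by
    intro c a ha h hh
    rw [map_smul, ha h hh]

/-- The Brauer kernel at `P`: the span of the relative traces from the proper subgroups of `P`. -/
def BKR (ρ : H →* (M →ₗ[R] M)) (P : Subgroup H) : Submodule R M :=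
  Submodule.span R {n | ∃ (P' : Subgroup H) (S : Finset H) (m : M),
    P' < P ∧ IsTv P' P S ∧ m ∈ FxR ρ P' ∧ n = ∑ x ∈ S, ρ x m}

end rep

section alg

variable (R : Type) {V E A : Type} [CommRing R] [CommGroup V] [Group E] [Ring A] [Algebra R A]

/-- `(u, v) a = α u * a * α v⁻¹` -/
def bw (α : V →* A) : V × V →* (A →ₗ[R] A) where
  toFun := fun w =>
    (LinearMap.mulLeft R (α w.1)).comp (LinearMap.mulRight R (α w.2⁻¹))
  map_one' := by
    ext a
    simp
  map_mul' := by
    intro x y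
    ext a
    simp [mul_assoc]

/-- conjugation by `V` -/
def cw (α : V →* A) : V →* (A →ₗ[R] A) where
  toFun := fun u => bw R α (u, u)
  map_one' := (bw R α).map_one
  map_mul' := by
    intro x y
    have h : ((x * y, x * y) : V × V) = (x, x) * (y, y) := rfl
    rw [h, (bw R α).map_mul]

/-- `lam` is symmetric, and the families `x k * α v`, `α v⁻¹ * y k` are dual to each other. -/
structure RF [Fintype V] {K : Type} [Fintype K] (α : V →* A) (lam : A →ₗ[R] R) (x y : K → A) :
    Prop where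
  sym : ∀ a b, lam (a * b) = lam (b * a)
  e1 : ∀ a, ∑ k, ∑ v, lam (α v⁻¹ * y k * a) • (x k * α v) = a
  e2 : ∀ a, ∑ k, ∑ v, lam (a * (x k * α v)) • (α v⁻¹ * y k) = a

/-- permutation frame for `V × V`, all stabilisers are twisted diagonals `tw (φ e) S` -/
def Per (φ : E →* MulAut V) (α : V →* A) : Prop :=
  ∃ (Ω : Type) (_ : Fintype Ω) (_ : MulAction (V × V) Ω) (b : Ω → A) (c : Ω → (A →ₗ[R] R)),
    FrR (bw R α) b c ∧
    ∀ ω : Ω, ∃ (e : E) (S : Subgroup V),
      MulAction.stabilizer (V × V) ω = tw (φ e).toMonoidHom S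

/-- units which induce the action of `E` -/
def Uni (φ : E →* MulAut V) (α : V →* A) : Prop :=
  ∀ e : E, ∃ y y' : A, y * y' = 1 ∧ y' * y = 1 ∧ ∀ u, y * α u = α (φ e u) * y

/-- The class over a commutative ring. -/
structure C0 [Fintype V] (φ : E →* MulAut V) (α : V →* A) : Prop where
  frm : ∃ (lam : A →ₗ[R] R) (K : Type) (_ : Fintype K) (x y : K → A), RF R α lam x y
  per : Per R φ α
  uni : Uni φ α

end alg

/-- The class over a field. -/
structure Cl (F : Type) {V E A : Type} [Field F] [CommGroup V] [Fintype V] [Group E] [Ring A]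
    [Algebra F A] (φ : E →* MulAut V) (α : V →* A) : Prop where
  fin : FiniteDimensional F A
  per : Per F φ α
  uni : Uni φ α
  rt : ∃ (lam : A →ₗ[F] F) (K : Type) (_ : Fintype K) (x y : K → A), RF F α lam x y ∧
    ∃ u : A, u * ∑ k, x k * y k = 1
  blk : ∀ (Q : Subgroup V), ∀ e ∈ FxR (cw F α) ⊤, e * e - e ∈ BKR (cw F α) Q →
    (∀ a ∈ FxR (cw F α) Q, e * a - a * e ∈ BKR (cw F α) Q) →
    e ∈ BKR (cw F α) ⊤ → e ∈ BKR (cw F α) Q

/-! ## The sum of the twisted Brauer quotients -/

section NW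

variable {V A : Type} [CommGroup V]

/-- the twisted diagonal subgroup `(ε w, w)`, `w ∈ W` -/
def twW (W : Subgroup V) (ε : MulAut W) : Subgroup (V × V) :=
  (W.subtype.comp ε.toMonoidHom |>.prod W.subtype).range

/-- `B = N_W(A)`: `β ε` is the Brauer map on the elements `a` with `α (ε w) a = a α w` (only the
values there are used). -/
structure IsNW (R : Type) [CommRing R] [Ring A] [Algebra R A] (α : V →* A) (W : Subgroup V)
    (B : Type) [Ring B] [Algebra R B] where
  β : MulAut W → (A →ₗ[R] B)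
  one : β 1 1 = 1
  mul : ∀ ε δ, ∀ a ∈ FxR (bw R α) (twW W ε), ∀ b ∈ FxR (bw R α) (twW W δ),
    β (ε * δ) (a * b) = β ε a * β δ b
  ker : ∀ ε, ∀ a ∈ FxR (bw R α) (twW W ε), β ε a = 0 ↔ a ∈ BKR (bw R α) (twW W ε)
  ind : ∀ f : MulAut W → A, (∀ ε, f ε ∈ FxR (bw R α) (twW W ε)) →
    ∑ᶠ ε, β ε (f ε) = 0 → ∀ ε, β ε (f ε) = 0
  spn : ∀ b : B, ∃ f : MulAut W → A, (∀ ε, f ε ∈ FxR (bw R α) (twW W ε)) ∧
    ∑ᶠ ε, β ε (f ε) = b

end NW

/-! ## Completeness, deformations -/

/-- `R` is complete for the powers of the nonzero divisor `p`. -/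
structure Cpl (R : Type) [CommRing R] (p : R) : Prop where
  reg : ∀ r, p * r = 0 → r = 0
  sep : ∀ r, (∀ n : ℕ, ∃ s, r = p ^ n * s) → r = 0
  cpl : ∀ u : ℕ → R, ∃ r, ∀ n : ℕ, ∃ s, r - ∑ i ∈ Finset.range n, p ^ i * u i = p ^ n * s

/-- `κ : R → R₀` is the reduction modulo `p`. -/
structure Red {R R₀ : Type} [CommRing R] [CommRing R₀] (p : R) (κ : R →+* R₀) : Prop where
  surj : Function.Surjective κ
  ker : ∀ r, κ r = 0 ↔ ∃ s, r = p * s

/-- `A'` (over `R`) is a deformation of `A` (over `R₀ = R/p`), relative to the group `W`. -/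
structure Df {R R₀ W A A' : Type} [CommRing R] [CommRing R₀] [CommGroup W] [Ring A]
    [Algebra R₀ A] [Ring A'] [Algebra R A'] (p : R) (κ : R →+* R₀) (α : W →* A)
    (α' : W →* A') where
  q : A' →+* A
  sc : ∀ r : R, q (algebraMap R A' r) = algebraMap R₀ A (κ r)
  surj : Function.Surjective q
  ker : ∀ x, q x = 0 → ∃ y, x = p • y
  qw : ∀ w, q (α' w) = α w
  per : ∃ (Ω : Type) (_ : Fintype Ω) (_ : MulAction (W × W) Ω) (b : Ω → A')
    (c : Ω → (A' →ₗ[R] R)), FrR (bw R α') b c

/-- the group `W → S ⊗ A` -/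
def bcw {R S W A : Type} [CommRing R] [CommRing S] [Algebra R S] [CommGroup W] [Ring A]
    [Algebra R A] (α : W →* A) : W →* S ⊗[R] A :=
  (Algebra.TensorProduct.includeRight (R := R) (A := S) (B := A)).toMonoidHom.comp α

/-! ## Groups -/

/-- `V = Y × W`, both factors stable under `E`, `Y` cyclic. -/
structure Cyf {V E : Type} [CommGroup V] [Group E] (φ : E →* MulAut V) (Y W : Subgroup V) :
    Prop where
  cmp : IsCompl Y W
  cyc : IsCyclic Y
  sy : ∀ e : E, ∀ u ∈ Y, φ e u ∈ Y
  sw : ∀ e : E, ∀ u ∈ W, φ e u ∈ W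

/-- the restriction of the action to the stable subgroup `W` -/
def IsRs {V E : Type} [CommGroup V] [Group E] (φ : E →* MulAut V) (W : Subgroup V)
    (ψ : E →* MulAut W) : Prop :=
  ∀ (e : E) (w : W), (ψ e w : V) = φ e w

/-- `V` is the product of `W` and of `n` cyclic `E`-stable subgroups, `W` is `E`-stable. -/
def Cyp : ℕ → ∀ (V E : Type) [CommGroup V] [Group E] (_ : E →* MulAut V) (_ : Subgroup V), Prop
  | 0, _, _, _, _, _, W => W = ⊤
  | n + 1, V, E, _, _, φ, W => ∃ (Y W' : Subgroup V) (ψ : E →* MulAut W'),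
      Cyf φ Y W' ∧ W ≤ W' ∧ IsRs φ W' ψ ∧ Cyp n W' E ψ (W.subgroupOf W')

/-- The group induced by `E` on `V` acts freely on `U - 1` for a nontrivial `E`-stable direct factor
`U` with an `E`-stable complement. -/
def Fre {V E : Type} [CommGroup V] [Group E] (φ : E →* MulAut V) : Prop :=
  ∃ U W : Subgroup V, U ≠ ⊥ ∧ IsCompl U W ∧ (∀ e : E, ∀ u ∈ U, φ e u ∈ U) ∧
    (∀ e : E, ∀ u ∈ W, φ e u ∈ W) ∧ ∀ e : E, ∀ u ∈ U, u ≠ 1 → φ e u = u → φ e = 1

/-! ## The top statements for algebras -/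

/-- STP: one step: remove the cyclic factor `Y`. -/
def StpStmt : Prop :=
  ∀ (ℓ : ℕ) [Fact ℓ.Prime] (F V E A B : Type) [Field F] [IsAlgClosed F] [CharP F ℓ]
    [CommGroup V] [Fintype V] [Group E] [Fintype E] [Ring A] [Algebra F A] [Ring B] [Algebra F B]
    (φ : E →* MulAut V) (α : V →* A) (Y W' W : Subgroup V) [Fintype W'] (ψ : E →* MulAut W'),
    IsPGroup ℓ V → ¬ ℓ ∣ Nat.card E → Cyf φ Y W' → IsRs φ W' ψ →
    W ≤ W' → (∀ e : E, ∀ w ∈ W, φ e w ∈ W) → Cl F φ α → IsNW F α W B →
    ∃ (F' C B' : Type) (_ : Field F') (_ : IsAlgClosed F') (_ : CharP F' ℓ) (_ : Ring C)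
      (_ : Algebra F' C) (_ : Ring B') (_ : Algebra F' B') (γ : W' →* C)
      (_ : IsNW F' γ (W.subgroupOf W') B'), Cl F' ψ γ ∧
      Module.finrank F' (Subalgebra.center F' C) = Module.finrank F (Subalgebra.center F A) ∧
      Module.finrank F' (Subalgebra.center F' B') = Module.finrank F (Subalgebra.center F B)

/-- BAS: the base case `W = V`. -/
def BasStmt : Prop :=
  ∀ (ℓ : ℕ) [Fact ℓ.Prime] (F V E A B : Type) [Field F] [IsAlgClosed F] [CharP F ℓ]
    [CommGroup V] [Fintype V] [Group E] [Fintype E] [Ring A] [Algebra F A] [Ring B] [Algebra F B]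
    (φ : E →* MulAut V) (α : V →* A),
    IsPGroup ℓ V → ¬ ℓ ∣ Nat.card E → (Nat.card V = 1 ∨ Fre φ) → Cl F φ α →
    IsNW F α ⊤ B →
    Module.finrank F (Subalgebra.center F A) = Module.finrank F (Subalgebra.center F B)

/-- ATS: the theorem for algebras. -/
def AtsStmt : Prop :=
  ∀ (n ℓ : ℕ) [Fact ℓ.Prime] (F V E A B : Type) [Field F] [IsAlgClosed F] [CharP F ℓ]
    [CommGroup V] [Fintype V] [Group E] [Fintype E] [Ring A] [Algebra F A] [Ring B] [Algebra F B]
    (φ : E →* MulAut V) (α : V →* A) (W : Subgroup V) (ψ : E →* MulAut W),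
    IsPGroup ℓ V → ¬ ℓ ∣ Nat.card E → Cyp n V E φ W → IsRs φ W ψ →
    (W = ⊥ ∨ Fre ψ) → Cl F φ α → IsNW F α W B →
    Module.finrank F (Subalgebra.center F A) = Module.finrank F (Subalgebra.center F B)

end Pool.Agent.PSS
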