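import Pool.Agent.PSS.DefsG
import Pool.Agent.PSS.DefsS
import Pool.Agent.Helper97_K9.NZB

/-!
# Squad PSS, block S6: from blocks to the class `Cl`, and `N_W(A)` as a corner of `N_G(W)`

`F = FF M`, `e` a block of `G` with the abelian defect group `V`, `γ` a block of `C(V)` under `e`,
`T = Tg V γ`, `j` a coherent local idempotent (`PFC.Jd`), `A = Crn hj` the corner `j (F G) j` as a ring
(`cv`, `cv_mul`, `mkj`, see `PFC/DefsB6.lean`), `α = jal hj ι hv`.  Elements of the group ring are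
functions with the product `mulF`, `dl F g` is the element `g`, `pw x n` the power, `br Q x` the
restriction of `x` to `C(Q)`, `tsm V b` the sum of the conjugates of `b` over the cosets of `V`.
`W ≤ V`, `N = N(W)`, `j' = br_W(j)` as a function on `N`: it is a coherent local idempotent of `N` for
the block `c` of `N` with the subpair `(V, γ)` (JNW), and `N_W(A) = Crn hj'` (NWG).
Complete proofs in the docstrings; a row may take other rows as hypotheses.  Everything of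
`PFC/StmtsB6.lean` and `PFD/StmtsD5a.lean` is proved (`Pool/Agent/HelperNN_PFC`, `_PFD`, see the
columns `path` of the tables pfc, pfd: for example `PFC.H38.cps`, `PFC.H24.fps`, `PFC.H9F.ffa`,
`PFC.H62.unt`, `PFC.H52.jun`, `PFC.H45.jex`, `PFD.H52.ful`, `PFD.H61.ctr`).
-/

open scoped BigOperators

noncomputable section

namespace Pool.Agent.PSS

open Pool.Agent.Helper51_AWC Pool.Agent.Helper79_WRA Pool.Agent.PP Pool.Agent.PP.KF
open Pool.Agent.PP.K9 Pool.Agent.PP.K9.H97 Pool.Agent.PP.H75 Pool.Agent.PP.T3 Pool.Agent.PP.T2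
open Pool.Agent.PP.T8 (pw)
open Pool.Agent.PFD (Ei)
open Pool.Agent.PFC (Jd Crn jal Cz cv)

attribute [local instance] Ideal.Quotient.field

/-! ## 1. The class -/

/-- RFG: the relative Frobenius system of the corner.

Proof.  `lam(a) = (cv a)(1)` (symmetric, as in `PFC.FfaStmt`, `Helper9_PFC/FFA.lean`), `K = G ⧸ ι(W)`,
`x q = mkj (dl q.out)`, `y q = mkj (dl q.out⁻¹)`.  `j` commutes with `ι(W)`, so
`x q * α w = j q.out ι(w) j` and `α w⁻¹ * y q = j ι(w)⁻¹ q.out⁻¹ j`.  For `g = q.out ι(w)`: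
`lam(α w⁻¹ * y q * a) = (j g⁻¹ j a)(1) = (g⁻¹ a)(1) = a(g)` (symmetry of `x ↦ x(1)`, `j a = a = a j`), and
`(q, w) ↦ q.out ι(w)` is a bijection onto `G`, so the sum in `e1` is `∑_g a(g) j g j = j a j = a`; in the
same way `e2`: `lam(a * (x q * α w)) = (a g)(1) = a(g⁻¹)`, the sum is `∑_g a(g⁻¹) j g⁻¹ j = a`.
`∑ x q * y q = ∑_q j q.out j q.out⁻¹ j = j (tsm j) j` (`PFD.H52.cj_eq_mulF`, `Helper52_PFD/FUL.lean`), and
`tsm j` is a class function (`tsm_cl`), so this is `j j (tsm j)`. -/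
def RfgStmt : Prop := ∀ (F : Type) [Field F] (G W : Type) [Group G] [Finite G] [CommGroup W]
  [Fintype W] (ι : W →* G), Function.Injective ι → ∀ (j : G → F) (hj : mulF j j = j)
  (hv : ∀ w x, j (ι w * x * (ι w)⁻¹) = j x),
  ∃ (lam : Crn hj →ₗ[F] F) (K : Type) (_ : Fintype K) (x y : K → Crn hj),
    RF F (jal hj ι hv) lam x y ∧ cv (∑ k, x k * y k) = mulF j (tsm ι.range j)

/-- BLG: the field `blk` of `Cl` if the centraliser of `V` is local.

Proof.  `FxR (cw F α) Q` is the set of the elements of `Cz F α Q` (both say that `a` commutes with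
`α u`, `u ∈ Q`), and `BKR (cw F α) Q` is an ideal of it (`x * Tr(m) = Tr(x * m)` for `x` fixed by `Q`; for
a field see the lemmas on `BK` in `Helper38_PFC`, `Helper70_PFC/CBR.lean`, `B4/Key.lean`).  `e` is in
`BKR ⊤`, so it is not a unit of `Cz F α ⊤` (otherwise `1 ∈ BKR ⊤`), so it is in the maximal ideal of the
finite-dimensional local algebra `Cz F α ⊤` and nilpotent, `e ^ n = 0`, `n ≥ 1`.  `e ^ m - e ∈ BKR Q` for
`m ≥ 1` by induction: `e ^ (m+1) - e = e (e ^ m - e) + (e * e - e)`, `e ∈ FxR Q`.  So `e ∈ BKR Q`. -/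
def BlgStmt : Prop := ∀ (F V A : Type) [Field F] [CommGroup V] [Fintype V] [Ring A] [Algebra F A]
  [FiniteDimensional F A] (α : V →* A), IsLocalRing (Cz F α ⊤) →
  (1 : A) ∉ BKR (cw F α) ⊤ → ∀ Q : Subgroup V, ∀ e ∈ FxR (cw F α) ⊤,
  e * e - e ∈ BKR (cw F α) Q → e ∈ BKR (cw F α) ⊤ → e ∈ BKR (cw F α) Q

/-- CLG: the corner is in the class.

Proof.  `fin`: `PFC.FfaStmt`.  `per`: `PFC.FpsStmt` (`PFC.PS` for `PFC.bi`; over a field `bw`, `cw`,
`FxR`, `BKR`, `FrR` are `PFC.bi`, `PFC.cj`, `PFC.Fx`, `PFC.BK`, `PFC.IsFr` up to unfolding).  `uni`: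
`PFC.UntStmt` for every `x : E`.  `rt`: RFG; `z = tsm V j` is a class function, its central character
at `e` is not zero (`PFD.H52.res_ne`, `Helper52_PFD/FUL.lean`), so by `H50.blk_dich` (see `PFD.H52.ful`)
there is a class function `c` with `c z e = e`; `u = mkj c`: `u (j z) = j c j j z = j c z = j c z e`
(`e j = j`, `PFC.JunStmt`; `e`, `c`, `z` central) `= j e = j`.  `blk`: BLG; `IsLocalRing`: FFA;
`1 ∉ BKR ⊤`: `Tpv.free` (FFA) for the function which is `1` at the identity and `0` elsewhere. -/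
def ClgStmt : Prop := ∀ (ℓ : ℕ) [Fact ℓ.Prime] (M : Ideal (integralClosure ℤ ℂ)) [M.IsMaximal],
  (ℓ : integralClosure ℤ ℂ) ∈ M → ∀ (G : Type) [Group G] [Finite G] (e : G → FF M)
  (V : Subgroup G) (γ : G → FF M), Ld ℓ e V γ → ∀ j : G → FF M, Jd M V γ j →
  ∀ (W E : Type) [CommGroup W] [Fintype W] [Group E] (ι : W →* G), Function.Injective ι →
  ι.range = V → ∀ φ : E →* MulAut W, (∀ t ∈ Tg V γ, ∃ x : E, ∀ w, ι (φ x w) = t * ι w * t⁻¹) →
  (∀ x : E, ∃ t ∈ Tg V γ, ∀ w, ι (φ x w) = t * ι w * t⁻¹) →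
  ∀ (hj : mulF j j = j) (hv : ∀ w x, j (ι w * x * (ι w)⁻¹) = j x),
  Cl (FF M) φ (jal hj ι hv)

/-! ## 2. The coherent local idempotent of the normaliser -/

/-- SGW: the support of the central idempotents, `R` a normal `ℓ`-subgroup.

Proof.  `d = f - br R f`.  `br R f` is a central idempotent (`H20.brm`, `Helper20_PP`, with `G = X = H`;
`N(R) = ⊤`), so `d` is a class function.  For every irreducible `ρ` `ev ρ d = 0` (`NlsStmt`, `H20.nls`),
so `d` is nilpotent (`IbnStmt`, `H20.ibn`).  `f`, `br R f` are commuting idempotents, so `d ^ 3 = d`, and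
`d = 0`. -/
def SgwStmt : Prop := ∀ (ℓ : ℕ) [Fact ℓ.Prime] (F : Type) [Field F], GoodF ℓ F → ∀ (H : Type)
  [Group H] [Finite H] (R : Subgroup H), R.Normal → IsPGroup ℓ R → ∀ f : H → F, IsIdem f →
  ∀ x, x ∉ Subgroup.centralizer (R : Set H) → f x = 0

/-- NKW: the kernel of `br_R` is nil, `R` a normal `ℓ`-subgroup.

Proof.  Let `ρ` be irreducible: `ρ r = 1` for `r ∈ R` (`H20.nls`), so `ρ(r x r⁻¹) = ρ x`, and
`ev ρ a = ∑_x a(x) ρ(x)`: the summand is invariant under the conjugation with the `ℓ`-group `R`, so in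
characteristic `ℓ` only the fixed points `x ∈ C(R)` contribute (`PP.OrbStmt`, `H74.orb`), and there
`a(x) = 0`.  So `ev ρ a = 0` for all irreducible `ρ`, and `a` is nilpotent (`H20.ibn`). -/
def NkwStmt : Prop := ∀ (ℓ : ℕ) [Fact ℓ.Prime] (F : Type) [Field F], GoodF ℓ F → ∀ (H : Type)
  [Group H] [Finite H] (R : Subgroup H), R.Normal → IsPGroup ℓ R → ∀ a : H → F,
  (∀ r ∈ R, ∀ x, a (r * x * r⁻¹) = a x) → br R a = 0 → ∃ n : ℕ, 0 < n ∧ pw a n = 0

/-- JNW: `br_W(j)` is a coherent local idempotent of `N(W)`.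

Proof.  `N = N(W)`, `W ≤ V ≤ C(V) ≤ C(W) ≤ N`, `V' = V.subgroupOf N`, `γ' = γ|N`, `j' = br W j|N`, which
is supported on `C(W)`.  The restriction to `C(W)` is multiplicative on the elements which commute with
`W` (`H75.br_mulF orb hF hPW`).  `id`: `br W (j j) = br W j br W j`, and the restriction to `N` of functions
supported on `N` is multiplicative (`mulF_res`).  `iv`: `v ∈ V ≤ C(W)`.  `nz`: the centraliser of `V'` in
`N` is `C(V)` (`T3.H85.cequiv`, `Helper85_AT3/LSB.lean`; for the transport of `IrrE` see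
`T3.H85.ld_of` and `IrrE_equiv` in `Helper75_PFC/Cjl.lean`), and `j' = j` there.
`lb`: let `Q ≤ V'`, `f` a block of `C_N(Q)` with `br_(V')(f) γ' = γ'`.  `Q₁ = Q.map N.subtype`,
`P = Q₁ ⊔ W ≤ V`; `C_N(Q) ∩ C(W) = C(P)`.  `f₂` the local block of `P` in `G` (`T6.LwdStmt`,
`T6.H39.lwd`): `br_P(j) f₂ = br_P(j)` (`Jd.lb`).  `br_Q(j') = br_P(j)|N`.  By SGW for `H = C_N(Q)` and its
normal `ℓ`-subgroup `W` (`W ≤ V` is abelian, `N` normalises `W`) `f` is supported on `C(P)`, so `f` is a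
central idempotent of `F C(P)` and `f₂ f` is `f₂` or `0` (`Bx.dich'`); `br_V(f₂ f) γ = br_V(f₂) br_V(f) γ = γ`,
so `f₂ f = f₂`.  So `br_Q(j') f = br_P(j) f₂ f = br_P(j) f₂ = br_Q(j')`.
`lo`: let `w` be as in `lo`.  `b = br_(W')(w)`, `W' = W.subgroupOf N`, extended by zero to `G`, is
supported on `C(W)` and commutes with `V`.  `w₁ = j b j` commutes with `V`, `j w₁ = w₁ = w₁ j`, so
`pw w₁ n` is `j` or `0` for some `n > 0` (`Jd.lo`), and `br_W(w₁) = br_W(j) b br_W(j) = b`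
(`j' w j' = w`), so `pw b n` is `br_W j` or `0`.  If it is `0` then `br_(W')(pw w n) = 0`, so `pw w n` is
nilpotent (NKW) and so is `w`.  Otherwise `a = pw w n - j'` is in the kernel of `br_(W')`, it commutes
with `W'`, `j' a = a = a j'`, so it is nilpotent (NKW), and `pw w (n ℓ ^ k) = (j' + a) ^ (ℓ ^ k) =
j' + a ^ (ℓ ^ k) = j'` for large `k` (characteristic `ℓ`, `a` and `j'` commute). -/
def JnwStmt : Prop := ∀ (ℓ : ℕ) [Fact ℓ.Prime] (M : Ideal (integralClosure ℤ ℂ)) [M.IsMaximal],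
  (ℓ : integralClosure ℤ ℂ) ∈ M → ∀ (G : Type) [Group G] [Finite G] (e : G → FF M)
  (V : Subgroup G) (γ : G → FF M), Ld ℓ e V γ → ∀ W : Subgroup G, W ≤ V →
  ∀ c : Subgroup.normalizer (W : Set G) → FF M,
  Ld ℓ c (V.subgroupOf (Subgroup.normalizer (W : Set G)))
    (fun t : Subgroup.normalizer (W : Set G) => γ t) → ∀ j : G → FF M, Jd M V γ j →
  Jd M (V.subgroupOf (Subgroup.normalizer (W : Set G)))
    (fun t : Subgroup.normalizer (W : Set G) => γ t)
    (fun t : Subgroup.normalizer (W : Set G) => br W j t)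

/-! ## 3. The sum of the twisted Brauer quotients -/

/-- NWG: `N_X(A)` is the corner of the normaliser.

Proof.  `N = N(Q)`, `j' = br Q j|N`.  For `ε : MulAut X` let `X_ε = {g | g ι(w) g⁻¹ = ι(ε w), w ∈ X}`;
it is contained in `N`, the `X_ε` are disjoint (`ι` is injective), their union is `N`, `X_1 = C(Q)`,
`X_ε X_δ ≤ X_(ε δ)`.  For `b : G → F` let `r_ε(b) : N → F` be `b` on `X_ε` and `0` elsewhere.
`β ε a = mkj (r_ε (cv a))` (linear).  (1) If `a : G → F` satisfies `a(ι(ε w) g ι(w)⁻¹) = a(g)` for `w ∈ X` and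
`b(ι(δ w) g ι(w)⁻¹) = b(g)` then `r_(ε δ)(a b) = r_ε(a) r_δ(b)`: for `g ∈ X_(ε δ)` the group `X` acts on
the pairs `(h, k)` with `h k = g` by `(h, k) ↦ (ι(ε δ w) h ι(δ w)⁻¹, ι(δ w) k ι(w)⁻¹)`, the products
`a(h) b(k)` are invariant, so only the fixed pairs contribute (`PP.OrbStmt`, `H74.orb`, characteristic
`ℓ`), and these are the pairs with `k ∈ X_δ`, `h ∈ X_ε`.  (Or by `H75.br_mulF` after the multiplication
with a fixed element of `X_δ`, `X_ε`.)  (2) `a ∈ FxR (bw F α) (twW X ε)` means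
`cv a (ι(ε w) g ι(w)⁻¹) = cv a g` (`PFC.H38.cv_bi` in `Helper38_PFC/CPS.lean`); then
`j' r_ε(cv a) j' = r_ε(cv a)` by (1) (`j a j = a`; `j' = r_1(j)`), so `cv (β ε a) = r_ε(cv a)`.
`one`: `cv 1 = j`, `r_1(j) = j'`.  `mul`: (1).  `ker`: the second claim of `PFC.CpsStmt` for
`K = twW X ε`: `a ∈ BKR` iff `cv a` vanishes on `X_ε`.  `ind`: the supports `X_ε` are disjoint (`MulAut X`
is finite).  `spn`: for `b` in the corner of `j'` let `b_ε` be its restriction to `X_ε`, extended by zero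
to `G`; `b = ∑ b_ε`, and `j' b_ε j' = b_ε` because `j'` is supported on `C(Q) = X_1` (compare the supports
in `b = j' b j'`).  `f ε = mkj b_ε`: it is in `FxR` (for `g ∈ X_ε`: `ι(ε w) g ι(w)⁻¹ = g`; `j` commutes
with `ι(X)`), and `r_ε(j b_ε j) = j' b_ε j' = b_ε` by (1). -/
def NwgStmt : Prop := ∀ (ℓ : ℕ) [Fact ℓ.Prime] (F : Type) [Field F] [CharP F ℓ] (G W : Type)
  [Group G] [Finite G] [CommGroup W] [Fintype W] (ι : W →* G), Function.Injective ι →
  IsPGroup ℓ W → ∀ (X : Subgroup W) (Q : Subgroup G), X.map ι = Q →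
  ∀ (j : G → F) (hj : mulF j j = j) (hv : ∀ w x, j (ι w * x * (ι w)⁻¹) = j x)
  (hn : mulF (fun t : Subgroup.normalizer (Q : Set G) => br Q j t)
    (fun t : Subgroup.normalizer (Q : Set G) => br Q j t) =
    fun t : Subgroup.normalizer (Q : Set G) => br Q j t),
  Nonempty (IsNW F (jal hj ι hv) X (Crn hn))

/-! ## 4. The numbers of characters -/

/-- DZC: the centre of the corner.

Proof.  `PFD.FulStmt`, `PFD.CtrStmt`, `ChpStmt` (`H50.chp`), as in the Lean proof of `PFD.PbxStmt`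
(`Helper91_PFD/PBX.lean`, last lines). -/
def DzcStmt : Prop := ∀ (ℓ : ℕ) [Fact ℓ.Prime] (M : Ideal (integralClosure ℤ ℂ)) [M.IsMaximal],
  (ℓ : integralClosure ℤ ℂ) ∈ M → ∀ (G : Type) [Group G] [Finite G] (e : G → FF M)
  (V : Subgroup G) (γ : G → FF M), Ld ℓ e V γ → ∀ j : G → FF M, Jd M V γ j →
  ∀ hj : mulF j j = j,
  Module.finrank (FF M) (Subalgebra.center (FF M) (Crn hj)) = (IrrE M e).ncard

/-- CYP: the class `Sx` in the form of `DefsS.lean`.

Proof.  Claim, by induction on `Cyc E C` (ambient group `V`, `E ≤ Aut V`): for every commutative group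
`V₁`, `φ : E₁ →* MulAut V₁`, injective `i : V₁ →* V` such that every `φ x` is the restriction of an
element of `E` (`∀ x, ∃ a ∈ E, ∀ v, i (φ x v) = a (i v)`), and `φ`-stable `W₁ ≤ V₁` with
`C ⊓ W₁.map i = ⊥`, `C ⊔ W₁.map i = i.range`: there is `n` with `Cyp n V₁ E₁ φ W₁`.  `bot`: `W₁ = ⊤`, `n = 0`.
`mul C Y`: `Y₁ = Y.comap i` (`Y ≤ i.range`, so `Y₁ ≅ Y` is cyclic, and it is stable),
`W' = (C ⊔ W₁.map i).comap i ≥ W₁` (`C ≤ i.range`; `C` is stable under `E`, by an induction on `Cyc`),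
`IsCompl Y₁ W'`: `y = c w` with `y ∈ Y`, `c ∈ C`, `w ∈ W₁.map i` gives `w ∈ (C ⊔ Y) ⊓ W₁.map i = ⊥`,
`y = c ∈ C ⊓ Y = ⊥`.  `ψ` the restriction of `φ` to `W'`; induction for `W'`, `i ∘ W'.subtype`,
`W₁.subgroupOf W'` (its image under `i` is `W₁.map i`), `n + 1`.  Apply the claim to `V₁ = V`, `i = id`,
`W₁ = W`.  `ψ` the restriction of the action to `W` (`W = U ⊔ X` is stable), `Fre ψ` with `U.subgroupOf W`,
`X.subgroupOf W` (`Sx.fr`). -/
def CypStmt : Prop := ∀ (V : Type) [CommGroup V] [Finite V] (E : Subgroup (MulAut V))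
  (C W U X : Subgroup V), Sx E C W U X →
  ∃ (n : ℕ) (ψ : E →* MulAut W), Cyp n V E E.subtype W ∧ IsRs E.subtype W ψ ∧ Fre ψ

/-- STO: the input of the group level from the theorem for algebras.

Proof.  `V' = V` as a commutative group (`Ld.ab`), `ι = V.subtype`, `E = Ei V γ`, `φ = E.subtype`
(the two properties of `φ`, `¬ ℓ ∣ Nat.card E` and `IsPGroup` as in `Helper63_PFD/EGX.lean`),
`X = W.subgroupOf V`, `X.map ι = W`.  CYP: `n`, `ψ`.  `j` from `PFC.JexStmt`; `hj`, `hv` from `Jd.id`,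
`Jd.iv`; `A = Crn hj`: CLG.  JNW: `j' = br W j|N` is coherent for `c`; `hn` its `id`; `B = Crn hn`: NWG
(`Q = W`).  `AtsStmt`: `dim Z(A) = dim Z(B)`.  DZC for `(G, e, V, γ, j)` and for
`(N(W), c, V.subgroupOf N(W), γ|N(W), j')`. -/
def StoAlgStmt : Prop := AtsStmt → StoStmt

end Pool.Agent.PSS
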