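import Pool.Agent.PSS.Nwe

/-!
# Squad PSS, row NGF: the sum of the twisted Brauer quotients commutes with base change
-/

open scoped BigOperators TensorProduct

noncomputable section

namespace Pool.Agent.PSS

open Pool.Agent.PFC (tw IsTv)
open Pool.Agent.PFD.D2b (FrR)

section

variable {R S V A : Type} [CommRing R] [CommRing S] [Algebra R S] [CommGroup V] [Ring A]
  [Algebra R A]

theorem bcw_apply (α : V →* A) (v : V) : bcw (S := S) (R := R) α v = 1 ⊗ₜ[R] α v := rfl

theorem bw_bcw (α : V →* A) (g : V × V) (s : S) (a : A) :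
    bw S (bcw (S := S) (R := R) α) g (s ⊗ₜ[R] a) = s ⊗ₜ[R] bw R α g a := by
  change (1 ⊗ₜ[R] α g.1) * ((s ⊗ₜ[R] a) * (1 ⊗ₜ[R] α g.2⁻¹)) = _
  rw [Algebra.TensorProduct.tmul_mul_tmul, Algebra.TensorProduct.tmul_mul_tmul, mul_one,
    one_mul]
  rfl

theorem bw_bch (α : V →* A) (g : V × V) :
    bw S (bcw (S := S) (R := R) α) g = (bw R α g).baseChange S := by
  apply TensorProduct.AlgebraTensorModule.ext
  intro s a
  rw [bw_bcw, LinearMap.baseChange_tmul]

/-- the functional `s ⊗ a ↦ c a • s` -/
def bcf (S : Type) [CommRing S] [Algebra R S] (c : A →ₗ[R] R) : S ⊗[R] A →ₗ[S] S :=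
  (TensorProduct.AlgebraTensorModule.rid R S S).toLinearMap.comp (c.baseChange S)

theorem bcf_tmul (c : A →ₗ[R] R) (s : S) (a : A) : bcf S c (s ⊗ₜ[R] a) = c a • s := by
  change TensorProduct.AlgebraTensorModule.rid R S S (c.baseChange S (s ⊗ₜ[R] a)) = _
  rw [LinearMap.baseChange_tmul, TensorProduct.AlgebraTensorModule.rid_tmul]

theorem FrR.bch {Ω : Type} [Fintype Ω] [MulAction (V × V) Ω] {α : V →* A} {b : Ω → A}
    {c : Ω → (A →ₗ[R] R)} (hf : FrR (bw R α) b c) :
    FrR (bw S (bcw (S := S) (R := R) α)) (fun ω => 1 ⊗ₜ[R] b ω) (fun ω => bcf S (c ω)) := by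
  refine ⟨?_, ?_, ?_⟩
  · intro g t
    change (1 : S) ⊗ₜ[R] b (g • t) = _
    rw [bw_bcw, hf.1]
  · intro g t n
    induction n using TensorProduct.induction_on with
    | zero => rw [map_zero, map_zero, map_zero]
    | tmul s a => rw [bw_bcw, bcf_tmul, bcf_tmul, hf.2.1]
    | add x y hx hy => rw [map_add, map_add, map_add, hx, hy]
  · intro n
    induction n using TensorProduct.induction_on with
    | zero => simp only [map_zero, zero_smul, Finset.sum_const_zero]
    | tmul s a =>
      have h1 : ∀ t, bcf S (c t) (s ⊗ₜ[R] a) • ((1 : S) ⊗ₜ[R] b t) = s ⊗ₜ[R] (c t a • b t) := by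
        intro t
        rw [bcf_tmul, TensorProduct.smul_tmul', smul_eq_mul, mul_one, TensorProduct.smul_tmul]
      rw [Finset.sum_congr rfl fun t _ => h1 t, ← TensorProduct.tmul_sum, hf.2.2]
    | add x y hx hy =>
      conv_rhs => rw [← hx, ← hy]
      rw [← Finset.sum_add_distrib]
      refine Finset.sum_congr rfl fun t _ => ?_
      rw [map_add, add_smul]

/-- the fixed vectors after base change are spanned by the fixed vectors -/
theorem FxR_bch {Ω : Type} [Fintype Ω] [MulAction (V × V) Ω] {α : V →* A} {b : Ω → A}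
    {c : Ω → (A →ₗ[R] R)} (hf : FrR (bw R α) b c) (P : Subgroup (V × V)) :
    FxR (bw S (bcw (S := S) (R := R) α)) P =
      Submodule.span S {x | ∃ a ∈ FxR (bw R α) P, x = 1 ⊗ₜ[R] a} := by
  classical
  apply le_antisymm
  · intro x hx
    -- the projection of `S ⊗ A` is the base change of the projection of `A`
    let rep : Ω → Ω := fun ω => (Quotient.mk'' ω : MulAction.orbitRel.Quotient P Ω).out
    have hrep : ∀ ω, ∃ h ∈ P, h • ω = rep ω := by
      intro ω
      have : MulAction.orbitRel P Ω (rep ω) ω := Quotient.exact (Quotient.out_eq _)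
      obtain ⟨h, hh⟩ := this
      exact ⟨h, h.2, hh⟩
    have hrep' : ∀ h ∈ P, ∀ ω, rep (h • ω) = rep ω := by
      intro h hh ω
      have : (Quotient.mk'' (h • ω) : MulAction.orbitRel.Quotient P Ω) = Quotient.mk'' ω := by
        apply Quotient.sound
        exact ⟨⟨h, hh⟩, rfl⟩
      change (Quotient.mk'' (h • ω) : MulAction.orbitRel.Quotient P Ω).out = _
      rw [this]
    have hπ : ∀ a : A, ∑ ω, c (rep ω) a • b ω ∈ FxR (bw R α) P := by
      intro m h hh
      rw [map_sum]
      refine Fintype.sum_equiv (MulAction.toPerm h) _ _ ?_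
      intro ω
      rw [map_smul, ← hf.1]
      change _ = c (rep (h • ω)) m • b (h • ω)
      rw [hrep' h hh]
    have hfx : ∑ ω, bcf S (c (rep ω)) x • ((1 : S) ⊗ₜ[R] b ω) = x := by
      have hF : FrR (bw S (bcw (S := S) (R := R) α)) (fun ω => 1 ⊗ₜ[R] b ω)
        (fun ω => bcf S (c ω)) := FrR.bch (S := S) hf
      conv_rhs => rw [← hF.2.2 x]
      refine Finset.sum_congr rfl ?_
      intro ω _
      obtain ⟨h, hh, e⟩ := hrep ω
      rw [← e]
      have := hF.2.1 h ω x
      dsimp only at this
      rw [hx h hh] at this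
      rw [this]
    have hsp : ∀ y : S ⊗[R] A, ∑ ω, bcf S (c (rep ω)) y • ((1 : S) ⊗ₜ[R] b ω) ∈
        Submodule.span S {x | ∃ a ∈ FxR (bw R α) P, x = 1 ⊗ₜ[R] a} := by
      intro y
      induction y using TensorProduct.induction_on with
      | zero =>
        simp only [map_zero, zero_smul, Finset.sum_const_zero]
        exact Submodule.zero_mem _
      | tmul s a =>
        have h1 : ∀ t, bcf S (c (rep t)) (s ⊗ₜ[R] a) • ((1 : S) ⊗ₜ[R] b t) =
            s • ((1 : S) ⊗ₜ[R] (c (rep t) a • b t)) := by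
          intro t
          rw [bcf_tmul, TensorProduct.smul_tmul', TensorProduct.smul_tmul', smul_eq_mul,
            smul_eq_mul, mul_one, mul_one, TensorProduct.smul_tmul]
        rw [Finset.sum_congr rfl fun t _ => h1 t, ← Finset.smul_sum, ← TensorProduct.tmul_sum]
        exact Submodule.smul_mem _ _ (Submodule.subset_span ⟨_, hπ a, rfl⟩)
      | add x y hx hy =>
        have h1 : ∑ ω, bcf S (c (rep ω)) (x + y) • ((1 : S) ⊗ₜ[R] b ω) =
            ∑ ω, bcf S (c (rep ω)) x • ((1 : S) ⊗ₜ[R] b ω) +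
            ∑ ω, bcf S (c (rep ω)) y • ((1 : S) ⊗ₜ[R] b ω) := by
          rw [← Finset.sum_add_distrib]
          refine Finset.sum_congr rfl fun t _ => ?_
          rw [map_add, add_smul]
        rw [h1]
        exact Submodule.add_mem _ hx hy
    rw [← hfx]
    exact hsp x
  · apply Submodule.span_le.2
    rintro _ ⟨a, ha, rfl⟩
    intro h hh
    rw [bw_bcw, ha h hh]

theorem BKR_bch {α : V →* A} (P : Subgroup (V × V)) {a : A} (ha : a ∈ BKR (bw R α) P) (s : S) :
    s ⊗ₜ[R] a ∈ BKR (bw S (bcw (S := S) (R := R) α)) P := by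
  have h1 : s ⊗ₜ[R] a = s • ((1 : S) ⊗ₜ[R] a) := by
    rw [TensorProduct.smul_tmul', smul_eq_mul, mul_one]
  rw [h1]
  apply Submodule.smul_mem
  have h2 : BKR (bw R α) P ≤
      ((BKR (bw S (bcw (S := S) (R := R) α)) P).restrictScalars R).comap
        (TensorProduct.mk R S A 1) := by
    apply Submodule.span_le.2
    rintro n ⟨Q, T, m, hQ, hT, hm, rfl⟩
    refine Submodule.subset_span ⟨Q, T, 1 ⊗ₜ[R] m, hQ, hT, ?_, ?_⟩
    · intro h hh
      rw [bw_bcw, hm h hh]
    · rw [TensorProduct.mk_apply, TensorProduct.tmul_sum]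
      exact Finset.sum_congr rfl fun x _ => (bw_bcw α x 1 m).symm
  exact h2 ha

/-- The Brauer kernel after base change. -/
theorem BKR_bch_le {Ω : Type} [Fintype Ω] [MulAction (V × V) Ω] {α : V →* A} {b : Ω → A}
    {c : Ω → (A →ₗ[R] R)} (hf : FrR (bw R α) b c) (P : Subgroup (V × V)) :
    BKR (bw S (bcw (S := S) (R := R) α)) P ≤
      Submodule.span S {x | ∃ a ∈ BKR (bw R α) P, x = 1 ⊗ₜ[R] a} := by
  apply Submodule.span_le.2
  rintro n ⟨Q, T, m, hQ, hT, hm, rfl⟩
  rw [FxR_bch hf] at hm
  rw [SetLike.mem_coe]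
  induction hm using Submodule.span_induction with
  | mem x hx =>
    obtain ⟨a, ha, rfl⟩ := hx
    refine Submodule.subset_span ⟨∑ x ∈ T, bw R α x a,
      Submodule.subset_span ⟨Q, T, a, hQ, hT, ha, rfl⟩, ?_⟩
    rw [TensorProduct.tmul_sum]
    exact Finset.sum_congr rfl fun x _ => bw_bcw α x 1 a
  | zero =>
    simp only [map_zero, Finset.sum_const_zero]
    exact Submodule.zero_mem _
  | add x y _ _ hx hy =>
    simp only [map_add, Finset.sum_add_distrib]
    exact Submodule.add_mem _ hx hy
  | smul r x _ hx =>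
    simp only [map_smul]
    rw [← Finset.smul_sum]
    exact Submodule.smul_mem _ _ hx

/-- the coefficient map `B → A / BK` -/
theorem IsNW.exists_cf [Finite V] {α : V →* A} {W : Subgroup V} {B : Type} [Ring B]
    [Algebra R B] (N : IsNW R α W B) (ε : MulAut W) :
    ∃ r : B →ₗ[R] (A ⧸ BKR (bw R α) (twW W ε)),
      (∀ a ∈ FxR (bw R α) (twW W ε), r (N.β ε a) = Submodule.Quotient.mk a) ∧
      ∀ δ, δ ≠ ε → ∀ a ∈ FxR (bw R α) (twW W δ), r (N.β δ a) = 0 := by
  classical
  obtain ⟨g, hg, hk, hv⟩ := N.exists_hom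
  let cf : gsub R α W →ₗ[R] (A ⧸ BKR (bw R α) (twW W ε)) :=
    { toFun := fun f => Submodule.Quotient.mk (f.1.coeff ε)
      map_add' := by
        intro f f'
        rfl
      map_smul' := by
        intro r f
        rfl }
  have hcf : ∀ f, cf f = Submodule.Quotient.mk (f.1.coeff ε) := fun f => rfl
  have hker : LinearMap.ker g.toLinearMap ≤ LinearMap.ker cf := by
    intro f hf
    have h1 : g f = 0 := hf
    rw [LinearMap.mem_ker, hcf, Submodule.Quotient.mk_eq_zero]
    exact (hk f).1 h1 ε
  obtain ⟨r, hr⟩ : ∃ r : B →ₗ[R] (A ⧸ BKR (bw R α) (twW W ε)),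
      ∀ f, r (g f) = cf f := by
    have e := g.toLinearMap.quotKerEquivOfSurjective hg
    refine ⟨((LinearMap.ker g.toLinearMap).liftQ cf hker).comp
      (g.toLinearMap.quotKerEquivOfSurjective hg).symm.toLinearMap, ?_⟩
    intro f
    rw [LinearMap.comp_apply]
    have h1 : (g.toLinearMap.quotKerEquivOfSurjective hg).symm.toLinearMap (g f) =
        Submodule.Quotient.mk f := by
      change (g.toLinearMap.quotKerEquivOfSurjective hg).symm (g f) = _
      rw [LinearEquiv.symm_apply_eq]
      rfl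
    rw [h1]
    rfl
  refine ⟨r, ?_, ?_⟩
  · intro a ha
    have h1 := hv ε ⟨a, ha⟩
    rw [← h1, hr, hcf]
    change Submodule.Quotient.mk ((MonoidAlgebra.single ε a).coeff ε) = _
    rw [MonoidAlgebra.coeff_single, Finsupp.single_eq_same]
  · intro δ hδ a ha
    have h1 := hv δ ⟨a, ha⟩
    rw [← h1, hr, hcf]
    change Submodule.Quotient.mk ((MonoidAlgebra.single δ a).coeff ε) = _
    rw [MonoidAlgebra.coeff_single, Finsupp.single_apply, if_neg hδ]
    rfl

/-- NGF -/
theorem ngf [Finite V] {Ω : Type} [Fintype Ω] [MulAction (V × V) Ω] {α : V →* A} {b : Ω → A}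
    {c : Ω → (A →ₗ[R] R)} (hf : FrR (bw R α) b c) {W : Subgroup V} {B : Type} [Ring B]
    [Algebra R B] (N : IsNW R α W B) :
    ∃ N' : IsNW S (bcw (S := S) (R := R) α) W (S ⊗[R] B),
      ∀ ε, N'.β ε = (N.β ε).baseChange S := by
  classical
  have : Finite (MulAut W) := Finite.of_injective (fun f => (f : W → W)) DFunLike.coe_injective
  have : Fintype (MulAut W) := Fintype.ofFinite _
  have hmul : ∀ ε δ, ∀ x ∈ FxR (bw S (bcw (S := S) (R := R) α)) (twW W ε),
      ∀ y ∈ FxR (bw S (bcw (S := S) (R := R) α)) (twW W δ),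
      (N.β (ε * δ)).baseChange S (x * y) =
        (N.β ε).baseChange S x * (N.β δ).baseChange S y := by
    intro ε δ x hx y hy
    rw [FxR_bch hf] at hx hy
    induction hx using Submodule.span_induction with
    | mem x hx =>
      obtain ⟨a, ha, rfl⟩ := hx
      induction hy using Submodule.span_induction with
      | mem y hy =>
        obtain ⟨a', ha', rfl⟩ := hy
        rw [Algebra.TensorProduct.tmul_mul_tmul, LinearMap.baseChange_tmul,
          LinearMap.baseChange_tmul, LinearMap.baseChange_tmul,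
          Algebra.TensorProduct.tmul_mul_tmul, N.mul ε δ a ha a' ha']
      | zero => rw [mul_zero, map_zero, map_zero, mul_zero]
      | add y z _ _ hy hz => rw [mul_add, map_add, map_add, mul_add, hy, hz]
      | smul r y _ hy => rw [mul_smul_comm, map_smul, map_smul, mul_smul_comm, hy]
    | zero => rw [zero_mul, map_zero, map_zero, zero_mul]
    | add y z _ _ hy hz => rw [add_mul, map_add, map_add, add_mul, hy, hz]
    | smul r y _ hy => rw [smul_mul_assoc, map_smul, map_smul, smul_mul_assoc, hy]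
  have hcf : ∀ ε, ∃ r : S ⊗[R] B →ₗ[R] S ⊗[R] (A ⧸ BKR (bw R α) (twW W ε)),
      (∀ x ∈ FxR (bw S (bcw (S := S) (R := R) α)) (twW W ε),
        r ((N.β ε).baseChange S x) = (BKR (bw R α) (twW W ε)).mkQ.lTensor S x) ∧
      ∀ δ, δ ≠ ε → ∀ x ∈ FxR (bw S (bcw (S := S) (R := R) α)) (twW W δ),
        r ((N.β δ).baseChange S x) = 0 := by
    intro ε
    obtain ⟨r, h1, h2⟩ := N.exists_cf ε
    refine ⟨r.lTensor S, ?_, ?_⟩
    · intro x hx
      rw [FxR_bch hf] at hx
      have key : ∀ s : S, ∀ x ∈ Submodule.span S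
          {x | ∃ a ∈ FxR (bw R α) (twW W ε), x = (1 : S) ⊗ₜ[R] a},
          r.lTensor S ((N.β ε).baseChange S (s • x)) =
            (BKR (bw R α) (twW W ε)).mkQ.lTensor S (s • x) := by
        intro s x hx
        induction hx using Submodule.span_induction generalizing s with
        | mem x hx =>
          obtain ⟨a, ha, rfl⟩ := hx
          rw [TensorProduct.smul_tmul', LinearMap.baseChange_tmul, LinearMap.lTensor_tmul,
            LinearMap.lTensor_tmul, h1 a ha]
          rfl
        | zero => rw [smul_zero, map_zero, map_zero, map_zero]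
        | add y z _ _ hy hz => rw [smul_add, map_add, map_add, map_add, hy, hz]
        | smul r y _ hy =>
          rw [smul_smul]
          exact hy _
      have := key 1 x hx
      rwa [one_smul] at this
    · intro δ hδ x hx
      rw [FxR_bch hf] at hx
      have key : ∀ s : S, ∀ x ∈ Submodule.span S
          {x | ∃ a ∈ FxR (bw R α) (twW W δ), x = (1 : S) ⊗ₜ[R] a},
          r.lTensor S ((N.β δ).baseChange S (s • x)) = 0 := by
        intro s x hx
        induction hx using Submodule.span_induction generalizing s with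
        | mem x hx =>
          obtain ⟨a, ha, rfl⟩ := hx
          rw [TensorProduct.smul_tmul', LinearMap.baseChange_tmul, LinearMap.lTensor_tmul,
            h2 δ hδ a ha, TensorProduct.tmul_zero]
        | zero => rw [smul_zero, map_zero, map_zero]
        | add y z _ _ hy hz => rw [smul_add, map_add, map_add, hy, hz, add_zero]
        | smul r y _ hy =>
          rw [smul_smul]
          exact hy _
      have := key 1 x hx
      rwa [one_smul] at this
  have hexact : ∀ ε (x : S ⊗[R] A), (BKR (bw R α) (twW W ε)).mkQ.lTensor S x = 0 →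
      x ∈ BKR (bw S (bcw (S := S) (R := R) α)) (twW W ε) := by
    intro ε x hx
    have he : Function.Exact (BKR (bw R α) (twW W ε)).subtype (BKR (bw R α) (twW W ε)).mkQ := by
      intro y
      rw [Submodule.mkQ_apply, Submodule.Quotient.mk_eq_zero]
      constructor
      · intro h
        exact ⟨⟨y, h⟩, rfl⟩
      · rintro ⟨z, rfl⟩
        exact z.2
    obtain ⟨z, rfl⟩ := (lTensor_exact S he (Submodule.mkQ_surjective _) x).1 hx
    induction z using TensorProduct.induction_on with
    | zero =>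
      rw [map_zero]
      exact Submodule.zero_mem _
    | tmul s a =>
      rw [LinearMap.lTensor_tmul]
      exact BKR_bch _ a.2 s
    | add y z hy hz =>
      rw [map_add]
      apply Submodule.add_mem
      · apply hy
        exact (lTensor_exact S he (Submodule.mkQ_surjective _) _).2 ⟨y, rfl⟩
      · apply hz
        exact (lTensor_exact S he (Submodule.mkQ_surjective _) _).2 ⟨z, rfl⟩
  have hker0 : ∀ ε, ∀ x ∈ BKR (bw S (bcw (S := S) (R := R) α)) (twW W ε),
      (N.β ε).baseChange S x = 0 := by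
    intro ε x hx
    have h1 : Submodule.span S {x | ∃ a ∈ BKR (bw R α) (twW W ε), x = (1 : S) ⊗ₜ[R] a} ≤
        LinearMap.ker ((N.β ε).baseChange S) := by
      apply Submodule.span_le.2
      rintro _ ⟨a, ha, rfl⟩
      rw [SetLike.mem_coe, LinearMap.mem_ker, LinearMap.baseChange_tmul,
        (N.ker ε a (BKR_le_FxR ha)).2 ha, TensorProduct.tmul_zero]
    exact h1 (BKR_bch_le hf _ hx)
  refine ⟨
    { β := fun ε => (N.β ε).baseChange S
      one := ?_
      mul := hmul
      ker := ?_
      ind := ?_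
      spn := ?_ }, fun ε => rfl⟩
  · change (N.β 1).baseChange S (1 ⊗ₜ[R] 1) = _
    rw [LinearMap.baseChange_tmul, N.one]
    rfl
  · intro ε x hx
    constructor
    · intro h
      apply hexact
      obtain ⟨r, h1, _⟩ := hcf ε
      rw [← h1 x hx, h, map_zero]
    · exact hker0 ε x
  · intro f hfx h ε
    rw [finsum_eq_sum_of_fintype] at h
    apply hker0
    apply hexact
    obtain ⟨r, h1, h2⟩ := hcf ε
    rw [← h1 _ (hfx ε)]
    have h3 := congrArg r h
    rw [map_sum, map_zero, Finset.sum_eq_single ε] at h3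
    · exact h3
    · intro δ _ hδ
      exact h2 δ hδ _ (hfx δ)
    · intro hn
      exact (hn (Finset.mem_univ ε)).elim
  · intro x
    induction x using TensorProduct.induction_on with
    | zero =>
      refine ⟨fun _ => 0, fun _ => Submodule.zero_mem _, ?_⟩
      rw [finsum_eq_sum_of_fintype]
      exact Finset.sum_eq_zero fun ε _ => map_zero _
    | tmul s y =>
      obtain ⟨f, hf1, rfl⟩ := N.spn y
      refine ⟨fun ε => s ⊗ₜ[R] f ε, ?_, ?_⟩
      · intro ε h hh
        rw [bw_bcw, hf1 ε h hh]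
      · rw [finsum_eq_sum_of_fintype, finsum_eq_sum_of_fintype, TensorProduct.tmul_sum]
        exact Finset.sum_congr rfl fun ε _ => LinearMap.baseChange_tmul _ _ _
    | add y z hy hz =>
      obtain ⟨f, hf1, hf2⟩ := hy
      obtain ⟨g, hg1, hg2⟩ := hz
      rw [finsum_eq_sum_of_fintype] at hf2 hg2
      refine ⟨fun ε => f ε + g ε, fun ε => Submodule.add_mem _ (hf1 ε) (hg1 ε), ?_⟩
      rw [finsum_eq_sum_of_fintype]
      simp only [map_add]
      rw [Finset.sum_add_distrib, hf2, hg2]

end

end Pool.Agent.PSS
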