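import Pool.Agent.PSS.DefsN
import Pool.Agent.PSS.Ngf

/-!
# Squad PSS, block S4: `N_W(A)`, the Brauer quotients `A(Q)`, the condition on the blocks

1. ORB FRB DFR RFU DRF QOR: frames, dual frames, relative Frobenius systems (any commutative ring).
2. NFR NFP NFD NRF NDF NRS TPF: the algebra `N_W(A)` (NWE, NWU: `Nwe.lean`; base change: `ngf`, `Ngf.lean`).
3. AQE AQV ADR CAS AQR AQP AQC: the algebra `A(Q)` is in the class for `C_E(Q)`.
4. FTZ BLA BLB BLW: the condition `blk` follows from the case `Q = 1`.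

Complete proofs in the docstrings.  We write `v` for `α v`.  `β` is the Brauer map.  Useful: `Nwe.lean`
(`FxR_range`, `BKR_range`, `BKR_map`, `BKR_hom`, `BKR_le_FxR`, `exists_prj`, `mem_tw`, `BK_mulL`,
`IsNW.exists_hom`), `DefsN.lean` (`mem_cw`, `al_mem_cw`, `qmk_eq`, `smul_qmk`).
-/

open scoped BigOperators TensorProduct

noncomputable section

namespace Pool.Agent.PSS

open Pool.Agent.PFC (tw IsTv)
open Pool.Agent.PFD.D2b (FrR)

/-! ## 1. Frames -/

/-- ORB: the sum of an equivariant function is the sum over the fixed points modulo the Brauer kernel.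

Proof.  The sum over an orbit of `P` on `K` which is not a fixed point, with the point `k`: for every `k'` of the
orbit choose `x k'` in `P` with `x k' • k = k'`; `S` = the set of these elements is a transversal of the
stabiliser `P' < P` of `k`, and the sum is `∑_(x ∈ S) ρ x (f k)`, `f k ∈ FxR ρ P'`.  Sum over the orbits
(`Finset.sum_fiberwise` for the quotient `MulAction.orbitRel.Quotient P K`); the orbit of a fixed point is a
point. -/
def OrbStmt : Prop := ∀ (R P K M : Type) [CommRing R] [Group P] [Finite P] [Fintype K]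
  [MulAction P K] [AddCommGroup M] [Module R M] (ρ : P →* (M →ₗ[R] M)) (f : K → M),
  (∀ p k, f (p • k) = ρ p (f k)) →
  ∑ k, f k - ∑ k : Fp K (⊤ : Subgroup P), f k.1 ∈ BKR ρ ⊤

/-- FRB: frames and Brauer kernels in characteristic `ℓ`.

Proof.  (1) For a trace `m = ∑_(x ∈ S) ρ x m'` from `P' < P`: `c ω (ρ x m') = c (x • ω) (ρ x m') = c ω m'`, so
`c ω m = |S| c ω m'`, and `|S| = |P : P'|` is divisible by `ℓ`.  (2) ORB for the group `P` (restrict `ρ` to `P`;
`BKR_range` for `P.subtype`) and `f ω = c ω m • b ω`. -/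
def FrbStmt : Prop := ∀ (ℓ : ℕ) [Fact ℓ.Prime] (R H M Ω : Type) [CommRing R] [Group H]
  [AddCommGroup M] [Module R M] [Fintype Ω] [MulAction H Ω] (ρ : H →* (M →ₗ[R] M)) (b : Ω → M)
  (c : Ω → (M →ₗ[R] R)) (P : Subgroup H), (ℓ : R) = 0 → IsPGroup ℓ P → Finite P →
  FrR ρ b c →
  (∀ ω, P ≤ MulAction.stabilizer H ω → ∀ m ∈ BKR ρ P, c ω m = 0) ∧
  ∀ m ∈ FxR ρ P, m - ∑ ω : Fp Ω P, c ω.1 m • b ω.1 ∈ BKR ρ P

/-- RFU: the relative trace depends only on the form.

Proof.  `E a = ∑_v lam (v⁻¹ a) v = ∑_v lam (a v⁻¹) v`.  `e1` (both systems): `a = ∑_k x k * E (y k * a)`; `e2`: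
`a = ∑_k E (a * x k) * y k`.  So `∑_k x_k z y_k = ∑_k ∑_k' x'_k' E(y'_k' x_k) z y_k = ∑_k' x'_k' z
∑_k E(y'_k' x_k) y_k = ∑_k' x'_k' z y'_k'`, since `z` commutes with `V`. -/
def RfuStmt : Prop := ∀ (R V A K K' : Type) [CommRing R] [CommGroup V] [Fintype V] [Ring A]
  [Algebra R A] [Fintype K] [Fintype K'] (α : V →* A) (lam : A →ₗ[R] R) (x y : K → A)
  (x' y' : K' → A), RF R α lam x y → RF R α lam x' y' → ∀ z ∈ FxR (cw R α) ⊤,
  ∑ k, x k * z * y k = ∑ k, x' k * z * y' k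

/-- DFR: the dual frame.

Proof.  `d ω = ∑_k ∑_v c ω (x k * v) • (v⁻¹ * y k)`; by `e1`, `lam (d ω * a) = c ω a`.  `lam` is nondegenerate: if
`lam (a * a') = 0` for all `a'` then `a = 0` by `e2`.  `ed`: `lam (d (g ω) a) = c (g ω) a = c ω (g⁻¹ a) =
lam (d ω * (u⁻¹ a v)) = lam ((v * d ω * u⁻¹) * a)` for `g = (u, v)`.  `fl`, `fr`: the stabiliser of `ω` is
`tw (φ e) S = {(φ e s, s)}`, it meets `V × 1` and `1 × V` only in `1`. -/
def DfrStmt : Prop := ∀ (R V E A K Ω : Type) [CommRing R] [CommGroup V] [Fintype V] [Group E]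
  [Ring A] [Algebra R A] [Fintype K] [Fintype Ω] [MulAction (V × V) Ω] (φ : E →* MulAut V)
  (α : V →* A) (lam : A →ₗ[R] R) (x y : K → A) (b : Ω → A) (c : Ω → (A →ₗ[R] R)),
  RF R α lam x y → FrR (bw R α) b c →
  (∀ ω : Ω, ∃ (e : E) (S : Subgroup V),
    MulAction.stabilizer (V × V) ω = tw (φ e).toMonoidHom S) →
  ∃ d : Ω → A, (∀ ω a, c ω a = lam (d ω * a)) ∧ DFr R α lam b d

/-- DRF: the relative Frobenius system of a dual frame, indexed by the orbits of `1 × V`.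

Proof.  `V × Qt Ω → Ω`, `(v, k) ↦ (1, v) • k.rep`, is bijective (`fr`).  `e1`: `a = ∑_ω lam (d ω * a) • b ω =
∑_k ∑_v lam (v * d k.rep * a) • (b k.rep * v⁻¹)`.  Nondegeneracy: if `lam (a * a') = 0` for all `a'`, then
`a = ∑ lam (d ω * a) • b ω = 0` (`sym`).  `e2` follows: for all `a'`, `lam ((∑_k ∑_v lam (a x_k v) v⁻¹ y_k) a') =
lam (a * ∑_k ∑_v lam (v⁻¹ y_k a') x_k v) = lam (a a')`. -/
def DrfStmt : Prop := ∀ (R V A Ω : Type) [CommRing R] [CommGroup V] [Fintype V] [Ring A]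
  [Algebra R A] [Fintype Ω] [MulAction (V × V) Ω] (α : V →* A) (lam : A →ₗ[R] R) (b d : Ω → A),
  DFr R α lam b d →
  RF R α lam (fun k : Qt (V := V) Ω => b k.rep) (fun k : Qt (V := V) Ω => d k.rep)

/-- QOR: only the orbits of `1 × V` which are fixed by `Q` contribute to the relative trace.

Proof.  ORB for the group `Q`, acting on `Qt Ω` by `q • k = (q, 1) • k`, and `f k = b k.rep * z * d k.rep`.  For all
`ω`: `f (qmk ω) = b ω * z * d ω` as `z` commutes with `V` (`eb`, `ed` for `(1, v)`); so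
`f (q • k) = q * f k * q⁻¹`.  (`BKR_map` or `BKR_range` for `Q.subtype`.) -/
def QorStmt : Prop := ∀ (R V A Ω : Type) [CommRing R] [CommGroup V] [Fintype V] [Ring A]
  [Algebra R A] [Fintype Ω] [MulAction (V × V) Ω] (α : V →* A) (lam : A →ₗ[R] R) (b d : Ω → A),
  DFr R α lam b d → ∀ Q : Subgroup V, ∀ z ∈ FxR (cw R α) ⊤,
  ∑ k : Qt (V := V) Ω, b k.rep * z * d k.rep -
    ∑ k : Fp (Qt (V := V) Ω) (Q.prod (⊥ : Subgroup V)), b k.1.rep * z * d k.1.rep ∈
    BKR (cw R α) Q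

/-! ## 2. The algebra `N_W(A)` -/

/-- NFR: the frame of `N_W(A)`: index set: pairs of `ε` and of a point fixed by `twW W ε`.

Proof.  Existence of `c'`: `IsNW.exists_hom`: the linear map `f ↦ (c ω (f ε))` on `gsub` kills `gidl` (FRB (1),
`twW W ε` is an `ℓ`-group), so it factors through `B`.  Equations of `FrR`: every element of `B` is a sum of
elements `β δ a`, `a` fixed by `twW W δ`; `u * β δ a * v⁻¹ = β δ (u * a * v⁻¹)`;
`∑_t c' t (β δ a) • b' t = β δ (∑_(ω fixed by twW W δ) c ω a • b ω) = β δ a` by FRB (2). -/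
def NfrStmt : Prop := ∀ (ℓ : ℕ) [Fact ℓ.Prime] (R V A B Ω : Type) [CommRing R] [CommGroup V]
  [Fintype V] [Ring A] [Algebra R A] [Ring B] [Algebra R B] [Fintype Ω] [MulAction (V × V) Ω]
  (α : V →* A) (b : Ω → A) (c : Ω → (A →ₗ[R] R)) (W : Subgroup V) (N : IsNW R α W B)
  [Fintype (Σ ε : MulAut W, Fp Ω (twW W ε))], (ℓ : R) = 0 → IsPGroup ℓ V → FrR (bw R α) b c →
  ∃ c' : (Σ ε : MulAut W, Fp Ω (twW W ε)) → (B →ₗ[R] R),
    (∀ t, ∀ a ∈ FxR (bw R α) (twW W t.1), c' t (N.β t.1 a) = c t.2.1 a) ∧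
    (∀ t δ, δ ≠ t.1 → ∀ a ∈ FxR (bw R α) (twW W δ), c' t (N.β δ a) = 0) ∧
    FrR (bw R N.nwh) (fun t => N.β t.1 (b t.2.1)) c'

/-- NFP: permutation frame and units of `N_W(A)`.

Proof.  NFR; the stabiliser of `(ε, ω)` is the stabiliser of `ω`.  Units: `y` with `y v = φ e (v) y` is fixed by
`twW W ε`, `ε` = the restriction of `φ e` to `W` (an automorphism, as `W` is finite and `E`-stable), and `β ε y`,
`β ε⁻¹ y'` are inverse to each other. -/
def NfpStmt : Prop := ∀ (ℓ : ℕ) [Fact ℓ.Prime] (R V E A B : Type) [CommRing R] [CommGroup V]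
  [Fintype V] [Group E] [Ring A] [Algebra R A] [Ring B] [Algebra R B] (φ : E →* MulAut V)
  (α : V →* A) (W : Subgroup V) (N : IsNW R α W B), (ℓ : R) = 0 → IsPGroup ℓ V →
  (∀ e : E, ∀ w ∈ W, φ e w ∈ W) → Per R φ α → Uni φ α → Per R φ N.nwh ∧ Uni φ N.nwh

/-- NFD: the dual frame of `N_W(A)`.

Proof.  `lam'`: NFR-like: the linear map `f ↦ lam (f 1)` on `gsub` kills `gidl`: `lam` of a trace from `P' < twW W 1`
is `|P : P'|` times a value of `lam`.  `sym`: on `β ε a`, `β δ a'`; both sides are zero unless `ε δ = 1`.  `eb`, `ed`: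
`mul`.  `d ω` is fixed by `twW W ε⁻¹` if `ω` is fixed by `twW W ε`: for `w`, `(ε w, w) • ω = ω` gives
`d ω = w * d ω * (ε w)⁻¹`.  `sum`: for `a` fixed by `twW W δ`: `∑_((ε, ω)) lam' (β ε⁻¹ (d ω) * β δ a) • β ε (b ω) =
β δ (∑_(ω fixed) lam (d ω * a) • b ω) = β δ a` by FRB (2) with `c ω a = lam (d ω * a)`. -/
def NfdStmt : Prop := ∀ (ℓ : ℕ) [Fact ℓ.Prime] (R V A B Ω : Type) [CommRing R] [CommGroup V]
  [Fintype V] [Ring A] [Algebra R A] [Ring B] [Algebra R B] [Fintype Ω] [MulAction (V × V) Ω]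
  (α : V →* A) (lam : A →ₗ[R] R) (b d : Ω → A) (W : Subgroup V) (N : IsNW R α W B)
  [Fintype (Σ ε : MulAut W, Fp Ω (twW W ε))], (ℓ : R) = 0 → IsPGroup ℓ V → DFr R α lam b d →
  ∃ lam' : B →ₗ[R] R,
    (∀ a ∈ FxR (bw R α) (twW W 1), lam' (N.β 1 a) = lam a) ∧
    DFr R N.nwh lam' (fun t : Σ ε : MulAut W, Fp Ω (twW W ε) => N.β t.1 (b t.2.1))
      (fun t => N.β t.1⁻¹ (d t.2.1))

/-- NRF: the relative Frobenius system of `N_W(A)`; its Casimir element is `β 1 (∑ x y)`.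

Proof.  DFR: dual frame `b`, `d` of `A`; by DRF, RFU: `∑ x y = ∑_(k : Qt Ω) b k.rep * d k.rep`, which is the sum over
the orbits fixed by `W × 1` modulo `BKR (cw) W = BKR (bw) (twW W 1)` (QOR, `z = 1`; `BKR_range` for both
embeddings of `W`).  NFD, DRF: the relative Frobenius system of `B` indexed by the `1 × V`-orbits of
`Σ ε, Fp Ω (twW W ε)`.  The map `(ε, ω) ↦ ω` induces a bijection of these orbits with the orbits of `1 × V` on
`Ω` which are fixed by `W × 1`: injective as `ε` is determined by `ω` (`fl`); surjective: if the orbit of `ω` is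
fixed by `W × 1`, and the stabiliser of `ω` is `tw (φ e) S`, then for `w ∈ W` there is `v` with
`(w, v) ∈ tw (φ e) S`: `w = φ e v`, `v ∈ S`; so `W ≤ φ e (S)`, `φ e⁻¹ W = W ≤ S`, and `twW W ε ≤ tw (φ e) S` for `ε` =
the restriction of `φ e`. -/
def NrfStmt : Prop := ∀ (ℓ : ℕ) [Fact ℓ.Prime] (R V E A B K : Type) [CommRing R] [CommGroup V]
  [Fintype V] [Group E] [Ring A] [Algebra R A] [Ring B] [Algebra R B] [Fintype K]
  (φ : E →* MulAut V) (α : V →* A) (W : Subgroup V) (N : IsNW R α W B) (lam : A →ₗ[R] R)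
  (x y : K → A), (ℓ : R) = 0 → IsPGroup ℓ V → (∀ e : E, ∀ w ∈ W, φ e w ∈ W) → Per R φ α →
  RF R α lam x y →
  ∃ (lam' : B →ₗ[R] R) (K' : Type) (_ : Fintype K') (x' y' : K' → B),
    RF R N.nwh lam' x' y' ∧ ∑ k, x' k * y' k = N.β 1 (∑ k, x k * y k)

/-- NDF: `N_W` of a deformation is a deformation of `N_W`.

`R₀ = R/p` and `R` have characteristic `ℓ`, `A'` is a deformation of `A` relative to the group `V`.

Proof.  Frame `(b, c)` of `A'`, and its reduction `(b₀, c₀)`: `b₀ ω = q (b ω)`, `c₀ ω (q x) = κ (c ω x)`.  The additive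
map `Q : B' → B` with `Q (β' ε a) = β ε (q a)` for fixed `a`: as `q` maps fixed vectors to fixed vectors and
`BKR` to `BKR` (on generators; `q (r • x) = κ r • q x`), it exists by `IsNW.exists_hom` for `B'` (additive version).
It is a ring homomorphism (check on generators), `Q (algebraMap r) = algebraMap (κ r)`.  Surjective: a fixed
vector `a` of `A` is `∑ c₀ ω a • b₀ ω` with coefficients which are constant on the orbits of `twW W ε`; lift them to
`R`, constant on the orbits.  Kernel: `x = ∑_t c' t x • b' t` (NFR for `B'`), and `κ (c' t x) = c₀' t (Q x)` (check on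
generators), so `Q x = 0` gives `c' t x = p s_t`, `x = p ∑ s_t • b' t`.  `per`: NFR for `B'`. -/
def NdfStmt : Prop := ∀ (ℓ : ℕ) [Fact ℓ.Prime] (R R₀ V A A' B B' : Type) [CommRing R]
  [CommRing R₀] [CommGroup V] [Fintype V] [Ring A] [Algebra R₀ A] [Ring A'] [Algebra R A']
  [Ring B] [Algebra R₀ B] [Ring B'] [Algebra R B'] (p : R) (κ : R →+* R₀) (α : V →* A)
  (α' : V →* A') (W : Subgroup V) (N : IsNW R₀ α W B) (N' : IsNW R α' W B')
  (D : Df p κ α α'), (ℓ : R) = 0 → IsPGroup ℓ V → Red p κ →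
  ∃ D' : Df p κ N.nwh N'.nwh, ∀ ε, ∀ a ∈ FxR (bw R α') (twW W ε), D'.q (N'.β ε a) = N.β ε (D.q a)

/-- NRS: restriction from `V` to `V' ≥ W`.

Proof.  `s : W.subgroupOf V' ≃* W` (`Subgroup.subgroupOfEquivOfLe`).  `β' ε' = β (s ε' s⁻¹)`; the conditions
`mem_tw` for `ε'` and for `s ε' s⁻¹` are the same; so are the Brauer kernels (`BKR_map` for
`V' × V' → V × V`).  The sums over `MulAut` correspond by the bijection `ε' ↦ s ε' s⁻¹`. -/
def NrsStmt : Prop := ∀ (R V A B : Type) [CommRing R] [CommGroup V] [Finite V] [Ring A]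
  [Algebra R A] [Ring B] [Algebra R B] (α : V →* A) (W V' : Subgroup V) (N : IsNW R α W B),
  W ≤ V' → ∃ N' : IsNW R (α.comp V'.subtype) (W.subgroupOf V') B,
    ∀ v : V', N'.nwh v = N.nwh v

/-- DZF: the export E1 of block S1 (helper36): the dimension of the centre of the generic fibre of a deformation
over `F⟦X⟧` relative to `W'`, `V = Y × W'`, `Y` cyclic. -/
def DzfStmt : Prop := ∀ (ℓ : ℕ) [Fact ℓ.Prime] (F V E A A' F' : Type) [Field F] [IsAlgClosed F]
  [CharP F ℓ] [CommGroup V] [Fintype V] [Group E] [Fintype E] [Ring A] [Algebra F A] [Ring A']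
  [Algebra (PowerSeries F) A'] [Field F'] [Algebra (PowerSeries F) F']
  (φ : E →* MulAut V) (α : V →* A) (Y W' : Subgroup V) (α' : W' →* A'),
  IsPGroup ℓ V → Cyf φ Y W' → FiniteDimensional F A → Per F φ α →
  (∃ (lam : A →ₗ[F] F) (K : Type) (_ : Fintype K) (x y : K → A), RF F α lam x y ∧
    ∃ u : A, u * ∑ k, x k * y k = 1) →
  Df (PowerSeries.X : PowerSeries F) PowerSeries.constantCoeff (α.comp W'.subtype) α' →
  Function.Injective (algebraMap (PowerSeries F) F') →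
  Module.finrank F' (Subalgebra.center F' (F' ⊗[PowerSeries F] A')) =
    Module.finrank F (Subalgebra.center F A)

/-- TPF: TOP of S4: `dim Z` of the generic fibre of `N_W`.

Proof.  `R = F⟦X⟧`.  NRS: `N₁ : IsNW F (α|W') (W.subgroupOf W') B`.  NWE for the frame of `A'` (`Df.per`):
`N' : IsNW R α' (W.subgroupOf W') B'`.  NDF (group `W'`): `Df X constantCoeff N₁.nwh N'.nwh`, and
`N₁.nwh = N.nwh|W'`.  NFP, NRF: `B` has a frame and a relative Frobenius system over `V` with a unit as Casimir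
element (`β 1 ζ β 1 u = 1`: `u` is central, `ζ` and `u` are in `FxR`), and it is finite-dimensional (`spn`).  DZF for `B`, `N.nwh`
and `B'`: `dim Z(F' ⊗ B') = dim Z(B)`.  `ngf` (`Ngf.lean`): `IsNW F' (bcw α') (W.subgroupOf W') (F' ⊗ B')`. -/
def TpfStmt : Prop := ∀ (ℓ : ℕ) [Fact ℓ.Prime] (F V E A A' B F' : Type) [Field F] [IsAlgClosed F]
  [CharP F ℓ] [CommGroup V] [Fintype V] [Group E] [Fintype E] [Ring A] [Algebra F A] [Ring A']
  [Algebra (PowerSeries F) A'] [Ring B] [Algebra F B] [Field F'] [Algebra (PowerSeries F) F']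
  (φ : E →* MulAut V) (α : V →* A) (Y W' W : Subgroup V) (α' : W' →* A'),
  IsPGroup ℓ V → Cyf φ Y W' → W ≤ W' → (∀ e : E, ∀ w ∈ W, φ e w ∈ W) → Cl F φ α →
  IsNW F α W B →
  Df (PowerSeries.X : PowerSeries F) PowerSeries.constantCoeff (α.comp W'.subtype) α' →
  Function.Injective (algebraMap (PowerSeries F) F') →
  ∃ (B' : Type) (_ : Ring B') (_ : Algebra F' B')
    (_ : IsNW F' (bcw (R := PowerSeries F) (S := F') α') (W.subgroupOf W') B'),
    Module.finrank F' (Subalgebra.center F' B') = Module.finrank F (Subalgebra.center F B)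

/-! ## 3. The algebra `A(Q)` -/

/-- AQE: existence of the Brauer quotient.

Proof.  As NWE: the subalgebra `FxR (cw) Q` of `A` (the centraliser of `α '' Q`), its two-sided ideal `BKR (cw) Q`,
and the projection of `exists_prj` (frame for `cw`: restrict the frame to the diagonal). -/
def AqeStmt : Prop := ∀ (R V A Ω : Type) [CommRing R] [CommGroup V] [Fintype V] [Ring A]
  [Algebra R A] [Fintype Ω] [MulAction (V × V) Ω] (α : V →* A) (b : Ω → A)
  (c : Ω → (A →ₗ[R] R)) (Q : Subgroup V), FrR (bw R α) b c →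
  ∃ (B : Type) (_ : Ring B) (_ : Algebra R B), Nonempty (IsAQ R α Q B)

/-- AQV: fixed vectors of `V` in `A(Q)` lift.  `Q ≤ Q'`: the elements of `A(Q)` which commute with `Q'` are the images
of the elements of `A` which commute with `Q'`, and the Brauer kernels of `Q'` correspond to each other.

Proof.  `Δ(Q)` = the diagonal subgroup.  (1) Let `β a` commute with `Q'`, `a ∈ FxR (cw) Q`.  `a' = ∑_(ω fixed by
Δ(Q)) c ω a • b ω`, `β a' = β a` (FRB (2)).  For `q ∈ Q'`: `q a q⁻¹ - a ∈ BKR (cw) Q`, so `c ω a = c ω (q a q⁻¹) =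
c (q⁻¹ ω) a` for `ω` fixed by `Δ(Q)` (FRB (1)); so `a'` commutes with `Q'`.  (2) `a ∈ FxR (cw R α) Q'`.  If `a ∈ BKR
(cw R α) Q'` then `β a ∈ BKR (cw R N.aqh) Q'`: a trace from `P' < Q'` of `m`: if `Q ≤ P'` then `β` of the trace is
the trace of `β m`; otherwise the trace is in `BKR (cw) Q` (`V` is abelian: it is a sum of traces from `P' ⊓ Q` to
`Q`), or by coordinates: FRB.  Conversely let `β a ∈ BKR (cw R N.aqh) Q'`.  The frame `β (b ω)`, `ω` fixed by
`Δ(Q)`, with the coordinates `c'_ω (β a) = c ω a` (as NFR) of `A(Q)`: FRB (1) for it gives `c ω a = 0` for all `ω` fixed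
by `Δ(Q')`; FRB (2) for `A`: `a ∈ BKR (cw R α) Q'`.  (The same argument with FRB (1) for `A` and FRB (2) for `A(Q)`
gives the first direction.) -/
def AqvStmt : Prop := ∀ (ℓ : ℕ) [Fact ℓ.Prime] (R V A B Ω : Type) [CommRing R] [CommGroup V]
  [Fintype V] [Ring A] [Algebra R A] [Ring B] [Algebra R B] [Fintype Ω] [MulAction (V × V) Ω]
  (α : V →* A) (b : Ω → A) (c : Ω → (A →ₗ[R] R)) (Q Q' : Subgroup V) (N : IsAQ R α Q B),
  (ℓ : R) = 0 → IsPGroup ℓ V → FrR (bw R α) b c → Q ≤ Q' →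
  (∀ x ∈ FxR (cw R N.aqh) Q', ∃ a ∈ FxR (cw R α) Q', N.β a = x) ∧
  ∀ a ∈ FxR (cw R α) Q', N.β a ∈ FxR (cw R N.aqh) Q' ∧
    (N.β a ∈ BKR (cw R N.aqh) Q' ↔ a ∈ BKR (cw R α) Q')

/-- ADR: the dual frame of `A(Q)`: the points which are fixed by the diagonal `tw id Q`.

Proof.  As NFR, NFD (only the degree `1`). -/
def AdrStmt : Prop := ∀ (ℓ : ℕ) [Fact ℓ.Prime] (R V A B Ω : Type) [CommRing R] [CommGroup V]
  [Fintype V] [Ring A] [Algebra R A] [Ring B] [Algebra R B] [Fintype Ω] [MulAction (V × V) Ω]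
  (α : V →* A) (lam : A →ₗ[R] R) (b d : Ω → A) (Q : Subgroup V) (N : IsAQ R α Q B),
  (ℓ : R) = 0 → IsPGroup ℓ V → DFr R α lam b d →
  ∃ lam' : B →ₗ[R] R, (∀ a ∈ FxR (cw R α) Q, lam' (N.β a) = lam a) ∧
    DFr R N.aqh lam' (fun ω : Fp Ω (tw (MonoidHom.id V) Q) => N.β (b ω.1))
      (fun ω => N.β (d ω.1))

/-- CAS: for every `g ∈ E` the sum of the `b ω * d ω` over the orbits of `1 × V` which are fixed by the elements
`(q, φ g⁻¹ q)`, `q ∈ Q`, has the same image in `A(Q)`, namely the Casimir element of `A(Q)`.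

Proof.  `y`, `y'` the units for `g` (`y v = φ g (v) y`).  `V × V` acts on `Ω` also by `(u, v) * ω = (u, φ g⁻¹ v) • ω`
(call this set `Ω'`, a type synonym), and `b' ω = b ω * y'`, `d' ω = y * d ω` is a dual frame for this action:
`b' ((u, v) * ω) = u b ω (φ g⁻¹ v)⁻¹ y' = u (b ω y') v⁻¹`; `∑ lam (y d ω a) b ω y' = (∑ lam (d ω (a y)) b ω) y' = a`.  ADR and
DRF for both frames: two relative Frobenius systems of `A(Q)` for the same form `lam'` (`lam'` is determined by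
its values on the `β a`), indexed by the orbits of `1 × V` on the points which are fixed by the `(q, q)`, for the
two actions; RFU (`z = 1`).  The orbits of `1 × V` are the same for both actions, and `b' ω * d' ω = b ω * d ω`; the
sum over the orbits of `Fp` is the sum over the orbits of `Ω` which satisfy the condition (`k.rep` may be replaced
by every other point of the orbit, as `b ω * d ω` depends only on the orbit). -/
def CasStmt : Prop := ∀ (ℓ : ℕ) [Fact ℓ.Prime] (R V E A B Ω : Type) [CommRing R] [CommGroup V]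
  [Fintype V] [Group E] [Ring A] [Algebra R A] [Ring B] [Algebra R B] [Fintype Ω]
  [MulAction (V × V) Ω] (φ : E →* MulAut V) (α : V →* A) (lam : A →ₗ[R] R) (b d : Ω → A)
  (Q : Subgroup V) (N : IsAQ R α Q B), (ℓ : R) = 0 → IsPGroup ℓ V → Uni φ α →
  DFr R α lam b d →
  ∃ (lam' : B →ₗ[R] R) (K : Type) (_ : Fintype K) (x y : K → B), RF R N.aqh lam' x y ∧
    (∀ a ∈ FxR (cw R α) Q, lam' (N.β a) = lam a) ∧
    ∀ g : E, ∑ᶠ k : {k : Qt (V := V) Ω // ∀ q ∈ Q, ((q, φ g⁻¹ q) : V × V) • k.rep = k.rep},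
      N.β (b k.1.rep * d k.1.rep) = ∑ k, x k * y k

/-- AQR: the Casimir element of `A(Q)` is, up to the index of `C_E(Q)`, the image of the Casimir element of `A`.

Proof.  Frame and dual frame (DFR), CAS.  `∑ x y = ∑_(k : Qt Ω) b k.rep * d k.rep` (DRF, RFU), by QOR its image in `A(Q)`
is the sum over the orbits `k` which are fixed by `Q × 1`.  For such a `k` with stabiliser `tw (φ e) S` of `k.rep`:
`(q, v)` fixes `k.rep` for some `v` (`qmk_eq`), so `q = φ e v`, `v = φ e⁻¹ q`: `k` satisfies the condition of CAS for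
`g = e`; and it satisfies it exactly for the `g` with `φ g⁻¹ q = φ e⁻¹ q` for all `q ∈ Q` (`fr`), i.e. `g ∈ C_E(Q) e`:
`|C_E(Q)|` elements.  So `∑_(g ∈ E)` of CAS is `|C_E(Q)| β (∑ x y) = |E| ∑ x' y'`. -/
def AqrStmt : Prop := ∀ (ℓ : ℕ) [Fact ℓ.Prime] (R V E A B K : Type) [CommRing R] [CommGroup V]
  [Fintype V] [Group E] [Fintype E] [Ring A] [Algebra R A] [Ring B] [Algebra R B] [Fintype K]
  (φ : E →* MulAut V) (α : V →* A) (lam : A →ₗ[R] R) (x y : K → A)
  (Q : Subgroup V) (N : IsAQ R α Q B), (ℓ : R) = 0 → IsPGroup ℓ V → Uni φ α → Per R φ α →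
  RF R α lam x y →
  ∃ (lam' : B →ₗ[R] R) (K' : Type) (_ : Fintype K') (x' y' : K' → B), RF R N.aqh lam' x' y' ∧
    (∀ a ∈ FxR (cw R α) Q, lam' (N.β a) = lam a) ∧
    Nat.card (CE φ Q) • N.β (∑ k, x k * y k) = Nat.card E • ∑ k, x' k * y' k

/-- AQP: frame and units of `A(Q)` for `C_E(Q)`.

Proof.  As NFR, NFP in degree `1`: if `tw id Q` is contained in `tw (φ e) S` then `Q ≤ S` and `φ e q = q` for `q ∈ Q`, so
`e ∈ C_E(Q)`. -/
def AqpStmt : Prop := ∀ (ℓ : ℕ) [Fact ℓ.Prime] (R V E A B : Type) [CommRing R] [CommGroup V]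
  [Fintype V] [Group E] [Ring A] [Algebra R A] [Ring B] [Algebra R B] (φ : E →* MulAut V)
  (α : V →* A) (Q : Subgroup V) (N : IsAQ R α Q B), (ℓ : R) = 0 → IsPGroup ℓ V → Per R φ α →
  Uni φ α → Per R (φ.comp (CE φ Q).subtype) N.aqh ∧ Uni (φ.comp (CE φ Q).subtype) N.aqh

/-! ## 4. The condition on the blocks -/

/-- FTZ: a central element of a subspace without nonzero central idempotents is nilpotent.

Proof.  Minimal polynomial of `z` over `F`: `X ^ n * q`, `q 0 ≠ 0`; `s X ^ n + r q = 1`; `e = s(z) z ^ n` is a central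
idempotent in `I` (for `n = 0`: `z` is a unit, `1 = z * z⁻¹ ∈ I`, `z⁻¹` a polynomial in `z`, so `1 = 0`; or take
`n ≥ 1`), and `z ^ n = z ^ n * e = 0`. -/
def FtzStmt : Prop := ∀ (F A : Type) [Field F] [Ring A] [Algebra F A], FiniteDimensional F A →
  ∀ I : Submodule F A, (∀ z ∈ I, ∀ a, (∀ x, a * x = x * a) → a * z ∈ I) →
  (∀ e ∈ I, e * e = e → (∀ a, e * a = a * e) → e = 0) →
  ∀ z ∈ I, (∀ a, z * a = a * z) → IsNilpotent z

/-- The local datum of a violation of `blk`: `e` is a trace from `R < V` of `m`, a central idempotent modulo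
`BKR (cw) R`, invariant under `N_E(R)`, and not zero. -/
structure BadE (F : Type) {V E A : Type} [Field F] [CommGroup V] [Group E] [Ring A] [Algebra F A]
    (φ : E →* MulAut V) (α : V →* A) (R : Subgroup V) (e m : A) (S : Finset V) : Prop where
  lt : R ≠ ⊤
  fx : e ∈ FxR (cw F α) ⊤
  tv : IsTv R ⊤ S
  fm : m ∈ FxR (cw F α) R
  tr : e = ∑ s ∈ S, cw F α s m
  id : e * e - e ∈ BKR (cw F α) R
  cn : ∀ a ∈ FxR (cw F α) R, e * a - a * e ∈ BKR (cw F α) R
  inv : ∀ g ∈ NE φ R, ∀ y y' : A, y * y' = 1 → y' * y = 1 → (∀ u, y * α u = α (φ g u) * y) →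
    y * e * y' - e ∈ BKR (cw F α) R
  nb : e ∉ BKR (cw F α) R

/-- BLA: a violation of `blk` gives a local datum.

Proof.  Let `e`, `Q` be the violation.  Frame `(Ω, b, c)`.

(1) For `Q ≤ R`: `BKR (cw) Q ⊓ FxR (cw) R ≤ BKR (cw) R` (FRB for the diagonal subgroups `tw id Q ≤ tw id R`: the
coordinates at the points fixed by `tw id R`, which are also fixed by `tw id Q`, vanish).  Choose `R ≥ Q` maximal
with `e ∉ BKR (cw) R` (`Q` is such a subgroup, `⊤` is not).  By (1), `e * e - e` and `e * a - a * e`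
(`a ∈ FxR (cw) R`) are in `BKR (cw) R`, and `e ∈ BKR (cw) R'` for all `R' > R`.

(2) `N = N_E(R)`; for `h ∈ N` units `y_h`, `y_h'`, `e_h = y_h e y_h'`.  `e_h` commutes with `V`, and modulo
`BKR (cw) R` (a two-sided ideal of `FxR (cw) R`) it is a central idempotent (`x ↦ y_h x y_h'` maps `FxR (cw) R` onto
itself and `BKR (cw) R` onto itself) which depends only on `h` (two choices of `y_h` differ by a unit of
`FxR (cw) ⊤`, and `e` is central modulo `BKR (cw) R`).  `e⁺ = 1 - ∏_(h ∈ N) (1 - e_h)` (a product in some order, over a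
list): it commutes with `V`; modulo `BKR (cw) R` it is a central idempotent, `e⁺ e = e`, so `e⁺ ∉ BKR (cw) R`;
`y_h e⁺ y_h' = e⁺` for `h ∈ N` (the factors `1 - e_g` commute modulo `BKR (cw) R`, and are permuted);
`e⁺ ∈ BKR (cw) R'` for all `R' > R` (`1 - ∏ (1 - e_h)` is in the ideal generated by the `e_h` in `FxR (cw) ⊤`, and
`e_h ∈ BKR (cw) R'` because `e ∈ BKR (cw) (φ h⁻¹ R')`, `φ h⁻¹ R' > R`).

(3) `e⁰ = ∑_(ω fixed by tw id R) c ω e⁺ • b ω` commutes with `V`, `e⁰ - e⁺ ∈ BKR (cw) R` (FRB (2)), and it is a trace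
`∑_(s ∈ S) s m s⁻¹`, `m ∈ FxR (cw) R`: `V` acts on the points fixed by `tw id R` by `v ω = (v, v) • ω`, the function
`ω ↦ c ω e⁺ • b ω` is equivariant, and the points with `c ω e⁺ ≠ 0` have the stabiliser `R` in `V` (if `R' > R` fixes
`ω` then `c ω e⁺ = 0` by FRB (1) for `R'`); `m` = the sum over representatives of the `V`-orbits of these points. -/
def BlaStmt : Prop := ∀ (ℓ : ℕ) [Fact ℓ.Prime] (F V E A : Type) [Field F] [CharP F ℓ]
  [CommGroup V] [Fintype V] [Group E] [Fintype E] [Ring A] [Algebra F A] (φ : E →* MulAut V)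
  (α : V →* A), IsPGroup ℓ V → Per F φ α → Uni φ α → ∀ (Q : Subgroup V) (e : A),
  e ∈ FxR (cw F α) ⊤ → e * e - e ∈ BKR (cw F α) Q →
  (∀ a ∈ FxR (cw F α) Q, e * a - a * e ∈ BKR (cw F α) Q) →
  e ∈ BKR (cw F α) ⊤ → e ∉ BKR (cw F α) Q →
  ∃ (R : Subgroup V) (e' m : A) (S : Finset V), BadE F φ α R e' m S

/-- BLB: a local datum gives a central element in `BKR (cw) ⊤` which is not nilpotent.

Proof.  Frame, dual frame `(Ω, b, d)` (DFR).  `B = A(R)`, `β` (AQE), `f = β e`.  `ζ = ∑ x y`, central (`RF`: for `a`,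
`∑ a x_k ⊗ y_k = ∑ x_k ⊗ y_k a` over `F V`), `u ζ = 1`, `u` is central.  `z = u * ∑_(k : Qt Ω) b k.rep * e * d k.rep`: it
is central, because `e` commutes with `V` (same computation, DRF).

(1) `y e y' ∈ BKR (cw) R` for the units `y`, `y'` for `g ∉ N_E(R)`: it is the trace from `φ g R` to `V` of `y m y'`; as
`V` is abelian, it is a sum of traces from `R ⊓ φ g R < R` to `R`.  In the same way `y e y' ∈ BKR (cw) ⊤` for all `g`.

(2) `z ∈ BKR (cw) ⊤`: QOR for `⊤`: modulo `BKR (cw) ⊤` only the orbits `k` fixed by `V × 1` contribute; the stabiliser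
of `k.rep` is then `tw (φ g) ⊤`, and `b e d = (b y') (y e y') (y d)` with `b y'`, `y d` in `FxR (cw) ⊤`.

(3) QOR for `R`: `β (ζ z)` is the sum over the orbits `k` fixed by `R × 1`.  If the stabiliser of `k.rep` is
`tw (φ g) S`, then `(r, φ g⁻¹ r)` fixes `k.rep` for `r ∈ R`, `b y'` and `y d` are in `FxR (cw) R`, and
`β (b e d) = β (b y') β (y e y') β (y d)`, which is `0` for `g ∉ N_E(R)` and `f β (b d)` for `g ∈ N_E(R)`.
`∑_(g ∈ N_E(R))` of CAS: every orbit `k` of a type in `N_E(R)` is counted `|C_E(R)|` times: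
`|C_E(R)| β (ζ z) = |N_E(R)| f ζ₁`, `ζ₁ = ∑ x' y'`; `∑_(g ∈ E)` of CAS (AQR): `|C_E(R)| β ζ = |E| ζ₁`.  `β ζ` is a unit, so
`ζ₁` is, and `|E| β z = |N_E(R)| f`.  `|E|`, `|N_E(R)|` are prime to `ℓ`, `f` is an idempotent `≠ 0`: `β (z ^ n) ≠ 0`. -/
def BlbStmt : Prop := ∀ (ℓ : ℕ) [Fact ℓ.Prime] (F V E A K : Type) [Field F] [CharP F ℓ]
  [CommGroup V] [Fintype V] [Group E] [Fintype E] [Ring A] [Algebra F A] [Fintype K]
  (φ : E →* MulAut V) (α : V →* A) (lam : A →ₗ[F] F) (x y : K → A) (u : A),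
  IsPGroup ℓ V → ¬ ℓ ∣ Nat.card E → Per F φ α → Uni φ α → RF F α lam x y →
  u * ∑ k, x k * y k = 1 → ∀ (R : Subgroup V) (e m : A) (S : Finset V), BadE F φ α R e m S →
  ∃ z : A, (∀ a, z * a = a * z) ∧ z ∈ BKR (cw F α) ⊤ ∧ ¬ IsNilpotent z

/-- BLW: the condition `blk` follows from the case `Q = 1`.

Proof.  BLA, BLB, and FTZ for `I = BKR (cw F α) ⊤` (`BKR_hom` for the multiplication by a central element). -/
def BlwStmt : Prop := ∀ (ℓ : ℕ) [Fact ℓ.Prime] (F V E A : Type) [Field F] [CharP F ℓ]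
  [CommGroup V] [Fintype V] [Group E] [Fintype E] [Ring A] [Algebra F A] (φ : E →* MulAut V)
  (α : V →* A), IsPGroup ℓ V → ¬ ℓ ∣ Nat.card E → FiniteDimensional F A → Per F φ α →
  Uni φ α →
  (∃ (lam : A →ₗ[F] F) (K : Type) (_ : Fintype K) (x y : K → A), RF F α lam x y ∧
    ∃ u : A, u * ∑ k, x k * y k = 1) →
  (∀ e : A, e * e = e → (∀ a, e * a = a * e) → e ∈ BKR (cw F α) ⊤ → e = 0) →
  Cl F φ α

/-- AQC: `A(Q)` is in the class for `C_E(Q)`.

Proof.  `fin`: `sur`.  AQP.  AQR: `ℓ` divides neither `|E|` nor `|C_E(Q)|`, and `β (∑ x y)` is a unit.  By BLW only the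
idempotents `e'` of the centre of `B` in `BKR (cw) ⊤` have to be considered.  `e'` commutes with `V`; AQV: `e' = β e`,
`e ∈ FxR (cw F α) ⊤`, `e ∈ BKR (cw F α) ⊤`; `e * e - e` and `e * a - a * e` are in the kernel of `β`; `Cl.blk` gives
`e ∈ BKR (cw F α) Q`, so `e' = 0`. -/
def AqcStmt : Prop := ∀ (ℓ : ℕ) [Fact ℓ.Prime] (F V E A B : Type) [Field F] [CharP F ℓ]
  [CommGroup V] [Fintype V] [Group E] [Fintype E] [Ring A] [Algebra F A] [Ring B] [Algebra F B]
  (φ : E →* MulAut V) (α : V →* A) (Q : Subgroup V) (N : IsAQ F α Q B),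
  IsPGroup ℓ V → ¬ ℓ ∣ Nat.card E → Cl F φ α → Cl F (φ.comp (CE φ Q).subtype) N.aqh

end Pool.Agent.PSS
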