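import Pool.Agent.PSS.DefsOB

/-!
# Theorem (S+), block OB, part e (helper36): vanishing forms imply that the cocycle is a coboundary

`W ≤ V` is `E`-stable, no complement, `V / W` any finite abelian group.  Complete proofs in the
docstrings.  Notation: `v` for `i (α v)`, `≡` = congruent modulo `i A` (products of `≡` with elements
of `i A` are allowed), `u·f = u f u⁻¹`.

Proved rows of block S1 which do not use that `V / W` is cyclic: FXL (Pool.Agent.PSS.H63.fxl), HCC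
(H20.hcc), LFG (H49.lfg), CSU (H95.csu), TRX (H20.trx), TRA (H92.tra), TRC (H84.trc), DLC (H21.dlc),
LIM (H75.lim), BLT (H82.blt), DMR, DMF (H29.dmr, H29.dmf).
-/

open scoped BigOperators TensorProduct

noncomputable section

namespace Pool.Agent.PSS

open Pool.Agent.PFD.D2 (Cdv FibG)
open Pool.Agent.PFD.D2b (FrR)
open Finset

/-! ### Group cohomology -/

/-- SYD (810): a symmetric 2-cocycle with values in a divisible group is a coboundary.

Proof.  `X = S × D` with `(u, a) (v, b) = (u v, a + b + f u v)` is a commutative group (unit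
`(1, - f 1 1)`; `f 1 v = f 1 1` by the cocycle identity for `(1, 1, v)`), `D → X`,
`a ↦ (1, a - f 1 1)` is an injective homomorphism and `D` is divisible, so (Baer; in Mathlib
`AddCommGrp.injective_of_divisible` or similar) there is a homomorphism `r : X → D` with
`r (1, a - f 1 1) = a`.  `h u = r (u, 0)`: `h u + h v = r (u v, f u v) = h (u v) + f u v`, as
`(u v, f u v) = (u v, 0) (1, f u v - f 1 1)`. -/
def SydStmt : Prop :=
  ∀ (S D : Type) [CommGroup S] [AddCommGroup D] (f : S → S → D),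
    (∀ n : ℕ, n ≠ 0 → ∀ d : D, ∃ d', n • d' = d) → (∀ u v, f u v = f v u) →
    (∀ u v w, f v w - f (u * v) w + f u (v * w) - f u v = 0) →
    ∃ h : S → D, ∀ u v, f u v = h v - h (u * v) + h u

/-- XCO (811): a 2-cocycle of `G` with values in the functions on a `G`-set `X` is a coboundary if it
is symmetric at the stabilisers.

Proof.  For every orbit choose a point `x₀`, for every `x` of the orbit `t x` with
`t x • x₀ = x`.  On `S =` the stabiliser of `x₀` the function `f u v x₀` satisfies the hypotheses of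
SYD: `h = h_(x₀) : S → D`.  Put `s u x = (t x)⁻¹ * u * t (u⁻¹ • x)` (in `S`) and
`g u x = h (s u x) + f u (t (u⁻¹ • x)) x - f (t x) (s u x) x`.  Let `x' = u⁻¹ • x`,
`x'' = v⁻¹ • x'`, `t, t', t''` the elements `t x, t x', t x''`, `s = s u x`, `s' = s v x'`, so
`s u v`-element of `(u v, x)` is `s s'`, `t s = u t'`, `t' s' = v t''`.  The cocycle identities for
`(u, v, t'')` at `x`, `(u, t', s')` at `x`, `(t, s, s')` at `x` and SYD for `(s, s')` at `x₀` add up to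
`g v x' - g (u v) x + g u x = f u v x`. -/
def XcoStmt : Prop :=
  ∀ (G X D : Type) [CommGroup G] [MulAction G X] [AddCommGroup D] (f : G → G → X → D),
    (∀ n : ℕ, n ≠ 0 → ∀ d : D, ∃ d', n • d' = d) →
    (∀ x u v, u • x = x → v • x = x → f u v x = f v u x) →
    (∀ u v w x, f v w (u⁻¹ • x) - f (u * v) w x + f u (v * w) x - f u v x = 0) →
    ∃ g : G → X → D, ∀ u v x, f u v x = g v (u⁻¹ • x) - g (u * v) x + g u x

/-- XCW (812, uses XCO): the same relative to a subgroup `W`.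

Proof.  `X` = the quotient of `Ω` by `W` (`ω ~ w • ω`), with the action of `V ⧸ W`
(`V` is commutative); `f` descends to `f' : V ⧸ W → V ⧸ W → X → D` (representatives by
`Quotient.out`, `Quotient.lift`).  If `[u] • [ω] = [ω]` then `u • ω = w • ω` for some `w` in `W`, so
`w⁻¹ u` fixes `ω`, and `f u v ω = f (u w⁻¹) v ω`: the symmetry at the stabilisers.  XCO, and
`g u ω = g' [u] [ω]`. -/
def XcwStmt : Prop :=
  ∀ (V Ω D : Type) [CommGroup V] [MulAction V Ω] [AddCommGroup D] (W : Subgroup V)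
    (f : V → V → Ω → D), (∀ n : ℕ, n ≠ 0 → ∀ d : D, ∃ d', n • d' = d) →
    (∀ w ∈ W, ∀ u v ω, f (u * w) v ω = f u v ω ∧ f u (v * w) ω = f u v ω ∧
      f u v (w • ω) = f u v ω) →
    (∀ ω u v, u • ω = ω → v • ω = ω → f u v ω = f v u ω) →
    (∀ u v w ω, f v w (u⁻¹ • ω) - f (u * v) w ω + f u (v * w) ω - f u v ω = 0) →
    ∃ g : V → Ω → D, (∀ w ∈ W, ∀ u ω, g (u * w) ω = g u ω ∧ g u (w • ω) = g u ω) ∧
      ∀ u v ω, f u v ω = g v (u⁻¹ • ω) - g (u * v) ω + g u ω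

/-- GAM (813, uses XCW): if the forms vanish the cocycle is a coboundary on `V`.

Proof.  `k u v = cc (u, v) (u v)⁻¹` in `B`.  By `WB2` `k (u w) v = k u v = k u (v w)` and `k u v`
commutes with `w` for `w` in `W` (`cc (u w, v) = cc (u, w v) = cc (u, v w) = cc (u, v) w`,
`w cc (u, v) = cc (w u, v) = cc (u w, v)`).  The cocycle identity at `(u, v, w)`, multiplied by
`(u v w)⁻¹` on the right: `u·k v w - k (u v) w + k u (v w) - k u v ≡ 0`.  `D = K / R` (the quotient of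
`K` by the additive subgroup `range (algebraMap R K)`; divisible as `K` is a field of
characteristic `0`), `f u v ω = cK ω (k u v)` modulo `R`.  `V` acts on `Ω` through `(v, v)`
(`MulAction.compHom`), `cK (g ω) (g a) = cK ω a` (`frK`), and `cK ω` maps `i A` into the image of `R`
(`ck`).  `Fz` is the symmetry at the stabilisers.  XCW: `g`.  Let `r u ω` in `K` be a representative
of `g u ω` with `r (u w) ω = r u ω`, `r u (w ω) = r u ω` (`Quotient.out` of `g u ω`),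
`h u = ∑ ω, r u ω • i (b ω)`; `h u` commutes with `W` (`b (g ω) = g b ω`),
`u·h v = ∑ ω, r v (u⁻¹ ω) • i (b ω)`, so
`k u v - (u·h v - h (u v) + h u) = ∑ ω, (..) • i (b ω)` with coefficients in the image of `R`, hence
`≡ 0` (`tow`).  `γ v = - h v v`. -/
def GamStmt : Prop :=
  ∀ (R K V A B κ Ω : Type) [CommRing R] [Field K] [CharZero K] [Algebra R K] [CommGroup V]
    [Fintype V] [Ring A] [Algebra R A] [Ring B] [Algebra R B] [Algebra K B] [Fintype κ]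
    [Fintype Ω] [MulAction (V × V) Ω] (W : Subgroup V) (α : V →* A)
    (lam : A →ₗ[R] R) (x y : κ → A) (b : Ω → A) (c : Ω → (A →ₗ[R] R))
    (C : KC R K B α lam x y b c) (cc : B →ₗ[K] B →ₗ[K] B), Z2 C W cc → Fz C cc →
    ∃ γ : V → B, (∀ w ∈ W, ∀ v, γ (v * w) = γ v * C.i (α w) ∧
        γ v * C.i (α w) = C.i (α w) * γ v) ∧
      ∀ u v, In C.i (C.i (α u) * γ v + γ u * C.i (α v) + cc (C.i (α u)) (C.i (α v)) - γ (u * v))

/-! ### The relative cohomology of the order -/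

/-- TAW (814): the projection `τ` onto a complement (as TAU, Helper77_PSS/TAU.lean).

Proof.  Choose representatives `r` of the classes of `Ω` for the action of `{(v w, w') | v ∈ V,
w, w' ∈ W} = V × W`, and let `T₀` be the set of the `(w, w') r` (`w, w'` in `W`).  If
`(v w, w') ω = ω`, `w, w'` in `W`, then `v w = φ e w'` is in `W` (`StE`, `Stb`), so `v` is in `W`.
Hence for every `ω` the set of `q : V ⧸ W` with `(out q)⁻¹ ω` in `T₀` (i.e. `ω` in `(out q, 1) T₀`;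
`T₀` is `W × W`-stable, so this does not depend on the representative) has exactly one element.
`τ x = ∑_(ω in T₀) cK ω x • i (b ω)`, and
`v τ (v⁻¹ x) = ∑_(ω in T₀) cK ω (v⁻¹ x) • i (b ((v,1) ω)) = ∑_(ω in (v,1) T₀) cK ω x • i (b ω)`. -/
def TawStmt : Prop :=
  ∀ (R K V E A B κ Ω : Type) [CommRing R] [Field K] [CharZero K] [Algebra R K] [CommGroup V]
    [Fintype V] [Group E] [Ring A] [Algebra R A] [Ring B] [Algebra R B] [Algebra K B] [Fintype κ]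
    [Fintype Ω] [MulAction (V × V) Ω] (φ : E →* MulAut V) (W : Subgroup V) [Fintype (V ⧸ W)]
    (α : V →* A) (lam : A →ₗ[R] R) (x y : κ → A) (b : Ω → A) (c : Ω → (A →ₗ[R] R))
    (C : KC R K B α lam x y b c), Stb φ W → StE φ Ω →
    ∃ τ : B →ₗ[K] B, (∀ a, In C.i (τ (C.i a))) ∧ WBl (ia C.i α) W τ ∧
      ∀ x, ∑ q : V ⧸ W, C.i (α q.out) * τ (C.i (α (q.out)⁻¹) * x) = x

/-- HCW (815, uses TAW): as HCB (Helper49_PSS/HCB.lean), with a given trivialisation `γ` on `V`.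

Proof.  Write `c` for `cc`, `x_v = τ (v⁻¹ x)`; `v x_v`, `γ_v x_v` and `c (v, x_v)` depend only on the
class of `v` modulo `W` (`WBl τ`, `γ_(v w) = γ_v w`, `WB2`: `c (v w, w⁻¹ y) = c (v, y)`), so sums over
`q : V ⧸ W` of such terms may be taken over any representatives, in particular
`∑_q F (v * out q) = ∑_q F (out q)`.  `g₁ x = ∑_q (γ_v x_v + c (v, x_v))`, `v = out q`: `K`-linear,
`W`-`W`-linear (left: `τ (v⁻¹ w x) = w x_v`, `γ_v w = w γ_v`, `c (v, w x_v) = c (w v, x_v)`).  For `x` in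
`i A` and `u` in `V`: `(u x)_(u v) = x_v`, so `g₁ (u x) = ∑_q (γ_(u v) x_v + c (u v, x_v))`; insert
`γ_(u v) ≡ u γ_v + γ_u v + c (u, v)` and the cocycle identity
`c (u v, x_v) ≡ u c (v, x_v) + c (u, v x_v) - c (u, v) x_v` (`x_v` is in `i A`), `∑ v x_v = x`:
`g₁ (u x) ≡ u g₁ x + γ_u x + c (u, x)`.  `e' = g₁ 1` commutes with `W`; `g x = g₁ x - e' x`: `g 1 = 0`,
and `d1 g (u, x) = u g₁ x - u e' x - g₁ (u x) + e' u x + (g₁ u - e' u) x
≡ - γ_u x - c (u, x) + (g₁ u - u e') x ≡ - c (u, x)`, as `g₁ u ≡ u e' + γ_u + c (u, 1) = u e' + γ_u`. -/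
def HcwStmt : Prop :=
  ∀ (R K V E A B κ Ω : Type) [CommRing R] [Field K] [CharZero K] [Algebra R K] [CommGroup V]
    [Fintype V] [Group E] [Ring A] [Algebra R A] [Ring B] [Algebra R B] [Algebra K B] [Fintype κ]
    [Fintype Ω] [MulAction (V × V) Ω] (φ : E →* MulAut V) (W : Subgroup V)
    (α : V →* A) (lam : A →ₗ[R] R) (x y : κ → A) (b : Ω → A) (c : Ω → (A →ₗ[R] R))
    (C : KC R K B α lam x y b c) (cc : B →ₗ[K] B →ₗ[K] B) (γ : V → B), Stb φ W → StE φ Ω →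
    Z2 C W cc →
    (∀ w ∈ W, ∀ v, γ (v * w) = γ v * C.i (α w) ∧ γ v * C.i (α w) = C.i (α w) * γ v) →
    (∀ u v, In C.i (C.i (α u) * γ v + γ u * C.i (α v) + cc (C.i (α u)) (C.i (α v)) -
      γ (u * v))) →
    ∃ g : B →ₗ[K] B, WBl (ia C.i α) W g ∧ g 1 = 0 ∧
      ∀ v a, In C.i (cc (C.i (α v)) (C.i a) + d1 g (C.i (α v)) (C.i a))

/-- H2W (816, uses CSU HCC LFG GAM HCW): vanishing forms imply coboundary.  As H2V
(Helper33_PSS/H2V.lean), with GAM and HCW in place of HCB. -/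
def H2wStmt : Prop :=
  ∀ (R K V E A B κ Ω : Type) [CommRing R] [Field K] [CharZero K] [Algebra R K] [CommGroup V]
    [Fintype V] [Group E] [Ring A] [Algebra R A] [Ring B] [Algebra R B] [Algebra K B] [Fintype κ]
    [Fintype Ω] [MulAction (V × V) Ω] (φ : E →* MulAut V) (W : Subgroup V) (α : V →* A)
    (lam : A →ₗ[R] R) (x y : κ → A) (b : Ω → A) (c : Ω → (A →ₗ[R] R))
    (C : KC R K B α lam x y b c) (u : A), Stb φ W → StE φ Ω → u * rt x y 1 = 1 →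
    ∀ cc : B →ₗ[K] B →ₗ[K] B, Z2 C W cc → Fz C cc →
    ∃ H : B →ₗ[K] B, WBl (ia C.i α) W H ∧ H 1 = 0 ∧
      ∀ a₁ a₂, In C.i (cc (C.i a₁) (C.i a₂) - d1 H (C.i a₁) (C.i a₂))

/-- H1W (817, uses FXL CSU): `H^1(A|W; A) = 0`.  As H1V (Helper84_PSS/H1V.lean).

Proof.  `d v = D (v) v⁻¹`: `d (u v) = d u + u·d v`, `d (v w) = d v` for `w` in `W`, and `d v` commutes
with `W` (`D (w v) = w D v`, `D (v w) = D v w`).  `n` = the index of `W`,
`y₀ = - n⁻¹ • ∑_(q : V ⧸ W) d (out q)` in `B`: `u·y₀ = y₀ + d u` (`u·d v = d (u v) - d u`, and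
`∑_q d (u out q) = ∑_q d (out q)`).  So `y₀` is fixed modulo `i A` by the diagonal of `V`; FXL:
`y' ≡ y₀` commuting with `V`; `y₁ = y₀ - y'` is in `i A`, commutes with `W`, `u·y₁ - y₁ = d u`.  Then
`D₁ a = D a - (a y₁ - y₁ a)` kills `V`; the end as in H1V. -/
def H1wStmt : Prop :=
  ∀ (R K V A B κ Ω : Type) [CommRing R] [Field K] [CharZero K] [Algebra R K] [CommGroup V]
    [Fintype V] [Ring A] [Algebra R A] [Ring B] [Algebra R B] [Algebra K B] [Fintype κ]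
    [Fintype Ω] [MulAction (V × V) Ω] (W : Subgroup V) (α : V →* A)
    (lam : A →ₗ[R] R) (x y : κ → A) (b : Ω → A) (c : Ω → (A →ₗ[R] R))
    (_ : KC R K B α lam x y b c) (u : A), u * rt x y 1 = 1 →
    ∀ D : A →ₗ[R] A, (∀ a₁ a₂, D (a₁ * a₂) = D a₁ * a₂ + a₁ * D a₂) →
    (∀ w ∈ W, D (α w) = 0) →
    ∃ e : A, (∀ w ∈ W, e * α w = α w * e) ∧ ∀ a, D a = a * e - e * a

/-! ### The steps of the deformation -/

/-- STW (818, uses TRX TRA TRC H2W): one step without target.  As STN (Helper47_PSS/STN.lean) with H2W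
in place of H2V. -/
def StwStmt : Prop :=
  ∀ (R K V E A B κ Ω : Type) [CommRing R] [Field K] [CharZero K] [Algebra R K] [CommGroup V]
    [Fintype V] [Group E] [Ring A] [Algebra R A] [Ring B] [Algebra R B] [Algebra K B] [Fintype κ]
    [Fintype Ω] [MulAction (V × V) Ω] (φ : E →* MulAut V) (W : Subgroup V) (α : V →* A)
    (lam : A →ₗ[R] R) (x y : κ → A) (b : Ω → A) (c : Ω → (A →ₗ[R] R))
    (C : KC R K B α lam x y b c) (u : A), Stb φ W → StE φ Ω → u * rt x y 1 = 1 →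
    ∀ (P : ℕ → (B →ₗ[K] B)) (m : ℕ → (B →ₗ[K] B →ₗ[K] B)) (N : ℕ), Trv (ia C.i α) W P m →
    (∀ n ≤ N, ∀ a₁ a₂, In C.i (m n (C.i a₁) (C.i a₂))) → Fz C (m (N + 1)) →
    ∃ (P' : ℕ → (B →ₗ[K] B)) (m' : ℕ → (B →ₗ[K] B →ₗ[K] B)), Trv (ia C.i α) W P' m' ∧
      (∀ n ≤ N, P' n = P n) ∧ ∀ n ≤ N + 1, ∀ a₁ a₂, In C.i (m' n (C.i a₁) (C.i a₂))

/-- BIA (819, uses TRA): the obstruction is a cocycle and satisfies the Bianchi identity.

Proof.  `Z2`: as in STN (`dm_dl`).  Associativity in degree `N + 2` for `x = i a₁` etc.: the terms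
`(0, N+2)`, `(N+2, 0)` are `- dl (m (N+2))`, the terms `(1, N+1)`, `(N+1, 1)` are
`brk (m 1) (m (N+1))` (`N ≥ 1`: they are different), all others have indices `≤ N` and are in `i A`.
`c' = - m (N + 2)`. -/
def BiaStmt : Prop :=
  ∀ (R K V A B κ Ω : Type) [CommRing R] [Field K] [CharZero K] [Algebra R K] [CommGroup V]
    [Fintype V] [Ring A] [Algebra R A] [Ring B] [Algebra R B] [Algebra K B] [Fintype κ]
    [Fintype Ω] [MulAction (V × V) Ω] (W : Subgroup V) (α : V →* A)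
    (lam : A →ₗ[R] R) (x y : κ → A) (b : Ω → A) (c : Ω → (A →ₗ[R] R))
    (C : KC R K B α lam x y b c)
    (P : ℕ → (B →ₗ[K] B)) (m : ℕ → (B →ₗ[K] B →ₗ[K] B)) (N : ℕ), Trv (ia C.i α) W P m →
    (∀ n ≤ N, ∀ a₁ a₂, In C.i (m n (C.i a₁) (C.i a₂))) →
    Z2 C W (m (N + 1)) ∧ (1 ≤ N → Bi C W (m 1) (m (N + 1))) ∧
      ∀ x y, m 1 x y = d1 (fun a => P 1 a) x y

/-- TGW (820, uses TRX TRA TRC LIM STW BIA): the deformation with given first order term.  As TGN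
(Helper75_PSS/TGN.lean) or with `limTrv` (Helper7_PSS/TLF.lean; let the condition `I n` be the
integrality of `m n` and, for `n = 1`, `m 1 = d1 g`): start `N₀ = 1`, the step with STW, where
`Fz C (m (N + 1))` follows from `key` and BIA. -/
def TgwStmt : Prop :=
  ∀ (R K V E A B κ Ω : Type) [CommRing R] [Field K] [CharZero K] [Algebra R K] [CommGroup V]
    [Fintype V] [Group E] [Ring A] [Algebra R A] [Ring B] [Algebra R B] [Algebra K B] [Fintype κ]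
    [Fintype Ω] [MulAction (V × V) Ω] (φ : E →* MulAut V) (W : Subgroup V) (α : V →* A)
    (lam : A →ₗ[R] R) (x y : κ → A) (b : Ω → A) (c : Ω → (A →ₗ[R] R))
    (C : KC R K B α lam x y b c) (u : A), Stb φ W → StE φ Ω → u * rt x y 1 = 1 →
    ∀ g : B →ₗ[K] B, WBl (ia C.i α) W g → g 1 = 0 →
    (∀ a₁ a₂, In C.i (d1 g (C.i a₁) (C.i a₂))) →
    (∀ m₁ cc : B →ₗ[K] B →ₗ[K] B, (∀ x y, m₁ x y = d1 g x y) → Z2 C W cc → Bi C W m₁ cc →
      Fz C cc) →
    ∃ (P : ℕ → (B →ₗ[K] B)) (m : ℕ → (B →ₗ[K] B →ₗ[K] B)), Trv (ia C.i α) W P m ∧ P 1 = g ∧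
      ∀ n a₁ a₂, In C.i (m n (C.i a₁) (C.i a₂))

/-! ### Lifting a deformation of the special fibre -/

/-- MUB (821, uses BLT): a lift of the coefficient of degree `k ≥ 1` of `D₀`.  Proof: BLT and `stt_ext` of
Helper47_PSS/STT.lean. -/
def MubStmt : Prop :=
  ∀ (R K F V A A₀ B κ Ω : Type) [CommRing R] [Field K] [CharZero K] [Algebra R K]
    [Field F] [CommGroup V] [Fintype V] [Ring A] [Algebra R A]
    [Ring A₀] [Algebra F A₀] [Ring B] [Algebra R B] [Algebra K B] [Fintype κ]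
    [Fintype Ω] [MulAction (V × V) Ω] (W : Subgroup V) (α : V →* A)
    (lam : A →ₗ[R] R) (x y : κ → A) (b : Ω → A) (c : Ω → (A →ₗ[R] R))
    (C : KC R K B α lam x y b c) (cv : Cdv R F) (f : FibG A A₀ cv) (α₀ : V →* A₀)
    (D₀ : Dm F (aw α₀ W)) (k : ℕ), (∀ v, f.q (α v) = α₀ v) →
    ∃ μ : B →ₗ[K] B →ₗ[K] B, WB2 (ia C.i α) W (fun a b => μ a b) ∧ Nrm (fun a b => μ a b) ∧
      ∀ a₁ a₂, ∃ e, C.i e = μ (C.i a₁) (C.i a₂) ∧ f.q e = D₀.m (k + 1) (f.q a₁) (f.q a₂)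

/-- TGT (822, uses TRA MUB): the difference class is a cocycle and satisfies the Bianchi identity.

Proof.  `cc = π⁻¹ (m (N+1) - μ)`.  `Z2`: as in STT (Helper47_PSS/STT.lean).  `Bi`, `N ≥ 1`: let
`S (x, y, z)` = the sum of the terms of the associativity in degree `N + 2` with both indices in
`2 .. N`; for `D` and `D₀`: `brk (m 1) (m (N+1)) + S = dl (m (N+2))`, and the same for `D₀`.  On `i A` the
element `S + brk (m 1) μ` is `i e` with `q e` = the same expression for `D₀`, which is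
`dl (D₀.m (N+2))` (`m 1`, `μ` reduce to `D₀.m 1`, `D₀.m (N+1)`), hence
`S + brk (m 1) μ = dl μ' + i (π e')` with `μ'` from MUB for `k = N + 1`.  So
`brk (m 1) cc = π⁻¹ (dl (m (N+2)) - S - brk (m 1) μ) = dl (π⁻¹ (m (N+2) - μ')) - i e'`. -/
def TgtStmt : Prop :=
  ∀ (R K F V A A₀ B κ Ω : Type) [CommRing R] [IsDomain R] [Field K] [CharZero K] [Algebra R K]
    [Field F] [CommGroup V] [Fintype V] [Ring A] [Algebra R A] [Module.Finite R A]
    [Module.Free R A] [Ring A₀] [Algebra F A₀] [Ring B] [Algebra R B] [Algebra K B] [Fintype κ]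
    [Fintype Ω] [MulAction (V × V) Ω] (W : Subgroup V) (α : V →* A)
    (lam : A →ₗ[R] R) (x y : κ → A) (b : Ω → A) (c : Ω → (A →ₗ[R] R))
    (C : KC R K B α lam x y b c) (cv : Cdv R F) (f : FibG A A₀ cv) (α₀ : V →* A₀)
    (D₀ : Dm F (aw α₀ W)), (∀ v, f.q (α v) = α₀ v) →
    ∀ (P : ℕ → (B →ₗ[K] B)) (m : ℕ → (B →ₗ[K] B →ₗ[K] B)) (N : ℕ) (μ cc : B →ₗ[K] B →ₗ[K] B),
    Trv (ia C.i α) W P m →
    (∀ n ≤ N, ∀ a₁ a₂, ∃ e, C.i e = m n (C.i a₁) (C.i a₂) ∧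
      f.q e = D₀.m n (f.q a₁) (f.q a₂)) →
    WB2 (ia C.i α) W (fun a b => μ a b) → Nrm (fun a b => μ a b) →
    (∀ a₁ a₂, ∃ e, C.i e = μ (C.i a₁) (C.i a₂) ∧ f.q e = D₀.m (N + 1) (f.q a₁) (f.q a₂)) →
    (∀ x y, algebraMap R K cv.π • cc x y = m (N + 1) x y - μ x y) →
    Z2 C W cc ∧ (1 ≤ N → Bi C W (m 1) cc)

/-- FZ0 (823): the first step.  If the forms of `D₀.m 1` vanish, the forms of the difference class for
`N = 0` vanish.

Proof.  `m 1 = d1 g`, `g = P 1` (from `pm` in degree 1).  For `u, v` with `(u,u) ω = ω = (v,v) ω`: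
`(d1 g u v - d1 g v u) (u v)⁻¹ = u·(g v v⁻¹) - g v v⁻¹ - (v·(g u u⁻¹) - g u u⁻¹)`, and
`cK ω (u·s) = cK ω s`: so `cK ω` of it is `0`.  Hence `π cK ω ((cc u v - cc v u) (u v)⁻¹) =
- cK ω ((μ u v - μ v u) (u v)⁻¹) = - algebraMap (c ω e)`, `q e = (D₀.m 1 u v - D₀.m 1 v u) (u v)⁻¹`, and
`κ (c ω e) = c₀ ω (q e) = 0`, so `c ω e = π r`. -/
def Fz0Stmt : Prop :=
  ∀ (R K F V A A₀ B κ Ω : Type) [CommRing R] [IsDomain R] [Field K] [CharZero K] [Algebra R K]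
    [Field F] [CommGroup V] [Fintype V] [Ring A] [Algebra R A]
    [Ring A₀] [Algebra F A₀] [Ring B] [Algebra R B] [Algebra K B] [Fintype κ]
    [Fintype Ω] [MulAction (V × V) Ω] (W : Subgroup V) (α : V →* A)
    (lam : A →ₗ[R] R) (x y : κ → A) (b : Ω → A) (c : Ω → (A →ₗ[R] R))
    (C : KC R K B α lam x y b c) (cv : Cdv R F) (f : FibG A A₀ cv) (α₀ : V →* A₀)
    (c₀ : Ω → (A₀ →ₗ[F] F)) (D₀ : Dm F (aw α₀ W)), (∀ v, f.q (α v) = α₀ v) →
    (∀ ω a, cv.κ (c ω a) = c₀ ω (f.q a)) →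
    (∀ (ω : Ω) (u v : V), ((u, u) : V × V) • ω = ω → ((v, v) : V × V) • ω = ω →
      c₀ ω ((D₀.m 1 (α₀ u) (α₀ v) - D₀.m 1 (α₀ v) (α₀ u)) * α₀ (u * v)⁻¹) = 0) →
    ∀ (P : ℕ → (B →ₗ[K] B)) (m : ℕ → (B →ₗ[K] B →ₗ[K] B)) (μ cc : B →ₗ[K] B →ₗ[K] B),
    Trv (ia C.i α) W P m →
    (∀ a₁ a₂, ∃ e, C.i e = μ (C.i a₁) (C.i a₂) ∧ f.q e = D₀.m 1 (f.q a₁) (f.q a₂)) →
    (∀ x y, algebraMap R K cv.π • cc x y = m 1 x y - μ x y) → Fz C cc

/-- STX (824, uses TRX TRC H2W): one step with target.  As STT (Helper47_PSS/STT.lean, the part after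
`hdl`), with H2W in place of H2V: `P' (N+1) = P (N+1) - π • H`. -/
def StxStmt : Prop :=
  ∀ (R K F V E A A₀ B κ Ω : Type) [CommRing R] [IsDomain R] [Field K] [CharZero K] [Algebra R K]
    [Field F] [CommGroup V] [Fintype V] [Group E] [Ring A] [Algebra R A] [Module.Finite R A]
    [Module.Free R A] [Ring A₀] [Algebra F A₀] [Ring B] [Algebra R B] [Algebra K B] [Fintype κ]
    [Fintype Ω] [MulAction (V × V) Ω] (φ : E →* MulAut V) (W : Subgroup V) (α : V →* A)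
    (lam : A →ₗ[R] R) (x y : κ → A) (b : Ω → A) (c : Ω → (A →ₗ[R] R))
    (C : KC R K B α lam x y b c) (u : A) (cv : Cdv R F) (f : FibG A A₀ cv) (α₀ : V →* A₀)
    (D₀ : Dm F (aw α₀ W)), Stb φ W → StE φ Ω → u * rt x y 1 = 1 → (∀ v, f.q (α v) = α₀ v) →
    ∀ (P : ℕ → (B →ₗ[K] B)) (m : ℕ → (B →ₗ[K] B →ₗ[K] B)) (N : ℕ) (μ cc : B →ₗ[K] B →ₗ[K] B),
    Trv (ia C.i α) W P m →
    (∀ n ≤ N, ∀ a₁ a₂, ∃ e, C.i e = m n (C.i a₁) (C.i a₂) ∧
      f.q e = D₀.m n (f.q a₁) (f.q a₂)) →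
    (∀ a₁ a₂, ∃ e, C.i e = μ (C.i a₁) (C.i a₂) ∧ f.q e = D₀.m (N + 1) (f.q a₁) (f.q a₂)) →
    (∀ x y, algebraMap R K cv.π • cc x y = m (N + 1) x y - μ x y) → Z2 C W cc → Fz C cc →
    ∃ (P' : ℕ → (B →ₗ[K] B)) (m' : ℕ → (B →ₗ[K] B →ₗ[K] B)), Trv (ia C.i α) W P' m' ∧
      (∀ n ≤ N, P' n = P n) ∧ ∀ n ≤ N + 1, ∀ a₁ a₂, ∃ e, C.i e = m' n (C.i a₁) (C.i a₂) ∧
      f.q e = D₀.m n (f.q a₁) (f.q a₂)

/-- TLW (825, uses TRX TRC LIM BIA MUB TGT FZ0 STX): a deformation of `A₀` whose first order term is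
regular (`key`) lifts to `A`.  As TLF (Helper7_PSS/TLF.lean): in the step `N` take `μ` from MUB,
`cc = π⁻¹ • (m (N+1) - μ)`, TGT; `Fz C cc` by FZ0 for `N = 0` and by `key` for `N ≥ 1` (`m 1 = d1 g`,
`g = P 1`, by BIA); STX. -/
def TlwStmt : Prop :=
  ∀ (R K F V E A A₀ B κ Ω : Type) [CommRing R] [IsDomain R] [Field K] [CharZero K] [Algebra R K]
    [Field F] [CommGroup V] [Fintype V] [Group E] [Ring A] [Algebra R A] [Module.Finite R A]
    [Module.Free R A] [Ring A₀] [Algebra F A₀] [Ring B] [Algebra R B] [Algebra K B] [Fintype κ]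
    [Fintype Ω] [MulAction (V × V) Ω] (φ : E →* MulAut V) (W : Subgroup V) (α : V →* A)
    (lam : A →ₗ[R] R) (x y : κ → A) (b : Ω → A) (c : Ω → (A →ₗ[R] R))
    (C : KC R K B α lam x y b c) (u : A) (cv : Cdv R F) (f : FibG A A₀ cv) (α₀ : V →* A₀)
    (c₀ : Ω → (A₀ →ₗ[F] F)) (D₀ : Dm F (aw α₀ W)), Stb φ W → StE φ Ω → u * rt x y 1 = 1 →
    (∀ v, f.q (α v) = α₀ v) → (∀ ω a, cv.κ (c ω a) = c₀ ω (f.q a)) →
    (∀ (ω : Ω) (u v : V), ((u, u) : V × V) • ω = ω → ((v, v) : V × V) • ω = ω →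
      c₀ ω ((D₀.m 1 (α₀ u) (α₀ v) - D₀.m 1 (α₀ v) (α₀ u)) * α₀ (u * v)⁻¹) = 0) →
    (∀ (g : B →ₗ[K] B) (m₁ cc : B →ₗ[K] B →ₗ[K] B), WBl (ia C.i α) W g → g 1 = 0 →
      (∀ x y, m₁ x y = d1 g x y) →
      (∀ a₁ a₂, ∃ e, C.i e = m₁ (C.i a₁) (C.i a₂) ∧ f.q e = D₀.m 1 (f.q a₁) (f.q a₂)) →
      Z2 C W cc → Bi C W m₁ cc → Fz C cc) →
    ∃ (P : ℕ → (B →ₗ[K] B)) (m : ℕ → (B →ₗ[K] B →ₗ[K] B)), Trv (ia C.i α) W P m ∧
      ∀ n a₁ a₂, ∃ e, C.i e = m n (C.i a₁) (C.i a₂) ∧ f.q e = D₀.m n (f.q a₁) (f.q a₂)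

end Pool.Agent.PSS
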