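import Pool.Agent.PSS.StmtsS1d
import Pool.Agent.PFD.Witt

/-!
# Squad PSS, block S1, part e (helper36): assembly

Complete proofs in the docstrings.  GEN: existence of the deformation with its first order term
(for S2).  LDA, CEF, FRF: an arbitrary deformation of `A₀` lifts to the Witt vectors; its centre and
its form.  DFM: from `Df` to `Dm`.  DZD, CED, FRD: the results for `Df`.
-/

open scoped BigOperators TensorProduct

noncomputable section

namespace Pool.Agent.PSS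

open Pool.Agent.PFD.D2 (Cdv FibG wittCdv)
open Pool.Agent.PFD.D2b (FrR)
open Finset
open Dm (cst)

/-- RED: reduction of the form and of the dual families.

Proof.  `ψ` by RMP (surjective).  `Λ` is given by a sequence `t n : A → R` (FUN);
`t₀ n (q a) = κ (t n a)` is well defined (`q a = 0` gives `a = π • a'`), FUN: `Λ₀`,
`Λ₀ (ψ a) = map κ (Λ a)`.  Apply `ψ` to `e1`, `e2`, `sym`. -/
def RedStmt : Prop :=
  ∀ (R F V A A₀ κ' : Type) [CommRing R] [Field F] [CommGroup V] [Ring A] [Algebra R A] [Ring A₀]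
    [Algebra F A₀] [Fintype κ'] (W : Subgroup V) [Fintype W] (α : V →* A) (cv : Cdv R F)
    (f : FibG A A₀ cv) (α₀ : V →* A₀) (D : Dm R (aw α W)) (D₀ : Dm F (aw α₀ W))
    (Λ : D.R →ₗ[PowerSeries R] PowerSeries R) (x' y' : κ' → D.R), (∀ v, f.q (α v) = α₀ v) →
    (∀ n a a', f.q (D.m n a a') = D₀.m n (f.q a) (f.q a')) →
    RF (PowerSeries R) D.w Λ x' y' →
    ∃ (ψ : D.R →+* D₀.R) (Λ₀ : D₀.R →ₗ[PowerSeries F] PowerSeries F),
      (∀ g, ψ (D.of g) = D₀.of (fun n => f.q (g n))) ∧ (∀ w, ψ (D.w w) = D₀.w w) ∧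
      Function.Surjective ψ ∧
      (∀ a, Λ₀ (ψ a) = PowerSeries.map cv.κ (Λ a)) ∧
      RF (PowerSeries F) D₀.w Λ₀ (fun t => ψ (x' t)) (fun t => ψ (y' t))

/-- GEN: the deformation with first order term `v / n`, `n = orderOf z`, and its relative traces.

Proof.  `K` = fraction field of `R`, KEX: context `C` with `B = K ⊗ A`, `i` (call it `i`).
`v 1 = - (n e)` with `e` from the derivation congruence at `(1, 1)`, so `v 1 = n e₁`, and `e₁`
commutes with `W` (`v (w 1) = w v 1 = v 1 w`, cancel `n`).  `g₀ s = n⁻¹ • ∑ cK ω s • i (v (b ω))`,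
`g₀ (i a) = n⁻¹ i (v a)`, `g s = g₀ s - i e₁ s`: `K`-linear, `W`-`W`-linear (check on the spanning
elements `i (b ω)`), `g 1 = 0`, and `d1 g` is integral on `i A`:
`d1 g₀ (a, a') = n⁻¹ (a v a' - v (a a') + v a a')`, `d1 (e₁ ·) (a, a') = a e₁ a'`.
TGN: `P`, `m`, `P 1 = g`; DMR: `D` over `R`; DMF: `D₀` over `F`.  H1V gives `H1P R (aw α W)`; RWV:
dual families over `W` for `lam`; FMX: `Λ` on `D.R`, FRE, FSR: `x'`, `y'`; RED: `Λ₀`, `ψ x'`, `ψ y'`.
`constantCoeff (Λ₀ (D₀.of g)) = lam₀ (g 0)` (lift `g` to a sequence in `A`).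
FOR with `v₁ a = v a - v 1 * a` (`i (v₁ a) = n g (i a)`): `d₁` with
`lam (d₁ a) + lam (v₁ a)` in `n R`, so modulo `π` (`π` divides `n`, `v 1 = n e₁`)
`lam (d₁ a) = - lam (v a) = lam (a d) = lam (d a)`, hence `q d₁ = q d` (nondegeneracy of `lam₀`,
i.e. of `RF` modulo `π`: apply `q` to `e1` for `d₁ - d`).  The relative trace
`r' = rt (ψ x') (ψ y') (D₀.w w) = ψ (rt x' y' (D.w w))` has `sq r' 0 = q (n rt x y (α w)) = 0`,
`sq r' 1 = - q (d₁ rt + v₁ rt) = - q (v rt + d rt)`.  `r` = the shifted sequence, `r' = X • r`. -/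
def GenStmt : Prop :=
  ∀ (R F V E A A₀ κ Ω : Type) [CommRing R] [IsDomain R] [IsPrincipalIdealRing R] [CharZero R]
    [Field F] [CommGroup V] [Fintype V] [Group E] [Ring A] [Algebra R A] [Module.Finite R A]
    [Module.Free R A] [Ring A₀] [Algebra F A₀] [Fintype κ] [Fintype Ω] [MulAction (V × V) Ω]
    (φ : E →* MulAut V) (W : Subgroup V) [Fintype W] (z : V) (α : V →* A) (lam : A →ₗ[R] R)
    (x y : κ → A) (b : Ω → A) (c : Ω → (A →ₗ[R] R)) (u : A) (cv : Cdv R F) (f : FibG A A₀ cv)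
    (α₀ : V →* A₀) (lam₀ : A₀ →ₗ[F] F) (v : A →ₗ[R] A) (d : A),
    RF R α lam x y → FrR (bw R α) b c → StE φ Ω → Vz φ W z → u * rt x y 1 = 1 →
    (∀ v, f.q (α v) = α₀ v) → (∀ a, cv.κ (lam a) = lam₀ (f.q a)) →
    (∃ r : R, (orderOf z : R) = cv.π * r) →
    (∀ w ∈ W, ∀ a, v (α w * a) = α w * v a ∧ v (a * α w) = v a * α w) →
    (∀ a a', ∃ e, v (a * a') - v a * a' - a * v a' = (orderOf z : R) • e) →
    (∀ a, cv.κ (lam (v a) + lam (a * d)) = 0) →
    ∃ (D₀ : Dm F (aw α₀ W)) (Λ₀ : D₀.R →ₗ[PowerSeries F] PowerSeries F) (κ' : Type)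
      (_ : Fintype κ') (x' y' : κ' → D₀.R), RF (PowerSeries F) D₀.w Λ₀ x' y' ∧
      (∀ g, PowerSeries.constantCoeff (Λ₀ (D₀.of g)) = lam₀ (g 0)) ∧
      ∀ w : W, ∃ r : D₀.R, rt x' y' (D₀.w w) = (PowerSeries.X : PowerSeries F) • r ∧
        D₀.sq r 0 = - f.q (v (rt x y (α w)) + d * rt x y (α w))

/-- PSC: the power series ring is a complete discrete valuation ring.

Proof.  `D2.cdvOfComplete` or directly: `π = X`, `κ = constantCoeff`; `cpl`: the series with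
coefficients `∑_(i ≤ n) coeff (n - i) (u i)`. -/
def PscStmt : Prop :=
  ∀ (F : Type) [Field F], ∃ c : Cdv (PowerSeries F) F,
    c.π = PowerSeries.X ∧ c.κ = PowerSeries.constantCoeff

/-- LDA: an algebra and an arbitrary deformation of it lift to the Witt vectors.

Proof.  `R` = Witt vectors (`Pool.Agent.PFD.D2.wittCdv`, `witt_charZero`, domain, principal ideal
ring).  LFT: `A`.  `K` = fraction field, KEX, TLF (for `D₀`), DMR: `D`.  H1V. -/
def LdaStmt : Prop :=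
  ∀ (ℓ : ℕ) [Fact ℓ.Prime] (F V E A₀ κ Ω : Type) [Field F] [IsAlgClosed F] [CharP F ℓ]
    [CommGroup V] [Fintype V] [Group E] [Ring A₀] [Algebra F A₀] [FiniteDimensional F A₀]
    [Fintype κ] [Fintype Ω] [MulAction (V × V) Ω] (φ : E →* MulAut V) (W : Subgroup V) (z : V)
    (α₀ : V →* A₀) (lam₀ : A₀ →ₗ[F] F) (x₀ y₀ : κ → A₀) (b₀ : Ω → A₀) (c₀ : Ω → (A₀ →ₗ[F] F))
    (u₀ : A₀) (D₀ : Dm F (aw α₀ W)), RF F α₀ lam₀ x₀ y₀ → FrR (bw F α₀) b₀ c₀ → StE φ Ω →
    Vz φ W z → u₀ * rt x₀ y₀ 1 = 1 →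
    ∃ (A : Type) (_ : Ring A) (_ : Algebra (WittVector ℓ F) A)
      (_ : Module.Finite (WittVector ℓ F) A) (_ : Module.Free (WittVector ℓ F) A)
      (f : FibG A A₀ (wittCdv ℓ F)) (α : V →* A) (lam : A →ₗ[WittVector ℓ F] WittVector ℓ F)
      (x y : κ → A) (b : Ω → A) (c : Ω → (A →ₗ[WittVector ℓ F] WittVector ℓ F)) (u : A)
      (D : Dm (WittVector ℓ F) (aw α W)),
      LiftV (wittCdv ℓ F) α₀ lam₀ x₀ y₀ b₀ c₀ f α lam x y b c ∧ u * rt x y 1 = 1 ∧
      (∀ n a a', f.q (D.m n a a') = D₀.m n (f.q a) (f.q a')) ∧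
      H1P (WittVector ℓ F) (aw α W)

/-- CEF: the centre of a deformation is onto the centre of the special fibre.

Proof.  LDA; `z₀` lifts to a central `z` in `A` (UZL), CEN: `Z` in `D.R`; `ψ Z` with RMP is central
(`ψ` surjective), `sq (ψ Z) 0 = q (sq Z 0) = z₀`. -/
def CefStmt : Prop :=
  ∀ (ℓ : ℕ) [Fact ℓ.Prime] (F V E A₀ κ Ω : Type) [Field F] [IsAlgClosed F] [CharP F ℓ]
    [CommGroup V] [Fintype V] [Group E] [Ring A₀] [Algebra F A₀] [FiniteDimensional F A₀]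
    [Fintype κ] [Fintype Ω] [MulAction (V × V) Ω] (φ : E →* MulAut V) (W : Subgroup V) (z : V)
    (α₀ : V →* A₀) (lam₀ : A₀ →ₗ[F] F) (x₀ y₀ : κ → A₀) (b₀ : Ω → A₀) (c₀ : Ω → (A₀ →ₗ[F] F))
    (u₀ : A₀) (D₀ : Dm F (aw α₀ W)), RF F α₀ lam₀ x₀ y₀ → FrR (bw F α₀) b₀ c₀ → StE φ Ω →
    Vz φ W z → u₀ * rt x₀ y₀ 1 = 1 →
    ∀ z₀ : A₀, (∀ a, z₀ * a = a * z₀) → ∃ Z : D₀.R, (∀ a, Z * a = a * Z) ∧ D₀.sq Z 0 = z₀

/-- FRF: the form and the dual families lift to a deformation.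

Proof.  LDA; RWV for `lam`, FMX, FRE, FSR, RED (as in GEN). -/
def FrfStmt : Prop :=
  ∀ (ℓ : ℕ) [Fact ℓ.Prime] (F V E A₀ κ Ω : Type) [Field F] [IsAlgClosed F] [CharP F ℓ]
    [CommGroup V] [Fintype V] [Group E] [Ring A₀] [Algebra F A₀] [FiniteDimensional F A₀]
    [Fintype κ] [Fintype Ω] [MulAction (V × V) Ω] (φ : E →* MulAut V) (W : Subgroup V)
    [Fintype W] (z : V)
    (α₀ : V →* A₀) (lam₀ : A₀ →ₗ[F] F) (x₀ y₀ : κ → A₀) (b₀ : Ω → A₀) (c₀ : Ω → (A₀ →ₗ[F] F))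
    (u₀ : A₀) (D₀ : Dm F (aw α₀ W)), RF F α₀ lam₀ x₀ y₀ → FrR (bw F α₀) b₀ c₀ → StE φ Ω →
    Vz φ W z → u₀ * rt x₀ y₀ 1 = 1 →
    ∃ (Λ₀ : D₀.R →ₗ[PowerSeries F] PowerSeries F) (κ' : Type)
      (_ : Fintype κ') (x' y' : κ' → D₀.R), RF (PowerSeries F) D₀.w Λ₀ x' y' ∧
      ∀ g, PowerSeries.constantCoeff (Λ₀ (D₀.of g)) = lam₀ (g 0)

/-- DFM: every deformation in the sense of `Df` is the ring of a deformation in the sense of `Dm`.

Proof.  (1) `θ₀ : A → A'`, `F`-linear, `W`-`W`-linear, `q (θ₀ a) = a`, `θ₀ 1 = 1`: `h ω` = lifts of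
`b ω` which are equivariant for `W × W` (`D2b.EqfStmt` with `D2b.FpfStmt` for the frame of `A'` in
`df.per`, `p = X`), `θ₁ a = ∑ c ω a • h ω`; `e = θ₁ 1` is congruent to `1` modulo `X`, commutes
with `W`, and is a unit (right and left multiplication by it are congruent to the identity: UNJ);
`θ₀ a = θ₁ a * e⁻¹`.
(2) A basis `e_i` of `A`; `Θ : (ι → F⟦X⟧) → A'`, `s ↦ ∑ s_i • θ₀ (e_i)` is surjective modulo `X`, hence
surjective (Nakayama), and injective: `A' / X A' ≅ A` has dimension the rank of `A'` (compare a basis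
of `A'`; a surjective map between free modules of the same finite rank is injective), so every
element of `A'` is uniquely `∑_n X^n θ₀ (f n)` (meaning: `∑_i s_i • θ₀ (e_i)`, `s_i = ∑ X^n (f n)_i`);
call it `θ f`.
(3) `m n a a'` = the `n`-th component of `θ⁻¹ (θ₀ a * θ₀ a')`: bilinear; `m 0 a a' = a a'` (apply
`q`); relative and normalised since `θ (g f) = om' g * θ f`; associativity from
`(θ₀ a * θ₀ a') * θ₀ a'' = θ₀ a * (θ₀ a' * θ₀ a'')` and `F⟦X⟧`-linearity: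
`(θ f) * θ₀ a'' = ∑ X^n θ₀ (f n) θ₀ a''`.  Then `θ` induces the algebra isomorphism. -/
def DfmStmt : Prop :=
  ∀ (F W A A' Ω : Type) [Field F] [CommGroup W] [Ring A] [Algebra F A] [FiniteDimensional F A]
    [Ring A'] [Algebra (PowerSeries F) A'] [Module.Finite (PowerSeries F) A']
    [Module.Free (PowerSeries F) A'] [Fintype Ω] [MulAction (W × W) Ω] (om : W →* A)
    (om' : W →* A') (b : Ω → A) (c : Ω → (A →ₗ[F] F)), FrR (bw F om) b c →
    ∀ df : Df (PowerSeries.X : PowerSeries F) PowerSeries.constantCoeff om om',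
    ∃ (D₀ : Dm F om) (θ : D₀.R ≃ₐ[PowerSeries F] A'), (∀ w, θ (D₀.w w) = om' w) ∧
      ∀ g, df.q (θ (D₀.of g)) = g 0

/-- PER: the constant frame has the same (restricted) stabilisers.

Proof.  The frame of `A` restricted to `W × W` (`MulAction.compHom`), CFR.  The stabiliser of `ω` in
`W × W` is `(tw (φ e) S) ∩ (W × W)` = `tw (ψ e) (S ∩ W)` (`W` is stable: if `φ e s` is in `W` then
`s` is in `W`, use `e⁻¹`). -/
def PerStmt : Prop :=
  ∀ (F V E A : Type) [Field F] [CommGroup V] [Group E] [Ring A] [Algebra F A]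
    (φ : E →* MulAut V) (W : Subgroup V) (ψ : E →* MulAut W) (α : V →* A)
    (D₀ : Dm F (aw α W)), IsRs φ W ψ → Per F φ α → Per (PowerSeries F) ψ D₀.w

/-- DZD (E1): the dimension of the centre of the generic fibre of a deformation.

Proof.  `Per` gives a frame with `StE`; its restriction to `W × W` is the frame for DFM: `D₀`, `θ`.
CEF for `D₀`: every central element of `A` is `df.q` of a central element of `A'`.  With PSC:
`D4.CnrStmt` (proved, `Pool.Agent.Helper68_PFD.CNR : Pool.Agent.PFD.D4.H68.cnr`) for `R = F⟦X⟧`, the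
`FibG` given by `df`, and `D4.CnkStmt` (proved, `Pool.Agent.Helper35_PFD.BFS :
Pool.Agent.PFD.D4.H35.cnk`) for `K = F'`. -/
def DzdStmt : Prop :=
  ∀ (ℓ : ℕ) [Fact ℓ.Prime] (F V E A A' F' κ : Type) [Field F] [IsAlgClosed F] [CharP F ℓ]
    [CommGroup V] [Fintype V] [Group E] [Ring A] [Algebra F A] [FiniteDimensional F A]
    [Ring A'] [Algebra (PowerSeries F) A'] [Module.Finite (PowerSeries F) A']
    [Module.Free (PowerSeries F) A'] [Field F'] [Algebra (PowerSeries F) F']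
    [FaithfulSMul (PowerSeries F) F'] [Fintype κ] (φ : E →* MulAut V) (W : Subgroup V) (z : V)
    (α : V →* A) (α' : W →* A') (lam : A →ₗ[F] F) (x y : κ → A) (u : A),
    Per F φ α → RF F α lam x y → u * rt x y 1 = 1 → Vz φ W z →
    Df (PowerSeries.X : PowerSeries F) PowerSeries.constantCoeff (aw α W) α' →
    Module.finrank F' (Subalgebra.center F' (F' ⊗[PowerSeries F] A')) =
      Module.finrank F (Subalgebra.center F A)

/-- CED, FRD (E2, E3): centre and form of a deformation in the sense of `Df`.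

Proof.  As DZD: DFM, CEF, FRF, transport by `θ`. -/
def FrdStmt : Prop :=
  ∀ (ℓ : ℕ) [Fact ℓ.Prime] (F V E A A' κ : Type) [Field F] [IsAlgClosed F] [CharP F ℓ]
    [CommGroup V] [Fintype V] [Group E] [Ring A] [Algebra F A] [FiniteDimensional F A]
    [Ring A'] [Algebra (PowerSeries F) A'] [Module.Finite (PowerSeries F) A']
    [Module.Free (PowerSeries F) A'] [Fintype κ] (φ : E →* MulAut V) (W : Subgroup V)
    [Fintype W] (z : V)
    (α : V →* A) (α' : W →* A') (lam : A →ₗ[F] F) (x y : κ → A) (u : A),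
    Per F φ α → RF F α lam x y → u * rt x y 1 = 1 → Vz φ W z →
    ∀ df : Df (PowerSeries.X : PowerSeries F) PowerSeries.constantCoeff (aw α W) α',
    (∀ z₀ : A, (∀ a, z₀ * a = a * z₀) → ∃ Z : A', (∀ a, Z * a = a * Z) ∧ df.q Z = z₀) ∧
    ∃ (lam' : A' →ₗ[PowerSeries F] PowerSeries F) (κ' : Type) (_ : Fintype κ')
      (x' y' : κ' → A'), RF (PowerSeries F) α' lam' x' y' ∧
      ∀ a, PowerSeries.constantCoeff (lam' a) = lam (df.q a)

/-- VZC: `Vz` from the complements.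

Proof.  `Y` cyclic with generator `z` (`IsCyclic`), `IsCompl Y W`: `⊤ = Y ⊔ W` (abelian), and
`z^j` in `Y ∩ W = ⊥`. -/
def VzcStmt : Prop :=
  ∀ (V E : Type) [CommGroup V] [Fintype V] [Group E] (φ : E →* MulAut V) (Y W : Subgroup V),
    Cyf φ Y W → ∃ z : V, Subgroup.zpowers z = Y ∧ Vz φ W z ∧
      IsCompl (Subgroup.zpowers z) W ∧ (Y ≠ ⊥ → z ≠ 1)

end Pool.Agent.PSS
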