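import Pool.Agent.PSS.Nwe

/-!
# Squad PSS, block S4: definitions (fixed points and orbits, dual frames, the Brauer quotient `A(Q)`)

* `Fp Ω P`: the points of `Ω` which are fixed by `P`.
* `Qt Ω`: the orbits of `1 × V` on the `V × V`-set `Ω`; `V × V` acts on it.
* `DFr R α lam b d`: a frame `b` with its dual `d` with respect to the form `lam`.
* `IsAQ R α Q B`: `B = A(Q)` is the Brauer quotient.
* `nwh`, `aqh`: the homomorphisms of `V` into `N_W(A)` and `A(Q)`.
* `CE φ Q`, `NE φ Q`: the centraliser and the normaliser of `Q ≤ V` in `E`.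
-/

open scoped BigOperators TensorProduct

noncomputable section

namespace Pool.Agent.PSS

open Pool.Agent.PFC (tw IsTv)
open Pool.Agent.PFD.D2b (FrR)

/-! ## Fixed points and orbits -/

section fixed

variable {H : Type} [Group H] (Ω : Type) [MulAction H Ω]

/-- the fixed points of `P` -/
def Fp (P : Subgroup H) : Type := {ω : Ω // P ≤ MulAction.stabilizer H ω}

instance [Finite Ω] (P : Subgroup H) : Finite (Fp Ω P) :=
  inferInstanceAs (Finite {ω : Ω // P ≤ MulAction.stabilizer H ω})

instance [Finite Ω] (P : Subgroup H) : Fintype (Fp Ω P) := Fintype.ofFinite _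

end fixed

section comm

variable {H : Type} [CommGroup H] (Ω : Type) [MulAction H Ω]

instance (P : Subgroup H) : MulAction H (Fp Ω P) where
  smul h ω := ⟨h • ω.1, by
    intro p hp
    have h1 : p • ω.1 = ω.1 := ω.2 hp
    change p • h • ω.1 = h • ω.1
    rw [smul_smul, mul_comm, ← smul_smul, h1]⟩
  one_smul ω := Subtype.ext (one_smul H ω.1)
  mul_smul g h ω := Subtype.ext (mul_smul g h ω.1)

theorem Fp.smul_val {P : Subgroup H} (h : H) (ω : Fp Ω P) : (h • ω).1 = h • ω.1 := rfl

end comm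

section orbits

variable {V : Type} [CommGroup V] (Ω : Type) [MulAction (V × V) Ω]

/-- the equivalence relation of the orbits of `1 × V` -/
def qst : Setoid Ω where
  r := fun ω ω' => ∃ v : V, ((1, v) : V × V) • ω = ω'
  iseqv :=
    { refl := fun ω => ⟨1, one_smul (V × V) ω⟩
      symm := by
        rintro ω _ ⟨v, rfl⟩
        refine ⟨v⁻¹, ?_⟩
        rw [smul_smul, Prod.mk_mul_mk, one_mul, inv_mul_cancel]
        exact one_smul (V × V) ω
      trans := by
        rintro ω _ _ ⟨v, rfl⟩ ⟨u, rfl⟩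
        refine ⟨u * v, ?_⟩
        rw [smul_smul, Prod.mk_mul_mk, one_mul] }

/-- the orbits of `1 × V` -/
def Qt : Type := Quotient (qst (V := V) Ω)

instance [Finite Ω] : Finite (Qt (V := V) Ω) :=
  inferInstanceAs (Finite (Quotient (qst (V := V) Ω)))

instance [Finite Ω] : Fintype (Qt (V := V) Ω) := Fintype.ofFinite _

variable {Ω}

/-- the orbit of a point -/
def qmk (ω : Ω) : Qt (V := V) Ω := Quotient.mk (qst (V := V) Ω) ω

/-- a representative -/
def Qt.rep (k : Qt (V := V) Ω) : Ω := Quotient.out k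

theorem Qt.mk_rep (k : Qt (V := V) Ω) : qmk k.rep = k := Quotient.out_eq k

theorem qmk_eq {ω ω' : Ω} : (qmk ω : Qt (V := V) Ω) = qmk ω' ↔
    ∃ v : V, ((1, v) : V × V) • ω = ω' :=
  ⟨fun h => Quotient.exact h, fun h => Quotient.sound h⟩

instance : MulAction (V × V) (Qt (V := V) Ω) where
  smul h := Quotient.map (fun ω => h • ω) (by
    rintro ω _ ⟨v, rfl⟩
    refine ⟨v, ?_⟩
    rw [smul_smul, smul_smul, mul_comm])
  one_smul := by
    intro k
    obtain ⟨ω, rfl⟩ : ∃ ω, qmk ω = k := ⟨k.rep, k.mk_rep⟩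
    exact congrArg qmk (one_smul (V × V) ω)
  mul_smul := by
    intro g h k
    obtain ⟨ω, rfl⟩ : ∃ ω, qmk ω = k := ⟨k.rep, k.mk_rep⟩
    exact congrArg qmk (mul_smul g h ω)

theorem smul_qmk (h : V × V) (ω : Ω) : h • (qmk ω : Qt (V := V) Ω) = qmk (h • ω) := rfl

end orbits

/-! ## Dual frames -/

/-- A `V × V`-frame `b` with its dual `d` with respect to the symmetric form `lam`; `V × 1` and `1 × V`
act freely on `Ω`. -/
structure DFr (R : Type) {V A Ω : Type} [CommRing R] [CommGroup V] [Ring A] [Algebra R A]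
    [Fintype Ω] [MulAction (V × V) Ω] (α : V →* A) (lam : A →ₗ[R] R) (b d : Ω → A) : Prop where
  sym : ∀ a a', lam (a * a') = lam (a' * a)
  eb : ∀ (u v : V) (ω : Ω), b ((u, v) • ω) = α u * b ω * α v⁻¹
  ed : ∀ (u v : V) (ω : Ω), d ((u, v) • ω) = α v * d ω * α u⁻¹
  sum : ∀ a, ∑ ω, lam (d ω * a) • b ω = a
  fl : ∀ (u : V) (ω : Ω), ((u, 1) : V × V) • ω = ω → u = 1
  fr : ∀ (v : V) (ω : Ω), ((1, v) : V × V) • ω = ω → v = 1

/-! ## The Brauer quotient -/

/-- `B = A(Q)`: `β` is the Brauer map on the elements which commute with `Q`. -/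
structure IsAQ (R : Type) {V A : Type} [CommRing R] [CommGroup V] [Ring A] [Algebra R A]
    (α : V →* A) (Q : Subgroup V) (B : Type) [Ring B] [Algebra R B] where
  β : A →ₗ[R] B
  one : β 1 = 1
  mul : ∀ a ∈ FxR (cw R α) Q, ∀ b ∈ FxR (cw R α) Q, β (a * b) = β a * β b
  ker : ∀ a ∈ FxR (cw R α) Q, β a = 0 ↔ a ∈ BKR (cw R α) Q
  sur : ∀ b : B, ∃ a ∈ FxR (cw R α) Q, β a = b

section homs

variable {R V A B : Type} [CommRing R] [CommGroup V] [Ring A] [Algebra R A] [Ring B] [Algebra R B]
  {α : V →* A}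

theorem mem_cw {Q : Subgroup V} {a : A} :
    a ∈ FxR (cw R α) Q ↔ ∀ q ∈ Q, α q * a = a * α q := by
  constructor
  · intro h q hq
    have h1 : α q * (a * α q⁻¹) = a := h q hq
    calc α q * a = α q * (a * α q⁻¹) * α q := by
          rw [mul_assoc, mul_assoc, ← map_mul, inv_mul_cancel, map_one, mul_one]
      _ = a * α q := by rw [h1]
  · intro h q hq
    change α q * (a * α q⁻¹) = a
    rw [← mul_assoc, h q hq, mul_assoc, ← map_mul, mul_inv_cancel, map_one, mul_one]

theorem al_mem_cw (v : V) (Q : Subgroup V) : α v ∈ FxR (cw R α) Q := by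
  rw [mem_cw]
  intro q _
  rw [← map_mul, ← map_mul, mul_comm]

theorem al_mem_tw (v : V) (W : Subgroup V) : α v ∈ FxR (bw R α) (twW W (1 : MulAut W)) := by
  rw [mem_tw]
  intro q
  rw [← map_mul, ← map_mul, mul_comm]
  rfl

/-- the homomorphism `V → N_W(A)` -/
def IsNW.nwh {W : Subgroup V} (N : IsNW R α W B) : V →* B where
  toFun := fun v => N.β 1 (α v)
  map_one' := by rw [map_one, N.one]
  map_mul' := by
    intro u v
    have := N.mul 1 1 (α u) (al_mem_tw u W) (α v) (al_mem_tw v W)
    rw [mul_one, ← map_mul] at this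
    exact this

theorem IsNW.nwh_apply {W : Subgroup V} (N : IsNW R α W B) (v : V) : N.nwh v = N.β 1 (α v) := rfl

/-- the homomorphism `V → A(Q)` -/
def IsAQ.aqh {Q : Subgroup V} (N : IsAQ R α Q B) : V →* B where
  toFun := fun v => N.β (α v)
  map_one' := by rw [map_one, N.one]
  map_mul' := by
    intro u v
    rw [map_mul, N.mul _ (al_mem_cw u Q) _ (al_mem_cw v Q)]

theorem IsAQ.aqh_apply {Q : Subgroup V} (N : IsAQ R α Q B) (v : V) : N.aqh v = N.β (α v) := rfl

end homs

/-! ## Subgroups of `E` -/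

section groups

variable {V E : Type} [CommGroup V] [Group E] (φ : E →* MulAut V) (Q : Subgroup V)

/-- the centraliser of `Q` in `E` -/
def CE : Subgroup E where
  carrier := {e | ∀ q ∈ Q, φ e q = q}
  one_mem' := by
    intro q _
    rw [map_one]
    rfl
  mul_mem' := by
    intro a b ha hb q hq
    rw [map_mul, MulAut.mul_apply, hb q hq, ha q hq]
  inv_mem' := by
    intro a ha q hq
    rw [map_inv]
    apply (φ a).injective
    rw [MulAut.apply_inv_self, ha q hq]

/-- the normaliser of `Q` in `E` -/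
def NE : Subgroup E where
  carrier := {e | Q.map (φ e).toMonoidHom = Q}
  one_mem' := by
    change Q.map (φ 1).toMonoidHom = Q
    rw [map_one]
    exact Subgroup.map_id Q
  mul_mem' := by
    intro a b ha hb
    change Q.map (φ (a * b)).toMonoidHom = Q
    have h1 : (φ (a * b)).toMonoidHom = (φ a).toMonoidHom.comp (φ b).toMonoidHom := by
      rw [map_mul]
      rfl
    rw [h1, ← Subgroup.map_map]
    change Q.map (φ a).toMonoidHom = Q at ha
    change Q.map (φ b).toMonoidHom = Q at hb
    rw [hb, ha]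
  inv_mem' := by
    intro a ha
    change Q.map (φ a).toMonoidHom = Q at ha
    change Q.map (φ a⁻¹).toMonoidHom = Q
    conv_lhs => rw [← ha]
    rw [Subgroup.map_map]
    have h1 : (φ a⁻¹).toMonoidHom.comp (φ a).toMonoidHom = MonoidHom.id V := by
      ext v
      change φ a⁻¹ (φ a v) = v
      rw [map_inv, MulAut.inv_apply_self]
    rw [h1, Subgroup.map_id]

end groups

end Pool.Agent.PSS
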