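import Pool.Agent.PSS.StmtsS1a

/-!
# Squad PSS (theorem (S)), block S2: the direction of the deformation (helper75)

Setting: `V` a finite abelian group, `z ∈ V`, `χ : V → R` additive (modulo `q`) with `χ z = 1`,
`A` with the relative Frobenius system `RF R α lam x y`; `E (a) = ∑ v, lam (α v⁻¹ * a) v`.

* `rt x y a = ∑ x k * a * y k` is `PSS.rt`; `PSS.RtcStmt` (row RTC of S1): it is central.
* A connection `N` is a linear map with `N (a α v) = N a α v + χ v a α v` (modulo `q`).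
* `Gz α z x y N a = ∑ k, (N (a x k) - a N (x k)) (1 - α z⁻¹) y k` is a derivation modulo `q`
  (the transfer of the derivation `v ↦ χ v • v (1 - z⁻¹)` of `R V`).
* Over `O`, with `q = n = orderOf z` and `N` adapted to `W`, `Gz / n` is the first order term of the
  deformation; over `F` (`n = 0` there) the first order term of `∑ x' k * α' w * y' k` is
  `- (rt_V (z⁻¹) rt_V (w) + Gz (rt_V w))`, and block S2 proves: this is `- (rt_V (1) ^ 2 + nilpotent)`.

Main tools over `F`, `σ = ∑ v, α v`: for `f` commuting with `V` on both sides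
`∑ k, lam (y k σ f (x k)) = ∑ k, lam (y k f (x k) σ)` (STR), and the second sum is the trace of `f`
on `A / A I_V`, so it is `0` for `f = ` multiplication by a nilpotent element (NLM).
-/

open scoped BigOperators

noncomputable section

namespace Pool.Agent.PSS.S2

open Pool.Agent.PFC (tw IsTv)
open Pool.Agent.PFD.D2b (FrR)

/-! ## Definitions -/

section defs

variable {R V E A K Ω : Type} [CommRing R] [CommGroup V] [Fintype V] [Group E] [Ring A]
  [Algebra R A] [Fintype K] [Fintype Ω]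

/-- congruence modulo `q` -/
def Cg {R M : Type} [CommRing R] [AddCommGroup M] [Module R M] (q : R) (a b : M) : Prop :=
  ∃ d : M, a - b = q • d

/-- the sum of the elements of `V` -/
def sg (α : V →* A) : A := ∑ v, α v

/-- the coefficient of `1` in the trace of a right `V`-linear endomorphism -/
def t1 (lam : A →ₗ[R] R) (x y : K → A) (f : A →ₗ[R] A) : R := ∑ k, lam (y k * f (x k))

/-- right `V`-linear modulo `q` -/
def RLq (q : R) (α : V →* A) (f : A →ₗ[R] A) : Prop := ∀ a v, Cg q (f (a * α v)) (f a * α v)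

/-- `N` is a connection for `χ`, modulo `q` -/
structure Cn (q : R) (α : V →* A) (χ : V → R) (N : A →ₗ[R] A) : Prop where
  add : ∀ u v, Cg q (χ (u * v)) (χ u + χ v)
  lin : ∀ a v, Cg q (N (a * α v)) (N a * α v + χ v • (a * α v))

/-- the transfer of `χ · (1 - z⁻¹)` -/
def Gz (α : V →* A) (z : V) (x y : K → A) (N : A →ₗ[R] A) : A →ₗ[R] A :=
  ∑ k, (LinearMap.mulRight R ((1 - α z⁻¹) * y k)).comp
    (N.comp (LinearMap.mulRight R (x k)) - LinearMap.mulRight R (N (x k)))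

/-- the connection of a function `H` on the frame -/
def Nh (H : Ω → R) (b : Ω → A) (c : Ω → (A →ₗ[R] R)) : A →ₗ[R] A :=
  ∑ ω, (c ω).smulRight (H ω • b ω)

/-- a permutation frame, all stabilisers twisted diagonals -/
structure PrD (R : Type) {V E A Ω : Type} [CommRing R] [CommGroup V] [Group E] [Ring A]
    [Algebra R A] [Fintype Ω] [MulAction (V × V) Ω] (φ : E →* MulAut V) (α : V →* A)
    (b : Ω → A) (c : Ω → (A →ₗ[R] R)) : Prop where
  fr : FrR (bw R α) b c
  st : ∀ ω : Ω, ∃ (e : E) (S : Subgroup V),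
    MulAction.stabilizer (V × V) ω = tw (φ e).toMonoidHom S

/-- `h` is a trivialisation of the right action of `V` -/
def Tz {V Ω : Type} [CommGroup V] [MulAction (V × V) Ω] (h : Ω → V) : Prop :=
  ∀ (v : V) (ω : Ω), h (((1 : V), v) • ω) = h ω * v⁻¹

/-- `a` commutes with `V` -/
def CV (α : V →* A) (a : A) : Prop := ∀ v, α v * a = a * α v

/-- the span of the elements `(α u - 1) * a`, `a` commutes with `V` -/
def AgI (R : Type) {V A : Type} [CommRing R] [CommGroup V] [Ring A] [Algebra R A] (α : V →* A) :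
    Submodule R A :=
  Submodule.span R {n | ∃ (u : V) (a : A), a ∈ FxR (cw R α) ⊤ ∧ n = (α u - 1) * a}

end defs

theorem cg_zero {R M : Type} [CommRing R] [AddCommGroup M] [Module R M] (a b : M) :
    Cg (0 : R) a b ↔ a = b := by
  constructor
  · rintro ⟨d, hd⟩
    rw [zero_smul] at hd
    exact sub_eq_zero.mp hd
  · rintro rfl
    exact ⟨0, by simp⟩

theorem gz_apply {R V A K : Type} [CommRing R] [CommGroup V] [Ring A]
    [Algebra R A] [Fintype K] (α : V →* A) (z : V) (x y : K → A) (N : A →ₗ[R] A) (a : A) :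
    Gz α z x y N a = ∑ k, (N (a * x k) - a * N (x k)) * ((1 - α z⁻¹) * y k) := by
  simp [Gz, LinearMap.sum_apply, mul_assoc]

theorem nh_apply {R A Ω : Type} [CommRing R] [Ring A]
    [Algebra R A] [Fintype Ω] (H : Ω → R) (b : Ω → A) (c : Ω → (A →ₗ[R] R)) (a : A) :
    Nh H b c a = ∑ ω, (c ω a * H ω) • b ω := by
  simp [Nh, LinearMap.sum_apply, smul_smul]

/-! ## Part 1: identities over a commutative ring, modulo `q` -/

/-- TPR (200). Trace property. Proof: `g (x k) = ∑ j v, lam (α v⁻¹ * y j * g (x k)) • (x j * α v)`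
(RF.e1), so modulo `q`: `lam (y k * f (g (x k))) ≡ ∑ j v, lam (α v⁻¹ * y j * g (x k)) *
lam (y k * f (x j) * α v)` and `lam (y k * f (x j) * α v) = lam (α v * y k * f (x j))`. In the same
way the other side is `∑ k j v, lam (α v⁻¹ * y j * f (x k)) * lam (α v * y k * g (x j))`; exchange
`j` and `k` and substitute `v ↦ v⁻¹`. -/
def TprStmt : Prop :=
  ∀ (R V A K : Type) [CommRing R] [CommGroup V] [Fintype V] [Ring A] [Algebra R A] [Fintype K]
    (q : R) (α : V →* A) (lam : A →ₗ[R] R) (x y : K → A) (f g : A →ₗ[R] A),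
    RF R α lam x y → RLq q α f → RLq q α g →
    Cg q (t1 lam x y (f ∘ₗ g)) (t1 lam x y (g ∘ₗ f))

/-- THL (201). Proof: `f (a * x k) ≡ ∑ j v, lam (α v⁻¹ * y j * (a * x k)) • (f (x j) * α v)` by
RF.e1 for `a * x k`, so the left side is `∑ j, f (x j) * ∑ k v, lam (y j * a * (x k * α v⁻¹)) •
(α v * y k)` (symmetry of `lam`), substitute `v ↦ v⁻¹` and use RF.e2 for `y j * a`. -/
def ThlStmt : Prop :=
  ∀ (R V A K : Type) [CommRing R] [CommGroup V] [Fintype V] [Ring A] [Algebra R A] [Fintype K]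
    (q : R) (α : V →* A) (lam : A →ₗ[R] R) (x y : K → A) (f : A →ₗ[R] A),
    RF R α lam x y → RLq q α f → ∀ a : A,
    Cg q (∑ k, f (a * x k) * y k) ((∑ k, f (x k) * y k) * a)

/-- DGZ (203). `Gz` is a derivation modulo `q`. Proof: for fixed `a` the map
`f b = (N (a * b) - a * N b) * (1 - α z⁻¹)` is right `V`-linear modulo `q` (`N (a b α v) ≡
N (a b) α v + χ v • a b α v`, `a N (b α v) ≡ a N b α v + χ v • a b α v`, and `α v` commutes with
`1 - α z⁻¹`). `N (a b x k) - a b N (x k) = (N (a (b x k)) - a N (b x k)) + a (N (b x k) - b N (x k))`,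
so `Gz (a b) = ∑ k, f (b * x k) * y k + a * Gz b` and THL gives `∑ k, f (b * x k) * y k ≡
(∑ k, f (x k) * y k) * b = Gz a * b`. -/
def DgzStmt : Prop :=
  ∀ (R V A K : Type) [CommRing R] [CommGroup V] [Fintype V] [Ring A] [Algebra R A] [Fintype K]
    (q : R) (α : V →* A) (z : V) (lam : A →ₗ[R] R) (x y : K → A) (χ : V → R) (N : A →ₗ[R] A),
    RF R α lam x y → Cn q α χ N → ∀ a b : A,
    Cg q (Gz α z x y N (a * b)) (Gz α z x y N a * b + a * Gz α z x y N b)

/-- DTR (204). The trace of `[N, g]` is `0` modulo `q` for a right `V`-linear `g`. Proof: write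
`P j k v = lam (α v⁻¹ * y j * g (x k))`, `D k j v = lam (α v⁻¹ * y k * x j)`.
`N (g (x k)) ≡ ∑ j v, P j k v • (N (x j) * α v + χ v • (x j * α v))` and
`g (N (x k)) ≡ ∑ j v, lam (α v⁻¹ * y j * N (x k)) • (g (x j) * α v)`. After multiplication by `y k`,
`lam` and the sum over `k`, the terms with `N (x j)` and the second sum cancel (exchange `j`, `k`,
`v ↦ v⁻¹`, as in TPR). Remains `B (g) := ∑ k j v, χ v * P j k v * D k j (v⁻¹)`; `v ↦ v⁻¹`,
`χ (v⁻¹) ≡ - χ v`: `B (g) ≡ - ∑ k j v, χ v * D k j v * P j k (v⁻¹) =: - C`. Expand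
`x j = ∑ l u, lam (α u⁻¹ * y l * x j) • (x l * α u)` inside `D k j v = lam (α v⁻¹ * y k * x j)
= ∑ l u, D l j u * D k l (u⁻¹ * v)`, put `v = u * v'`, `χ v ≡ χ u + χ v'`:
the part with `χ u` is `∑ χ u * D l j u * ∑ k v', D k l v' * P j k ((u v')⁻¹)`, and
`∑ k v', D k l v' • (x k * α v') = x l` gives (g right linear) `∑ k v', D k l v' * P j k ((u v')⁻¹)
≡ P j l (u⁻¹)`, so this part is `C`; the part with `χ v'` is
`∑ χ v' * D k l v' * ∑ j u, D l j u * P j k ((u v')⁻¹)`, and `∑ j u, D l j u • (α u * y j) = y l`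
(RF.e2) gives `∑ j u, D l j u * P j k ((u v')⁻¹) = P l k (v'⁻¹)`, so this part is `C` too. Hence
`C ≡ 2 C`, `C ≡ 0`. -/
def DtrStmt : Prop :=
  ∀ (R V A K : Type) [CommRing R] [CommGroup V] [Fintype V] [Ring A] [Algebra R A] [Fintype K]
    (q : R) (α : V →* A) (lam : A →ₗ[R] R) (x y : K → A) (χ : V → R) (N g : A →ₗ[R] A),
    RF R α lam x y → Cn q α χ N → RLq q α g →
    Cg q (∑ k, lam (y k * (N (g (x k)) - g (N (x k))))) 0

/-- TRC (205). Proof: `g b = a * b * (1 - α z⁻¹)` is right `V`-linear, and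
`N (g b) - g (N b) = N (a b) - N (a b α z⁻¹) - a N b (1 - α z⁻¹) ≡
(N (a b) - a N b) (1 - α z⁻¹) + a b α z⁻¹` since `χ (z⁻¹) ≡ - χ z ≡ - 1` (`χ 1 ≡ 0`). DTR:
`0 ≡ ∑ k, lam (y k * (N (a x k) - a N (x k)) * (1 - α z⁻¹)) + ∑ k, lam (y k * a * x k * α z⁻¹)
= lam (Gz a) + lam (a * ∑ k, x k * α z⁻¹ * y k)` (symmetry of `lam`). -/
def TrcStmt : Prop :=
  ∀ (R V A K : Type) [CommRing R] [CommGroup V] [Fintype V] [Ring A] [Algebra R A] [Fintype K]
    (q : R) (α : V →* A) (z : V) (lam : A →ₗ[R] R) (x y : K → A) (χ : V → R) (N : A →ₗ[R] A),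
    RF R α lam x y → Cn q α χ N → Cg q (χ z) 1 → ∀ a : A,
    Cg q (lam (Gz α z x y N a)) (- lam (a * rt x y (α z⁻¹)))

/-! ## Part 2: sets with an action of `V × V` -/

/-- TOR (206). Proof: choose representatives `ω₀` of the orbits (`Quotient.out` of the orbit
relation), for `ω = g • ω₀` put `H ω = ψ ω₀ g`: well defined because `g • ω₀ = g' • ω₀` gives
`ψ ω₀ (g'⁻¹ * g) = 0`. -/
def TorStmt : Prop :=
  ∀ (G Ω B : Type) [Group G] [MulAction G Ω] [AddCommGroup B] (ψ : Ω → G → B),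
    (∀ (ω : Ω) (g : G), ψ (g • ω) = ψ ω) →
    (∀ (ω : Ω) (g g' : G), ψ ω (g * g') = ψ ω g + ψ ω g') →
    (∀ (ω : Ω) (g : G), g • ω = ω → ψ ω g = 0) →
    ∃ H : Ω → B, ∀ (g : G) (ω : Ω), H (g • ω) = H ω + ψ ω g

/-- HTR (207). The right action of `V` on the frame is free, so it has a trivialisation. Proof: TOR
for the group `V` acting by `(1, v)`, `B = Additive V`, `ψ ω v = v⁻¹`; if `(1, v) • ω = ω` then
`(1, v) ∈ tw (φ e) S`, so `(1, v) = (φ e s, s)`, `s = 1`. -/
def HtrStmt : Prop :=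
  ∀ (R V E A Ω : Type) [CommRing R] [CommGroup V] [Group E] [Ring A]
    [Algebra R A] [Fintype Ω] [MulAction (V × V) Ω] (φ : E →* MulAut V) (α : V →* A)
    (b : Ω → A) (c : Ω → (A →ₗ[R] R)), PrD R φ α b c → ∃ h : Ω → V, Tz h

/-- EOR (208). The twist can be chosen constant on orbits. Proof: `V × V` is abelian, so the
stabilisers of `p • ω` and `ω` are equal; choose `e` and `S` as functions of the stabiliser. -/
def EorStmt : Prop :=
  ∀ (R V E A Ω : Type) [CommRing R] [CommGroup V] [Group E] [Ring A]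
    [Algebra R A] [Fintype Ω] [MulAction (V × V) Ω] (φ : E →* MulAut V) (α : V →* A)
    (b : Ω → A) (c : Ω → (A →ₗ[R] R)), PrD R φ α b c →
    ∃ (e : Ω → E) (S : Ω → Subgroup V), (∀ (p : V × V) ω, e (p • ω) = e ω) ∧
      (∀ (p : V × V) ω, S (p • ω) = S ω) ∧
      ∀ ω : Ω, MulAction.stabilizer (V × V) ω = tw (φ (e ω)).toMonoidHom (S ω)

/-- WTR (209). Sum over the representatives `h ω = 1` of the right orbits. Proof: every element of
`Ω` is uniquely `(1, v⁻¹) • ω` with `h ω = 1` (`v = h` of it). `b ((1, v⁻¹) • ω) = b ω * α v`,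
`c ((1, v⁻¹) • ω) a = c ω (a * α v⁻¹)` (from `c (g • t) (ρ g n) = c t n`), so the part of the left
side over this right orbit is `κ ω * ∑ v k, c ω (x k * α v⁻¹) * lam (y k * f (b ω) * α v) =
κ ω * c ω (∑ v k, lam (α v * y k * f (b ω)) • (x k * α v⁻¹)) = κ ω * c ω (f (b ω))` by RF.e1. -/
def WtrStmt : Prop :=
  ∀ (R V A K Ω : Type) [CommRing R] [CommGroup V] [Fintype V] [Ring A]
    [Algebra R A] [Fintype K] [Fintype Ω] [DecidableEq V] [MulAction (V × V) Ω] (α : V →* A)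
    (lam : A →ₗ[R] R) (x y : K → A) (b : Ω → A) (c : Ω → (A →ₗ[R] R)) (h : Ω → V) (κ : Ω → R)
    (f : A →ₗ[R] A), RF R α lam x y → FrR (bw R α) b c → Tz h →
    (∀ (v : V) ω, κ (((1 : V), v) • ω) = κ ω) → (∀ a v, f (a * α v) = f a * α v) →
    ∑ ω, κ ω * ∑ k, c ω (x k) * lam (y k * f (b ω)) =
      ∑ ω with h ω = 1, κ ω * c ω (f (b ω))

/-- FPS (210). A sum of a `V × V`-invariant function over the right orbits is the sum over the
right orbits which are fixed by the left action (`V` an `ℓ`-group, characteristic `ℓ`). Proof: `V`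
acts on `T = {ω | h ω = 1}` by `u * ω = (u, h ((u, 1) • ω)) • ω` (the unique element
`(u, v) • ω` of `T`); the fixed points are the `ω` of the right side. For each value `t` of `g` the
set `{ω ∈ T | g ω = t}` is stable, so its cardinality is congruent modulo `ℓ` to the number of its
fixed points (`IsPGroup.card_modEq_card_fixedPoints`); sum over `t` (`Finset.sum_fiberwise`). -/
def FpsStmt : Prop :=
  ∀ (ℓ : ℕ) [Fact ℓ.Prime] (F V Ω : Type) [Field F] [CharP F ℓ] [CommGroup V] [Fintype V]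
    [DecidableEq V] [Fintype Ω] [MulAction (V × V) Ω] (h : Ω → V) (g : Ω → F),
    IsPGroup ℓ V → Tz h → (∀ (p : V × V) ω, g (p • ω) = g ω) → ∀ (P : Ω → Prop)
    [DecidablePred P], (∀ ω, P ω ↔ ∀ u : V, ∃ v : V, (u, v) • ω = ω) →
    ∑ ω with h ω = 1, g ω = ∑ ω with (h ω = 1 ∧ P ω), g ω

/-! ## Part 3: over a field of characteristic `ℓ` -/

/-- STR (211). For `f` which commutes with `V` on both sides: the trace of `f` followed by left
multiplication with `σ` is the trace of `f` followed by right multiplication with `σ`. Proof: WTR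
with `κ = 1` (and `∑ ω, c ω (x k) • b ω = x k`) for `σ f` and `f σ`: the two sides are
`∑ (h ω = 1) g₁ ω`, `g₁ ω = ∑ u, c ω (f (b ((u, 1) • ω)))` and `∑ (h ω = 1) g₂ ω`,
`g₂ ω = ∑ v, c ω (f (b ((1, v⁻¹) • ω)))`. Both are `V × V`-invariant, by FPS only the `ω` count for
which all `(u, *) • ω = ω`; then `S = ⊤` in the stabiliser `tw (φ e) S`, `(u, 1) • ω =
(1, (φ e⁻¹ u)⁻¹) • ω`, and `g₁ ω = g₂ ω` (substitute `v = φ e⁻¹ u`). -/
def StrStmt : Prop :=
  ∀ (ℓ : ℕ) [Fact ℓ.Prime] (F V E A K Ω : Type) [Field F] [CharP F ℓ] [CommGroup V] [Fintype V]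
    [Group E] [Ring A] [Algebra F A] [Fintype K] [Fintype Ω] [MulAction (V × V) Ω]
    (φ : E →* MulAut V) (α : V →* A) (lam : A →ₗ[F] F) (x y : K → A) (b : Ω → A)
    (c : Ω → (A →ₗ[F] F)) (f : A →ₗ[F] A), IsPGroup ℓ V → RF F α lam x y → PrD F φ α b c →
    (∀ a v, f (a * α v) = f a * α v) → (∀ v a, f (α v * a) = α v * f a) →
    ∑ k, lam (y k * (sg α * f (x k))) = ∑ k, lam (y k * (f (x k) * sg α))

/-- NLM (212). Proof: the matrix `m a (j, k) = ∑ v, lam (α v⁻¹ * y j * a * x k)` is multiplicative: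
`m (a b) = m a * m b` (expand `b * x l = ∑ k u, lam (α u⁻¹ * y k * b * x l) • (x k * α u)` and use
`∑ v, lam (α v⁻¹ * y j * a * x k * α u) = ∑ v, lam (α (u v⁻¹) * y j * a * x k)`), so `m a` is
nilpotent, its trace is nilpotent (`Matrix.isNilpotent_trace_of_isNilpotent`), hence `0`; the trace
is the left side (`v ↦ v⁻¹`, symmetry). -/
def NlmStmt : Prop :=
  ∀ (F V A K : Type) [Field F] [CommGroup V] [Fintype V] [Ring A] [Algebra F A] [Fintype K]
    (α : V →* A) (lam : A →ₗ[F] F) (x y : K → A) (a : A), RF F α lam x y → IsNilpotent a →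
    ∑ k, lam (y k * (a * x k * sg α)) = 0

/-- SVI (213). Independence of the connection. Proof: `g = N₁ - N₂` is right `V`-linear. The
difference is `∑ k, lam ((g (α u x k) - α u g (x k)) (1 - α z⁻¹) y k a) =
t1 (L_a g L_u R) - t1 (L_a L_u g R)`, `R` = right multiplication by `1 - α z⁻¹` (it commutes with
right linear maps up to `g (b α v) = g b α v`), `t1 (L_a g L_u R) = t1 (L_u L_a g R)` by TPR
(`q = 0`) and `L_u L_a = L_a L_u`. -/
def SviStmt : Prop :=
  ∀ (F V A K : Type) [CommRing F] [CommGroup V] [Fintype V] [Ring A] [Algebra F A] [Fintype K]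
    (α : V →* A) (z : V) (lam : A →ₗ[F] F) (x y : K → A) (χ : V → F) (N₁ N₂ : A →ₗ[F] A) (a : A),
    RF F α lam x y → Cn 0 α χ N₁ → Cn 0 α χ N₂ → CV α a → ∀ u : V,
    lam (Gz α z x y N₁ (α u) * a) = lam (Gz α z x y N₂ (α u) * a)

/-- SVH (214). The connection adapted to the two sided action: `H ((u, v) • ω) = H ω +
χ (φ (e ω)⁻¹ u) - χ v`. Proof: TOR with `ψ ω (u, v) = χ (φ (e ω)⁻¹ u) - χ v`; for
`(u, v) = (φ (e ω) s, s)` it is `0`. -/
def SvhStmt : Prop :=
  ∀ (B V E Ω : Type) [AddCommGroup B] [CommGroup V] [Group E] [MulAction (V × V) Ω]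
    (φ : E →* MulAut V) (χ : V → B) (e : Ω → E) (S : Ω → Subgroup V),
    (∀ u v, χ (u * v) = χ u + χ v) → (∀ (p : V × V) ω, e (p • ω) = e ω) →
    (∀ ω : Ω, MulAction.stabilizer (V × V) ω = tw (φ (e ω)).toMonoidHom (S ω)) →
    ∃ H : Ω → B, ∀ (u v : V) (ω : Ω), H ((u, v) • ω) = H ω + χ (φ (e ω)⁻¹ u) - χ v

/-- CNH (215). `Nh H b c` is a connection. Proof: `c ω (a * α v) = c ((1, v) • ω) a`
(`(1, v)` maps `a * α v` to `a`), substitute `ω = (1, v⁻¹) • ω'`: `Nh H (a α v) =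
∑ ω', c ω' a • H ((1, v⁻¹) • ω') • b ω' * α v` and `H ((1, v⁻¹) • ω') ≡ H ω' - χ (v⁻¹) ≡
H ω' + χ v` (`χ 1 ≡ 0`, `χ v⁻¹ ≡ - χ v`). -/
def CnhStmt : Prop :=
  ∀ (R V A Ω : Type) [CommRing R] [CommGroup V] [Ring A] [Algebra R A] [Fintype Ω]
    [MulAction (V × V) Ω] (q : R) (α : V →* A) (χ : V → R) (H : Ω → R) (b : Ω → A)
    (c : Ω → (A →ₗ[R] R)), FrR (bw R α) b c → (∀ u v, Cg q (χ (u * v)) (χ u + χ v)) →
    (∀ (v : V) ω, Cg q (H (((1 : V), v) • ω)) (H ω - χ v)) → Cn q α χ (Nh H b c)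

/-- SVK (216). Proof: with `N = Nh H b c`: `N (α u b') - α u N b' = ∑ ω, (H ((u, 1) • ω) - H ω) *
c ω b' • (α u * b ω)` (substitute `ω ↦ (u, 1) • ω` in the first sum, `c ((u, 1) • ω) (α u b') =
c ω b'`), `H ((u, 1) • ω) - H ω = χ (φ (e ω)⁻¹ u) =: κ ω` (`χ 1 = 0`), which is invariant. So
`lam (Gz (α u) * a) = ∑ k ω, κ ω * c ω (x k) * lam (α u * b ω * (1 - α z⁻¹) * y k * a)
= ∑ ω, κ ω * ∑ k, c ω (x k) * lam (y k * f (b ω))` with `f b' = a * α u * b' * (1 - α z⁻¹)`
(symmetry of `lam`); use WTR. -/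
def SvkStmt : Prop :=
  ∀ (F V E A K Ω : Type) [CommRing F] [CommGroup V] [Fintype V] [DecidableEq V] [Group E]
    [Ring A] [Algebra F A] [Fintype K] [Fintype Ω] [MulAction (V × V) Ω]
    (φ : E →* MulAut V) (α : V →* A) (z : V) (lam : A →ₗ[F] F) (x y : K → A) (b : Ω → A)
    (c : Ω → (A →ₗ[F] F)) (h : Ω → V) (χ : V → F) (H : Ω → F) (e : Ω → E) (a : A),
    RF F α lam x y → FrR (bw F α) b c → Tz h → (∀ u v, χ (u * v) = χ u + χ v) →
    (∀ (p : V × V) ω, e (p • ω) = e ω) →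
    (∀ (u v : V) (ω : Ω), H ((u, v) • ω) = H ω + χ (φ (e ω)⁻¹ u) - χ v) → CV α a → ∀ u : V,
    lam (Gz α z x y (Nh H b c) (α u) * a) =
      ∑ ω with h ω = 1, χ (φ (e ω)⁻¹ u) * c ω (a * α u * b ω * (1 - α z⁻¹))

/-- SVG (217). Proof: EOR, HTR, SVH and CNH (`q = 0`) give `e`, `S`, `h`, `H`; by SVI the connection
`N` may be replaced by `Nh H b c`, and SVK gives the left side `∑ (h ω = 1) g ω` with
`g ω = ∑ u, χ (φ (e ω)⁻¹ u) * c ω (a * α u * b ω * (1 - α z⁻¹))`. `g` is `V × V`-invariant (`a`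
commutes with `V`, frame property), so by FPS only the `ω` count with `S ω = ⊤`. For these
`α u * b ω = b ω * α (φ (e ω)⁻¹ u)`, and with `v = φ (e ω)⁻¹ u`:
`g ω = ∑ v, χ v * (c ω (a b ω α v) - c ω (a b ω α (v z⁻¹))) = ∑ v, (χ v - χ (v z)) *
c ω (a b ω α v) = - ∑ v, c ω (a b ω α v)` (`a * α u = α u * a`). On the other side
`∑ k, lam (y k * (a * x k * sg α)) = ∑ (h ω = 1) ∑ v, c ω (a * b ω * α v)` by WTR (`κ = 1`,
`f b' = a b' sg α`), again invariant, so by FPS it is the same sum over the `ω` with `S ω = ⊤`. -/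
def SvgStmt : Prop :=
  ∀ (ℓ : ℕ) [Fact ℓ.Prime] (F V E A K Ω : Type) [Field F] [CharP F ℓ] [CommGroup V] [Fintype V]
    [Group E] [Ring A] [Algebra F A] [Fintype K] [Fintype Ω] [MulAction (V × V) Ω]
    (φ : E →* MulAut V) (α : V →* A) (z : V) (lam : A →ₗ[F] F) (x y : K → A) (b : Ω → A)
    (c : Ω → (A →ₗ[F] F)) (χ : V → F) (N : A →ₗ[F] A) (a : A), IsPGroup ℓ V →
    RF F α lam x y → PrD F φ α b c → Cn 0 α χ N → χ z = 1 → CV α a →
    ∑ u, lam (Gz α z x y N (α u) * a) = - ∑ k, lam (y k * (a * x k * sg α))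

/-- IDT (218). Proof: `D j = D j * j + j * D j`, so `j * D j * j = 0`. `lam (s * D j * c) =
lam (s * D j * j * c) + lam (s * j * D j * c)`; `s`, `c` commute with `j` and `c` is central:
`lam (s * D j * j * j * c) = lam (j * s * D j * j * c) = lam (s * (j * D j * j) * c) = 0`, and
`lam (s * j * j * D j * c) = lam (s * j * (D j) * c * j) = 0` in the same way. -/
def IdtStmt : Prop :=
  ∀ (F A : Type) [CommRing F] [Ring A] [Algebra F A] (lam : A →ₗ[F] F) (D : A → A) (s c j : A),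
    (∀ a b, lam (a * b) = lam (b * a)) → (∀ a b, D (a * b) = D a * b + a * D b) →
    j * j = j → s * j = j * s → (∀ a, c * a = a * c) → lam (s * D j * c) = 0

/-- SPI (219). Every element of a finite dimensional algebra over an algebraically closed field is
a linear combination of idempotents and a nilpotent element, all in `F [a]`. Proof: `F [a]` is a
commutative finite dimensional algebra. Either Jordan - Chevalley
(`Module.End.exists_isNilpotent_isSemisimple` for the multiplication by `a` on `F [a]`) and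
Lagrange interpolation for the semisimple part (its minimal polynomial is split and squarefree), or
directly: `∏ (X - t i) ^ (m i)` kills `a`, Chinese remainder theorem for these coprime factors gives
orthogonal idempotents `e i = p i (a)` with sum `1` and `(a - t i) ^ (m i) * e i = 0`;
`a = ∑ t i • e i + ∑ (a - t i) * e i`. -/
def SpiStmt : Prop :=
  ∀ (F A : Type) [Field F] [IsAlgClosed F] [Ring A] [Algebra F A] [FiniteDimensional F A] (a : A),
    ∃ (n : ℕ) (c : Fin n → F) (e : Fin n → A) (m : A), a = ∑ i, c i • e i + m ∧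
      (∀ i, e i * e i = e i ∧ e i ∈ Algebra.adjoin F {a}) ∧ IsNilpotent m ∧
      m ∈ Algebra.adjoin F {a}

/-- FIT (220). Proof: the powers of `r` in the finite dimensional commutative algebra `F [r]`:
`r ^ n = r ^ (n + 1) * p` for some `n` and some `p ∈ F [r]` (the ideals generated by the powers
become stationary, or minimal polynomial), so `r ^ n = r ^ (2 n) * p ^ n` and
`e = r ^ n * p ^ n` is idempotent, with `r ^ n = r ^ n * e`. If `e = 0` then `r ^ n = 0`; otherwise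
`n ≠ 0` w.l.o.g. (`n + 1` also works) and `e = r * s`, `s = r ^ (n - 1) * p ^ n`. -/
def FitStmt : Prop :=
  ∀ (F A : Type) [Field F] [Ring A] [Algebra F A] [FiniteDimensional F A] (r : A),
    IsNilpotent r ∨ ∃ s ∈ Algebra.adjoin F {r}, (r * s) * (r * s) = r * s ∧ r * s ≠ 0

/-- NLT (221). `lam (σ * a) = 0` for a nilpotent `a` which commutes with `V`. Proof: `ζ = rt x y 1`
is central (`PSS.RtcStmt` of S1, hypothesis) and `u` is its inverse, `u` is central too. `a' = u * a` is nilpotent and commutes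
with `V`; `lam (σ * a) = lam (σ * ζ * a') = ∑ k, lam (σ * x k * y k * a')
= ∑ k, lam (y k * (σ * (a' * x k)))` (`a'` commutes with `σ`; symmetry) `= ∑ k, lam (y k * (a' * x k * σ))`
by STR for `f b = a' * b`, and this is `0` by NLM. -/
def NltStmt : Prop :=
  ∀ (ℓ : ℕ) [Fact ℓ.Prime] (F V E A K Ω : Type) [Field F] [CharP F ℓ] [CommGroup V] [Fintype V]
    [Group E] [Ring A] [Algebra F A] [Fintype K] [Fintype Ω] [MulAction (V × V) Ω]
    (φ : E →* MulAut V) (α : V →* A) (lam : A →ₗ[F] F) (x y : K → A) (b : Ω → A)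
    (c : Ω → (A →ₗ[F] F)) (u a : A), IsPGroup ℓ V → RF F α lam x y → PrD F φ α b c →
    u * rt x y 1 = 1 → CV α a → IsNilpotent a → lam (sg α * a) = 0

/-- RTW (222). Proof: `lam (σ * a * rt x y (α w)) = ∑ k, lam (y k * (σ * (a * x k * α w)))
= ∑ k, lam (y k * (a * x k * α w * σ))` by STR for `f b = a * b * α w`, and `α w * σ = σ`; so the
value does not depend on `w`. -/
def RtwStmt : Prop :=
  ∀ (ℓ : ℕ) [Fact ℓ.Prime] (F V E A K Ω : Type) [Field F] [CharP F ℓ] [CommGroup V] [Fintype V]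
    [Group E] [Ring A] [Algebra F A] [Fintype K] [Fintype Ω] [MulAction (V × V) Ω]
    (φ : E →* MulAut V) (α : V →* A) (lam : A →ₗ[F] F) (x y : K → A) (b : Ω → A)
    (c : Ω → (A →ₗ[F] F)) (a : A) (w : V), IsPGroup ℓ V → RF F α lam x y → PrD F φ α b c →
    CV α a → lam (sg α * a * rt x y (α w)) = lam (sg α * a * rt x y 1) ∧
      lam (sg α * a * rt x y (α w)) = ∑ k, lam (y k * (a * x k * sg α))

/-- TVC (223). Proof. `G = Gz α z x y N` is a derivation (DGZ, `q = 0`); `G c` is central for central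
`c` (`G c * b - b * G c = G (c b - b c) - (c * G b - G b * c) = 0`). (i) `a = j` an idempotent which
commutes with `V`, `c` central: `G (σ j c) = G σ * (j c) + σ * G j * c + σ * j * G c`, so
`lam (σ j G c) = lam (G (σ j c)) - lam (G σ * (j c)) - lam (σ * G j * c)`. The last term is `0` (IDT).
`lam (G (σ j c)) = - lam (σ * (j c) * rt x y (α z⁻¹)) = - ∑ k, lam (y k * ((j c) * x k * sg α))`
(TRC, RTW) and `lam (G σ * (j c)) = ∑ u, lam (G (α u) * (j c)) = - ∑ k, lam (y k * ((j c) * x k * sg α))`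
(SVG). So `lam (σ j G c) = 0`. (ii) `a` nilpotent: `a * G c` is nilpotent (`G c` central) and
commutes with `V`, so `lam (σ * (a * G c)) = 0` by NLT. (iii) in general decompose `a` by SPI; the
elements of `F [a]` commute with `V`. -/
def TvcStmt : Prop :=
  ∀ (ℓ : ℕ) [Fact ℓ.Prime] (F V E A K Ω : Type) [Field F] [IsAlgClosed F] [CharP F ℓ]
    [CommGroup V] [Fintype V] [Group E] [Ring A] [Algebra F A] [FiniteDimensional F A] [Fintype K]
    [Fintype Ω] [MulAction (V × V) Ω] (φ : E →* MulAut V) (α : V →* A) (z : V)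
    (lam : A →ₗ[F] F) (x y : K → A) (b : Ω → A) (c : Ω → (A →ₗ[F] F)) (χ : V → F)
    (N : A →ₗ[F] A) (u a d : A), IsPGroup ℓ V → RF F α lam x y → PrD F φ α b c →
    u * rt x y 1 = 1 → Cn 0 α χ N → χ z = 1 → CV α a → (∀ a', d * a' = a' * d) →
    lam (sg α * a * Gz α z x y N d) = 0

/-- NDA (224). Proof: for `ω` fixed by all `(v, v)` put `ĉ = ∑ k v, c ω (x k * α v) • (α v⁻¹ * y k)`;
`lam (ĉ * d) = c ω d` (RF.e1) and `ĉ` commutes with `V` (`c ω (α v d α v⁻¹) = c ω d`,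
nondegeneracy of `lam` from RF.e1). So `0 = lam (σ a ĉ) = c ω (σ a) = ∑ u, c ((u, 1) • ω) a`.
`a = ∑ ω, c ω a • b ω` and `c ω a` is constant on the orbits of the diagonal; the orbits with more
than one point give relative traces of `c ω a • b ω` from the (proper) stabiliser: they are in
`BKR (cw F α) ⊤`. The fixed points form a set on which `V` acts by `(u, 1)`; the sum over one orbit
is `∑ c ((u, 1) • ω) a • α u * b ω` with coefficients of sum `0` (up to the size of the stabiliser,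
which is `1`: `(u, 1) ∈ tw (φ e) S` only for `u = 1`), `= ∑ c ((u, 1) • ω) a • (α u - 1) * b ω`,
and `b ω` commutes with `V`. -/
def NdaStmt : Prop :=
  ∀ (F V E A K Ω : Type) [Field F] [CommGroup V] [Fintype V] [Group E] [Ring A] [Algebra F A]
    [Fintype K] [Fintype Ω] [MulAction (V × V) Ω] (φ : E →* MulAut V) (α : V →* A)
    (lam : A →ₗ[F] F) (x y : K → A) (b : Ω → A) (c : Ω → (A →ₗ[F] F)) (a : A),
    RF F α lam x y → PrD F φ α b c → CV α a →
    (∀ d, CV α d → lam (sg α * a * d) = 0) → a ∈ BKR (cw F α) ⊤ ⊔ AgI F α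

/-- NDB (225). Proof: let `I ≤ F V` be the augmentation ideal; every element of `I` is nilpotent
(`x ^ (ℓ ^ k) = ∑ c u ^ (ℓ ^ k) u ^ (ℓ ^ k)`), `F V` is commutative and noetherian, so `I ^ m = 0`
for some `m`. `J m = span of i * a`, `i ∈ α (I ^ m)`, `a` commuting with `V`: `AgI ≤ J 1`,
`J m * J m' ≤ J (m + m')` and `BKR (cw F α) ⊤` is an ideal of the algebra of the elements which
commute with `V`. From `e ∈ BKR + J 1` and `e = e ^ m`: `e ∈ BKR + J m = BKR`. -/
def NdbStmt : Prop :=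
  ∀ (ℓ : ℕ) [Fact ℓ.Prime] (F V A : Type) [Field F] [CharP F ℓ] [CommGroup V] [Fintype V]
    [Ring A] [Algebra F A] (α : V →* A) (e : A), IsPGroup ℓ V → CV α e → e * e = e →
    e ∈ BKR (cw F α) ⊤ ⊔ AgI F α → e ∈ BKR (cw F α) ⊤

/-- RAD (226). Proof: if `d` is not nilpotent, FIT gives the idempotent `e = d * s ≠ 0`,
`s ∈ F [d]`, so `e` is central; `lam (σ * e * a) = lam (σ * (s a) * d) = 0` for all `a` commuting
with `V`, so `e ∈ BKR ⊔ AgI` (NDA), `e ∈ BKR` (NDB), `e = 0` by the last hypothesis. -/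
def RadStmt : Prop :=
  ∀ (ℓ : ℕ) [Fact ℓ.Prime] (F V E A K Ω : Type) [Field F] [CharP F ℓ]
    [CommGroup V] [Fintype V] [Group E] [Ring A] [Algebra F A] [FiniteDimensional F A] [Fintype K]
    [Fintype Ω] [MulAction (V × V) Ω] (φ : E →* MulAut V) (α : V →* A)
    (lam : A →ₗ[F] F) (x y : K → A) (b : Ω → A) (c : Ω → (A →ₗ[F] F)) (d : A),
    IsPGroup ℓ V → RF F α lam x y → PrD F φ α b c → (∀ a', d * a' = a' * d) →
    (∀ a, CV α a → lam (sg α * a * d) = 0) →
    (∀ e : A, (∀ a', e * a' = a' * e) → e * e = e → e ∈ BKR (cw F α) ⊤ → e = 0) →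
    IsNilpotent d

/-- UNT (227). Main theorem over `F`. Proof: `ζ = rt x y 1`, `rt x y (α w)` are central (`PSS.RtcStmt` of S1, hypothesis), and
`G (rt x y (α w))` is central (see TVC). For `a` commuting with `V`:
`lam (σ a (rt (α w) - ζ)) = 0` by RTW; `lam (σ a rt (α z⁻¹) rt (α w)) = lam (σ (a rt (α w)) ζ)
= lam (σ (a ζ) rt (α w)) = lam (σ a ζ ζ)` by RTW twice, and `lam (σ a G (rt (α w))) = 0` by TVC.
So both elements are nilpotent by RAD. -/
def UntStmt : Prop :=
  ∀ (ℓ : ℕ) [Fact ℓ.Prime] (F V E A K Ω : Type) [Field F] [IsAlgClosed F] [CharP F ℓ]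
    [CommGroup V] [Fintype V] [Group E] [Ring A] [Algebra F A] [FiniteDimensional F A] [Fintype K]
    [Fintype Ω] [MulAction (V × V) Ω] (φ : E →* MulAut V) (α : V →* A) (z : V)
    (lam : A →ₗ[F] F) (x y : K → A) (b : Ω → A) (c : Ω → (A →ₗ[F] F)) (χ : V → F)
    (N : A →ₗ[F] A) (u : A), IsPGroup ℓ V → RF F α lam x y → PrD F φ α b c →
    u * rt x y 1 = 1 → Cn 0 α χ N → χ z = 1 →
    (∀ e : A, (∀ a', e * a' = a' * e) → e * e = e → e ∈ BKR (cw F α) ⊤ → e = 0) →
    ∀ w : V, IsNilpotent (rt x y (α w) - rt x y 1) ∧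
      IsNilpotent (rt x y (α z⁻¹) * rt x y (α w) + Gz α z x y N (rt x y (α w)) -
        rt x y 1 * rt x y 1)

/-! ## Part 4: the direction over `O` -/

/-- CHI (228). The exponent of `z`. Proof: `V = ⟨z⟩ × W`: every `v` is uniquely `z ^ i * w`,
`i : ZMod (orderOf z)`. -/
def ChiStmt : Prop :=
  ∀ (V : Type) [CommGroup V] [Fintype V] (W : Subgroup V) (z : V),
    IsCompl (Subgroup.zpowers z) W →
    ∃ χ : V → ZMod (orderOf z), (∀ u v, χ (u * v) = χ u + χ v) ∧ χ z = 1 ∧ ∀ v, χ v = 0 ↔ v ∈ W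

/-- HEW (229). The function `H` adapted to `W`. Proof: TOR for the subgroup `G = W × V` of `V × V`
(elements `(w, v)`, `w ∈ W`) and `ψ (w, v) = - χ v`: if `(w, v) • ω = ω` then `(w, v) = (φ e s, s)`,
`w = φ e s ∈ W`, so `s = v ∈ W` (`W` is stable under `φ e⁻¹`) and `χ v = 0`. -/
def HewStmt : Prop :=
  ∀ (R V E A Ω : Type) [CommRing R] [CommGroup V] [Group E] [Ring A]
    [Algebra R A] [Fintype Ω] [MulAction (V × V) Ω] (φ : E →* MulAut V) (α : V →* A)
    (b : Ω → A) (c : Ω → (A →ₗ[R] R)) (W : Subgroup V) (B : Type) [AddCommGroup B] (χ : V → B),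
    PrD R φ α b c → (∀ (e : E), ∀ w ∈ W, φ e w ∈ W) → (∀ u v, χ (u * v) = χ u + χ v) →
    (∀ w ∈ W, χ w = 0) →
    ∃ H : Ω → B, ∀ w ∈ W, ∀ (v : V) (ω : Ω), H ((w, v) • ω) = H ω - χ v

/-- GWZ (230). `Gz (α w) ≡ 0` for `w ∈ W`, if `H` is left `W`-invariant modulo `q`. Proof:
`N (α w b') - α w N b' = ∑ ω, (H ((w, 1) • ω) - H ω) * c ω b' • (α w * b ω)`
(as in SVK) is in `q A`. -/
def GwzStmt : Prop :=
  ∀ (R V A K Ω : Type) [CommRing R] [CommGroup V] [Fintype V] [Ring A] [Algebra R A] [Fintype K]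
    [Fintype Ω] [MulAction (V × V) Ω] (q : R) (α : V →* A) (z : V) (x y : K → A) (H : Ω → R)
    (b : Ω → A) (c : Ω → (A →ₗ[R] R)) (w : V), FrR (bw R α) b c →
    (∀ ω, Cg q (H ((w, (1 : V)) • ω)) (H ω)) → Cg q (Gz α z x y (Nh H b c) (α w)) 0

/-- WWL (231). A map which is `W × W`-linear modulo `q` is congruent to a `W × W`-linear one.
Proof: `r (η, ω) = c η (G (b ω))`; for `s ∈ W × W` (acting by `(w, v)`), `r (s • η, s • ω) ≡
r (η, ω)` modulo `q`. Choose representatives of the orbits of `W × W` on `Ω × Ω` and let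
`r' (p) = r (representative of p)`, so `r'` is invariant and `r' ≡ r`. Put
`v a = ∑ ω η, (c ω a * r' (η, ω)) • b η`: `W × W`-linear, and `v a ≡ ∑ ω η, c ω a • c η (G (b ω)) •
b η = G a`. -/
def WwlStmt : Prop :=
  ∀ (R V A Ω : Type) [CommRing R] [CommGroup V] [Ring A] [Algebra R A]
    [Fintype Ω] [MulAction (V × V) Ω] (q : R) (α : V →* A) (b : Ω → A) (c : Ω → (A →ₗ[R] R))
    (W : Subgroup V) (G : A →ₗ[R] A), FrR (bw R α) b c →
    (∀ w ∈ W, ∀ a, Cg q (G (α w * a)) (α w * G a) ∧ Cg q (G (a * α w)) (G a * α w)) →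
    ∃ v : A →ₗ[R] A, (∀ w ∈ W, ∀ a, v (α w * a) = α w * v a ∧ v (a * α w) = v a * α w) ∧
      ∀ a, Cg q (v a) (G a)

/-- VDR (232). The direction over `R`. Proof: CHI, HEW give `χ₀`, `H₀` with values in
`ZMod n`, `n = orderOf z`; `χ v = ((χ₀ v).val : R)`, `H ω = ((H₀ ω).val : R)` satisfy the congruences
modulo `n` (`(a + b).val ≡ a.val + b.val` modulo `n`), CNH: `N = Nh H b c` is a connection modulo
`n`. `G = Gz α z x y N`: DGZ, GWZ give `G (α w * a) ≡ G (α w) * a + α w * G a ≡ α w * G a`, and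
the same on the right; WWL gives `v`. The congruences for `G` (DGZ, TRC) pass to `v`. -/
def VdrStmt : Prop :=
  ∀ (R V E A K Ω : Type) [CommRing R] [CommGroup V] [Fintype V] [Group E] [Ring A] [Algebra R A]
    [Fintype K] [Fintype Ω] [MulAction (V × V) Ω] (φ : E →* MulAut V) (α : V →* A) (z : V)
    (W : Subgroup V) (lam : A →ₗ[R] R) (x y : K → A) (b : Ω → A) (c : Ω → (A →ₗ[R] R)),
    RF R α lam x y → PrD R φ α b c → (∀ (e : E), ∀ w ∈ W, φ e w ∈ W) →
    IsCompl (Subgroup.zpowers z) W →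
    ∃ (H₀ : Ω → ZMod (orderOf z)) (v : A →ₗ[R] A),
      (∀ w ∈ W, ∀ a, v (α w * a) = α w * v a ∧ v (a * α w) = v a * α w) ∧
      (∀ a d, Cg (orderOf z : R) (v (a * d)) (v a * d + a * v d)) ∧
      (∀ a, Cg (orderOf z : R) (lam (v a)) (- lam (a * rt x y (α z⁻¹)))) ∧
      (∃ χ₀ : V → ZMod (orderOf z), (∀ u v, χ₀ (u * v) = χ₀ u + χ₀ v) ∧ χ₀ z = 1 ∧
        ∀ (v : V) (ω : Ω), H₀ (((1 : V), v) • ω) = H₀ ω - χ₀ v) ∧
      ∀ a, Cg (orderOf z : R) (v a) (Gz α z x y (Nh (fun ω => ((H₀ ω).val : R)) b c) a)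

end Pool.Agent.PSS.S2
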