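import Pool.Agent.PSS.StmtsS1e

/-!
# Theorem (S+), block OB (obstructions): definitions (helper36)

`W ≤ V` is an `E`-stable subgroup (no complement is needed).  `C : KC R K B α lam x y b c` is the
context of block S1: an order `A` in the `K`-algebra `B`.
`brk m c` is the bracket of the 2-cochains `m`, `c`.  `Z2 C W cc`: `cc` is a normalised `W`-relative
2-cocycle with values in `B / A`.  `Fz C cc`: the alternating forms
`(u, v) ↦ cc u v - cc v u` of `cc` vanish at all points of the frame.  `Bi C W m₁ cc`: the Bianchi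
identity.
-/

open scoped BigOperators TensorProduct

noncomputable section

namespace Pool.Agent.PSS

open Pool.Agent.PFD.D2b (FrR)
open Finset

/-- the bracket of the 2-cochains `m`, `c` -/
def brk {B : Type} [Ring B] (m c : B → B → B) (x y z : B) : B :=
  m (c x y) z - m x (c y z) + c (m x y) z - c x (m y z)

/-- `W` is `E`-stable -/
def Stb {V E : Type} [CommGroup V] [Group E] (φ : E →* MulAut V) (W : Subgroup V) : Prop :=
  ∀ e : E, ∀ w ∈ W, φ e w ∈ W

section ctx

variable {R K B : Type} {V A κ Ω : Type} [CommRing R] [Field K] [Algebra R K] [CommGroup V]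
  [Fintype V] [Ring A] [Algebra R A] [Ring B] [Algebra R B] [Algebra K B] [Fintype κ] [Fintype Ω]
  [MulAction (V × V) Ω] {α : V →* A} {lam : A →ₗ[R] R} {x y : κ → A} {b : Ω → A}
  {c : Ω → (A →ₗ[R] R)}

/-- `cc` is a normalised `W`-relative 2-cocycle with values in `B / A` -/
structure Z2 (C : KC R K B α lam x y b c) (W : Subgroup V) (cc : B →ₗ[K] B →ₗ[K] B) : Prop where
  rel : WB2 (ia C.i α) W (fun a b => cc a b)
  nrm : Nrm (fun a b => cc a b)
  cyc : ∀ a₁ a₂ a₃, In C.i (dl (fun a b => cc a b) (C.i a₁) (C.i a₂) (C.i a₃))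

/-- the alternating forms of `cc` vanish (as functions with values in `K / R`) -/
def Fz (C : KC R K B α lam x y b c) (cc : B →ₗ[K] B →ₗ[K] B) : Prop :=
  ∀ (ω : Ω) (u v : V), ((u, u) : V × V) • ω = ω → ((v, v) : V × V) • ω = ω →
    ∃ r : R, C.cK ω ((cc (C.i (α u)) (C.i (α v)) - cc (C.i (α v)) (C.i (α u))) *
      C.i (α (u * v)⁻¹)) = algebraMap R K r

/-- the Bianchi identity: `[m₁, cc]` is a coboundary modulo `A` -/
def Bi (C : KC R K B α lam x y b c) (W : Subgroup V) (m₁ cc : B →ₗ[K] B →ₗ[K] B) : Prop :=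
  ∃ c' : B →ₗ[K] B →ₗ[K] B, WB2 (ia C.i α) W (fun a b => c' a b) ∧ Nrm (fun a b => c' a b) ∧
    ∀ a₁ a₂ a₃, In C.i (brk (fun a b => m₁ a b) (fun a b => cc a b) (C.i a₁) (C.i a₂) (C.i a₃) +
      dl (fun a b => c' a b) (C.i a₁) (C.i a₂) (C.i a₃))

end ctx

end Pool.Agent.PSS
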