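import Pool.Agent.PSS.Nwe

/-!
# Squad PSS, row TRV: transport along an isomorphism of groups, and the step for a trivial factor
-/

open scoped BigOperators

noncomputable section

namespace Pool.Agent.PSS

open Pool.Agent.PFC (tw IsTv)
open Pool.Agent.PFD.D2b (FrR)

section

variable {R U V A : Type} [CommRing R] [CommGroup U] [CommGroup V] [Ring A] [Algebra R A]

/-- the group `U → A` -/
def ptr (s : U ≃* V) (α : V →* A) : U →* A := α.comp s.toMonoidHom

/-- `s × s` -/
def ss (s : U ≃* V) : U × U →* V × V := s.toMonoidHom.prodMap s.toMonoidHom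

theorem ss_inj (s : U ≃* V) : Function.Injective (ss s) := by
  rintro ⟨a, b⟩ ⟨c, d⟩ h
  have h1 : s a = s c := congrArg Prod.fst h
  have h2 : s b = s d := congrArg Prod.snd h
  rw [s.injective h1, s.injective h2]

theorem ptr_apply (s : U ≃* V) (α : V →* A) (u : U) : ptr s α u = α (s u) := rfl

theorem bw_ptr (s : U ≃* V) (α : V →* A) : bw R (ptr s α) = (bw R α).comp (ss s) := by
  ext ⟨a, b⟩ x
  change α (s a) * (x * α (s b⁻¹)) = α (s a) * (x * α (s b)⁻¹)
  rw [map_inv s]

theorem cw_ptr (s : U ≃* V) (α : V →* A) : cw R (ptr s α) = (cw R α).comp s.toMonoidHom := by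
  ext a x
  change α (s a) * (x * α (s a⁻¹)) = α (s a) * (x * α (s a)⁻¹)
  rw [map_inv s]

theorem Per.ptr {E : Type} [Group E] {φ : E →* MulAut V} {ψ : E →* MulAut U} {α : V →* A}
    (h : Per R φ α) (s : U ≃* V) (hs : ∀ e u, s (ψ e u) = φ e (s u)) :
    Per R ψ (PSS.ptr s α) := by
  obtain ⟨Ω, i1, i2, b, c, hf, hst⟩ := h
  refine ⟨Ω, i1, MulAction.compHom Ω (ss s), b, c, ⟨?_, ?_, hf.2.2⟩, ?_⟩
  · intro g t
    rw [bw_ptr]
    exact hf.1 (ss s g) t
  · intro g t n
    rw [bw_ptr]
    exact hf.2.1 (ss s g) t n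
  · intro ω
    obtain ⟨e, S, he⟩ := hst ω
    refine ⟨e, S.comap s.toMonoidHom, ?_⟩
    ext ⟨a, b⟩
    have h1 : (a, b) ∈ @MulAction.stabilizer (U × U) Ω _ (MulAction.compHom Ω (ss s)) ω ↔
        ss s (a, b) ∈ MulAction.stabilizer (V × V) ω := Iff.rfl
    rw [h1, he]
    constructor
    · rintro ⟨v, hv, hv'⟩
      have h2 : φ e v = s a := congrArg Prod.fst hv'
      have h3 : v = s b := congrArg Prod.snd hv'
      subst h3
      refine ⟨b, hv, ?_⟩
      have h4 : ψ e b = a := by
        apply s.injective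
        rw [hs, h2]
      change (ψ e b, b) = (a, b)
      rw [h4]
    · rintro ⟨u, hu, hu'⟩
      have h2 : ψ e u = a := congrArg Prod.fst hu'
      have h3 : u = b := congrArg Prod.snd hu'
      subst h3
      refine ⟨s u, hu, ?_⟩
      change (φ e (s u), s u) = (s a, s u)
      rw [← h2, hs]

theorem RF.ptr [Fintype U] [Fintype V] {α : V →* A} {lam : A →ₗ[R] R} {K : Type} [Fintype K]
    {x y : K → A} (h : RF R α lam x y) (s : U ≃* V) : RF R (PSS.ptr s α) lam x y := by
  refine ⟨h.sym, ?_, ?_⟩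
  · intro a
    refine Eq.trans ?_ (h.e1 a)
    refine Finset.sum_congr rfl fun k _ => ?_
    refine Fintype.sum_equiv s.toEquiv _ _ fun u => ?_
    change lam (α (s u⁻¹) * y k * a) • (x k * α (s u)) = lam (α (s u)⁻¹ * y k * a) • (x k * α (s u))
    rw [map_inv s]
  · intro a
    refine Eq.trans ?_ (h.e2 a)
    refine Finset.sum_congr rfl fun k _ => ?_
    refine Fintype.sum_equiv s.toEquiv _ _ fun u => ?_
    change lam (a * (x k * α (s u))) • (α (s u⁻¹) * y k) =
      lam (a * (x k * α (s u))) • (α (s u)⁻¹ * y k)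
    rw [map_inv s]

theorem Cl.ptr {F V U E A : Type} [Field F] [CommGroup V] [Fintype V] [CommGroup U] [Fintype U]
    [Group E] [Ring A] [Algebra F A] {φ : E →* MulAut V} {ψ : E →* MulAut U} {α : V →* A}
    (h : Cl F φ α) (s : U ≃* V) (hs : ∀ e u, s (ψ e u) = φ e (s u)) :
    Cl F ψ (PSS.ptr s α) := by
  refine ⟨h.fin, h.per.ptr s hs, ?_, ?_, ?_⟩
  · intro e
    obtain ⟨y, y', h1, h2, h3⟩ := h.uni e
    refine ⟨y, y', h1, h2, ?_⟩
    intro u
    rw [ptr_apply, ptr_apply, hs]
    exact h3 (s u)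
  · obtain ⟨lam, K, i, x, y, h1, h2⟩ := h.rt
    exact ⟨lam, K, i, x, y, h1.ptr s, h2⟩
  · intro Q e he h1 h2 h3
    have hF : ∀ P : Subgroup U, FxR (cw F (PSS.ptr s α)) P =
        FxR (cw F α) (P.map s.toMonoidHom) := by
      intro P
      rw [cw_ptr, FxR_map]
    have hB : ∀ P : Subgroup U, BKR (cw F (PSS.ptr s α)) P =
        BKR (cw F α) (P.map s.toMonoidHom) := by
      intro P
      rw [cw_ptr, BKR_map _ (f := s.toMonoidHom) s.injective]
    have ht : (⊤ : Subgroup U).map s.toMonoidHom = ⊤ :=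
      Subgroup.map_top_of_surjective _ s.surjective
    rw [hF, ht] at he
    rw [hB] at h1 h3 ⊢
    rw [ht] at h3
    refine h.blk _ e he h1 ?_ h3
    intro a ha
    rw [← hB]
    apply h2
    rw [hF]
    exact ha

/-- the isomorphism `W' ≃ W` -/
def trs (s : U ≃* V) (W : Subgroup V) : W.comap s.toMonoidHom ≃* W where
  toFun := fun u => ⟨s u, u.2⟩
  invFun := fun v => ⟨s.symm v, by
    rw [Subgroup.mem_comap]
    change s (s.symm v) ∈ W
    rw [s.apply_symm_apply]
    exact v.2⟩
  left_inv := by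
    intro u
    apply Subtype.ext
    exact s.symm_apply_apply _
  right_inv := by
    intro v
    apply Subtype.ext
    exact s.apply_symm_apply _
  map_mul' := by
    intro a b
    apply Subtype.ext
    exact map_mul s _ _

theorem twW_tr (s : U ≃* V) (W : Subgroup V) (δ : MulAut (W.comap s.toMonoidHom)) :
    (twW (W.comap s.toMonoidHom) δ).map (ss s) = twW W (MulAut.congr (trs s W) δ) := by
  ext ⟨a, b⟩
  constructor
  · rintro ⟨_, ⟨w, rfl⟩, h⟩
    refine ⟨trs s W w, ?_⟩
    rw [← h]
    have : (MulAut.congr (trs s W)) δ (trs s W w) = trs s W (δ w) := by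
      change trs s W (δ ((trs s W).symm (trs s W w))) = _
      rw [MulEquiv.symm_apply_apply]
    change ((((MulAut.congr (trs s W)) δ (trs s W w) : W) : V), ((trs s W w : W) : V)) = _
    rw [this]
    rfl
  · rintro ⟨w, h⟩
    obtain ⟨v, rfl⟩ := (trs s W).surjective w
    refine ⟨_, ⟨v, rfl⟩, ?_⟩
    rw [← h]
    have : (MulAut.congr (trs s W)) δ (trs s W v) = trs s W (δ v) := by
      change trs s W (δ ((trs s W).symm (trs s W v))) = _
      rw [MulEquiv.symm_apply_apply]
    change _ = ((((MulAut.congr (trs s W)) δ (trs s W v) : W) : V), ((trs s W v : W) : V))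
    rw [this]
    rfl

/-- `N_W(A)` and an isomorphism of the groups -/
def IsNW.ptr {α : V →* A} {W : Subgroup V} {B : Type} [Ring B] [Algebra R B]
    (N : IsNW R α W B) (s : U ≃* V) : IsNW R (PSS.ptr s α) (W.comap s.toMonoidHom) B := by
  have hF : ∀ δ : MulAut (W.comap s.toMonoidHom),
      FxR (bw R (PSS.ptr s α)) (twW (W.comap s.toMonoidHom) δ) =
        FxR (bw R α) (twW W (MulAut.congr (trs s W) δ)) := by
    intro δ
    rw [bw_ptr, ← FxR_map, twW_tr]
  have hB : ∀ δ : MulAut (W.comap s.toMonoidHom),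
      BKR (bw R (PSS.ptr s α)) (twW (W.comap s.toMonoidHom) δ) =
        BKR (bw R α) (twW W (MulAut.congr (trs s W) δ)) := by
    intro δ
    rw [bw_ptr, ← BKR_map _ (ss_inj s), twW_tr]
  have hcg : ∀ ε, (MulAut.congr (trs s W)) ((MulAut.congr (trs s W)).symm ε) = ε := fun ε =>
    (MulAut.congr (trs s W)).apply_symm_apply ε
  refine
    { β := fun δ => N.β (MulAut.congr (trs s W) δ)
      one := ?_
      mul := ?_
      ker := ?_
      ind := ?_
      spn := ?_ }
  · have h1 : MulAut.congr (trs s W) 1 = 1 := map_one _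
    rw [h1]
    exact N.one
  · intro ε δ a ha b hb
    rw [hF] at ha hb
    have h1 : MulAut.congr (trs s W) (ε * δ) =
      MulAut.congr (trs s W) ε * MulAut.congr (trs s W) δ := map_mul _ _ _
    rw [h1]
    exact N.mul _ _ a ha b hb
  · intro ε a ha
    rw [hF] at ha
    rw [hB]
    exact N.ker _ a ha
  · intro f hf h
    have h1 := N.ind (fun ε => f ((MulAut.congr (trs s W)).symm ε)) (by
      intro ε
      have := hf ((MulAut.congr (trs s W)).symm ε)
      rw [hF, hcg] at this
      exact this) (by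
      rw [← h, ← finsum_comp_equiv (MulAut.congr (trs s W)).toEquiv]
      refine finsum_congr fun δ => ?_
      change N.β (MulAut.congr (trs s W) δ)
        (f ((MulAut.congr (trs s W)).symm (MulAut.congr (trs s W) δ))) = _
      rw [MulEquiv.symm_apply_apply])
    intro δ
    have h2 := h1 (MulAut.congr (trs s W) δ)
    rw [MulEquiv.symm_apply_apply] at h2
    exact h2
  · intro b
    obtain ⟨f, hf, hb⟩ := N.spn b
    refine ⟨fun δ => f (MulAut.congr (trs s W) δ), ?_, ?_⟩
    · intro δ
      rw [hF]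
      exact hf _
    · rw [← hb]
      exact finsum_comp_equiv (MulAut.congr (trs s W)).toEquiv (f := fun ε => N.β ε (f ε))

end

/-- TRV: the step for `Y = ⊥` -/
theorem trv (ℓ : ℕ) [Fact ℓ.Prime] (F V E A B : Type) [Field F] [IsAlgClosed F] [CharP F ℓ]
    [CommGroup V] [Fintype V] [Group E] [Ring A] [Algebra F A] [Ring B] [Algebra F B]
    (φ : E →* MulAut V) (α : V →* A) (W' W : Subgroup V) [Fintype W'] (ψ : E →* MulAut W')
    (hW' : W' = ⊤) (hr : IsRs φ W' ψ) (hA : Cl F φ α) (N : IsNW F α W B) :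
    ∃ (F' C B' : Type) (_ : Field F') (_ : IsAlgClosed F') (_ : CharP F' ℓ) (_ : Ring C)
      (_ : Algebra F' C) (_ : Ring B') (_ : Algebra F' B') (γ : W' →* C)
      (_ : IsNW F' γ (W.subgroupOf W') B'), Cl F' ψ γ ∧
      Module.finrank F' (Subalgebra.center F' C) = Module.finrank F (Subalgebra.center F A) ∧
      Module.finrank F' (Subalgebra.center F' B') = Module.finrank F (Subalgebra.center F B) := by
  subst hW'
  let s : (⊤ : Subgroup V) ≃* V := Subgroup.topEquiv
  refine ⟨F, A, B, inferInstance, inferInstance, inferInstance, inferInstance, inferInstance,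
    inferInstance, inferInstance, ptr s α, ?_, ?_, rfl, rfl⟩
  · exact N.ptr s
  · exact hA.ptr s (fun e u => hr e u)

end Pool.Agent.PSS
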