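import Pool.Agent.PSS.Ats
import Pool.Agent.PSS.Trv

/-!
# Squad PSS: the iteration of the step with an arbitrary base case
-/

noncomputable section

namespace Pool.Agent.PSS

/-- A property of a group with an action and a subgroup. -/
abbrev PrV : Type 1 :=
  ∀ (V E : Type) [CommGroup V] [Group E] (_ : E →* MulAut V) (_ : Subgroup V), Prop

/-- `P` is invariant under isomorphisms. -/
def PrV.Inv (P : PrV) : Prop :=
  ∀ (V U E : Type) [CommGroup V] [CommGroup U] [Group E] (φ : E →* MulAut V)
    (ψ : E →* MulAut U) (W : Subgroup V) (s : U ≃* V), (∀ e u, s (ψ e u) = φ e (s u)) →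
    P V E φ W → P U E ψ (W.comap s.toMonoidHom)

/-- The base case for the property `P`. -/
def BsgStmt (P : PrV) : Prop :=
  ∀ (ℓ : ℕ) [Fact ℓ.Prime] (F V E A B : Type) [Field F] [IsAlgClosed F] [CharP F ℓ]
    [CommGroup V] [Fintype V] [Group E] [Fintype E] [Ring A] [Algebra F A] [Ring B] [Algebra F B]
    (φ : E →* MulAut V) (α : V →* A) (W : Subgroup V),
    IsPGroup ℓ V → ¬ ℓ ∣ Nat.card E → P V E φ W → Cl F φ α → IsNW F α W B →
    Module.finrank F (Subalgebra.center F A) = Module.finrank F (Subalgebra.center F B)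

/-- The theorem for algebras, with the property `P`: `V` is the product of `n` cyclic factors and
of `T`, and `T`, `W ≤ T` have the property `P`. -/
def AtgStmt (P : PrV) : Prop :=
  ∀ (n ℓ : ℕ) [Fact ℓ.Prime] (F V E A B : Type) [Field F] [IsAlgClosed F] [CharP F ℓ]
    [CommGroup V] [Fintype V] [Group E] [Fintype E] [Ring A] [Algebra F A] [Ring B] [Algebra F B]
    (φ : E →* MulAut V) (α : V →* A) (T W : Subgroup V) (ψ : E →* MulAut T),
    IsPGroup ℓ V → ¬ ℓ ∣ Nat.card E → W ≤ T → (∀ e : E, ∀ w ∈ W, φ e w ∈ W) →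
    Cyp n V E φ T → IsRs φ T ψ → P T E ψ (W.subgroupOf T) → Cl F φ α → IsNW F α W B →
    Module.finrank F (Subalgebra.center F A) = Module.finrank F (Subalgebra.center F B)

theorem atg (P : PrV) (hP : P.Inv) (stp : StpStmt) (bas : BsgStmt P) : AtgStmt P := by
  intro n
  induction n with
  | zero =>
    intro ℓ _ F V E A B _ _ _ _ _ _ _ _ _ _ _ φ α T W ψ hp hE hWT hst hc hr hw hA hB
    change T = ⊤ at hc
    subst hc
    have h1 := hP (⊤ : Subgroup V) V E ψ φ (W.subgroupOf ⊤)
      (Subgroup.topEquiv (G := V)).symm (by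
        intro e v
        apply Subtype.ext
        exact (hr e ⟨v, Subgroup.mem_top v⟩).symm) hw
    have h2 : (W.subgroupOf ⊤).comap (Subgroup.topEquiv (G := V)).symm.toMonoidHom = W := by
      ext v
      exact Iff.rfl
    rw [h2] at h1
    exact bas ℓ F V E A B φ α W hp hE h1 hA hB
  | succ n ih =>
    intro ℓ _ F V E A B _ _ _ _ _ _ _ _ _ _ _ φ α T W ψ hp hE hWT hst hc hr hw hA hB
    obtain ⟨Y, W', ψ', hY, hTW, hr', hc'⟩ := hc
    have : Fintype W' := Fintype.ofFinite W'
    have hWW : W ≤ W' := hWT.trans hTW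
    obtain ⟨F', C, B', i1, i2, i3, i4, i5, i6, i7, γ, nw, hC, h1, h2⟩ :=
      stp ℓ F V E A B φ α Y W' W ψ' hp hE hY hr' hWW hst hA hB
    let s : T ≃* (T.subgroupOf W') := (Subgroup.subgroupOfEquivOfLe hTW).symm
    have hs : ∀ w : T, (((s w : T.subgroupOf W') : W') : V) = w := by
      intro w
      rfl
    have hrs : IsRs ψ' (T.subgroupOf W') (trA s ψ) := by
      intro e w
      apply Subtype.ext
      rw [hr']
      obtain ⟨v, rfl⟩ := s.surjective w
      rw [trA_apply, s.symm_apply_apply, hs, hs]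
      exact hr e v
    have hfin := ih ℓ F' W' E C B' ψ' γ (T.subgroupOf W') (W.subgroupOf W') (trA s ψ)
      (hp.to_subgroup W') hE ?_ ?_ hc' hrs ?_ hC nw
    · rw [← h1, ← h2]
      exact hfin
    · intro w hw
      exact hWT hw
    · intro e w hw'
      change ((ψ' e w : W') : V) ∈ W
      rw [hr']
      exact hst e _ hw'
    · have h3 := hP T (T.subgroupOf W') E ψ (trA s ψ) (W.subgroupOf T) s.symm (by
        intro e u
        obtain ⟨v, rfl⟩ := s.surjective u
        rw [trA_apply, s.symm_apply_apply, s.symm_apply_apply]) hw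
      have h4 : (W.subgroupOf T).comap s.symm.toMonoidHom =
          (W.subgroupOf W').subgroupOf (T.subgroupOf W') := by
        ext u
        obtain ⟨v, rfl⟩ := s.surjective u
        change ((s.symm (s v) : T) : V) ∈ W ↔ (((s v : T.subgroupOf W') : W') : V) ∈ W
        rw [s.symm_apply_apply, hs]
      rw [h4] at h3
      exact h3

end Pool.Agent.PSS
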