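import Pool.Agent.Helper66_PFD.AsmBlk
import Pool.Agent.Helper34_K9.INX
import Pool.Agent.Helper44_PSS.RFG
import Pool.Agent.Helper2_PSS.BLG
import Pool.Agent.Helper41_PSS.JNW
import Pool.Agent.Helper29_PSS.NWG
import Pool.Agent.Helper69_PSS.CYP
import Pool.Agent.Helper4_PSS.CLG
import Pool.Agent.Helper4_PSS.DZC
import Pool.Agent.Helper4_PSS.STO
import Pool.Agent.Helper4_PSS.STG

/-!
# Squad PSS, block S6: assembly (`StoAlgStmt`, and the general form for a property `P`)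
-/

set_option autoImplicit false

noncomputable section

namespace Pool.Agent.PSS.AllS6

open Pool.Agent.PP

theorem rfg_ : RfgStmt := H44R.rfg

theorem blg_ : BlgStmt := H2.blg

theorem jnw_ : JnwStmt := H41.jnw

theorem nwg_ : NwgStmt := H29.nwg

theorem cyp_ : CypStmt := H69.cyp

theorem clg_ : ClgStmt :=
  H4.clg rfg_ blg_ PFD.H66.ffa_ PFD.H66.fps_ PFD.H66.unt_ T8.lft_ T8.omi_ T8.knz_ T3.dgc_
    K9.H34.inx

theorem dzc_ : DzcStmt := H4.dzc PFD.H66.ful_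

theorem stoalg_ : StoAlgStmt := H4.stoalg clg_ jnw_ nwg_ dzc_ cyp_ PFD.H66.jex_

theorem stogen_ (P : PrV) (K : Kl)
    (hKP : ∀ (ℓ : ℕ) (V : Type) [CommGroup V] [Finite V] (E : Subgroup (MulAut V))
      (W : Subgroup V), IsPGroup ℓ V → ¬ ℓ ∣ Nat.card E → K ℓ V E W → P V E E.subtype W)
    (bsg : BsgStmt P) : StoFor K :=
  H4.stogen clg_ jnw_ nwg_ dzc_ PFD.H66.jex_ P K hKP bsg

end Pool.Agent.PSS.AllS6

end
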