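import Pool.Agent.PSS.StmtsS0

/-!
# Squad PSS (theorem (S)), block S3 (helper30): the generic fibre

`F` a field of characteristic `ℓ`, `V = ⟨z⟩ × W`, `A` in the class `Cl` for `V, E`, `As` an
`F⟦X⟧`-algebra, a deformation of `A` relative to `W` (`q : As → A` is the reduction modulo `X`), with
`∑ x k * y k = X • unit` (this is the result of block S2).  Then `C = F' ⊗ As` is in the class for `W, E`,
for every field `F'` over `F⟦X⟧`.  All in characteristic `ℓ`.  Structure `Dpr`.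

Notation of the proofs: `rt(a) = ∑ x k * a * y k`; `w` for `α w`, `γ w`, ...; `A(Q)`, `As(Q)`, `C(Q)` the
Brauer quotients (block S0, `IsBQ`).
-/

open scoped BigOperators TensorProduct PowerSeries

noncomputable section

namespace Pool.Agent.PSS.S3

open Pool.Agent.PFC (tw IsTv)
open Pool.Agent.PFD.D2b (FrR)
open Pool.Agent.PSS.S0

/-- `As` is a deformation of `A` relative to `W`, with forms and relative Frobenius systems
(`lam, x, y` of `As` over `W`; `lam0, x0, y0` of `A` over `V`), and `∑ x k * y k = X • unit`. -/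
structure Dpr (F : Type) {V E A As K K0 : Type} [Field F] [CommGroup V] [Fintype V] [Group E]
    [Ring A] [Algebra F A] [Ring As] [Algebra F⟦X⟧ As] [Fintype K] [Fintype K0]
    (φ : E →* MulAut V) (α : V →* A) (W : Subgroup V) [Fintype W] (ψ : E →* MulAut W)
    (γ : W →* As) (q : As →+* A) (lam : As →ₗ[F⟦X⟧] F⟦X⟧) (lam0 : A →ₗ[F] F)
    (x y : K → As) (x0 y0 : K0 → A) : Prop where
  cl : Cl F φ α
  rs : IsRs φ W ψ
  per : Per F⟦X⟧ ψ γ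
  uni : Uni ψ γ
  sc : ∀ r : F⟦X⟧, q (algebraMap F⟦X⟧ As r) = algebraMap F A (PowerSeries.constantCoeff r)
  surj : Function.Surjective q
  ker : ∀ a, q a = 0 → ∃ a', a = (PowerSeries.X : F⟦X⟧) • a'
  qw : ∀ w : W, q (γ w) = α w
  rf : RF F⟦X⟧ γ lam x y
  rf0 : RF F α lam0 x0 y0
  lr : ∀ a, PowerSeries.constantCoeff (lam a) = lam0 (q a)
  unt : ∃ u u' : As, u * u' = 1 ∧ u' * u = 1 ∧ ∑ k, x k * y k = (PowerSeries.X : F⟦X⟧) • u

/-! ## A. Vanishing (Green's theorem on zeros of characters, in characteristic `ℓ`) -/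

/-- VAN.  Proof.  `e = ∑ a g`, `n = |G|`.  `a 1 = a 1 e^(n-1)`, so
`f (γ w a(1)) = ∑ f (γ w a(1) a(h_1) a(h_1 h_2) .. a(h_1 .. h_(n-1)))`, the sum over all `(h_1, .., h_n)` in `G^n`
with `h_1 h_2 .. h_n = π w` (the last one is determined by the others).  Let `Φ(h)` be the summand.
(1) `Φ (h_2, .., h_n, h_1) = Φ (h_1, .., h_n)`: let `π v = h_1`; conjugate by `γ v` (`f (u z u⁻¹) = f z`;
`γ v` commutes with `γ w`): `Φ (h_2, .., h_n, h_1) = f (γ w a(h_1) a(h_1 h_2) .. a(h_1 .. h_n)) =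
f (γ w Y γ w a(1) γ w⁻¹) = f (Y γ w a(1)) = f (γ w a(1) Y)`, `Y = a(h_1) .. a(h_1 .. h_(n-1))`, as
`h_1 .. h_n = π w`.  (2) The rotation `σ` of this set of `n`-tuples has `σ^n = 1`, `n` is a power of `ℓ`,
and `σ` has no fixed point: a constant tuple `h` would give `π w = h^n = 1`.  So for every value `z` of
`Φ` the fibre `Φ⁻¹ z` is `σ`-stable and its cardinality is divisible by `ℓ`
(`IsPGroup.card_modEq_card_fixedPoints` for the group generated by `σ`);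
`∑ Φ = ∑_z |Φ⁻¹ z| • z = 0`. -/
def VanStmt : Prop :=
  ∀ (ℓ : ℕ) [Fact ℓ.Prime] (W G B Z : Type) [CommGroup W] [CommGroup G] [Fintype G] [Ring B]
    [AddCommGroup Z] (γ : W →* B) (π : W →* G) (a : G → B) (f : B →+ Z), IsPGroup ℓ G →
    (∀ z : Z, ℓ • z = 0) → (∀ x y, f (x * y) = f (y * x)) → Function.Surjective π →
    (∀ v g, γ v * a g * γ v⁻¹ = a (π v * g)) → a 1 * ∑ g, a g = a 1 →
    ∀ w, π w ≠ 1 → f (γ w * a 1) = 0

/-- BLS (uses VAN, S0: FTR, RFS, TRS).  Proof.  FTR (`H = W`, `ρ = cw`; a frame from `Per`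
restricted to the diagonal): `e = ∑_(t ∈ S) t m t⁻¹` modulo `BK(Q)`, `m ∈ C^Q`.  In `B`: `ē = β e` is a
central idempotent, `c = β m ē`; `ē = ∑_(t ∈ S) t c t⁻¹`, `c ē = c`.  `γB q` is central in `B` for
`q ∈ Q`, so `a : W ⧸ Q → B`, `a (t Q) = t c t⁻¹` is well defined.  `f z = ∑_(k, t) xB k t z t⁻¹ yB k` is a trace
map on `B` with values in `B` (RFS and TRS for the subgroup `Q`: all of `B` centralises `γB Q`).  VAN:
`0 = f (w c) = ∑_k xB k (w ∑_t t c t⁻¹) yB k = ∑_k xB k w ē yB k = ē ∑_k xB k w yB k`. -/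
def BlsStmt : Prop :=
  ∀ (ℓ : ℕ) [Fact ℓ.Prime] (R W E C B K : Type) [CommRing R] [CommGroup W] [Fintype W] [Group E]
    [Ring C] [Algebra R C] [Ring B] [Algebra R B] [Fintype K] (ψ : E →* MulAut W) (γ : W →* C)
    (Q : Subgroup W) (γB : W →* B) (β : C → B) (lamB : B →ₗ[R] R) (xB yB : K → B) (e : C) (w : W),
    (ℓ : R) = 0 → IsPGroup ℓ W → Per R ψ γ → IsBQ R γ Q γB β → RF R γB lamB xB yB →
    e ∈ FxR (cw R γ) ⊤ → e * e - e ∈ BKR (cw R γ) Q →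
    (∀ a ∈ FxR (cw R γ) Q, e * a - a * e ∈ BKR (cw R γ) Q) →
    (∀ Q' : Subgroup W, Q < Q' → e ∈ BKR (cw R γ) Q') → w ∉ Q →
    β e * ∑ k, xB k * γB w * yB k = 0

/-! ## B. The units `rt(w) / X` -/

/-- DIV (uses S0: RFS, IND).  Proof.  RFS for `W ≤ V` and a transversal `T`, IND over `W` (`α v` is in
the centraliser of `W`): `∑ x k v y k = ∑_(k, t) x0 k t v t⁻¹ y0 k = |T| ∑ x0 k v y0 k`, `|T|` = the index. -/
def DivStmt : Prop :=
  ∀ (ℓ : ℕ) [Fact ℓ.Prime] (F V A K K0 : Type) [Field F] [CharP F ℓ] [CommGroup V] [Fintype V]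
    [Ring A] [Algebra F A] [Fintype K] [Fintype K0] (α : V →* A) (W : Subgroup V) [Fintype W]
    (lam : A →ₗ[F] F) (x y : K → A) (x0 y0 : K0 → A), RF F α lam x0 y0 →
    RF F (α.comp W.subtype) lam x y → ℓ ∣ W.index → ∀ v : V, ∑ k, x k * α v * y k = 0

/-- RDX.  Reduction modulo `X`.  Proof.  `q (r • a) = constantCoeff r • q a`; apply `q` to `e1`, `e2`;
symmetry of `lam0` by lifting. -/
def RdxStmt : Prop :=
  ∀ (F W A As K : Type) [Field F] [CommGroup W] [Fintype W] [Ring A] [Algebra F A] [Ring As]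
    [Algebra F⟦X⟧ As] [Fintype K] (ω : W →* A) (γ : W →* As) (q : As →+* A)
    (lam : As →ₗ[F⟦X⟧] F⟦X⟧) (lam0 : A →ₗ[F] F) (x y : K → As),
    (∀ r : F⟦X⟧, q (algebraMap F⟦X⟧ As r) = algebraMap F A (PowerSeries.constantCoeff r)) →
    Function.Surjective q → (∀ w, q (γ w) = ω w) →
    (∀ a, PowerSeries.constantCoeff (lam a) = lam0 (q a)) → RF F⟦X⟧ γ lam x y →
    RF F ω lam0 (fun k => q (x k)) (fun k => q (y k))

/-- QBK.  `q` maps fixed vectors to fixed vectors and Brauer kernels to Brauer kernels.  Proof: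
definitions (`q (∑ x m x⁻¹) = ∑ x q(m) x⁻¹`; span induction, `q (r • a) = constantCoeff r • q a`). -/
def QbkStmt : Prop :=
  ∀ (F W A As : Type) [Field F] [CommGroup W] [Ring A] [Algebra F A] [Ring As]
    [Algebra F⟦X⟧ As] (ω : W →* A) (γ : W →* As) (q : As →+* A),
    (∀ r : F⟦X⟧, q (algebraMap F⟦X⟧ As r) = algebraMap F A (PowerSeries.constantCoeff r)) →
    (∀ w, q (γ w) = ω w) → ∀ P : Subgroup W,
    (∀ a ∈ FxR (cw F⟦X⟧ γ) P, q a ∈ FxR (cw F ω) P) ∧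
    ∀ a ∈ BKR (cw F⟦X⟧ γ) P, q a ∈ BKR (cw F ω) P

/-- TFX (uses S0: FCO, FBK).  `As` and `As^P / BK(P)` are `X`-torsion free.  Proof: frame from `Per`
restricted to the diagonal.  `c ω (X • m) = X * c ω m`, `F⟦X⟧` is a domain. -/
def TfxStmt : Prop :=
  ∀ (ℓ : ℕ) [Fact ℓ.Prime] (F W E As : Type) [Field F] [CharP F ℓ] [CommGroup W] [Fintype W]
    [Group E] [Ring As] [Algebra F⟦X⟧ As] (ψ : E →* MulAut W) (γ : W →* As), IsPGroup ℓ W →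
    Per F⟦X⟧ ψ γ → (∀ a : As, (PowerSeries.X : F⟦X⟧) • a = 0 → a = 0) ∧
    ∀ P : Subgroup W, ∀ a ∈ FxR (cw F⟦X⟧ γ) P,
      (PowerSeries.X : F⟦X⟧) • a ∈ BKR (cw F⟦X⟧ γ) P → a ∈ BKR (cw F⟦X⟧ γ) P

/-- UNX.  Units lift.  Proof.  `As` is a finite `F⟦X⟧`-module (`Per`).  Let `q u1 = v`; `u u1 = 1 - X • c` =: `d`.
`As = d As + X • As`, so `d As = As` by Nakayama (`F⟦X⟧` is local, `X` is in the maximal ideal); `d d' = 1`,
so `u` has a right inverse; the same on the other side. -/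
def UnxStmt : Prop :=
  ∀ (F W E A As : Type) [Field F] [CommGroup W] [Group E] [Ring A] [Algebra F A] [Ring As]
    [Algebra F⟦X⟧ As] (ψ : E →* MulAut W) (γ : W →* As) (q : As →+* A), Per F⟦X⟧ ψ γ →
    Function.Surjective q → (∀ a, q a = 0 → ∃ a', a = (PowerSeries.X : F⟦X⟧) • a') →
    ∀ (u : As) (v : A), q u * v = 1 → v * q u = 1 → ∃ u', u * u' = 1 ∧ u' * u = 1

/-- IDN (uses S0: BKI, FCO, FBK, BKF).  A central element in a Brauer kernel is nilpotent.  Proof.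
The commutative algebra `F[z]` is finite dimensional: `z^n = z^(n+1) c` with `n ≥ 1`, `c ∈ F[z]`;
`e = z^n c^n` is an idempotent (`z^n = z^(2n) c^n`), central, and `z^n = z^n e`.  `e ∈ BK(P)` (BKI).  `e` is
fixed by `V` and its coefficients (frame from `Per`) at the `V`-fixed points vanish, because these
are `P`-fixed (FCO): `e ∈ BK(V)` (FBK).  `Cl.blk` with `Q = ⊥`: `e ∈ BK(⊥) = 0`.  So `z^n = 0`. -/
def IdnStmt : Prop :=
  ∀ (ℓ : ℕ) [Fact ℓ.Prime] (F V E A : Type) [Field F] [CharP F ℓ] [CommGroup V] [Fintype V]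
    [Group E] [Ring A] [Algebra F A] (φ : E →* MulAut V) (α : V →* A) (P : Subgroup V) (z : A),
    IsPGroup ℓ V → Cl F φ α → (∀ a, z * a = a * z) → z ∈ BKR (cw F α) P → IsNilpotent z

/-- UNW (uses DIV, RDX, QBK, TFX, UNX, IDN, S0: MCK, BQX, LMB, BPU, ZRT, BKI, BKF, RES).
`rt(w) = X • unit` for every `w ∈ W`.  Proof.  (1) RDX, DIV: `q (rt(w)) = 0`, so `rt(w) = X • u_w`.  `u_w`, `u`,
`u'` are central (ZRT and TFX; `u = u_1`).  (2) MCK over `F⟦X⟧` for the group `W`, `φ = ψ`, `Q = ⊤`,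
`B = As(W)` (BQX, BPU), `T` a set of representatives of the `e ∈ E` modulo `ψ e = ψ e'`:
`β (rt(w)) = ∑_(t ∈ T) rtB (β (n_t w n'_t)) = ∑_t β (ψ_t w) rtB(1)` (`n_t w n'_t = ψ_t w`, and the elements of `W`
are central in `B`), `β (rt(1)) = |T| rtB(1)`; `|T|` = the index of the kernel of `ψ`, prime to `ℓ`.  With
`ν = |T|⁻¹ ∑_t γ (ψ_t w)`: `X • (u_w - ν u) ∈ BK(⊤)`, so `u_w - ν u ∈ BK(⊤)` (TFX).  (3) Apply `q` (QBK, RES):
`ū_w - ν̄ ū ∈ BK_A(W)`; `z = ū_w ū⁻¹` is central in `A` (`q` surjective) and `z - ν̄ ∈ BK_A(W)` (BKI).  With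
`N = |W|`, a power of `ℓ`: `ν̄^N = |T|^(-N) ∑_t (ψ_t w)^N = 1` (commuting elements, characteristic `ℓ`,
`|T|` in the prime field), and `(z - 1)^N = z^N - 1 = (z^N - ν̄^N)`, which is in `BK_A(W)` (an ideal of `A^W`;
`z` central).  IDN: `z - 1` is nilpotent, `z` and `ū_w` are units, `u_w` is a unit (UNX). -/
def UnwStmt : Prop :=
  ∀ (ℓ : ℕ) [Fact ℓ.Prime] (F V E A As K K0 : Type) [Field F] [CharP F ℓ] [CommGroup V]
    [Fintype V] [Group E] [Finite E] [Ring A] [Algebra F A] [Ring As] [Algebra F⟦X⟧ As]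
    [Fintype K] [Fintype K0] (φ : E →* MulAut V) (α : V →* A) (W : Subgroup V) [Fintype W]
    (ψ : E →* MulAut W) (γ : W →* As) (q : As →+* A) (lam : As →ₗ[F⟦X⟧] F⟦X⟧)
    (lam0 : A →ₗ[F] F) (x y : K → As) (x0 y0 : K0 → A), IsPGroup ℓ V → ¬ ℓ ∣ Nat.card E →
    ℓ ∣ W.index → Dpr F φ α W ψ γ q lam lam0 x y x0 y0 →
    ∀ w : W, ∃ u u' : As, u * u' = 1 ∧ u' * u = 1 ∧
      ∑ k, x k * γ w * y k = (PowerSeries.X : F⟦X⟧) • u

/-- PRQ (uses QBK, TFX, S0: BCL, BPU, LMB, MCK, RES, FCO, FPX, BKF, ZRT).  The pair `(As(Q), A(Q))`.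
`E1 = C_E(Q)`.  Proof.  `cl`: BCL.  `rs`, `qw`: clear.  `per`, `uni`, `rf`, `rf0`: BPU for `As` and for `A`;
`lamB (βs a) = lam a`, `lamB0 (β a) = lam0 a`.  `qB (βs a) = β (q a)` is well defined (QBK, RES) and a ring
homomorphism; `sc`, `lr` follow.  `surj`: `b ω, c ω` a frame of `As` for `W × W`; `q (b ω)`,
`c̄ ω (q a) = constantCoeff (c ω a)` is a frame of `A`; an element `a` of `A^Q` is `∑ c̄ ω a • q (b ω)` with
`c̄ ω a` constant on the `Q`-orbits, and `∑ C (c̄ ω a) • b ω` is a lift in `As^Q`.  `ker`: let `a ∈ As^Q`,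
`q a ∈ BK(Q)`; for the `Q`-fixed `ω` `constantCoeff (c ω a) = 0` (FCO), `c ω a = X * r ω`, and FPX:
`a = ∑_(ω fixed) c ω a • b ω = X • ∑ r ω • b ω` modulo `BK(Q)`, `b ω ∈ As^Q`.  `unt`: MCK with `a = 1`:
`βs (∑ x k y k) = |T| ∑ xB k yB k`, `|T| = |E : E1|` prime to `ℓ`; `u`, `u'` are central (ZRT, TFX), so in
`As^Q`, and `∑ xB k yB k = X • (|T|⁻¹ • βs u)`. -/
def PrqStmt : Prop :=
  ∀ (ℓ : ℕ) [Fact ℓ.Prime] (F V E A As K K0 B Bs : Type) [Field F] [CharP F ℓ] [CommGroup V]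
    [Fintype V] [Group E] [Finite E] [Ring A] [Algebra F A] [Ring As] [Algebra F⟦X⟧ As]
    [Fintype K] [Fintype K0] [Ring B] [Algebra F B] [Ring Bs] [Algebra F⟦X⟧ Bs]
    (φ : E →* MulAut V) (α : V →* A) (W : Subgroup V) [Fintype W]
    (ψ : E →* MulAut W) (γ : W →* As) (q : As →+* A) (lam : As →ₗ[F⟦X⟧] F⟦X⟧)
    (lam0 : A →ₗ[F] F) (x y : K → As) (x0 y0 : K0 → A) (Q : Subgroup W) (E1 : Subgroup E)
    (γB : W →* Bs) (βs : As → Bs) (αB : V →* B) (β : A → B), IsPGroup ℓ V →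
    ¬ ℓ ∣ Nat.card E → Dpr F φ α W ψ γ q lam lam0 x y x0 y0 → IsBQ F⟦X⟧ γ Q γB βs →
    IsBQ F α (Q.map W.subtype) αB β → (∀ e, e ∈ E1 ↔ ∀ u ∈ Q, ψ e u = u) →
    ∃ (qB : Bs →+* B) (lamB : Bs →ₗ[F⟦X⟧] F⟦X⟧) (lamB0 : B →ₗ[F] F) (KB KB0 : Type)
      (_ : Fintype KB) (_ : Fintype KB0) (xB yB : KB → Bs) (xB0 yB0 : KB0 → B),
      (∀ a ∈ FxR (cw F⟦X⟧ γ) Q, qB (βs a) = β (q a)) ∧
      (∀ a ∈ FxR (cw F⟦X⟧ γ) Q, lamB (βs a) = lam a) ∧
      Dpr F (φ.comp E1.subtype) αB W (ψ.comp E1.subtype) γB qB lamB lamB0 xB yB xB0 yB0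

/-! ## C. The generic fibre -/

/-- GFB.  Base change of the class.  Proof.  `lamS = lam ⊗ S`, `lamS (s ⊗ a) = s * algebraMap (lam a)`;
the families `1 ⊗ x k`, `1 ⊗ y k`; the frame `1 ⊗ b ω`, `c ω ⊗ S`; the units `1 ⊗ n`: check the identities on
pure tensors. -/
def GfbStmt : Prop :=
  ∀ (R S W E A K : Type) [CommRing R] [CommRing S] [Algebra R S] [CommGroup W] [Fintype W]
    [Group E] [Ring A] [Algebra R A] [Fintype K] (ψ : E →* MulAut W) (γ : W →* A)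
    (lam : A →ₗ[R] R) (x y : K → A), RF R γ lam x y → Per R ψ γ → Uni ψ γ →
    (∃ lamS : S ⊗[R] A →ₗ[S] S, (∀ s a, lamS (s ⊗ₜ a) = s * algebraMap R S (lam a)) ∧
      RF S (bcw (R := R) (S := S) γ) lamS (fun k => (1 : S) ⊗ₜ[R] x k) (fun k => (1 : S) ⊗ₜ[R] y k)) ∧
    Per S ψ (bcw (R := R) (S := S) γ) ∧ Uni ψ (bcw (R := R) (S := S) γ) ∧
    ∀ P : Subgroup W, (∀ a ∈ FxR (cw R γ) P, (1 : S) ⊗ₜ[R] a ∈ FxR (cw S (bcw (R := R) (S := S) γ)) P) ∧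
      ∀ a ∈ BKR (cw R γ) P, (1 : S) ⊗ₜ[R] a ∈ BKR (cw S (bcw (R := R) (S := S) γ)) P

/-- GFQ (uses GFB, S0: FPX, LMB).  The Brauer quotient of the base change.  Proof.  `κ (βs a) = βD (1 ⊗ a)` is
well defined (GFB) and a ring homomorphism.  Frame `b ω, c ω` of `A` (`Per`): an element `m` of
`(S ⊗ A)^Q` is `∑ cS ω m • 1 ⊗ b ω` with `cS ω m` constant on `Q`-orbits, so by FPX
`βD m = ∑_(ω fixed by Q) cS ω m • κ (βs (b ω))`: `D` is spanned over `S` by the image of `κ`.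
`lamD (βD m) = lamS m` (LMB for `S ⊗ A`), so `lamD (κ b) = algebraMap (lamB b)`; `e1`, `e2` for
`κ ∘ xs`, `κ ∘ ys` hold on the image of `κ`, so on `D`. -/
def GfqStmt : Prop :=
  ∀ (ℓ : ℕ) [Fact ℓ.Prime] (R S W E A Bs D K KB : Type) [CommRing R] [CommRing S] [Algebra R S]
    [CommGroup W] [Fintype W] [Group E] [Ring A] [Algebra R A] [Ring Bs] [Algebra R Bs] [Ring D]
    [Algebra S D] [Fintype K] [Fintype KB] (ψ : E →* MulAut W) (γ : W →* A) (lam : A →ₗ[R] R)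
    (x y : K → A) (Q : Subgroup W) (γB : W →* Bs) (βs : A → Bs) (γD : W →* D)
    (βD : S ⊗[R] A → D) (lamB : Bs →ₗ[R] R) (xs ys : KB → Bs), (ℓ : R) = 0 → IsPGroup ℓ W →
    RF R γ lam x y → Per R ψ γ → Uni ψ γ → IsBQ R γ Q γB βs → IsBQ S (bcw (R := R) (S := S) γ) Q γD βD →
    RF R γB lamB xs ys → (∀ a ∈ FxR (cw R γ) Q, lamB (βs a) = lam a) →
    ∃ (κ : Bs →+* D) (lamD : D →ₗ[S] S), (∀ a ∈ FxR (cw R γ) Q, κ (βs a) = βD (1 ⊗ₜ[R] a)) ∧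
      (∀ (r : R) b, κ (r • b) = algebraMap R S r • κ b) ∧ (∀ w, κ (γB w) = γD w) ∧
      RF S γD lamD (fun k => κ (xs k)) (fun k => κ (ys k))

/-- BLK (uses BLS, UNW, PRQ, GFB, GFQ, S0: BQX, BKF, FCO, FBK).  Proof.  Downward induction on `Q`;
`Q = ⊤` is trivial.  `C = F' ⊗ As`, frame by GFB.  Let `Q < Q'`: `e` satisfies the hypotheses at `Q'`: an element
of `BK(Q)` which is fixed by `Q'` is in `BK(Q')` (FCO, FBK: the `Q'`-fixed points are `Q`-fixed).  So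
`e ∈ BK(Q')` by induction, for all `Q' > Q`.  Choose `w ∉ Q`.  BQX: `Bs = As(Q)`, `B = A(Q)`, `D = C(Q)`;
`E1 = C_E(Q)`.  PRQ and UNW for the pair `(Bs, B)`: `∑ xB k w yB k = X • u`, `u` a unit of `Bs`.  GFQ:
`κ : Bs → D`, the system `κ xB, κ yB`, `∑ κ xB k w κ yB k = X • κ u`, a unit of `D` (`X ≠ 0` in `F'`).  BLS:
`βD e * unit = 0`, `βD e = 0`, `e ∈ BK(Q)`. -/
def BlkStmt : Prop :=
  ∀ (ℓ : ℕ) [Fact ℓ.Prime] (F F' V E A As K K0 : Type) [Field F] [CharP F ℓ] [Field F']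
    [CharP F' ℓ] [Algebra F⟦X⟧ F'] [CommGroup V]
    [Fintype V] [Group E] [Finite E] [Ring A] [Algebra F A] [Ring As] [Algebra F⟦X⟧ As]
    [Fintype K] [Fintype K0] (φ : E →* MulAut V) (α : V →* A) (W : Subgroup V) [Fintype W]
    (ψ : E →* MulAut W) (γ : W →* As) (q : As →+* A) (lam : As →ₗ[F⟦X⟧] F⟦X⟧)
    (lam0 : A →ₗ[F] F) (x y : K → As) (x0 y0 : K0 → A), Function.Injective (algebraMap F⟦X⟧ F') →
    IsPGroup ℓ V → ¬ ℓ ∣ Nat.card E → ℓ ∣ W.index → Dpr F φ α W ψ γ q lam lam0 x y x0 y0 →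
    ∀ (Q : Subgroup W), ∀ e ∈ FxR (cw F' (bcw (R := F⟦X⟧) (S := F') γ)) ⊤,
      e * e - e ∈ BKR (cw F' (bcw (R := F⟦X⟧) (S := F') γ)) Q →
      (∀ a ∈ FxR (cw F' (bcw (R := F⟦X⟧) (S := F') γ)) Q, e * a - a * e ∈ BKR (cw F' (bcw (R := F⟦X⟧) (S := F') γ)) Q) →
      e ∈ BKR (cw F' (bcw (R := F⟦X⟧) (S := F') γ)) ⊤ → e ∈ BKR (cw F' (bcw (R := F⟦X⟧) (S := F') γ)) Q

/-- GFC (uses BLK, GFB).  THE GENERIC FIBRE IS IN THE CLASS.  Proof.  `fin`: `C` is spanned by the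
`1 ⊗ b ω`.  `per`, `uni`, the system: GFB.  `rt`: `∑ (1 ⊗ x k) (1 ⊗ y k) = 1 ⊗ X • u = X • (1 ⊗ u)`.
`blk`: BLK. -/
def GfcStmt : Prop :=
  ∀ (ℓ : ℕ) [Fact ℓ.Prime] (F F' V E A As K K0 : Type) [Field F] [CharP F ℓ] [Field F']
    [CharP F' ℓ] [Algebra F⟦X⟧ F'] [CommGroup V]
    [Fintype V] [Group E] [Finite E] [Ring A] [Algebra F A] [Ring As] [Algebra F⟦X⟧ As]
    [Fintype K] [Fintype K0] (φ : E →* MulAut V) (α : V →* A) (W : Subgroup V) [Fintype W]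
    (ψ : E →* MulAut W) (γ : W →* As) (q : As →+* A) (lam : As →ₗ[F⟦X⟧] F⟦X⟧)
    (lam0 : A →ₗ[F] F) (x y : K → As) (x0 y0 : K0 → A), Function.Injective (algebraMap F⟦X⟧ F') →
    IsPGroup ℓ V → ¬ ℓ ∣ Nat.card E → ℓ ∣ W.index → Dpr F φ α W ψ γ q lam lam0 x y x0 y0 →
    Cl F' ψ (bcw (R := F⟦X⟧) (S := F') γ)

end Pool.Agent.PSS.S3
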