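import Pool.Agent.PSS.StmtsS2b
import Pool.Agent.PSS.StmtsS1e
import Pool.Agent.PSS.StmtsS3

/-!
# Squad PSS, block S2, part c (helper75): the deformation of an algebra of the class

`DTP` is the output of blocks S1 and S2: the input `Dpr` of block S3.
-/

open scoped BigOperators PowerSeries

noncomputable section

namespace Pool.Agent.PSS.S2

open Pool.Agent.PFC (tw IsTv)
open Pool.Agent.PFD.D2 (Cdv FibG)
open Pool.Agent.PFD.D2b (FrR)

/-- DTP (235). Every algebra of the class has a deformation relative to `W` over `F⟦X⟧` with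
`∑ x k * y k = X • unit`.  (uses LFT DRT GEN PER SPF FRE RTC S3.UNX)

Proof.  LFT for `wittCdv ℓ F`, DRT: `v`; `d` with `lam' (d a) = - lam' (v a)` (`lam'` is perfect).
GEN: `D₀`, `Λ₀`, `x'`, `y'`, `rt x' y' (D₀.w 1) = X • r`, `D₀.sq r 0 = - (ζ ^ 2 + nilpotent)`,
`ζ = rt x y 1` central (RTC) and a unit, so `D₀.sq r 0` is a unit and `r` is a unit (S3.UNX with
`q = π₀` from SPF).  `Per` by PER; the units: `D₀.of (cst n)` for the units `n` of `A`. -/
def DtpStmt : Prop :=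
  ∀ (ℓ : ℕ) [Fact ℓ.Prime] (F V E A : Type) [Field F] [IsAlgClosed F] [CharP F ℓ] [CommGroup V]
    [Fintype V] [Group E] [Ring A] [Algebra F A] (φ : E →* MulAut V) (α : V →* A)
    (W : Subgroup V) [Fintype W] (ψ : E →* MulAut W) (z : V), IsPGroup ℓ V → Vz φ W z → z ≠ 1 →
    IsRs φ W ψ → Cl F φ α →
    ∃ (As K K0 : Type) (_ : Ring As) (_ : Algebra F⟦X⟧ As) (_ : Module.Finite F⟦X⟧ As)
      (_ : Module.Free F⟦X⟧ As) (_ : Fintype K) (_ : Fintype K0) (γ : W →* As) (q : As →+* A)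
      (lam : As →ₗ[F⟦X⟧] F⟦X⟧) (lam0 : A →ₗ[F] F) (x y : K → As) (x0 y0 : K0 → A),
      S3.Dpr F φ α W ψ γ q lam lam0 x y x0 y0

end Pool.Agent.PSS.S2
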