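import Pool.Agent.PSS.Trv
import Pool.Agent.PSS.StmtsS2c
import Pool.Agent.PSS.StmtsS4

/-!
# Squad PSS: the step from the outputs of the blocks S1 - S4
-/

open scoped BigOperators TensorProduct PowerSeries

noncomputable section

namespace Pool.Agent.PSS

open Pool.Agent.PFC (tw IsTv)
open Pool.Agent.PFD.D2b (FrR)

/-- an algebraically closed field over `F⟦X⟧` -/
theorem exists_gf (ℓ : ℕ) [Fact ℓ.Prime] (F : Type) [Field F] [CharP F ℓ] :
    ∃ (F' : Type) (_ : Field F') (_ : IsAlgClosed F') (_ : CharP F' ℓ) (_ : Algebra F⟦X⟧ F'),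
      Function.Injective (algebraMap F⟦X⟧ F') := by
  have hinj : Function.Injective (algebraMap F⟦X⟧ (AlgebraicClosure (FractionRing F⟦X⟧))) := by
    rw [IsScalarTower.algebraMap_eq F⟦X⟧ (FractionRing F⟦X⟧)
      (AlgebraicClosure (FractionRing F⟦X⟧))]
    exact (algebraMap (FractionRing F⟦X⟧) (AlgebraicClosure (FractionRing F⟦X⟧))).injective.comp
      (IsFractionRing.injective F⟦X⟧ (FractionRing F⟦X⟧))
  have hchar : CharP (AlgebraicClosure (FractionRing F⟦X⟧)) ℓ := by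
    have h1 : CharP F⟦X⟧ ℓ := by
      have : Function.Injective (PowerSeries.C : F →+* F⟦X⟧) := PowerSeries.C_injective
      exact charP_of_injective_ringHom this ℓ
    exact charP_of_injective_ringHom hinj ℓ
  exact ⟨AlgebraicClosure (FractionRing F⟦X⟧), inferInstance, inferInstance, hchar,
    inferInstance, hinj⟩

/-- `W` has index divisible by `ℓ` -/
theorem dvd_idx {ℓ : ℕ} [Fact ℓ.Prime] {V : Type} [CommGroup V] [Fintype V] (hp : IsPGroup ℓ V)
    {Y W : Subgroup V} (hc : IsCompl Y W) (hY : Y ≠ ⊥) : ℓ ∣ W.index := by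
  have h1 : W.index ≠ 1 := by
    intro h
    rw [Subgroup.index_eq_one] at h
    subst h
    have := hc.disjoint
    rw [disjoint_top] at this
    exact hY this
  obtain ⟨n, hn⟩ := hp.index W
  rw [hn] at h1 ⊢
  rcases n with _ | n
  · exact (h1 (pow_zero ℓ)).elim
  · exact dvd_pow_self ℓ (Nat.succ_ne_zero n)

/-- the deformation in the sense of `Df` -/
def S3.Dpr.df {F V E A As K K0 : Type} [Field F] [CommGroup V] [Fintype V] [Group E]
    [Ring A] [Algebra F A] [Ring As] [Algebra F⟦X⟧ As] [Fintype K] [Fintype K0]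
    {φ : E →* MulAut V} {α : V →* A} {W : Subgroup V} [Fintype W] {ψ : E →* MulAut W}
    {γ : W →* As} {q : As →+* A} {lam : As →ₗ[F⟦X⟧] F⟦X⟧} {lam0 : A →ₗ[F] F}
    {x y : K → As} {x0 y0 : K0 → A} (D : S3.Dpr F φ α W ψ γ q lam lam0 x y x0 y0) :
    Df (PowerSeries.X : F⟦X⟧) PowerSeries.constantCoeff (aw α W) γ where
  q := q
  sc := D.sc
  surj := D.surj
  ker := D.ker
  qw := D.qw
  per := by
    obtain ⟨Ω, i1, i2, b, c, hf, _⟩ := D.per
    exact ⟨Ω, i1, i2, b, c, hf⟩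

/-- STP -/
theorem stp (vzc : VzcStmt) (dtp : S2.DtpStmt) (gfc : S3.GfcStmt) (dzd : DzdStmt)
    (tpf : TpfStmt) : StpStmt := by
  intro ℓ _ F V E A B _ _ _ _ _ _ _ _ _ _ _ φ α Y W' W _ ψ hp hE hY hr hWW hst hA N
  by_cases hY0 : Y = ⊥
  · have hW' : W' = ⊤ := by
      have h1 := hY.cmp.sup_eq_top
      rw [hY0, bot_sup_eq] at h1
      exact h1
    exact trv ℓ F V E A B φ α W' W ψ hW' hr hA N
  · obtain ⟨z, hz, hvz, hzc, hz1⟩ := vzc V E φ Y W' hY
    obtain ⟨As, K, K0, _, _, _, _, _, _, γ, q, lam, lam0, x, y, x0, y0, D⟩ :=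
      dtp ℓ F V E A φ α W' ψ z hp hvz (hz1 hY0) hr hA
    obtain ⟨F', _, _, _, _, hinj⟩ := exists_gf ℓ F
    have hfaith : FaithfulSMul F⟦X⟧ F' := (faithfulSMul_iff_algebraMap_injective F⟦X⟧ F').2 hinj
    have hfin : FiniteDimensional F A := hA.fin
    obtain ⟨lam1, K1, _, x1, y1, hrf, u, hu⟩ := hA.rt
    have hu' : u * rt x1 y1 1 = 1 := by
      refine Eq.trans ?_ hu
      simp only [rt, mul_one]
    obtain ⟨B', _, _, N', hB'⟩ := tpf ℓ F V E A As B F' φ α Y W' W γ hp hY hWW hst hA N D.df hinj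
    refine ⟨F', F' ⊗[F⟦X⟧] As, B', inferInstance, inferInstance, inferInstance, inferInstance,
      inferInstance, inferInstance, inferInstance, bcw (R := F⟦X⟧) (S := F') γ, N', ?_, ?_, hB'⟩
    · exact gfc ℓ F F' V E A As K K0 φ α W' ψ γ q lam lam0 x y x0 y0 hinj hp hE
        (dvd_idx hp hY.cmp hY0) D
    · exact dzd ℓ F V E A As F' K1 φ W' z α γ lam1 x1 y1 u hA.per hrf hu' hvz D.df

end Pool.Agent.PSS
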