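import Pool.Agent.Helper10_PSS.DGZ
import Pool.Agent.Helper10_PSS.RFD
import Pool.Agent.Helper10_PSS.UNW
import Pool.Agent.Helper13_PSS.IDN
import Pool.Agent.Helper19_PSS.UNT
import Pool.Agent.Helper19_PSS.UZL
import Pool.Agent.Helper20_PSS.CSR
import Pool.Agent.Helper20_PSS.FPX
import Pool.Agent.Helper20_PSS.HCC
import Pool.Agent.Helper20_PSS.NFD
import Pool.Agent.Helper20_PSS.TRX
import Pool.Agent.Helper21_PSS.DLC
import Pool.Agent.Helper21_PSS.DRF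
import Pool.Agent.Helper21_PSS.LMB
import Pool.Agent.Helper21_PSS.TPR
import Pool.Agent.Helper22_PSS.GFC
import Pool.Agent.Helper22_PSS.NLM
import Pool.Agent.Helper22_PSS.RGV
import Pool.Agent.Helper25_PSS.DTR
import Pool.Agent.Helper27_PSS.NDB
import Pool.Agent.Helper27_PSS.TFX
import Pool.Agent.Helper28_PSS.BLK
import Pool.Agent.Helper28_PSS.VAN
import Pool.Agent.Helper29_PSS.DMF
import Pool.Agent.Helper29_PSS.FRE
import Pool.Agent.Helper29_PSS.QOR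
import Pool.Agent.Helper29_PSS.SVH
import Pool.Agent.Helper2_PSS.RWV
import Pool.Agent.Helper30_PSS.GFP
import Pool.Agent.Helper32_PSS.CRR
import Pool.Agent.Helper32_PSS.FSR
import Pool.Agent.Helper32_PSS.RTW
import Pool.Agent.Helper33_PSS.H2V
import Pool.Agent.Helper39_PSS.TVC
import Pool.Agent.Helper39_PSS.UNJ
import Pool.Agent.Helper40_PSS.DFR
import Pool.Agent.Helper40_PSS.FRD
import Pool.Agent.Helper40_PSS.WWL
import Pool.Agent.Helper41_PSS.CEF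
import Pool.Agent.Helper41_PSS.DZD
import Pool.Agent.Helper41_PSS.KEX
import Pool.Agent.Helper41_PSS.NDF
import Pool.Agent.Helper41_PSS.PRQ
import Pool.Agent.Helper41_PSS.QBK
import Pool.Agent.Helper41_PSS.RFO
import Pool.Agent.Helper41_PSS.SVI
import Pool.Agent.Helper45_PSS.NFR
import Pool.Agent.Helper46_PSS.ALV
import Pool.Agent.Helper47_PSS.STN
import Pool.Agent.Helper47_PSS.STT
import Pool.Agent.Helper49_PSS.FOR
import Pool.Agent.Helper49_PSS.HCB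
import Pool.Agent.Helper4_PSS.BLB
import Pool.Agent.Helper51_PSS.LFT
import Pool.Agent.Helper52_PSS.FRB
import Pool.Agent.Helper52_PSS.FTR
import Pool.Agent.Helper52_PSS.NRS
import Pool.Agent.Helper52_PSS.RFM
import Pool.Agent.Helper52_PSS.RFS
import Pool.Agent.Helper52_PSS.WTR
import Pool.Agent.Helper56_PSS.FPS
import Pool.Agent.Helper56_PSS.RFU
import Pool.Agent.Helper56_PSS.STR
import Pool.Agent.Helper5_PSS.DIV
import Pool.Agent.Helper5_PSS.TRS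
import Pool.Agent.Helper60_PSS.BLA
import Pool.Agent.Helper60_PSS.BLW
import Pool.Agent.Helper60_PSS.DZF
import Pool.Agent.Helper60_PSS.TPF
import Pool.Agent.Helper62_PSS.BBK
import Pool.Agent.Helper62_PSS.NDA
import Pool.Agent.Helper63_PSS.BKF
import Pool.Agent.Helper63_PSS.FUN
import Pool.Agent.Helper63_PSS.FXL
import Pool.Agent.Helper63_PSS.PSC
import Pool.Agent.Helper63_PSS.RDX
import Pool.Agent.Helper63_PSS.UNX
import Pool.Agent.Helper64_PSS.GFB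
import Pool.Agent.Helper64_PSS.IDT
import Pool.Agent.Helper64_PSS.MCK
import Pool.Agent.Helper64_PSS.MOL
import Pool.Agent.Helper65_PSS.BPU
import Pool.Agent.Helper67_PSS.DFM
import Pool.Agent.Helper68_PSS.SPI
import Pool.Agent.Helper68_PSS.TRC
import Pool.Agent.Helper69_PSS.STV
import Pool.Agent.Helper6_PSS.BKI
import Pool.Agent.Helper6_PSS.VDR
import Pool.Agent.Helper70_PSS.BQX
import Pool.Agent.Helper70_PSS.SFQ
import Pool.Agent.Helper71_PSS.CNH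
import Pool.Agent.Helper75_PSS.DRT
import Pool.Agent.Helper75_PSS.DTP
import Pool.Agent.Helper75_PSS.LIM
import Pool.Agent.Helper75_PSS.SPF
import Pool.Agent.Helper75_PSS.TGN
import Pool.Agent.Helper76_PSS.EOR
import Pool.Agent.Helper77_PSS.FBK
import Pool.Agent.Helper77_PSS.NRF
import Pool.Agent.Helper77_PSS.TAU
import Pool.Agent.Helper79_PSS.NFP
import Pool.Agent.Helper79_PSS.SVG
import Pool.Agent.Helper7_PSS.TLF
import Pool.Agent.Helper80_PSS.HTR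
import Pool.Agent.Helper80_PSS.LDA
import Pool.Agent.Helper80_PSS.ZRT
import Pool.Agent.Helper81_PSS.BVL
import Pool.Agent.Helper81_PSS.FLV
import Pool.Agent.Helper81_PSS.PER
import Pool.Agent.Helper82_PSS.BLT
import Pool.Agent.Helper82_PSS.VZC
import Pool.Agent.Helper83_PSS.HEW
import Pool.Agent.Helper83_PSS.RAD
import Pool.Agent.Helper84_PSS.BCL
import Pool.Agent.Helper84_PSS.GEN
import Pool.Agent.Helper84_PSS.H1V
import Pool.Agent.Helper84_PSS.RFE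
import Pool.Agent.Helper84_PSS.TRC
import Pool.Agent.Helper85_PSS.FIT
import Pool.Agent.Helper85_PSS.GWZ
import Pool.Agent.Helper85_PSS.LKX
import Pool.Agent.Helper85_PSS.ORB
import Pool.Agent.Helper86_PSS.RTC
import Pool.Agent.Helper91_PSS.CEN
import Pool.Agent.Helper91_PSS.GFQ
import Pool.Agent.Helper91_PSS.RES
import Pool.Agent.Helper91_PSS.THL
import Pool.Agent.Helper92_PSS.BLS
import Pool.Agent.Helper92_PSS.CHI
import Pool.Agent.Helper92_PSS.FCO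
import Pool.Agent.Helper92_PSS.FMX
import Pool.Agent.Helper92_PSS.RED
import Pool.Agent.Helper92_PSS.TRA
import Pool.Agent.Helper95_PSS.CFR
import Pool.Agent.Helper95_PSS.CSU
import Pool.Agent.Helper95_PSS.IND
import Pool.Agent.Helper95_PSS.TOR
import Pool.Agent.PSS.Stp

/-! Assembly of the rows of the table pss: StpStmt without hypotheses -/

namespace Pool.Agent.PSS.All

open Pool.Agent.PSS

theorem z_bkf : S0.BkfStmt :=
  Pool.Agent.PSS.S0.H63.bkf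

theorem z_fpx : S0.FpxStmt :=
  Pool.Agent.PSS.H20.fpx

theorem z_fco : S0.FcoStmt :=
  Pool.Agent.PSS.S0.H92.fco

theorem z_fbk : S0.FbkStmt :=
  Pool.Agent.PSS.S0.H77.fbk z_fpx

theorem z_ftr : S0.FtrStmt :=
  Pool.Agent.PSS.H52.ftr z_fco z_fpx

theorem z_bki : S0.BkiStmt :=
  Pool.Agent.PSS.S0.H6.bki

theorem z_res : S0.ResStmt :=
  Pool.Agent.PSS.H91.res

theorem z_rfd : S0.RfdStmt :=
  Pool.Agent.PSS.S0.H10.rfd

theorem z_ind : S0.IndStmt :=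
  Pool.Agent.PSS.S0.H95.ind

theorem z_zrt : S0.ZrtStmt :=
  Pool.Agent.PSS.S0.H80.zrt

theorem z_trs : S0.TrsStmt :=
  Pool.Agent.PSS.S0.H5.trs

theorem z_rfs : S0.RfsStmt :=
  Pool.Agent.PSS.S0.H52.rfs

theorem z_rfo : S0.RfoStmt :=
  Pool.Agent.PSS.S0.H41.rfo

theorem z_bqx : S0.BqxStmt :=
  Pool.Agent.PSS.S0.H70.bqx

theorem z_lmb : S0.LmbStmt :=
  Pool.Agent.PSS.H21.LMB.lmb

theorem z_sfq : S0.SfqStmt :=
  Pool.Agent.PSS.S0.H70.sfq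

theorem z_mck : S0.MckStmt :=
  Pool.Agent.PSS.H64.mck z_rfd z_ind z_rfo z_sfq z_fpx

theorem z_bpu : S0.BpuStmt :=
  Pool.Agent.PSS.H65.bpu z_sfq z_lmb z_rfd z_rfo

theorem z_bbk : S0.BbkStmt :=
  Pool.Agent.PSS.S0.H62.bbk z_fco z_fbk z_sfq z_lmb z_rfd

theorem z_bcl : S0.BclStmt :=
  Pool.Agent.PSS.S0.H84.bcl z_mck z_bpu z_bbk

theorem a_csr : CsrStmt :=
  Pool.Agent.PSS.H20.csr

theorem a_rtc : RtcStmt :=
  Pool.Agent.PSS.H86.rtc a_csr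

theorem a_csu : CsuStmt :=
  Pool.Agent.PSS.H95.csu a_csr a_rtc

theorem a_rfe : RfeStmt :=
  Pool.Agent.PSS.H84.rfe

theorem a_unj : UnjStmt :=
  Pool.Agent.PSS.H39.unj

theorem a_rfm : RfmStmt :=
  Pool.Agent.PSS.H52.rfm a_rfe a_unj

theorem a_mol : MolStmt :=
  Pool.Agent.PSS.H64.mol

theorem a_bvl : BvlStmt :=
  Pool.Agent.PSS.H81.bvl

theorem a_stv : StvStmt :=
  Pool.Agent.PSS.H69.stv

theorem a_alv : AlvStmt :=
  Pool.Agent.PSS.H46.alv a_stv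

theorem a_rgv : RgvStmt :=
  Pool.Agent.PSS.H22.rgv

theorem a_flv : FlvStmt :=
  Pool.Agent.PSS.H81.flv

theorem a_uzl : UzlStmt :=
  Pool.Agent.PSS.H19.uzl a_csu a_unj

theorem a_tau : TauStmt :=
  Pool.Agent.PSS.H77T.tau

theorem a_fxl : FxlStmt :=
  Pool.Agent.PSS.H63.fxl

theorem a_hcb : HcbStmt :=
  Pool.Agent.PSS.H49.hcb a_tau a_fxl

theorem a_hcc : HccStmt :=
  Pool.Agent.PSS.H20.hcc

theorem a_lfg : LfgStmt :=
  Pool.Agent.PSS.H49.lfg a_fxl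

theorem a_h2v : H2vStmt :=
  Pool.Agent.PSS.H33.h2v a_csu a_hcb a_hcc a_lfg

theorem a_h1v : H1vStmt :=
  Pool.Agent.PSS.H84.h1v a_csu a_fxl

theorem a_kex : KexStmt :=
  Pool.Agent.PSS.H41.kex

theorem a_trx : TrxStmt :=
  Pool.Agent.PSS.H20.trx

theorem a_tra : TraStmt :=
  Pool.Agent.PSS.H92.tra

theorem a_trc : TrcStmt :=
  Pool.Agent.PSS.H84.trc

theorem a_dlc : DlcStmt :=
  Pool.Agent.PSS.H21.dlc a_tra

theorem a_stn : StnStmt :=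
  Pool.Agent.PSS.H47.stn a_trx a_tra a_trc a_h2v

theorem a_blt : BltStmt :=
  Pool.Agent.PSS.H82.blt a_bvl

theorem a_stt : SttStmt :=
  Pool.Agent.PSS.H47.stt a_trx a_tra a_trc a_h2v a_blt

theorem a_lim : LimStmt :=
  Pool.Agent.PSS.H75.lim

theorem a_tgn : TgnStmt :=
  Pool.Agent.PSS.H75.tgn a_trx a_tra a_trc a_stn a_lim

theorem a_tlf : TlfStmt :=
  Pool.Agent.PSS.H7.tlf a_trx a_trc a_stt a_lim

theorem a_dmr : DmrStmt :=
  Pool.Agent.PSS.H29.dmr a_tra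

theorem a_dmf : DmfStmt :=
  Pool.Agent.PSS.H29.dmf

theorem a_rmp : RmpStmt :=
  Pool.Agent.PSS.H75.rmp

theorem a_spf : SpfStmt :=
  Pool.Agent.PSS.H75.spf

theorem a_fun : FunStmt :=
  Pool.Agent.PSS.H63.funs

theorem a_cfr : CfrStmt :=
  Pool.Agent.PSS.H95.cfr a_fun

theorem a_fre : FreStmt :=
  Pool.Agent.PSS.H29.fre

theorem a_cen : CenStmt :=
  Pool.Agent.PSS.H91.cen

theorem a_fmx : FmxStmt :=
  Pool.Agent.PSS.H92.fmx a_fun a_rfe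

theorem a_rwv : RwvStmt :=
  Pool.Agent.PSS.H2.rwv

theorem a_fsr : FsrStmt :=
  Pool.Agent.PSS.H32.fsr a_rfm a_spf a_fre

theorem a_crr : CrrStmt :=
  Pool.Agent.PSS.H32.crr a_fun a_rfe a_rtc a_rwv

theorem a_lkx : LkxStmt :=
  Pool.Agent.PSS.H85.lkx a_rmp a_fun a_rfe

theorem a_for : ForStmt :=
  Pool.Agent.PSS.H49.for_ a_tra a_lkx a_crr a_rfe

theorem a_red : RedStmt :=
  Pool.Agent.PSS.H92.red a_fun a_rmp

theorem a_gen : GenStmt :=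
  Pool.Agent.PSS.H84.gen a_kex a_tgn a_dmr a_dmf a_h1v a_rwv a_fmx a_fsr a_red a_for

theorem a_psc : PscStmt :=
  Pool.Agent.PSS.H63.psc

theorem a_dfm : DfmStmt :=
  Pool.Agent.PSS.H67.dfm a_unj

theorem a_per : PerStmt :=
  Pool.Agent.PSS.H81.per a_cfr

theorem a_vzc : VzcStmt :=
  Pool.Agent.PSS.H82.vzc

theorem b_tpr : S2.TprStmt :=
  Pool.Agent.PSS.S2.H21.tpr

theorem b_thl : S2.ThlStmt :=
  Pool.Agent.PSS.S2.H91.thl

theorem b_dgz : S2.DgzStmt :=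
  Pool.Agent.PSS.S2.H10.dgz b_thl

theorem b_dtr : S2.DtrStmt :=
  Pool.Agent.PSS.S2.H25.dtr

theorem b_trc : S2.TrcStmt :=
  Pool.Agent.PSS.H68.trc b_dtr

theorem b_tor : S2.TorStmt :=
  Pool.Agent.PSS.S2.H95.tor

theorem b_htr : S2.HtrStmt :=
  Pool.Agent.PSS.H80.htr b_tor

theorem b_eor : S2.EorStmt :=
  Pool.Agent.PSS.S2.H76.eor

theorem b_wtr : S2.WtrStmt :=
  Pool.Agent.PSS.S2.H52.wtr

theorem b_fps : S2.FpsStmt :=
  Pool.Agent.PSS.S2.H56.fps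

theorem b_str : S2.StrStmt :=
  Pool.Agent.PSS.S2.H56.str b_htr b_wtr b_fps

theorem b_nlm : S2.NlmStmt :=
  Pool.Agent.PSS.S2.H22.nlm

theorem b_svi : S2.SviStmt :=
  Pool.Agent.PSS.S2.H41.svi b_tpr

theorem b_svh : S2.SvhStmt :=
  Pool.Agent.PSS.H29.svh b_tor

theorem b_cnh : S2.CnhStmt :=
  Pool.Agent.PSS.S2.H71.cnh

theorem b_svk : S2.SvkStmt :=
  Pool.Agent.PSS.S2.H41.svk b_wtr

theorem b_svg : S2.SvgStmt :=
  Pool.Agent.PSS.S2.H79.svg b_htr b_eor b_svh b_cnh b_svi b_svk b_wtr b_fps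

theorem b_idt : S2.IdtStmt :=
  Pool.Agent.PSS.H64.idt

theorem b_spi : S2.SpiStmt :=
  Pool.Agent.PSS.H68.spi

theorem b_fit : S2.FitStmt :=
  Pool.Agent.PSS.S2.H85F.fit

theorem b_nlt : S2.NltStmt :=
  Pool.Agent.PSS.S2.H32.nlt b_str b_nlm a_rtc

theorem b_rtw : S2.RtwStmt :=
  Pool.Agent.PSS.S2.H32.rtw b_str

theorem b_tvc : S2.TvcStmt :=
  Pool.Agent.PSS.S2.H39.tvc b_dgz b_trc b_rtw b_svg b_idt b_nlt b_spi

theorem b_nda : S2.NdaStmt :=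
  Pool.Agent.PSS.S2.H62.nda

theorem b_ndb : S2.NdbStmt :=
  Pool.Agent.PSS.S2.H27.ndb

theorem b_rad : S2.RadStmt :=
  Pool.Agent.PSS.S2.H83.rad b_nda b_ndb b_fit

theorem b_unt : S2.UntStmt :=
  Pool.Agent.PSS.S2.H19.unt b_rtw b_tvc b_rad b_dgz a_rtc

theorem b_chi : S2.ChiStmt :=
  Pool.Agent.PSS.S2.H92.chi

theorem b_hew : S2.HewStmt :=
  Pool.Agent.PSS.S2.H83.hew b_tor

theorem b_gwz : S2.GwzStmt :=
  Pool.Agent.PSS.S2.H85.gwz

theorem b_wwl : S2.WwlStmt :=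
  Pool.Agent.PSS.S2.H40.wwl

theorem b_vdr : S2.VdrStmt :=
  Pool.Agent.PSS.H6.vdr b_chi b_hew b_cnh b_dgz b_trc b_gwz b_wwl

theorem b_rdg : S2.RdgStmt :=
  Pool.Agent.PSS.S2.H75.rdg

theorem b_drt : S2.DrtStmt :=
  Pool.Agent.PSS.S2.H75.drt b_vdr b_rdg b_cnh b_unt

theorem c_van : S3.VanStmt :=
  Pool.Agent.PSS.H28.van

theorem c_bls : S3.BlsStmt :=
  Pool.Agent.PSS.S3.H92.bls c_van z_ftr z_rfs z_trs

theorem c_div : S3.DivStmt :=
  Pool.Agent.PSS.S3.H5.div z_rfs z_ind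

theorem c_rdx : S3.RdxStmt :=
  Pool.Agent.PSS.S3.H63.rdx

theorem c_qbk : S3.QbkStmt :=
  Pool.Agent.PSS.S3.H41.qbk

theorem c_tfx : S3.TfxStmt :=
  Pool.Agent.PSS.S3.H27.tfx z_fco z_fbk

theorem c_unx : S3.UnxStmt :=
  Pool.Agent.PSS.S3.H63.unx

theorem c_idn : S3.IdnStmt :=
  Pool.Agent.PSS.S3.H13.idn z_bki z_fco z_fbk

theorem c_unw : S3.UnwStmt :=
  Pool.Agent.PSS.H10.unw c_div c_rdx c_qbk c_tfx c_unx c_idn z_mck z_bqx z_bpu z_zrt z_bki z_bkf z_res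

theorem c_prq : S3.PrqStmt :=
  Pool.Agent.PSS.S3.H41.prq c_qbk c_tfx z_bcl z_bpu z_mck z_res z_fco z_fpx z_zrt

theorem c_gfb : S3.GfbStmt :=
  Pool.Agent.PSS.H64.gfb

theorem c_gfq : S3.GfqStmt :=
  Pool.Agent.PSS.H91.Gfq.gfq c_gfb z_fpx z_lmb

theorem c_blk : S3.BlkStmt :=
  Pool.Agent.PSS.H28.blk c_bls c_unw c_prq c_gfb c_gfq z_bqx z_fco z_fbk

theorem c_gfc : S3.GfcStmt :=
  Pool.Agent.PSS.H22.gfc c_blk c_gfb

theorem c_gfp : S3.GfpStmt :=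
  Pool.Agent.PSS.S3.H30.gfp c_bls c_gfb c_gfq z_bqx z_bpu z_mck z_zrt z_fco z_fbk

theorem d_orb : OrbStmt :=
  Pool.Agent.PSS.H85.orb

theorem d_frb : FrbStmt :=
  Pool.Agent.PSS.H52.frb d_orb

theorem d_rfu : RfuStmt :=
  Pool.Agent.PSS.H56.rfu

theorem d_dfr : DfrStmt :=
  Pool.Agent.PSS.H40.dfr

theorem d_drf : DrfStmt :=
  Pool.Agent.PSS.H21.DRF.drf

theorem d_qor : QorStmt :=
  Pool.Agent.PSS.H29.qor d_orb

theorem d_nfr : NfrStmt :=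
  Pool.Agent.PSS.H45.nfr d_frb

theorem d_nfp : NfpStmt :=
  Pool.Agent.PSS.H79.nfp d_nfr

theorem d_nfd : NfdStmt :=
  Pool.Agent.PSS.H20.nfd d_frb

theorem d_nrf : NrfStmt :=
  Pool.Agent.PSS.H77N.nrf d_dfr d_drf d_rfu d_qor d_nfd

theorem d_ndf : NdfStmt :=
  Pool.Agent.PSS.H41.ndf d_nfr

theorem d_nrs : NrsStmt :=
  Pool.Agent.PSS.H52.nrs

theorem d_ftz : FtzStmt :=
  Pool.Agent.PSS.H56.ftz

theorem d_bla : BlaStmt :=
  Pool.Agent.PSS.H60.bla z_fco z_fbk z_ftr z_bki z_bqx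

theorem d_blb : BlbStmt :=
  Pool.Agent.PSS.H4.blb z_fpx z_zrt z_bqx z_bki z_bpu z_mck

theorem d_blw : BlwStmt :=
  Pool.Agent.PSS.H60.blw d_bla d_blb d_ftz

theorem a_lft : LftStmt :=
  Pool.Agent.PSS.H51.lft a_mol a_bvl a_csu a_alv a_rgv a_flv a_rfm a_uzl

theorem a_lda : LdaStmt :=
  Pool.Agent.PSS.H80.lda a_lft a_kex a_tlf a_dmr a_h1v

theorem a_cef : CefStmt :=
  Pool.Agent.PSS.H41.cef a_lda a_uzl a_cen a_rmp

theorem a_frf : FrfStmt :=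
  Pool.Agent.PSS.H41.frf a_lda a_rwv a_fmx a_fsr a_red

theorem a_dzd : DzdStmt :=
  Pool.Agent.PSS.H41.dzd a_dfm a_cef a_psc

theorem a_frd : FrdStmt :=
  Pool.Agent.PSS.H40.frd a_dfm a_cef a_frf

theorem b_dtp : S2.DtpStmt :=
  Pool.Agent.PSS.S2.H75.dtp a_lft b_drt a_gen a_per a_spf a_fre a_rtc c_unx

theorem d_dzf : DzfStmt :=
  Pool.Agent.PSS.H60.dzf a_dzd a_vzc

theorem d_tpf : TpfStmt :=
  Pool.Agent.PSS.H60.tpf d_nrs d_ndf d_nfp d_nrf d_dzf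

theorem stp : StpStmt :=
  Pool.Agent.PSS.stp a_vzc b_dtp c_gfc a_dzd d_tpf

end Pool.Agent.PSS.All
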