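import Pool.Agent.PFD.StmtsD5b

/-!
# Squad PSS, group level: classes of abelian defect groups with the action of the inertial quotient

`Ei V γ ≤ Aut V` is the inertial quotient (`PFD/DefsD5.lean`).  A class `K` (type `Kl`) is a property
`K ℓ V E W` of the triples: `V` an abelian `ℓ`-group, `E ≤ Aut V`, `W ≤ V` an `E`-stable subgroup.
`Adm ℓ K`: the class is closed under subgroups of `E` and isomorphisms (`iso`), and under the passage to
`V / W` (`quo`).  `StoStmt K` is the input from the algebras: for a block `e` with the abelian defect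
group `V`, the inertial quotient `E` and `K ℓ V E W` the numbers of the ordinary characters of `e` and of
its Brauer correspondent in `N(W)` are equal.

`KS` is the class (A) + (S): `V = C × W`, `C` a direct product of cyclic `E`-stable subgroups,
`W = U × X`, `U ≠ 1`, the group induced by `E` on `W` is free on `U - 1`.
-/

open scoped BigOperators

noncomputable section

namespace Pool.Agent.PSS

open Pool.Agent.Helper51_AWC Pool.Agent.Helper79_WRA Pool.Agent.PP Pool.Agent.PP.KF
open Pool.Agent.PP.K9 Pool.Agent.PP.K9.H97 Pool.Agent.PP.H75 Pool.Agent.PP.T3 Pool.Agent.PP.T2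
open Pool.Agent.PP.TB (Zd Star iz cz)
open Pool.Agent.PFD (Ei)

attribute [local instance] Ideal.Quotient.field

/-! ## 1. Quotients -/

/-- `(V', E')` is a quotient of `(V, E)` by means of `π`: `π` is surjective, and every element of `E'` is
induced by an element of `E`. -/
structure Qr {V V' : Type} [Group V] [Group V'] (E : Subgroup (MulAut V))
    (E' : Subgroup (MulAut V')) (π : V →* V') : Prop where
  sur : Function.Surjective π
  lif : ∀ a' ∈ E', ∃ a ∈ E, ∀ v, π (a v) = a' (π v)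

/-- a class of triples `(V, E, W)`, for every prime `ℓ` -/
abbrev Kl : Type 1 := ℕ → ∀ (V : Type) [Group V], Subgroup (MulAut V) → Subgroup V → Prop

/-- admissible classes -/
structure Adm (ℓ : ℕ) (K : Kl) : Prop where
  nt : ∀ (V : Type) [Group V] (E : Subgroup (MulAut V)) (W : Subgroup V), K ℓ V E W → W ≠ ⊥
  st : ∀ (V : Type) [Group V] (E : Subgroup (MulAut V)) (W : Subgroup V), K ℓ V E W →
    ∀ a ∈ E, ∀ w ∈ W, a w ∈ W
  iso : ∀ (V V' : Type) [Group V] [Group V'] (E : Subgroup (MulAut V)) (E' : Subgroup (MulAut V'))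
    (W : Subgroup V) (π : V ≃* V'), Qr E E' π.toMonoidHom → K ℓ V E W →
    K ℓ V' E' (W.map π.toMonoidHom)
  quo : ∀ (V V' : Type) [Group V] [Finite V] [Group V'] [Finite V'] (E : Subgroup (MulAut V))
    (E' : Subgroup (MulAut V')) (W : Subgroup V) (π : V →* V'), IsPGroup ℓ V →
    ¬ ℓ ∣ Nat.card E → (∀ a b : V, a * b = b * a) → Qr E E' π → K ℓ V E W → π.ker = W →
    (∃ v : V', v ≠ 1) → ∃ W' : Subgroup V', K ℓ V' E' W'

/-! ## 2. The class (A) + (S) -/

/-- a direct product of cyclic `E`-stable subgroups -/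
inductive Cyc {V : Type} [Group V] (E : Subgroup (MulAut V)) : Subgroup V → Prop
  | bot : Cyc E ⊥
  | mul (C Y : Subgroup V) : Cyc E C → (∃ y ∈ Y, ∀ x ∈ Y, ∃ k : ℤ, x = y ^ k) →
      (∀ a ∈ E, ∀ y ∈ Y, a y ∈ Y) → C ⊓ Y = ⊥ → Cyc E (C ⊔ Y)

/-- `V = C × W`, `C` is a direct product of cyclic `E`-stable subgroups, `W = U × X`, all factors
`E`-stable, and an element of `E` which fixes some `u ≠ 1` in `U` fixes `W` pointwise. -/
structure Sx {V : Type} [Group V] (E : Subgroup (MulAut V)) (C W U X : Subgroup V) : Prop where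
  ab : ∀ a b : V, a * b = b * a
  cy : Cyc E C
  cw : C ⊓ W = ⊥
  jn : C ⊔ W = ⊤
  ux : U ⊓ X = ⊥
  uw : U ⊔ X = W
  nt : U ≠ ⊥
  su : ∀ a ∈ E, ∀ u ∈ U, a u ∈ U
  sx : ∀ a ∈ E, ∀ x ∈ X, a x ∈ X
  fr : ∀ a ∈ E, ∀ u ∈ U, u ≠ 1 → a u = u → ∀ w ∈ W, a w = w

/-- the class (A) + (S) -/
def KS : Kl := fun _ _ _ E W => ∃ C U X, Sx E C W U X

/-! ## 3. The input from the algebras -/

/-- STO: the numbers of the ordinary characters of `e` and of its correspondent `c` in `N(W)`. -/
def StoFor (K : Kl) : Prop := ∀ (ℓ : ℕ) [Fact ℓ.Prime] (M : Ideal (integralClosure ℤ ℂ))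
  [M.IsMaximal], (ℓ : integralClosure ℤ ℂ) ∈ M → ∀ (G : Type) [Group G] [Finite G]
  (e : G → FF M) (V : Subgroup G) (γ : G → FF M), Ld ℓ e V γ → ∀ W : Subgroup G, W ≤ V →
  K ℓ V (Ei V γ) (W.subgroupOf V) → ∀ c : Subgroup.normalizer (W : Set G) → FF M,
  Ld ℓ c (V.subgroupOf (Subgroup.normalizer (W : Set G)))
    (fun t : Subgroup.normalizer (W : Set G) => γ t) →
  (IrrE M e).ncard = (IrrE M c).ncard

/-- STO for the class (A) + (S) -/
def StoStmt : Prop := StoFor KS

end Pool.Agent.PSS
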