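import Mathlib

/-!
Squad PSS (theorem (S)), block S1 (helper36): relative deformations over `k[[s]]`.

`Dm k om`: a deformation `x * y = ∑ s^n m n x y` of the algebra `A`, relative to the group `W`
(`om : W → A` is not deformed).  `Dm.R D`: the ring of the deformation, an algebra over the power
series ring `k[[s]]`; its elements are the sequences `f : ℕ → A` (`Dm.of D f`, `Dm.sq x`), with the
product `Dm.mul`.
-/

open scoped BigOperators

noncomputable section

namespace Pool.Agent.PSS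

open Finset

/-- exchange of sums over antidiagonals -/
theorem ad_swap {M : Type} [AddCommMonoid M] (n : ℕ) (T : ℕ → ℕ → ℕ → ℕ → M) :
    ∑ p ∈ antidiagonal n, ∑ q ∈ antidiagonal p.1, ∑ r ∈ antidiagonal p.2,
      T q.1 q.2 r.1 r.2 =
    ∑ p ∈ antidiagonal n, ∑ q ∈ antidiagonal p.1, ∑ r ∈ antidiagonal p.2,
      T r.1 q.1 r.2 q.2 := by
  have key : ∀ S : ℕ → ℕ → ℕ → ℕ → M,
      ∑ p ∈ antidiagonal n, ∑ q ∈ antidiagonal p.1, ∑ r ∈ antidiagonal p.2,
        S q.1 q.2 r.1 r.2 =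
      ∑ x ∈ (antidiagonal n).sigma (fun p => antidiagonal p.1 ×ˢ antidiagonal p.2),
        S x.2.1.1 x.2.1.2 x.2.2.1 x.2.2.2 := by
    intro S
    rw [Finset.sum_sigma]
    refine Finset.sum_congr rfl fun p _ => ?_
    rw [Finset.sum_product]
  rw [key T, key (fun a b c d => T c a d b)]
  refine Finset.sum_nbij'
    (i := fun x => ⟨(x.2.1.2 + x.2.2.2, x.2.1.1 + x.2.2.1),
      ((x.2.1.2, x.2.2.2), (x.2.1.1, x.2.2.1))⟩)
    (j := fun x => ⟨(x.2.2.1 + x.2.1.1, x.2.2.2 + x.2.1.2),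
      ((x.2.2.1, x.2.1.1), (x.2.2.2, x.2.1.2))⟩) ?_ ?_ ?_ ?_ ?_
  · rintro ⟨⟨a, b⟩, ⟨c, d⟩, ⟨e, f⟩⟩ h
    simp only [mem_sigma, Finset.HasAntidiagonal.mem_antidiagonal, mem_product] at h ⊢
    refine ⟨?_, trivial, trivial⟩
    omega
  · rintro ⟨⟨a, b⟩, ⟨c, d⟩, ⟨e, f⟩⟩ h
    simp only [mem_sigma, Finset.HasAntidiagonal.mem_antidiagonal, mem_product] at h ⊢
    refine ⟨?_, trivial, trivial⟩
    omega
  · rintro ⟨⟨a, b⟩, ⟨c, d⟩, ⟨e, f⟩⟩ h
    simp only [mem_sigma, Finset.HasAntidiagonal.mem_antidiagonal, mem_product] at h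
    obtain ⟨h1, h2, h3⟩ := h
    subst h2 h3
    rfl
  · rintro ⟨⟨a, b⟩, ⟨c, d⟩, ⟨e, f⟩⟩ h
    simp only [mem_sigma, Finset.HasAntidiagonal.mem_antidiagonal, mem_product] at h
    obtain ⟨h1, h2, h3⟩ := h
    subst h2 h3
    rfl
  · rintro ⟨⟨a, b⟩, ⟨c, d⟩, ⟨e, f⟩⟩ h
    rfl

/-- deformation over `k[[s]]` of the `k`-algebra `A`, relative to the group `W` -/
structure Dm (k : Type) {A W : Type} [CommRing k] [Ring A] [Algebra k A] [Group W]
    (om : W →* A) where
  m : ℕ → (A →ₗ[k] A →ₗ[k] A)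
  m0 : ∀ x y, m 0 x y = x * y
  ass : ∀ n x y z, ∑ p ∈ antidiagonal n, m p.1 (m p.2 x y) z =
    ∑ p ∈ antidiagonal n, m p.1 x (m p.2 y z)
  wl : ∀ n w x y, m n (om w * x) y = om w * m n x y
  wm : ∀ n w x y, m n (x * om w) y = m n x (om w * y)
  wr : ∀ n w x y, m n x (y * om w) = m n x y * om w
  n1 : ∀ n x, m (n + 1) 1 x = 0
  n2 : ∀ n x, m (n + 1) x 1 = 0

namespace Dm

variable {k A W : Type} [CommRing k] [Ring A] [Algebra k A] [Group W] {om : W →* A}
  (D : Dm k om)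

/-- the product of sequences -/
def mul (f g : ℕ → A) (n : ℕ) : A :=
  ∑ p ∈ antidiagonal n, ∑ q ∈ antidiagonal p.2, D.m p.1 (f q.1) (g q.2)

/-- the left multiplication of a sequence -/
def lft (f : ℕ → A) : PowerSeries (Module.End k A) :=
  PowerSeries.mk fun n => ∑ p ∈ antidiagonal n, D.m p.1 (f p.2)

theorem lft_coeff (f : ℕ → A) (n : ℕ) :
    PowerSeries.coeff n (D.lft f) = ∑ p ∈ antidiagonal n, D.m p.1 (f p.2) := by
  rw [lft, PowerSeries.coeff_mk]

theorem lft_apply (f : ℕ → A) (n : ℕ) (x : A) :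
    (PowerSeries.coeff n (D.lft f)) x = ∑ p ∈ antidiagonal n, D.m p.1 (f p.2) x := by
  rw [lft_coeff, LinearMap.sum_apply]

theorem lft_one (f : ℕ → A) (n : ℕ) : (PowerSeries.coeff n (D.lft f)) 1 = f n := by
  rw [lft_apply, Finset.sum_eq_single (0, n)]
  · rw [D.m0, mul_one]
  · rintro ⟨a, b⟩ h hne
    rcases a with _ | a
    · rw [Finset.HasAntidiagonal.mem_antidiagonal] at h
      simp only [zero_add] at h
      exact absurd (by rw [h]) hne
    · exact D.n2 a _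
  · intro h
    exact absurd (by rw [Finset.HasAntidiagonal.mem_antidiagonal]; simp) h

theorem lft_inj {f g : ℕ → A} (h : D.lft f = D.lft g) : f = g := by
  funext n
  rw [← D.lft_one f n, h, D.lft_one]

theorem lft_add (f g : ℕ → A) : D.lft (f + g) = D.lft f + D.lft g := by
  ext n x
  rw [map_add, LinearMap.add_apply, lft_apply, lft_apply, lft_apply, ← Finset.sum_add_distrib]
  refine Finset.sum_congr rfl fun p _ => ?_
  rw [Pi.add_apply, map_add, LinearMap.add_apply]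

theorem lft_zero : D.lft 0 = 0 := by
  ext n x
  rw [lft_apply, map_zero, LinearMap.zero_apply]
  refine Finset.sum_eq_zero fun p _ => ?_
  rw [Pi.zero_apply, map_zero, LinearMap.zero_apply]

theorem lft_neg (f : ℕ → A) : D.lft (-f) = -D.lft f := by
  have h := D.lft_add f (-f)
  rw [add_neg_cancel, lft_zero] at h
  exact eq_neg_of_add_eq_zero_right h.symm

/-- the sequence of an element of `A` -/
def cst (a : A) (n : ℕ) : A := if n = 0 then a else 0

theorem lft_cst_one : D.lft (cst 1) = 1 := by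
  ext n x
  rw [lft_apply, PowerSeries.coeff_one]
  rcases n with _ | n
  · simp [cst, D.m0]
  · rw [if_neg (Nat.succ_ne_zero n), LinearMap.zero_apply]
    refine Finset.sum_eq_zero fun p hp => ?_
    rw [cst]
    split_ifs with h
    · rw [Finset.HasAntidiagonal.mem_antidiagonal, h, add_zero] at hp
      rw [hp]
      exact D.n1 n x
    · rw [map_zero, LinearMap.zero_apply]

theorem lft_mul (f g : ℕ → A) : D.lft (D.mul f g) = D.lft f * D.lft g := by
  ext n x
  rw [lft_apply, PowerSeries.coeff_mul, LinearMap.sum_apply]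
  have h1 : ∀ p : ℕ × ℕ, ((PowerSeries.coeff p.1) (D.lft f) *
      (PowerSeries.coeff p.2) (D.lft g)) x =
      ∑ q ∈ antidiagonal p.1, ∑ r ∈ antidiagonal p.2,
        D.m q.1 (f q.2) (D.m r.1 (g r.2) x) := by
    intro p
    rw [Module.End.mul_apply, lft_apply, lft_apply]
    refine Finset.sum_congr rfl fun q _ => ?_
    rw [map_sum]
  simp_rw [h1]
  rw [ad_swap n (fun a b c d => D.m a (f b) (D.m c (g d) x))]
  -- right side: ∑_(j,l) ∑_(i,k) m_i (f_j) (m_k g_l x)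
  have h2 : ∀ p : ℕ × ℕ, ∀ q : ℕ × ℕ, ∑ r ∈ antidiagonal p.2,
      D.m r.1 (f q.1) (D.m r.2 (g q.2) x) =
      ∑ r ∈ antidiagonal p.2, D.m r.1 (D.m r.2 (f q.1) (g q.2)) x := by
    intro p q
    exact (D.ass p.2 (f q.1) (g q.2) x).symm
  simp_rw [h2]
  -- left side
  have h3 : ∀ p : ℕ × ℕ, D.m p.1 (D.mul f g p.2) x =
      ∑ q ∈ antidiagonal p.2, ∑ r ∈ antidiagonal q.2,
        D.m p.1 (D.m q.1 (f r.1) (g r.2)) x := by
    intro p
    rw [mul, map_sum, LinearMap.sum_apply]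
    refine Finset.sum_congr rfl fun q _ => ?_
    rw [map_sum, LinearMap.sum_apply]
  simp_rw [h3]
  -- ∑_(p1 + (q1 + (r1 + r2)) = n)
  have key : ∀ S : ℕ → ℕ → ℕ → ℕ → A,
      ∑ p ∈ antidiagonal n, ∑ q ∈ antidiagonal p.2, ∑ r ∈ antidiagonal q.2,
        S p.1 q.1 r.1 r.2 =
      ∑ p ∈ antidiagonal n, ∑ q ∈ antidiagonal p.1, ∑ r ∈ antidiagonal p.2,
        S r.1 r.2 q.1 q.2 := by
    intro S
    have e1 : ∑ p ∈ antidiagonal n, ∑ q ∈ antidiagonal p.2, ∑ r ∈ antidiagonal q.2,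
        S p.1 q.1 r.1 r.2 =
        ∑ x ∈ (antidiagonal n).sigma (fun p => (antidiagonal p.2).sigma
          (fun q => antidiagonal q.2)), S x.1.1 x.2.1.1 x.2.2.1 x.2.2.2 := by
      rw [Finset.sum_sigma]
      refine Finset.sum_congr rfl fun p _ => ?_
      rw [Finset.sum_sigma]
    have e2 : ∑ p ∈ antidiagonal n, ∑ q ∈ antidiagonal p.1, ∑ r ∈ antidiagonal p.2,
        S r.1 r.2 q.1 q.2 =
        ∑ x ∈ (antidiagonal n).sigma (fun p => antidiagonal p.1 ×ˢ antidiagonal p.2),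
          S x.2.2.1 x.2.2.2 x.2.1.1 x.2.1.2 := by
      rw [Finset.sum_sigma]
      refine Finset.sum_congr rfl fun p _ => ?_
      rw [Finset.sum_product]
    rw [e1, e2]
    refine Finset.sum_nbij'
      (i := fun x => ⟨(x.2.2.1 + x.2.2.2, x.1.1 + x.2.1.1),
        ((x.2.2.1, x.2.2.2), (x.1.1, x.2.1.1))⟩)
      (j := fun x => ⟨(x.2.2.1, x.2.2.2 + (x.2.1.1 + x.2.1.2)),
        ⟨(x.2.2.2, x.2.1.1 + x.2.1.2), (x.2.1.1, x.2.1.2)⟩⟩) ?_ ?_ ?_ ?_ ?_
    · rintro ⟨⟨a, b⟩, ⟨c, d⟩, ⟨e, f⟩⟩ h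
      simp only [mem_sigma, Finset.HasAntidiagonal.mem_antidiagonal, mem_product] at h ⊢
      refine ⟨?_, trivial, trivial⟩
      omega
    · rintro ⟨⟨a, b⟩, ⟨c, d⟩, ⟨e, f⟩⟩ h
      simp only [mem_sigma, Finset.HasAntidiagonal.mem_antidiagonal, mem_product] at h ⊢
      refine ⟨?_, trivial, trivial⟩
      omega
    · rintro ⟨⟨a, b⟩, ⟨c, d⟩, ⟨e, f⟩⟩ h
      simp only [mem_sigma, Finset.HasAntidiagonal.mem_antidiagonal] at h
      obtain ⟨h1, h2, h3⟩ := h
      subst h3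
      subst h2
      rfl
    · rintro ⟨⟨a, b⟩, ⟨c, d⟩, ⟨e, f⟩⟩ h
      simp only [mem_sigma, Finset.HasAntidiagonal.mem_antidiagonal, mem_product] at h
      obtain ⟨h1, h2, h3⟩ := h
      subst h2 h3
      rfl
    · rintro ⟨⟨a, b⟩, ⟨c, d⟩, ⟨e, f⟩⟩ h
      rfl
  exact key (fun a b c d => D.m a (D.m b (f c) (g d)) x)

/-- the action of a power series on a sequence -/
def smulq (c : PowerSeries k) (f : ℕ → A) (n : ℕ) : A :=
  ∑ p ∈ antidiagonal n, PowerSeries.coeff p.1 c • f p.2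

/-- power series with coefficients in `k` as power series with coefficients in `End A` -/
def scl (k A : Type) [CommRing k] [Ring A] [Algebra k A] :
    PowerSeries k →+* PowerSeries (Module.End k A) :=
  PowerSeries.map (algebraMap k (Module.End k A))

theorem scl_comm (c : PowerSeries k) (x : PowerSeries (Module.End k A)) :
    scl k A c * x = x * scl k A c := by
  ext n y
  rw [PowerSeries.coeff_mul, PowerSeries.coeff_mul]
  rw [← Finset.Nat.sum_antidiagonal_swap (f := fun p : ℕ × ℕ =>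
    (PowerSeries.coeff p.1) x * (PowerSeries.coeff p.2) ((scl k A) c))]
  rw [LinearMap.sum_apply, LinearMap.sum_apply]
  refine Finset.sum_congr rfl fun p _ => ?_
  simp only [Prod.fst_swap, Prod.snd_swap]
  rw [scl, PowerSeries.coeff_map, Module.End.mul_apply, Module.End.mul_apply,
    Module.algebraMap_end_apply, Module.algebraMap_end_apply, map_smul]

theorem lft_smul (c : PowerSeries k) (f : ℕ → A) : D.lft (smulq c f) = scl k A c * D.lft f := by
  ext n x
  rw [lft_apply, PowerSeries.coeff_mul, LinearMap.sum_apply]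
  have h1 : ∀ p : ℕ × ℕ, ((PowerSeries.coeff p.1) (scl k A c) *
      (PowerSeries.coeff p.2) (D.lft f)) x =
      ∑ q ∈ antidiagonal p.2, PowerSeries.coeff p.1 c • D.m q.1 (f q.2) x := by
    intro p
    rw [Module.End.mul_apply, lft_apply, scl, PowerSeries.coeff_map,
      Module.algebraMap_end_apply, Finset.smul_sum]
  have h2 : ∀ p : ℕ × ℕ, D.m p.1 (smulq c f p.2) x =
      ∑ q ∈ antidiagonal p.2, PowerSeries.coeff q.1 c • D.m p.1 (f q.2) x := by
    intro p
    rw [smulq, map_sum, LinearMap.sum_apply]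
    refine Finset.sum_congr rfl fun q _ => ?_
    rw [map_smul, LinearMap.smul_apply]
  simp_rw [h1, h2]
  have e : ∀ S : ℕ → ℕ → ℕ → A, ∑ p ∈ antidiagonal n, ∑ q ∈ antidiagonal p.2,
      S p.1 q.1 q.2 = ∑ x ∈ (antidiagonal n).sigma (fun p => antidiagonal p.2),
        S x.1.1 x.2.1 x.2.2 := by
    intro S
    rw [Finset.sum_sigma]
  rw [e (fun a b c' => PowerSeries.coeff b c • D.m a (f c') x),
    e (fun a b c' => PowerSeries.coeff a c • D.m b (f c') x)]
  refine Finset.sum_nbij'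
    (i := fun x => ⟨(x.2.1, x.1.1 + x.2.2), (x.1.1, x.2.2)⟩)
    (j := fun x => ⟨(x.2.1, x.1.1 + x.2.2), (x.1.1, x.2.2)⟩) ?_ ?_ ?_ ?_ ?_
  · rintro ⟨⟨a, b⟩, ⟨c, d⟩⟩ h
    simp only [mem_sigma, Finset.HasAntidiagonal.mem_antidiagonal] at h ⊢
    refine ⟨?_, trivial⟩
    omega
  · rintro ⟨⟨a, b⟩, ⟨c, d⟩⟩ h
    simp only [mem_sigma, Finset.HasAntidiagonal.mem_antidiagonal] at h ⊢
    refine ⟨?_, trivial⟩
    omega
  · rintro ⟨⟨a, b⟩, ⟨c, d⟩⟩ h
    simp only [mem_sigma, Finset.HasAntidiagonal.mem_antidiagonal] at h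
    obtain ⟨h1, h2⟩ := h
    subst h2
    rfl
  · rintro ⟨⟨a, b⟩, ⟨c, d⟩⟩ h
    simp only [mem_sigma, Finset.HasAntidiagonal.mem_antidiagonal] at h
    obtain ⟨h1, h2⟩ := h
    subst h2
    rfl
  · rintro ⟨⟨a, b⟩, ⟨c, d⟩⟩ h
    rfl

/-- the ring of the deformation, as a subring -/
def S : Subring (PowerSeries (Module.End k A)) where
  carrier := {x | ∃ f : ℕ → A, x = D.lft f}
  mul_mem' := by
    rintro _ _ ⟨f, rfl⟩ ⟨g, rfl⟩
    exact ⟨D.mul f g, (D.lft_mul f g).symm⟩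
  one_mem' := ⟨cst 1, D.lft_cst_one.symm⟩
  add_mem' := by
    rintro _ _ ⟨f, rfl⟩ ⟨g, rfl⟩
    exact ⟨f + g, (D.lft_add f g).symm⟩
  zero_mem' := ⟨0, D.lft_zero.symm⟩
  neg_mem' := by
    rintro _ ⟨f, rfl⟩
    exact ⟨-f, (D.lft_neg f).symm⟩

/-- the ring of the deformation -/
def R : Type := D.S

instance : Ring D.R := inferInstanceAs (Ring D.S)

/-- the element given by a sequence -/
def of (f : ℕ → A) : D.R := ⟨D.lft f, f, rfl⟩

/-- the sequence of an element -/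
def sq (x : D.R) : ℕ → A := x.2.choose

theorem of_sq (x : D.R) : D.of (D.sq x) = x := Subtype.ext x.2.choose_spec.symm

theorem sq_of (f : ℕ → A) : D.sq (D.of f) = f :=
  D.lft_inj (congrArg Subtype.val (D.of_sq (D.of f)))

theorem of_add (f g : ℕ → A) : D.of (f + g) = D.of f + D.of g := Subtype.ext (D.lft_add f g)

theorem of_neg (f : ℕ → A) : D.of (-f) = -D.of f := Subtype.ext (D.lft_neg f)

theorem of_zero : D.of 0 = 0 := Subtype.ext D.lft_zero

theorem of_one : D.of (cst 1) = 1 := Subtype.ext D.lft_cst_one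

theorem of_mul (f g : ℕ → A) : D.of (D.mul f g) = D.of f * D.of g := Subtype.ext (D.lft_mul f g)

theorem scl_mem (c : PowerSeries k) : scl k A c ∈ D.S := by
  refine ⟨smulq c (cst 1), ?_⟩
  rw [D.lft_smul, D.lft_cst_one, mul_one]

/-- the ring is an algebra over the power series ring -/
instance : Algebra (PowerSeries k) D.R :=
  RingHom.toAlgebra' ((scl k A).codRestrict D.S D.scl_mem) fun c x =>
    Subtype.ext (scl_comm c x.1)

theorem of_smul (c : PowerSeries k) (f : ℕ → A) : D.of (smulq c f) = c • D.of f := by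
  rw [Algebra.smul_def]
  exact Subtype.ext (D.lft_smul c f)

end Dm

end Pool.Agent.PSS
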