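import Pool.Agent.PSS.DefsS
import Pool.Agent.PSS.Dm
import Pool.Agent.PFD.DefsD2

/-!
# Squad PSS, block S1 (helper36): definitions

`Vz φ W z`: `V = ⟨z⟩ × W`, `W` stable.  `StE φ Ω`: stabilisers are twisted diagonals (weak form).
`Csm k α u v`: relative Casimir families over `V`.  `rt x y a = ∑ x k * a * y k`.
`KC`: an `R`-order `A` in the `K`-algebra `B`, with frame and dual families.
`WBl`, `WB2`, `Nrm`, `dl`, `d1`: relative normalised cochains with values in `B`.
`Trv β W P m`: the trivialisation `P = 1 + s P_1 + ..` over `K`, `P x · P y = P (x * y)`,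
`x * y = ∑ s^n m n x y`.
`Dm.w`: the group `W` in the ring of the deformation.
-/

open scoped BigOperators TensorProduct

noncomputable section

namespace Pool.Agent.PSS

open Pool.Agent.PFD.D2 (Cdv FibG)
open Pool.Agent.PFD.D2b (FrR)
open Finset

/-- `V = ⟨z⟩ × W`, `W` is `E`-stable. -/
structure Vz {V E : Type} [CommGroup V] [Group E] (φ : E →* MulAut V) (W : Subgroup V) (z : V) :
    Prop where
  gen : ∀ v : V, ∃ j : ℕ, ∃ w ∈ W, v = z ^ j * w
  dis : ∀ j : ℕ, z ^ j ∈ W → z ^ j = 1
  stb : ∀ e : E, ∀ w ∈ W, φ e w ∈ W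

/-- the elements of the stabilisers are twisted diagonal -/
def StE {V E : Type} [CommGroup V] [Group E] (φ : E →* MulAut V) (Ω : Type)
    [MulAction (V × V) Ω] : Prop :=
  ∀ (ω : Ω) (u v : V), ((u, v) : V × V) • ω = ω → ∃ e : E, u = φ e v

section csm

variable (k : Type) {V A K : Type} [CommRing k] [Group V] [Ring A] [Algebra k A] [Fintype K]

/-- relative Casimir families over `V` -/
def Csm (α : V →* A) (u v : K → A) : Prop :=
  ∑ i, u i * v i = 1 ∧
  ∀ (X : Type) [AddCommGroup X] [Module k X] (f : A →ₗ[k] A →ₗ[k] X),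
    (∀ a g b, f (a * α g) b = f a (α g * b)) → ∀ a, ∑ i, f (a * u i) (v i) = ∑ i, f (u i) (v i * a)

/-- the relative trace -/
def rt {A K : Type} [Ring A] [Fintype K] (x y : K → A) (a : A) : A := ∑ i, x i * a * y i

end csm

/-! ## Orders -/

/-- the group in `B` -/
def ia {R V A B : Type} [CommRing R] [Group V] [Ring A] [Algebra R A] [Ring B] [Algebra R B]
    (i : A →ₐ[R] B) (α : V →* A) : V →* B := (i : A →* B).comp α

@[simp] theorem ia_apply {R V A B : Type} [CommRing R] [Group V] [Ring A] [Algebra R A] [Ring B]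
    [Algebra R B] (i : A →ₐ[R] B) (α : V →* A) (v : V) : ia i α v = i (α v) := rfl

/-- `A` is an `R`-order in the `K`-algebra `B`, compatible frames and dual families -/
structure KC (R K B : Type) {V A κ Ω : Type} [CommRing R] [Field K] [Algebra R K] [CommGroup V]
    [Fintype V] [Ring A] [Algebra R A] [Ring B] [Algebra R B] [Algebra K B] [Fintype κ] [Fintype Ω]
    [MulAction (V × V) Ω] (α : V →* A) (lam : A →ₗ[R] R) (x y : κ → A) (b : Ω → A)
    (c : Ω → (A →ₗ[R] R)) where
  i : A →ₐ[R] B
  inj : Function.Injective i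
  tow : ∀ (r : R) (a : B), algebraMap R K r • a = r • a
  rinj : Function.Injective (algebraMap R K)
  rf : RF R α lam x y
  fr : FrR (bw R α) b c
  lamK : B →ₗ[K] K
  lk : ∀ a, lamK (i a) = algebraMap R K (lam a)
  rfK : RF K (ia i α) lamK (fun t => i (x t)) (fun t => i (y t))
  cK : Ω → (B →ₗ[K] K)
  ck : ∀ ω a, cK ω (i a) = algebraMap R K (c ω a)
  frK : FrR (bw K (ia i α)) (fun ω => i (b ω)) cK

section coch

variable {V A B : Type} [CommGroup V] [Ring A] [Ring B]

/-- the element `x` of `B` is in the image of `i` -/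
def In (i : A → B) (x : B) : Prop := ∃ a, i a = x

/-- `W`-`W`-linear -/
def WBl (β : V →* B) (W : Subgroup V) (g : B → B) : Prop :=
  ∀ w ∈ W, ∀ x, g (β w * x) = β w * g x ∧ g (x * β w) = g x * β w

/-- relative 2-cochain -/
def WB2 (β : V →* B) (W : Subgroup V) (c : B → B → B) : Prop :=
  ∀ w ∈ W, ∀ x y, c (β w * x) y = β w * c x y ∧ c (x * β w) y = c x (β w * y) ∧
    c x (y * β w) = c x y * β w

/-- normalised 2-cochain -/
def Nrm (c : B → B → B) : Prop := (∀ x, c 1 x = 0) ∧ ∀ x, c x 1 = 0

/-- the coboundary of a 2-cochain -/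
def dl (c : B → B → B) (x y z : B) : B := x * c y z - c (x * y) z + c x (y * z) - c x y * z

/-- the coboundary of a 1-cochain -/
def d1 (g : B → B) (x y : B) : B := x * g y - g (x * y) + g x * y

end coch

/-- the trivialisation `P` over `K` of the deformation `m` -/
structure Trv {K V B : Type} [Field K] [CommGroup V] [Ring B] [Algebra K B] (β : V →* B)
    (W : Subgroup V) (P : ℕ → (B →ₗ[K] B)) (m : ℕ → (B →ₗ[K] B →ₗ[K] B)) : Prop where
  p0 : P 0 = LinearMap.id
  pw : ∀ n, WBl β W (P n)
  p1 : ∀ n, P (n + 1) 1 = 0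
  pm : ∀ n x y, ∑ p ∈ antidiagonal n, P p.1 x * P p.2 y =
    ∑ p ∈ antidiagonal n, P p.1 (m p.2 x y)

/-- the restriction of the structure map to `W` -/
def aw {V A : Type} [CommGroup V] [Ring A] (α : V →* A) (W : Subgroup V) : W →* A :=
  α.comp W.subtype

namespace Dm

variable {k A W : Type} [CommRing k] [Ring A] [Algebra k A] [Group W] {om : W →* A}
  (D : Dm k om)

theorem m_om_left (n : ℕ) (w : W) (x : A) : D.m (n + 1) (om w) x = 0 := by
  have h := D.wl (n + 1) w 1 x
  rw [mul_one, D.n1, mul_zero] at h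
  exact h

theorem m_om_right (n : ℕ) (w : W) (x : A) : D.m (n + 1) x (om w) = 0 := by
  have h := D.wr (n + 1) w x 1
  rw [one_mul, D.n2, zero_mul] at h
  exact h

theorem mul_cst_left (w : W) (f : ℕ → A) : D.mul (cst (om w)) f = fun n => om w * f n := by
  funext n
  rw [mul, Finset.sum_eq_single (0, n)]
  · rw [Finset.sum_eq_single (0, n)]
    · simp only [cst, if_true, D.m0]
    · rintro ⟨a, b⟩ h hne
      rcases a with _ | a
      · rw [Finset.HasAntidiagonal.mem_antidiagonal] at h
        simp only [zero_add] at h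
        exact absurd (by rw [h]) hne
      · simp [cst]
    · intro h
      exact absurd (by rw [Finset.HasAntidiagonal.mem_antidiagonal]; simp) h
  · rintro ⟨a, b⟩ h hne
    rcases a with _ | a
    · rw [Finset.HasAntidiagonal.mem_antidiagonal] at h
      simp only [zero_add] at h
      exact absurd (by rw [h]) hne
    · refine Finset.sum_eq_zero fun q _ => ?_
      rw [cst]
      split_ifs
      · exact D.m_om_left a w _
      · rw [map_zero, LinearMap.zero_apply]
  · intro h
    exact absurd (by rw [Finset.HasAntidiagonal.mem_antidiagonal]; simp) h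

/-- the group `W` in the ring of the deformation -/
def w : W →* D.R where
  toFun := fun g => D.of (cst (om g))
  map_one' := by rw [map_one, D.of_one]
  map_mul' := fun g h => by
    rw [← D.of_mul, D.mul_cst_left]
    congr 1
    funext n
    rw [cst, cst]
    split_ifs
    · rw [map_mul]
    · rw [mul_zero]

theorem w_mul_of (g : W) (f : ℕ → A) : D.w g * D.of f = D.of (fun n => om g * f n) := by
  show D.of (cst (om g)) * D.of f = _
  rw [← D.of_mul, D.mul_cst_left]

end Dm

end Pool.Agent.PSS
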