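import Pool.Agent.PSS.Atg
import Pool.Agent.PSS.StmtsS5
import Pool.Agent.PFE.StmtsE2c

/-!
# Squad PSS: theorem (R) as a base case (helper79)

`V = W × U`, both factors `E`-stable, `|W| = ℓ`, `U ≠ 1`, and an element of `E` which is trivial on `W` and
fixes some `u ≠ 1` in `U` is trivial on `V` (`Rtp`).  Goal BSR: `dim Z(A) = dim Z(N_W(A))` for `A` in the
class `Cl`.

Plan: RDL reduces to local algebras `Y` in `Lc`, `Y' = N_W(Y)` is in `Lc` (LNW).  The formula of `PFE.RinStmt`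
(`dim Z(Y) = dim Z(S) + ((ℓ-1)/|C|) dim Z(S0)`) holds for `Y` and for `Y'` (LRN), and `Y`, `Y'` have the same
graded algebras `S`, `S0` (SNW).

Complete proofs in the docstrings.  We write `v` for `α v` (`v ∈ V1` for `α (i v)`).
-/

open scoped BigOperators

noncomputable section

namespace Pool.Agent.PSS.BR

open Pool.Agent.PFC (Cz Lcq)
open Pool.Agent.PFE (SG Nt It Tr tj Ctn)
open Pool.Agent.PSS.S5

/-- The property of theorem (R). -/
def Rtp : PrV := fun V E _ _ φ W => (Nat.card W).Prime ∧ ∃ U : Subgroup V, IsCompl W U ∧ U ≠ ⊥ ∧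
  (∀ e : E, ∀ w ∈ W, φ e w ∈ W) ∧ (∀ e : E, ∀ u ∈ U, φ e u ∈ U) ∧
  ∀ e : E, (∀ w ∈ W, φ e w = w) → ∀ u ∈ U, u ≠ 1 → φ e u = u → φ e = 1

/-- RTV: the property is invariant under isomorphisms.

Proof.  `U ↦ U.comap s`; `W.comap s` is isomorphic to `W` (`trs`).  `φ e (s u) = s (ψ e u)`. -/
def RtvStmt : Prop := Rtp.Inv

/-- SGX: the graded algebra `S(A)` exists.

Proof.  As `nwe` (`PSS/Nwe.lean`: `gsub`, `gidl`, `gsg`), with `MonoidAlgebra A C` instead of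
`MonoidAlgebra A (MulAut W)`: the subalgebra of the `f` with `f.coeff c ∈ N_c` (`N_c = Nt F α i (θ c)`) and its
two-sided ideal of the `f` with `f.coeff c ∈ I_c` (`I_c = It F α i (θ c)`).  `TwlStmt` (proved: see the row TWL of
`PFE/StmtsS.lean`): `N_c N_d ≤ N_(cd)` (`C` is commutative), `a Tr m = Tr (a m)`, `Tr m b = Tr (m b)`; for
`a ∈ N_c`, `b ∈ N_d`: `a (v b - b) = (v' (a b) - a b)`, `v' = θ_c⁻¹ v` (`a v = v' a`), `(v b - b) a = v (b a) - b a`.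
`q c` = a linear extension (`LinearMap.exists_extend`) of `N_c → S`, `a ↦` the class of `single c a`. -/
def SgxStmt : Prop := ∀ (F V V1 C A : Type) [Field F] [CommGroup V] [CommGroup V1] [Fintype V1]
  [CommGroup C] [Fintype C] [Ring A] [Algebra F A] (α : V →* A) (i : V1 →* V)
  (θ : C →* MulAut V1),
  ∃ (S : Type) (_ : Ring S) (_ : Algebra F S) (q : C → (A →ₗ[F] S)), SG F α i θ q

/-- SNL: elements fixed by `V1` are traces.

Proof.  `e2`: `b = ∑_k ∑_v lam (b (x_k v)) • (v⁻¹ y_k)`.  For `u ∈ V1`: `lam (b x_k (u v)) = lam (u v b x_k) =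
lam (v (u b) x_k) = lam (b x_k v)` (`sym`; `V` is commutative, write `i u` for `u`).  Let `T` be a transversal of
`i.range` in `V`; `V1 × T → V`, `(u, t) ↦ (i u)⁻¹ t` is a bijection, so `b = ∑_(u ∈ V1) u b'` with
`b' = ∑_k ∑_(t ∈ T) lam (b (x_k t)) • (t⁻¹ y_k)`. -/
def SnlStmt : Prop := ∀ (F V V1 B K : Type) [Field F] [CommGroup V] [Fintype V] [CommGroup V1]
  [Fintype V1] [Ring B] [Algebra F B] [Fintype K] (α : V →* B) (i : V1 →* V)
  (lam : B →ₗ[F] F) (x y : K → B), Function.Injective i → RF F α lam x y →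
  ∀ b : B, (∀ v, α (i v) * b = b) → ∃ b' : B, b = ∑ v, α (i v) * b'

/-- SNW: `S(N_W(A)) = S(A)`, `W = i(V1)`.

Proof.  For `c ∈ C` let `ε_c` be the automorphism of `W` with `ε_c (i v) = i (θ_c⁻¹ v)`.  `FxR (bw F α) (twW W ε_c)` =
`N_c(A)` (`mem_tw`), `ε_(cd) = ε_c ε_d`, `ε_1 = 1`.  `BKR (bw F α) (twW W ε_c)` = the set of the `Tr F α i (θ c) m` (a proper
subgroup of a group of prime order is `⊥`; compare `PttStmt`, row PTT of `PFE/StmtsS.lean`, proved), so it is in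
`It F α i (θ c)`.
`B = ⊕ D_ε`, `D_ε` = the `β ε a`, `a ∈ FxR (bw F α) (twW W ε)` (`ind`, `spn`; `MulAut W` is finite), `D_ε D_δ ≤ D_(εδ)`,
`nwh v D_ε ≤ D_ε`, and `b (nwh w) = nwh (ε w) b` for `b ∈ D_ε`, `w ∈ W`.
(1) Let `b ∈ N_c(B)`, `ε ≠ ε_c`.  The component `b_ε` of `b` satisfies `v b_ε = b_ε θ_c(v) = ε(θ_c v) b_ε`; the
homomorphism `h : v ↦ v⁻¹ ε(θ_c v)` of `V1` is not trivial, so it is bijective (`|V1| = ℓ`), and `h(v) b_ε = b_ε` gives
`v b_ε = b_ε` for all `v ∈ V1`.  SNL: `b_ε = ∑_v v b'`, and we may take `b' ∈ D_ε` (its component).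
`∑_v v b' θ_c(v)⁻¹ = ∑_v v ε(θ_c v)⁻¹ b' = ∑_v h(v)⁻¹ b' = ∑_v v b'`: so `b_ε` is in `It F nwh i (θ c)`.
(2) The component in `D_(ε_c)` of a trace `∑_v v b θ_c(v)⁻¹` is `∑_v v ε_c(θ_c(v))⁻¹ b_(ε_c) = ℓ b_(ε_c) = 0`; the component of
`v b - b` is `v b_(ε_c) - b_(ε_c)`.
(3) `q' c b = q c a` if `b_(ε_c) = β ε_c a`, `a ∈ N_c(A)`: well defined, because `q c` kills `Tr` (`SG.ker` for a family
supported at `c`), linear.  (To construct it: the graph; or a linear section `B → FxR (bw F α) (twW W ε_c)` of the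
projection to `D_(ε_c)`.)
`sur`: `q' c (β ε_c a) = q c a`.  `ker`: `∑_c q' c (b_c) = ∑_c q c (a_c) = 0` iff all `a_c ∈ I_c(A)`.  If `a_c ∈ I_c(A)`
then `β ε_c a_c ∈ I_c(B)` (a trace goes to `0`, `v a - a` to `v β a - β a`), and the other components of `b_c` are
in `I_c(B)` by (1).  If `b_c ∈ I_c(B)` then by (2) `β ε_c a_c = ∑ (v_j - 1) β ε_c (m_j)` with `m_j ∈ N_c(A)` (`m_j` from the
component of an element of `N_c(B)`), so `a_c - ∑ (v_j m_j - m_j)` is in `BKR`, and `a_c ∈ I_c(A)`.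
`mul`: for `b ∈ N_c(B)`, `b' ∈ N_d(B)` the component of `b b'` in `ε_(cd)` is the sum of the `b_ε b'_δ`, `εδ = ε_(cd)`; for
`ε ≠ ε_c`: `b_ε b'_δ = ∑_v v z`, `z ∈ D_(ε_(cd))`, and `q'` of it is `∑_v q'(v z) = ℓ q'(z) = 0` (`q c` kills `v a - a`);
the term `b_(ε_c) b'_(ε_d) = β (a a')` gives `q (c d) (a a') = q c a * q d a'`.  `one`: `1 = β 1 1`. -/
def SnwStmt : Prop := ∀ (ℓ : ℕ) [Fact ℓ.Prime] (F V V1 C A S B K : Type) [Field F] [CharP F ℓ]
  [CommGroup V] [Fintype V] [CommGroup V1] [Fintype V1] [CommGroup C] [Fintype C] [Ring A]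
  [Algebra F A] [Ring S] [Algebra F S] [Ring B] [Algebra F B] [Fintype K] (α : V →* A)
  (i : V1 →* V) (θ : C →* MulAut V1) (q : C → (A →ₗ[F] S)) (N : IsNW F α i.range B)
  (lam : B →ₗ[F] F) (x y : K → B), Nat.card V1 = ℓ → Function.Injective i →
  RF F N.nwh lam x y → SG F α i θ q →
  ∃ q' : C → (B →ₗ[F] S), SG F N.nwh i θ q'

/-- RCT: the groups.

Proof.  `U` from `Rtp`; `E'` is stable on `W`, `U`; an element `a = φ e` of `E'` which is trivial on `W` and fixes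
some `u ≠ 1` in `U` is `1`.  `|W|` is a prime which divides a power of `ℓ`, so it is `ℓ`.  `Ctn`: `cop`: `|E'|`
divides `|φ.range|`, which divides `|E|`.  `top`: `W ≠ ⊤` (`U ≠ ⊥`), `U ≠ ⊤`.  `up`, `st` clear (`Q.map a ≤ W` iff
`Q ≤ W`).  `cf`: `a` fixes `Q` pointwise, `Q` is not in `W` and not in `U`.  An element `x = w u ∈ Q` (`w ∈ W`, `u ∈ U`)
gives `a w = w`, `a u = u`.  There is `x ∈ Q` with `w ≠ 1` (`Q` not in `U`): `w` generates `W` (prime order), so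
`a` is trivial on `W`; there is `x' ∈ Q` with `u' ≠ 1` (`Q` not in `W`), so `a = 1`.
`C` = the image of the restriction `E' → MulAut W` (a subgroup of `MulAut W`).  `W` is cyclic of order `ℓ`, `MulAut W` is
isomorphic to the group of units of `ZMod ℓ` (`IsCyclic.mulAutMulEquiv` or so), a cyclic group, so `C` is cyclic
(`Subgroup.isCyclic`), commutative (`IsCyclic.commGroup`).  `θ` = the inclusion. -/
def RctStmt : Prop := ∀ (ℓ : ℕ) [Fact ℓ.Prime] (V E : Type) [CommGroup V] [Finite V] [Group E]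
  [Finite E] (φ : E →* MulAut V) (W : Subgroup V) (E' : Subgroup (MulAut V)), IsPGroup ℓ V →
  ¬ ℓ ∣ Nat.card E → Rtp V E φ W → E' ≤ φ.range →
  Nat.card W = ℓ ∧ ∃ U : Subgroup V, W ⊓ U = ⊥ ∧ W ⊔ U = ⊤ ∧
    (∀ e : E', ∀ u ∈ U, E'.subtype e u ∈ U) ∧
    Ctn ℓ E'.subtype (fun Q => ¬ Q ≤ W ∧ ¬ Q ≤ U) ∧
    ∃ (C : Type) (_ : CommGroup C) (_ : Fintype C) (_ : IsCyclic C) (θ : C →* MulAut W),
      (∀ c, θ c = 1 → c = 1) ∧ (∀ c, ∃ e : E', ∀ v : W, E'.subtype e (v : V) = (θ c v : V)) ∧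
      ∀ e : E', ∃ c, ∀ v : W, E'.subtype e (v : V) = (θ c v : V)

/-- LRN: the dimension formula for the algebras in `Lc` (assembly).

Proof.  `PInN F E'.subtype NN α`, `NN Q = ¬ Q ≤ W ∧ ¬ Q ≤ U`, by LCP; the local conditions by LKC (`Ctn.cf`).
`PFE.RinStmt` with `i = W.subtype` (its `W` is `U`). -/
def LrnStmt : Prop := ∀ (ℓ : ℕ) [Fact ℓ.Prime] (F V C A S S0 : Type) [Field F] [IsAlgClosed F]
  [CharP F ℓ] [CommGroup V] [Fintype V] [CommGroup C] [Fintype C] [IsCyclic C] [Ring A]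
  [Algebra F A] [Ring S] [Algebra F S] [Ring S0] [Algebra F S0] (E' : Subgroup (MulAut V))
  (α : V →* A) (W U : Subgroup V) [Fintype W] (θ : C →* MulAut W) (q : C → (A →ₗ[F] S))
  (q0 : Unit → (A →ₗ[F] S0)), Nat.card W = ℓ → W ⊓ U = ⊥ → W ⊔ U = ⊤ →
  (∀ e : E', ∀ u ∈ U, E'.subtype e u ∈ U) → Ctn ℓ E'.subtype (fun Q => ¬ Q ≤ W ∧ ¬ Q ≤ U) →
  (∀ c, θ c = 1 → c = 1) → (∀ c, ∃ e : E', ∀ v : W, E'.subtype e (v : V) = (θ c v : V)) →
  (∀ e : E', ∃ c, ∀ v : W, E'.subtype e (v : V) = (θ c v : V)) → Lc F E'.subtype α →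
  SG F α W.subtype θ q → SG F α W.subtype (1 : Unit →* MulAut W) q0 →
  Module.finrank F (Subalgebra.center F A) = Module.finrank F (Subalgebra.center F S) +
    (ℓ - 1) / Fintype.card C * Module.finrank F (Subalgebra.center F S0)

/-- BSR: the base case (assembly).

Proof.  RDL (`W` is `E`-stable).  For `E'`, `Y`, `Y'`, `αY`, `N : IsNW F αY W Y'`: RCT; SGX for `Y` (`i = W.subtype`,
`θ` and `1 : Unit →* MulAut W`): `S`, `q`, `S0`, `q0`.  LNW: `Y'` with `N.nwh` is in `Lc`, `Lc.frm` gives a relative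
Frobenius system; SNW twice (rewrite `W` as `W.subtype.range`: generalise `W` or use
`Subgroup.range_subtype`): the models `q'`, `q0'` of `Y'`.  LRN for `Y` and for `Y'`. -/
def BsrStmt : Prop := BsgStmt Rtp

end Pool.Agent.PSS.BR
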