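import Pool.Agent.PSS.DefsG

/-!
# Squad PSS, group level (block S7): from STO to Alperin's weight conjecture

Setting: `Ld ℓ e V γ` (`e` a block of `G` with the abelian defect group `V`, `γ` a block of `C(V)` under
`e`), `T = Tg V γ`, `E = Ei V γ ≤ Aut V` the inertial quotient, `K` an admissible class (`Adm ℓ K`) which
satisfies STO (`PSS/DefsG.lean`).

1. The inertial quotient in subgroups, conjugates, quotients: QRX, QRJ, QRQ, TWN.
2. The correspondent in `N(W)`: EXC; Fong - Reynolds: FRT, LTX, IZX.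
3. LEN: `ln e = ln (br_V e | N(V))`, induction on `|G|` (QLN: the quotient step).
4. MNN: the alternating sums.
5. ADS: the class (A) + (S) is admissible.  CLN: clean hypotheses.  FNS: the final theorem.

Complete proofs in the docstrings; a row may take the rows which it uses as hypotheses.
-/

open scoped BigOperators

noncomputable section

namespace Pool.Agent.PSS

open Pool.Agent.Helper51_AWC Pool.Agent.Helper79_WRA Pool.Agent.PP Pool.Agent.PP.KF
open Pool.Agent.PP.K9 Pool.Agent.PP.K9.H97 Pool.Agent.PP.H75 Pool.Agent.PP.T3 Pool.Agent.PP.T2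
open Pool.Agent.PP.TB (Zd Star iz cz)
open Pool.Agent.PFD (Ei)

attribute [local instance] Ideal.Quotient.field

/-! ## 1. The inertial quotient in subgroups, conjugates, quotients -/

/-- QRX: the inertial quotient in a subgroup `X ≥ C(V)`.

Proof.  `V ≤ C(V) ≤ X` (`Ld.ab`).  `T3.H85.Tg_eq` (`Helper85_AT3/LSB.lean`; `γ` is supported on `C(V)`:
`Ld.gam`): `Tg (V.subgroupOf X) (γ|X) = (Tg V γ ⊓ X).subgroupOf X`.  `π` is the inverse of
`Subgroup.subgroupOfEquivOfLe`.  An automorphism of `V.subgroupOf X` induced by `t ∈ Tg V γ ⊓ X` comes from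
the automorphism of `V` induced by `t`.  (Compare `PFD.EixStmt`, `Helper6_PFD/EIX.lean`.) -/
def QrxStmt : Prop := ∀ (ℓ : ℕ) (F : Type) [Field F] (G : Type) [Group G] [Finite G] (e : G → F)
  (V : Subgroup G) (γ : G → F), Ld ℓ e V γ → ∀ X : Subgroup G,
  Subgroup.centralizer (V : Set G) ≤ X →
  ∃ π : V ≃* V.subgroupOf X, (∀ v : V, (((π v : V.subgroupOf X) : X) : G) = v) ∧
    Qr (Ei V γ) (Ei (V.subgroupOf X) (fun t : X => γ t)) π.toMonoidHom

/-- QRJ: the inertial quotient of a conjugate.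

Proof.  `Tg (conjS g V) (cj g γ) = conjS g (Tg V γ)` (see `Helper41_PFD/SPJ.lean`).  `π = conjSEquiv g V`
(`Helper51_AWC/Basic.lean`).  The automorphism of `conjS g V` induced by `g t g⁻¹` comes from the automorphism
of `V` induced by `t`. -/
def QrjStmt : Prop := ∀ (F : Type) (G : Type) [Group G] (V : Subgroup G) (γ : G → F) (g : G),
  ∃ π : V ≃* conjS g V, (∀ v : V, ((π v : conjS g V) : G) = g * v * g⁻¹) ∧
    Qr (Ei V γ) (Ei (conjS g V) (cj g γ)) π.toMonoidHom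

/-- QRQ: the inertial quotient of the blocks of `G / W`, `W ≤ V` normal in `G`.

Proof.  `N(W) = ⊤`; let `i : N(W) ≃* G` (`Subgroup.topEquiv` after rewriting, or the subtype map, which is
bijective) and `p' = p ∘ i : N(W) → A`, `p'.ker = W.subgroupOf N(W)`.  `push p' (br_W e|N(W)) = push p e`: by
`K9.LbrStmt`-like facts only `lnum` is known, so argue as follows: `e = br_W e` as `e` is supported on
`C(W)`: a block idempotent of a group with the normal `ℓ`-subgroup `W` vanishes outside `C(W)`.  (Use what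
exists: `T3.Qt1Stmt` and `T8.Qt3Stmt` are formulated with `push p' (br_W e|N(W))`; all we need is
`push p' (br_W e|N(W)) f = f`.  For this it is enough that the two central idempotents
`push p' (br_W e|N(W))` and `push p e` of `F A` act in the same way on all irreducible representations
`τ` of `A`: `ev τ (push p a) = ev (τ p) a`, and `NlsStmt` says `ev ρ (br_W e) = ev ρ e` for the irreducible
`ρ = τ p` of `G`, on which the normal `ℓ`-subgroup `W` acts trivially; then they are equal by `IbnStmt` as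
in the proof of `PFD.RqaStmt`, `Helper39_PFD/Rqa.lean`.)  `T3.Qt1Stmt` for `Q = W`: `k` with `W ≤ conjS k V`
and `Tp ℓ f` for the image of `conjS k V`, which is `conjS (p k)` of `V.map p`; so `Tp ℓ f (V.map p)` (`Tp` is
invariant under conjugation, as `f` is central).  `T8.Qt3Stmt`: `γ'` with `Ld ℓ f (V.map p) γ'` and `Fe`: `n ∈
N(V)` such that for every `t' ∈ Tg (V.map p) γ'` there is `t ∈ Tg V γ` with `p (n t v t⁻¹ n⁻¹) = t' p(n v n⁻¹) t'⁻¹`
for `v ∈ V`.  `π v = p (n v n⁻¹)`; its kernel is `V ⊓ n⁻¹ W n = W`. -/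
def QrqStmt : Prop := ∀ (ℓ : ℕ) [Fact ℓ.Prime] (M : Ideal (integralClosure ℤ ℂ)) [M.IsMaximal],
  (ℓ : integralClosure ℤ ℂ) ∈ M → ∀ (G : Type) [Group G] [Finite G] (e : G → FF M)
  (V : Subgroup G) (γ : G → FF M), Ld ℓ e V γ → ∀ W : Subgroup G, W ≤ V → W.Normal →
  ∀ (A : Type) [Group A] [Finite A] (p : G →* A), Function.Surjective p → p.ker = W →
  ∀ f : A → FF M, IsBlk f → mulF (push p e) f = f →
  ∃ γ' : A → FF M, Ld ℓ f (V.map p) γ' ∧ ∃ π : V →* V.map p, π.ker = W.subgroupOf V ∧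
    Qr (Ei V γ) (Ei (V.map p) γ') π

/-- TWN: the inertial group normalises an `E`-stable subgroup.

Proof.  `t ∈ Tg V γ ≤ N(V)` induces an element of `Ei V γ`, so `t w t⁻¹ ∈ W` for `w ∈ W`; the same for
`t⁻¹`. -/
def TwnStmt : Prop := ∀ (F : Type) (G : Type) [Group G] (V : Subgroup G) (γ : G → F)
  (W : Subgroup G), W ≤ V → (∀ a ∈ Ei V γ, ∀ w ∈ W.subgroupOf V, a w ∈ W.subgroupOf V) →
  Tg V γ ≤ Subgroup.normalizer (W : Set G)

/-! ## 2. The correspondent in the normaliser, the theorem of Fong and Reynolds -/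

/-- EXC: the block of `N(R)`, `R ≤ V`, with the subpair `(V, γ)`.

Proof.  `N = N(R) ≥ C(R) ≥ C(V) ≥ V`, `V` is an `ℓ`-group.  `br_V` is a homomorphism from the centre of `F N` to
the centre of `F C(V)` (`H20.brm`, `Helper20_PP`), `1 = ∑ c` over the blocks `c` of `N`
(`K9.H24.exists_blk` in another form: there is a block `c` of `N` with `br_V(c) γ ≠ 0`, see
`H97`, `Helper24_K9`), so (`γ` is primitive) there is `c` with `br_V(c) γ = γ`.  `c` is under `br_R e|N`: the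
product of `c` with `br_R e|N` is `c` or `0`, and `br_V (br_R e) γ = br_V(e) γ = γ`, so it is not `0`.
`PFD.BnrStmt`: `g` with `R ≤ conjS g V` and `Ld ℓ c ((conjS g V).subgroupOf N) _`, so all good `ℓ`-subgroups of
`c` have order at most `|V|`, and `V` is good for `c` (`br_V(c) ≠ 0`): `Tp ℓ c (V.subgroupOf N)`.
`T3.H85.ld_of` (`Helper85_AT3/LSB.lean`) for `X = N` (with `c` extended by zero, `ext0`). -/
def ExcStmt : Prop := ∀ (ℓ : ℕ) [Fact ℓ.Prime] (M : Ideal (integralClosure ℤ ℂ)) [M.IsMaximal],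
  (ℓ : integralClosure ℤ ℂ) ∈ M → ∀ (G : Type) [Group G] [Finite G] (e : G → FF M)
  (V : Subgroup G) (γ : G → FF M), Ld ℓ e V γ → ∀ R : Subgroup G, R ≤ V →
  ∃ c : Subgroup.normalizer (R : Set G) → FF M,
    Ld ℓ c (V.subgroupOf (Subgroup.normalizer (R : Set G)))
      (fun t : Subgroup.normalizer (R : Set G) => γ t)

/-- FRT: the theorem of Fong and Reynolds for `br_V e`.

Proof.  `N = N(V)`, `C = C(V)` normal in `N`, `b = br V e|N` is a block of `N` (`T3.NvtStmt`), `g = γ|N`,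
`b g = g ≠ 0`.  `H75.Bd` (`Helper75_PP/Conj.lean`) for `N`, the subgroup `C.subgroupOf N` and `g`:
`H75.Bd.sum_eq`: `b` is the sum of the conjugates of `g` under `N` (times `b`, but `b` absorbs them).
`H75.Cor (stabiliser of g in N) g` (`Bd.fam`, `Fam.cor`), `H75.Cor.card` (`Helper75_PP/Corner.lean`) or
`H75.Fam.card` (`Helper75_PP/Cliff.lean`): the number of the irreducible modular characters of `N` in `b` is that
of the stabiliser in `g`.  The stabiliser of `g` in `N` is `(Tg V γ).subgroupOf N`, and `lnum` of it is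
`lnum (Tg V γ) γ` (`PP.H75.lnum_map`, `H35.lnum_up`).  (`H75.Bd.yy` in `Helper75_PP/Fr.lean` and `T2.FrsStmt`,
`Helper83_AT2/FRS.lean`, are similar statements for `YY`.) -/
def FrtStmt : Prop := ∀ (ℓ : ℕ) [Fact ℓ.Prime] (M : Ideal (integralClosure ℤ ℂ)) [M.IsMaximal],
  (ℓ : integralClosure ℤ ℂ) ∈ M → ∀ (G : Type) [Group G] [Finite G] (e : G → FF M)
  (V : Subgroup G) (γ : G → FF M), Ld ℓ e V γ →
  ln (fun t : Subgroup.normalizer (V : Set G) => br V e t) = lnum (Tg V γ) γ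

/-- LTX: the number `lnum T γ` in a subgroup `X ≥ C(V)`.

Proof.  `T3.H85.Tg_eq`, and `lnum (Y.subgroupOf X) (a|X) = lnum Y a` for `Y ≤ X` (`PP.H75.lnum_map` for
`X.subtype`).  With `Y = Tg V γ ⊓ X ⊓ Cu v` in the second part (`Cu v` in `X` is `(Cu v).subgroupOf X`). -/
def LtxStmt : Prop := ∀ (ℓ : ℕ) (F : Type) [Field F] (G : Type) [Group G] [Finite G] (e : G → F)
  (V : Subgroup G) (γ : G → F), Ld ℓ e V γ → ∀ X : Subgroup G,
  Subgroup.centralizer (V : Set G) ≤ X →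
  lnum (Tg (V.subgroupOf X) (fun t : X => γ t)) (fun t : X => γ t) = lnum (Tg V γ ⊓ X) γ ∧
  ∀ v : X, lnum (Tg (V.subgroupOf X) (fun t : X => γ t) ⊓ Cu v) (fun t : X => γ t) =
    lnum (Tg V γ ⊓ X ⊓ Cu (v : G)) γ

/-- IZX: the indices in a subgroup `X ≥ T`.

Proof.  `C(V) ≤ Tg V γ ≤ X` (`T3.H66.cent_le_Tg`, `Helper66_AT3/Fnt.lean`).  `T3.H85.Tg_eq`, the centraliser of
`V.subgroupOf X` in `X` is `C(V).subgroupOf X` (`T3.H85.cent_sub`), `Subgroup.relIndex` of two subgroups of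
`X` is the same in `G` (`Subgroup.relIndex_subgroupOf` or by `Subgroup.relIndex_comap`). -/
def IzxStmt : Prop := ∀ (ℓ : ℕ) (F : Type) [Field F] (G : Type) [Group G] [Finite G] (e : G → F)
  (V : Subgroup G) (γ : G → F), Ld ℓ e V γ → ∀ X : Subgroup G, Tg V γ ≤ X →
  iz (V.subgroupOf X) (V.subgroupOf X) (fun t : X => γ t) = iz V V γ ∧
  ∀ v : X, cz (V.subgroupOf X) (V.subgroupOf X) (fun t : X => γ t) v = cz V V γ (v : G)

/-! ## 3. The number of the modular characters -/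

/-- QLN: the quotient step.

Proof.  `W = p.ker`.  `ln` is additive on orthogonal central idempotents (as `YadStmt`,
`Helper64_PFD/YAD.lean`, by `H46.idem_induction`; an irreducible modular character on which `f₁ + f₂` acts as
the identity belongs to exactly one of `f₁`, `f₂`: `H9`, `Helper9_PP/Add.lean`), and `f ↦ br (V.map p) f` is
additive, so the hypothesis for the blocks `f` gives `ln (push p e) = ln (br (V.map p) (push p e)|N(V.map p))`.
`ln (push p e) = ln e` (`cnt_push` in `Helper35_K9/CHQ.lean` or `H35.lnum_up` with `H35.lnum_top`; `W` is a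
normal `ℓ`-subgroup).  `K9.LbrStmt` for `A`, `Q = V.map p`, `X = N(Q)`: `ln (br Q (push p e)|X) = lnum X (br Q
(push p e)) = lnum X (push p e)` (`br Q` is supported on `C(Q) ≤ X`), which is `lnum (p⁻¹ X) e` (`H35.lnum_up`),
`p⁻¹ (N(V.map p)) = N(V)` as `W ≤ V` is the kernel, and `lnum N(V) e = ln (br V e|N(V))` (`K9.LbrStmt`). -/
def QlnStmt : Prop := ∀ (ℓ : ℕ) [Fact ℓ.Prime] (F : Type) [Field F], GoodF ℓ F → ∀ (G A : Type)
  [Group G] [Finite G] [Group A] [Finite A] (p : G →* A), Function.Surjective p →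
  ∀ V : Subgroup G, IsPGroup ℓ V → p.ker ≤ V → ∀ e : G → F, IsIdem e →
  (∀ f : A → F, IsBlk f → mulF (push p e) f = f →
    ln f = ln (fun t : Subgroup.normalizer ((V.map p : Subgroup A) : Set A) =>
      br (V.map p) f t)) →
  ln e = ln (fun t : Subgroup.normalizer (V : Set G) => br V e t)

/-- the conclusion of LEN -/
def LenFor (K : Kl) : Prop := ∀ (ℓ : ℕ) [Fact ℓ.Prime] (M : Ideal (integralClosure ℤ ℂ))
  [M.IsMaximal], (ℓ : integralClosure ℤ ℂ) ∈ M → ∀ (G : Type) [Group G] [Finite G]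
  (e : G → FF M) (V : Subgroup G) (γ : G → FF M), Ld ℓ e V γ →
  (V = ⊥ ∨ ∃ W : Subgroup V, K ℓ V (Ei V γ) W) →
  ln e = ln (fun t : Subgroup.normalizer (V : Set G) => br V e t)

/-- LEN: the number of the modular characters of `e` and of its Brauer correspondent.

Proof.  Strong induction on `|G|`; the claim is, by FRT, also `ln e = lnum (Tg V γ) γ`.  `V = ⊥`:
`N(V) = ⊤`, `br V e = e` (`K9.LbrStmt` for `Q = ⊥`, `X = ⊤`, `H35.lnum_top`).  Let `K ℓ V E W₀`,
`W = W₀.map V.subtype ≤ V`, `W.subgroupOf V = W₀`, `W ≠ ⊥`.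

(1) `W` not normal in `G`.  `N = N(W) < G`, `c` from EXC, `|Irr(e)| = |Irr(c)|` by STO.  `Tg V γ ≤ N` (TWN,
`Adm.st`).  `TW.sta_` for `e` and for `c` (see `Helper11_PFD/LEQ.lean`): `b`, `b'` with `Zd`, `Star`.
`PFD.KsmStmt` for both: `iz |Irr e| = ∑_(v ∈ V) cz(v) ln (b v)`, `iz' |Irr c| = ∑_(v ∈ V') cz'(v) ln (b' v)`,
`V' = V.subgroupOf N`; `iz = iz'`, `cz' (v) = cz (v)` (IZX).  Let `v ∈ V` be not central in `G`: `|C(v)| < |G|`,
`Ld` for `b v` (`T3.LsbStmt`), the class by QRX (`X = C(v)`) and `Adm.iso`, so by induction and FRT, LTX: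
`ln (b v) = lnum (Tg V γ ⊓ C(v)) γ`.  For all `v' ∈ V'` with image `v`: the group `C_N(v')` has order at most
`|N| < |G|`, `T3.LsbStmt` for `c`, the class by QRX for `X = N` and then for `C_N(v')`, so
`ln (b' v') = lnum (Tg V' γ' ⊓ C_N(v')) γ' = lnum (Tg V γ ⊓ C(v)) γ` (LTX for `C_N(v')` in `N`, then the second
part of LTX for `N` in `G`, `Tg V γ ⊓ N = Tg V γ`).  For `v` central in `G`: `ln (b v) = ln e` (`PFD.LntStmt`),
and `Tg V γ ⊓ C(v) = Tg V γ`, `cz(v) = iz`.  Comparison (`PFD.H11.cmp` in `Helper11_PFD/LEQ.lean`):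
`ln e = lnum (Tg V γ) γ`.

(2) `W` normal in `G`.  QLN for `p : G → G/W` (`|G/W| < |G|`): for a block `f` of `G/W` under `push p e` QRQ gives
`Ld ℓ f (V.map p) γ'` and `π` with kernel `W.subgroupOf V = W₀`; `V.map p = ⊥` or `Adm.quo` gives the class
(`ℓ` does not divide `|E|`: `PFD.LkeStmt` and `K9.InxStmt` as in `Helper11_PFD/LEQ.lean`; `V` is commutative);
induction. -/
def LenStmt : Prop := ∀ K : Kl, (∀ ℓ : ℕ, ℓ.Prime → Adm ℓ K) → StoFor K → LenFor K

/-! ## 4. The alternating sums -/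

/-- the conclusion of MNN -/
def MnnFor (K : Kl) : Prop := ∀ (ℓ : ℕ) [Fact ℓ.Prime] (M : Ideal (integralClosure ℤ ℂ))
  [M.IsMaximal], (ℓ : integralClosure ℤ ℂ) ∈ M → ∀ (G : Type) [Group G] [Finite G]
  (e : G → FF M) (V : Subgroup G) (γ : G → FF M), Ld ℓ e V γ →
  ∀ W : Subgroup V, K ℓ V (Ei V γ) W → ∀ (A : Type) [Group A] [Finite A] (p : G →* A),
  Function.Surjective p → p.ker ≤ V → p.ker ≠ V → YY ℓ ⊤ (push p e) = 0

/-- MNN: the alternating sums are zero.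

Proof.  As `PFD.MnyStmt` (`Helper11_PFD/MNY.lean`): strong induction on `|A|`.  (1) For `R` as in the hypothesis
of CHR the blocks `c` of `N(R)` under `br_R e` have, by BNR, `Ld ℓ c ((conjS g V).subgroupOf N(R)) _`; the class
by QRJ and QRX (`X = N(R) ≥ C(conjS g V)`) and `Adm.iso`; YAD and induction.  (2) CHR:
`YY ℓ ⊤ (push p e) = |A| (ln e - ln (br_V e|N(V)))`, which is zero by LEN. -/
def MnnStmt : Prop := ∀ K : Kl, (∀ ℓ : ℕ, ℓ.Prime → Adm ℓ K) → LenFor K → MnnFor K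

/-! ## 5. The class (A) + (S) -/

/-- CYQ: products of cyclic subgroups in quotients, and their last factor.

Proof.  (1) Induction on `Cyc E C`; `π` is injective on `C`, so `π(C) ⊓ π(Y) = ⊥` for `C ⊔ Y` in the next
step (`V` is commutative: an element of `C ⊔ Y` is `c y`).  (2) Induction on `Cyc`: `bot` contradicts
`C ≠ ⊥`; `mul C Y`: if `Y = ⊥` then `C ⊔ Y = C`, induction; otherwise take `C₁ = C`, `Y₁ = Y`.  Let `a ∈ E` fix
`u ≠ 1` in `Y₁ = ⟨y⟩`, a cyclic `ℓ`-group.  `a y = y ^ k`; `y ^ (|Y₁|/ℓ)` is a power of `u` (the subgroup of order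
`ℓ` of `Y₁` is in every nontrivial subgroup), so it is fixed by `a`, so `ℓ` divides `k - 1`.  So the order of `a`
on `Y₁` is a power of `ℓ` (`k ^ (ℓ ^ n) = 1` modulo `ℓ ^ (n+1)`), and it divides the order of `a`, which is prime
to `ℓ`; so `a` is trivial on `Y₁`. -/
def CyqStmt : Prop := (∀ (V V' : Type) [Group V] [Group V'] (E : Subgroup (MulAut V))
    (E' : Subgroup (MulAut V')) (π : V →* V'), (∀ a b : V, a * b = b * a) → Qr E E' π →
    ∀ C : Subgroup V, Cyc E C → C ⊓ π.ker = ⊥ → Cyc E' (C.map π)) ∧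
  ∀ (ℓ : ℕ) (V : Type) [Group V] [Finite V] (E : Subgroup (MulAut V)), ℓ.Prime → IsPGroup ℓ V →
    ¬ ℓ ∣ Nat.card E → (∀ a b : V, a * b = b * a) → ∀ C : Subgroup V, Cyc E C → C ≠ ⊥ →
    ∃ C₁ Y₁ : Subgroup V, Cyc E C₁ ∧ C₁ ⊓ Y₁ = ⊥ ∧ C₁ ⊔ Y₁ = C ∧ Y₁ ≠ ⊥ ∧
      (∀ a ∈ E, ∀ y ∈ Y₁, a y ∈ Y₁) ∧ ∀ a ∈ E, ∀ u ∈ Y₁, u ≠ 1 → a u = u → ∀ y ∈ Y₁, a y = y

/-- ADS: the class (A) + (S) is admissible.

Proof.  `nt`: `U ≤ W`, `U ≠ ⊥`.  `st`: `W = U ⊔ X`.  `iso`: transport along `π`; `Cyc` by CYQ (1).  `quo`: `C` is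
mapped isomorphically to `V'` (`C ⊓ W = ⊥`, `C ⊔ W = ⊤`), `Cyc E' ⊤` (CYQ (1)).  CYQ (2) for `E'` (the order
of `E'` is prime to `ℓ`: every `a' ∈ E'` is induced by some `a ∈ E`, so its order is prime to `ℓ`, and
Cauchy): `C₁`, `Y₁`; `W' = Y₁`, `U = Y₁`, `X = ⊥`. -/
def AdsStmt : Prop := ∀ ℓ : ℕ, ℓ.Prime → Adm ℓ KS

/-- The clean hypotheses of the final theorem: `D` is the direct product of the cyclic subgroups `Y i` and
of `W`, all normalised by `T`, `W = ⊥` or `T` normalises a subgroup `U ≠ 1` of `W` and an element of `T`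
which commutes with some `u ≠ 1` in `U` centralises `W`. -/
structure Cln {H : Type} [Group H] (T : Set H) (D : Subgroup H) (s : ℕ) (Y : Fin s → Subgroup H)
    (W U : Subgroup H) : Prop where
  jn : (⨆ i, Y i) ⊔ W = D
  dy : ∀ i, Y i ⊓ (⨆ j, ⨆ (_ : j < i), Y j) = ⊥
  dw : (⨆ i, Y i) ⊓ W = ⊥
  cy : ∀ i, ∃ y ∈ Y i, ∀ x ∈ Y i, ∃ k : ℤ, x = y ^ k
  sy : ∀ i, ∀ t ∈ T, ∀ y ∈ Y i, t * y * t⁻¹ ∈ Y i
  sw : ∀ t ∈ T, ∀ w ∈ W, t * w * t⁻¹ ∈ W
  su : ∀ t ∈ T, ∀ u ∈ U, t * u * t⁻¹ ∈ U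
  uw : U ≤ W
  nt : U = ⊥ → W = ⊥
  fr : ∀ t ∈ T, ∀ u ∈ U, u ≠ 1 → t * u = u * t → t ∈ Subgroup.centralizer (W : Set H)

/-- CLN: from the clean hypotheses to the class.

Proof.  `E = Ei V γ`, of order prime to `ℓ` (`PFD.LkeStmt`, `K9.InxStmt`), an element of `E` is induced by an
element of `T = Tg V γ`.  All subgroups are replaced by their traces on `V` (`subgroupOf`).
`Cyc E (⨆ i, Y i)`: for `n ≤ s` show `Cyc E (⨆ i < n, Y i)` by induction.  If `W ≠ ⊥`, so `U ≠ ⊥`: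
`PFD.EdfStmt` for the group `W` and the group of the automorphisms of `W` induced by `E` (a quotient of `E`, so of
order prime to `ℓ`): `W = U' × X'`.  If `W = ⊥`: `Cyc E V`, `V ≠ ⊥`, CYQ (2): `C = C₁`, `W = U = Y₁`, `X = ⊥`. -/
def ClnStmt : Prop := ∀ (ℓ : ℕ) [Fact ℓ.Prime] (M : Ideal (integralClosure ℤ ℂ)) [M.IsMaximal],
  (ℓ : integralClosure ℤ ℂ) ∈ M → ∀ (G : Type) [Group G] [Finite G] (e : G → FF M)
  (V : Subgroup G) (γ : G → FF M), Ld ℓ e V γ → V ≠ ⊥ → ∀ (s : ℕ) (Y : Fin s → Subgroup G)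
  (W U : Subgroup G), Cln (Tg V γ : Set G) V s Y W U → ∃ W₀ : Subgroup V, KS ℓ V (Ei V γ) W₀

/-- FNS: the final theorem, in the form of `PFD.H66.FneStmt` (`Helper66_PFD/Fne.lean`).

Proof.  As `PFD.H66.fne` there, with CLN instead of SPE and MNN instead of MNY.  `D ≠ ⊥`: the image of
`O_ℓ(G)` is contained in `D` (`PFD.H66.cen_le`) and different from it. -/
def FnsStmt : Prop := ∀ (ℓ : ℕ) [Fact ℓ.Prime] (M : Ideal (integralClosure ℤ ℂ)) [M.IsMaximal],
  (ℓ : integralClosure ℤ ℂ) ∈ M → ∀ (G : Type) [Group G] [Finite G],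
  opCore ℓ G ≤ Subgroup.center G → ∀ χ ∈ Irr G, ∀ (H : Type) [Group H] (p : G →* H),
  Function.Surjective p → p.ker ≤ opCore ℓ G → ∀ ψ ∈ Irr H,
  (∀ g : G, Cong M (omega (MonoidHom.id G) (fun x => ψ (p x)) g)
    (omega (MonoidHom.id G) χ g)) →
  ∀ D : Subgroup H, ML.IsDef ℓ M ψ D → D ≠ (opCore ℓ G).map p →
  (∀ x ∈ D, ∀ y ∈ D, x * y = y * x) →
  ∀ th ∈ IrrBlock M (Subgroup.centralizer (D : Set H)).subtype ψ,
  ∀ (s : ℕ) (Y : Fin s → Subgroup H) (W U : Subgroup H), Cln (Iner M D th) D s Y W U →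
  altSum ℓ M χ = 0

end Pool.Agent.PSS
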