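import Pool.Agent.PSS.DefsS1

/-!
# Squad PSS, block S1, part a (helper36): Casimir families, lifting over a complete ring

Complete proofs in the docstrings.  `R` is complete for `π` (`c : Cdv R F`), `A` is a finite
dimensional `F`-algebra with a group `V`; it is lifted to `R` relative to `V` (rows MOL .. LFT).

The rows of squad PFD which are used here are all PROVED (import the files, no hypotheses):
`D2.SugStmt` Pool.Agent.Helper10_PFD.Sug : Pool.Agent.PFD.D2.H10.sug;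
`D2.IdgStmt` Pool.Agent.Helper76_PFD.IDG : Pool.Agent.PFD.D2.H76.idg (hypothesis SugStmt);
`D2.UngStmt` Pool.Agent.Helper49_PFD.UNG : Pool.Agent.PFD.D2.H49.ung;
`D2b.FpfStmt` Pool.Agent.Helper49_PFD.FPF : Pool.Agent.PFD.D2b.H49.fpf;
`D2b.EqfStmt` Pool.Agent.Helper13_PFD.EQF : Pool.Agent.PFD.D2b.H13.eqf.
-/

open scoped BigOperators TensorProduct

noncomputable section

namespace Pool.Agent.PSS

open Pool.Agent.PFD.D2 (Cdv FibG)
open Pool.Agent.PFD.D2b (FrR)
open Finset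

/-! ### Dual families -/

/-- CSR: the dual families are a Casimir element over `V`.

Proof.  `a x_i = ∑_j ∑_v lam (v⁻¹ y_j a x_i) x_j v` (`e1`), so with `f` bilinear and balanced
`∑_i f (a x_i) (y_i) = ∑_j ∑_v ∑_i lam (v⁻¹ y_j a x_i) f (x_j) (v y_i)
= ∑_j f x_j (∑_i ∑_v lam (y_j a x_i v⁻¹) v y_i)` (`sym`) and by `e2` for `y_j a` (with `v⁻¹` for `v`)
the inner sum is `y_j a`. -/
def CsrStmt : Prop :=
  ∀ (k V A K X : Type) [CommRing k] [CommGroup V] [Fintype V] [Ring A] [Algebra k A] [Fintype K]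
    [AddCommGroup X] [Module k X] (α : V →* A) (lam : A →ₗ[k] k) (x y : K → A),
    RF k α lam x y → ∀ f : A →ₗ[k] A →ₗ[k] X, (∀ a g b, f (a * α g) b = f a (α g * b)) →
      ∀ a, ∑ i, f (a * x i) (y i) = ∑ i, f (x i) (y i * a)

/-- RTC: relative traces are central, and they do not depend on the families; change of the form by
a central unit.

Proof.  (1) CSR with `f a' b' = a' * a * b'` (balanced, as `a` commutes with `V`).
(2) `x'_j = ∑_k ∑_v lam (v⁻¹ y_k x'_j) x_k v`, so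
`∑_j x'_j a y'_j = ∑_k x_k a (∑_j ∑_v lam (v⁻¹ y_k x'_j) v y'_j)` and
`lam (v⁻¹ y_k x'_j) = lam (y_k x'_j v⁻¹) = lam' (u' y_k x'_j v⁻¹)` (`u u' = 1`), so by `e2` for
`lam'`, `u' y_k` the inner sum is `u' y_k`. -/
def RtcStmt : Prop :=
  ∀ (k V A K K' : Type) [CommRing k] [CommGroup V] [Fintype V] [Ring A] [Algebra k A] [Fintype K]
    [Fintype K'] (α : V →* A) (lam : A →ₗ[k] k) (x y : K → A), RF k α lam x y →
    (∀ a, (∀ v, α v * a = a * α v) → ∀ b, b * rt x y a = rt x y a * b) ∧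
    ∀ (lam' : A →ₗ[k] k) (x' y' : K' → A) (u u' : A), RF k α lam' x' y' →
      (∀ b, u * b = b * u) → u * u' = 1 → (∀ b, lam' b = lam (u * b)) →
      ∀ a, (∀ v, α v * a = a * α v) → u * rt x' y' a = rt x y a

/-- CSU: if `rt 1` is a unit, there are Casimir families with `∑ u_i v_i = 1`.

Proof.  `z = rt x y 1` is central (RTC), `u z = 1`, so `u = u (b z u) ..`: `u b = u b z u = b u`
(`z` central, `z u = u z = 1`), `u` is central.  Families `x_i`, `y_i u`: CSR for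
`f' a b = f a (b u)`. -/
def CsuStmt : Prop :=
  ∀ (k V A K : Type) [CommRing k] [CommGroup V] [Fintype V] [Ring A] [Algebra k A] [Fintype K]
    (α : V →* A) (lam : A →ₗ[k] k) (x y : K → A) (u : A), RF k α lam x y →
    u * rt x y 1 = 1 → (∀ b, u * b = b * u) ∧ Csm k α x (fun i => y i * u)

/-- RFE: the second identity follows from the first.

Proof.  Nondegeneracy: if `lam (d a) = 0` for all `a`, then `d = 0`: by `e1` for `d`,
`lam (v⁻¹ y_k d) = lam (d v⁻¹ y_k) = 0`.  For `d = ∑ lam (a x_k v) v⁻¹ y_k - a` and all `b`: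
`lam (∑ lam (a x_k v) v⁻¹ y_k b) = lam (a ∑ lam (v⁻¹ y_k b) x_k v) = lam (a b)`.
Functionals: `d = ∑_k ∑_v σ (x_k v) v⁻¹ y_k`. -/
def RfeStmt : Prop :=
  ∀ (k V A K : Type) [CommRing k] [CommGroup V] [Fintype V] [Ring A] [Algebra k A] [Fintype K]
    (α : V →* A) (lam : A →ₗ[k] k) (x y : K → A), (∀ a b, lam (a * b) = lam (b * a)) →
    (∀ a, ∑ k, ∑ v, lam (α v⁻¹ * y k * a) • (x k * α v) = a) →
    RF k α lam x y ∧ (∀ d, (∀ a, lam (d * a) = 0) → d = 0) ∧
    ∀ σ : A →ₗ[k] k, ∃ d, ∀ a, σ a = lam (d * a)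

/-- UNJ: Nakayama.

Proof.  `range u + p M = M`, and `p` is in the Jacobson radical (`hj`), `M` finite: `u` is
surjective (`Submodule.le_of_le_smul_of_le_jacobson_bot` or similar), hence injective
(`OrzechProperty.injective_of_surjective_endomorphism`). -/
def UnjStmt : Prop :=
  ∀ (R M : Type) [CommRing R] (p : R) [AddCommGroup M] [Module R M] [Module.Finite R M],
    (∀ r, IsUnit (1 + p * r)) → ∀ u : M →ₗ[R] M, (∀ x, ∃ y, u x - x = p • y) →
      Function.Bijective u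

/-- RFL: dual families lift.

Proof.  (a) `lam'` is perfect: every `σ : A' → R` is `lam' (y ·)`.  `σ` induces `σ0 : A → R0` with
`σ0 (q a) = κ (σ a)` (well defined by `q.ker`), `σ0 = lam (y0 ·)` by RFE, `y0 = q y`, so
`σ - lam' (y ·)` has values in `p R`, and it is `p` times a functional (`A'` is free); the
submodule of the functionals `lam' (y ·)` and `p (A')^*` generate `(A')^*` (a finite module), so by
Nakayama all functionals have this form.
(b) Lift `x k` to `X k` (`q (X k) = x k`) and `lam (y k ·)` to functionals `σ k` on `A'`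
(by (a) for any lift `Y k` of `y k`: `σ k = lam' (Y k ·)`).
`θ a = ∑_k ∑_v σ k (a v⁻¹) X k v` is right `V`-linear and `θ a - a` is in `p A'`, so it is
bijective (UNJ), its inverse `θ'` is right `V`-linear and congruent to `1`.
`σ k ∘ θ' = lam' (Y' k ·)` by (a), `q (Y' k) = y k` since `lam` is nondegenerate, and
`∑ lam' (v⁻¹ Y' k a) X k v = ∑ σ k (θ' (a v⁻¹)) X k v = ∑ σ k (θ' a v⁻¹) X k v = θ (θ' a) = a`.
RFE. -/
def RflStmt : Prop :=
  ∀ (R R₀ V A A' K : Type) [CommRing R] [CommRing R₀] [CommGroup V] [Fintype V] [Ring A]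
    [Algebra R₀ A] [Ring A'] [Algebra R A'] [Module.Finite R A'] [Module.Free R A'] [Fintype K]
    (p : R) (κ : R →+* R₀) (α : V →* A) (α' : V →* A') (q : A' →+* A) (lam : A →ₗ[R₀] R₀)
    (lam' : A' →ₗ[R] R) (x y : K → A),
    (∀ r, IsUnit (1 + p * r)) → (∀ r, p * r = 0 → r = 0) → Red p κ →
    (∀ r : R, q (algebraMap R A' r) = algebraMap R₀ A (κ r)) → Function.Surjective q →
    (∀ a, q a = 0 → ∃ b, a = p • b) → (∀ v, q (α' v) = α v) →
    (∀ a, κ (lam' a) = lam (q a)) → (∀ a b, lam' (a * b) = lam' (b * a)) →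
    RF R₀ α lam x y →
    ∃ x' y' : K → A', RF R α' lam' x' y' ∧ (∀ t, q (x' t) = x t) ∧ ∀ t, q (y' t) = y t

/-- the same with prescribed lifts `x'` of the family `x` (see the proof of RFL) -/
def RfmStmt : Prop :=
  ∀ (R R₀ V A A' K : Type) [CommRing R] [CommRing R₀] [CommGroup V] [Fintype V] [Ring A]
    [Algebra R₀ A] [Ring A'] [Algebra R A'] [Module.Finite R A'] [Module.Free R A'] [Fintype K]
    (p : R) (κ : R →+* R₀) (α : V →* A) (α' : V →* A') (q : A' →+* A) (lam : A →ₗ[R₀] R₀)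
    (lam' : A' →ₗ[R] R) (x y : K → A) (x' : K → A'),
    (∀ r, IsUnit (1 + p * r)) → (∀ r, p * r = 0 → r = 0) → Red p κ →
    (∀ r : R, q (algebraMap R A' r) = algebraMap R₀ A (κ r)) → Function.Surjective q →
    (∀ a, q a = 0 → ∃ b, a = p • b) → (∀ v, q (α' v) = α v) →
    (∀ a, κ (lam' a) = lam (q a)) → (∀ a b, lam' (a * b) = lam' (b * a)) →
    RF R₀ α lam x y → (∀ t, q (x' t) = x t) →
    ∃ y' : K → A', RF R α' lam' x' y' ∧ ∀ t, q (y' t) = y t

/-! ### The lift of the module -/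

/-- `q : M → M₀` is the reduction of an `R`-module with an action of `G` -/
structure RedM {R F G M M₀ : Type} [CommRing R] [Field F] [Group G] [AddCommGroup M] [Module R M]
    [AddCommGroup M₀] [Module F M₀] (c : Cdv R F) (ρ : G →* (M →ₗ[R] M))
    (ρ₀ : G →* (M₀ →ₗ[F] M₀)) (q : M →+ M₀) : Prop where
  sc : ∀ (r : R) x, q (r • x) = c.κ r • q x
  sj : Function.Surjective q
  kr : ∀ x, q x = 0 ↔ ∃ y, x = c.π • y
  eq : ∀ g x, q (ρ g x) = ρ₀ g (q x)

/-- MOL: a permutation frame lifts.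

Proof.  `ε₀ ω' ω = c₀ ω' (b₀ ω)` is the matrix of an idempotent which commutes with the permutation
action on `Ω → F` (`ε₀ (g ω') (g ω) = ε₀ ω' ω`); choose a section `s` of `κ`; the matrix
`s (ε₀ ω' ω)` over `R` commutes with the action of `G` on `Ω → R` and is idempotent modulo `π`;
`D2.IdgStmt` gives an idempotent endomorphism `g` of `Ω → R` commuting with `G`.  `M` = its range (as a
submodule; finite, and free since `R` is a PID), `ρ` = the restriction, `b ω = g (e_ω)`, `c ω` = the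
coordinate at `ω`, `q m = ∑ κ (m ω) • b₀ ω`.  Then `q (b ω) = ∑ ε₀ ω' ω b₀ ω' = b₀ ω`,
`c₀ ω (q m) = κ (m ω)` (as `κ m` is in the range of `ε₀`).  Kernel: if `q m = 0` then
`κ (m ω) = 0` for all `ω`, `m = π • m'`, `m' = g m'` as `π` is a nonzero divisor. -/
def MolStmt : Prop :=
  ∀ (R F G M₀ Ω : Type) [CommRing R] [IsDomain R] [IsPrincipalIdealRing R] [Field F]
    (c : Cdv R F) [Group G] [AddCommGroup M₀] [Module F M₀] [Fintype Ω] [MulAction G Ω]
    (ρ₀ : G →* (M₀ →ₗ[F] M₀)) (b₀ : Ω → M₀) (c₀ : Ω → (M₀ →ₗ[F] F)), FrR ρ₀ b₀ c₀ →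
    ∃ (M : Type) (_ : AddCommGroup M) (_ : Module R M) (_ : Module.Finite R M)
      (_ : Module.Free R M) (ρ : G →* (M →ₗ[R] M)) (b : Ω → M) (cc : Ω → (M →ₗ[R] R))
      (q : M →+ M₀), FrR ρ b cc ∧ RedM c ρ ρ₀ q ∧ (∀ ω, q (b ω) = b₀ ω) ∧
        ∀ ω m, c.κ (cc ω m) = c₀ ω (q m)

/-- relative bilinear maps for the action of `H × H` (`(g, h) x = g x h⁻¹`) -/
def RB {k H M : Type} [CommRing k] [Group H] [AddCommGroup M] [Module k M]
    (ρ : H × H →* (M →ₗ[k] M)) (μ : M →ₗ[k] M →ₗ[k] M) : Prop :=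
  (∀ g x y, μ (ρ (g, 1) x) y = ρ (g, 1) (μ x y)) ∧
  (∀ g x y, μ (ρ (1, g) x) y = μ x (ρ (g⁻¹, 1) y)) ∧
  ∀ g x y, μ x (ρ (1, g) y) = ρ (1, g) (μ x y)

/-- BVL: relative bilinear maps lift.

Proof.  `H × H × H` acts on `Ω × Ω` by `(g, h, l) (ω, ω') = ((g, h) ω, (h, l) ω')` and on `M` through
`(g, l)`; for this representation `M` has a frame (the same `Ω`, action through `(g, l)`), so fixed
vectors modulo `π` lift for all subgroups (`D2b.FpfStmt`).  `m (ω, ω')` = a lift of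
`μ₀ (q b_ω) (q b_ω')` is equivariant modulo `π`, so by `D2b.EqfStmt` there is an equivariant `m'`
congruent to `m`.  `μ x y = ∑_(ω,ω') cc ω x * cc ω' y • m' (ω, ω')`; the three identities follow from
`cc (g ω) (ρ g x) = cc ω x` by reindexing: `μ (ρ (g,1) x) y = ∑ cc ω x cc ω' y m' ((g,1) ω, ω')`,
`μ (ρ (1,h) x) y = ∑ cc ω x cc ω' y m' ((1,h) ω, ω')`,
`μ x (ρ (h⁻¹,1) y) = ∑ cc ω x cc ω' y m' (ω, (h⁻¹,1) ω')`, equal by the element `(1, h, 1)`.
`q (μ x y) = μ₀ (q x) (q y)` from `x = ∑ cc ω x • b ω`. -/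
def BvlStmt : Prop :=
  ∀ (R F H M M₀ Ω : Type) [CommRing R] [Field F] (c : Cdv R F) [Group H] [AddCommGroup M]
    [Module R M] [AddCommGroup M₀] [Module F M₀] [Fintype Ω] [MulAction (H × H) Ω]
    (ρ : H × H →* (M →ₗ[R] M)) (ρ₀ : H × H →* (M₀ →ₗ[F] M₀)) (q : M →+ M₀) (b : Ω → M)
    (cc : Ω → (M →ₗ[R] R)), FrR ρ b cc → RedM c ρ ρ₀ q →
    ∀ μ₀ : M₀ →ₗ[F] M₀ →ₗ[F] M₀, RB ρ₀ μ₀ →
      ∃ μ : M →ₗ[R] M →ₗ[R] M, RB ρ μ ∧ ∀ x y, q (μ x y) = μ₀ (q x) (q y)

/-! ### The lift of the algebra relative to `V` -/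

/-- the associator -/
def asr {k M : Type} [CommRing k] [AddCommGroup M] [Module k M] (β : M →ₗ[k] M →ₗ[k] M)
    (x y z : M) : M := β (β x y) z - β x (β y z)

/-- STV: one step.

Proof.  `asr β = π^n w`, `w` is trilinear (`π` is a nonzero divisor on the free module `M`), and
relative (in all four places), `w₀ (q x) (q y) (q z) = q (w x y z)` is well defined (trilinear over
`F`).  The identity
`β x (asr y z u) + asr x (β y z) u + β (asr x y z) u = asr (β x y) z u + asr x y (β z u)` of any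
bilinear `β` gives `x w₀(y,z,u) - w₀(xy,z,u) + w₀(x,yz,u) - w₀(x,y,zu) + w₀(x,y,z) u = 0`.
`ν₀ x y = ∑_i u_i w₀ (v_i, x, y)` is relative (left: `w₀ (v_i, g x, y) = w₀ (v_i g, x, y)` and the
Casimir property for the balanced form `a, b ↦ a w₀ (b, x, y)`: `∑ u_i w₀ (v_i g, x, y) =
∑ g u_i w₀ (v_i, x, y)`).  Then
`x ν₀(y,z) - ν₀(xy,z) + ν₀(x,yz) - ν₀(x,y) z = ∑ u_i [w₀(v_i x,y,z) - w₀(v_i,xy,z) + w₀(v_i,x,yz) -
w₀(v_i,x,y) z] = ∑ u_i v_i w₀(x,y,z) = w₀(x,y,z)`.
Lift `ν₀` to `ν` (`hL`).  `asr (β + π^n ν)` is modulo `π^(n+1)` equal to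
`π^n (w + ν(x,y) z + ν(xy,z) - x ν(y,z) - ν(x,yz))`, whose bracket has reduction
`w₀ - (x ν₀(y,z) - ν₀(xy,z) + ν₀(x,yz) - ν₀(x,y) z) = 0`. -/
def StvStmt : Prop :=
  ∀ (R F V A M K : Type) [CommRing R] [IsDomain R] [Field F] (c : Cdv R F) [CommGroup V]
    [Ring A] [Algebra F A] [AddCommGroup M] [Module R M] [Module.Finite R M] [Module.Free R M]
    [Fintype K] (α : V →* A) (u v : K → A) (_ : Csm F α u v) (ρ : V × V →* (M →ₗ[R] M))
    (q : M →+ A) (_ : RedM c ρ (bw F α) q)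
    (_ : ∀ μ₀ : A →ₗ[F] A →ₗ[F] A, RB (bw F α) μ₀ →
      ∃ μ : M →ₗ[R] M →ₗ[R] M, RB ρ μ ∧ ∀ x y, q (μ x y) = μ₀ (q x) (q y))
    (β : M →ₗ[R] M →ₗ[R] M) (n : ℕ), 1 ≤ n → RB ρ β → (∀ x y, q (β x y) = q x * q y) →
    (∀ x y z, ∃ w, asr β x y z = c.π ^ n • w) →
    ∃ ν : M →ₗ[R] M →ₗ[R] M, RB ρ ν ∧
      ∀ x y z, ∃ w, asr (β + c.π ^ n • ν) x y z = c.π ^ (n + 1) • w

/-- ALV: the multiplication lifts.

Proof.  `β₁` from `hL` for the multiplication (`RB (bw F α) (LinearMap.mul F A)`).  Successive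
approximation `D2.SugStmt` for the finite free module of the bilinear maps `M → M → M`; work with
`β` = current approximation: `P n β` = `RB ρ β`, `β` lifts the multiplication, `asr β` divisible by
`π^n`; SUG wants `P n x → P n (x + π^n z)` for all `z`, so use for `P n β` the condition: there is
`β'` with these properties and `β - β'` divisible by `π^n`.  In the limit `asr β` is divisible by all
`π^n`, so it is `0`, and the relations `RB` hold modulo all `π^n`, so they hold. -/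
def AlvStmt : Prop :=
  ∀ (R F V A M K : Type) [CommRing R] [IsDomain R] [Field F] (c : Cdv R F) [CommGroup V]
    [Ring A] [Algebra F A] [AddCommGroup M] [Module R M] [Module.Finite R M] [Module.Free R M]
    [Fintype K] (α : V →* A) (u v : K → A) (_ : Csm F α u v) (ρ : V × V →* (M →ₗ[R] M))
    (q : M →+ A) (_ : RedM c ρ (bw F α) q)
    (_ : ∀ μ₀ : A →ₗ[F] A →ₗ[F] A, RB (bw F α) μ₀ →
      ∃ μ : M →ₗ[R] M →ₗ[R] M, RB ρ μ ∧ ∀ x y, q (μ x y) = μ₀ (q x) (q y)),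
    ∃ β : M →ₗ[R] M →ₗ[R] M, RB ρ β ∧ (∀ x y, q (β x y) = q x * q y) ∧
      ∀ x y z, asr β x y z = 0

/-- RGV: the ring.

Proof.  Unit: let `q e = 1`; `β e` and `β · e` are congruent to the identity, so bijective
(`D2.UngStmt`); `β e e1 = e`, `β e2 e = e`; then `β e (β e1 x) = β e x`, so `β e1 x = x`, similarly
`β x e2 = x`, so `e1 = e2`.  `A' = M` with this multiplication (e.g. as a structure / `let`
instances, or the subring of `Module.End R M` of the left multiplications: `x ↦ β x`), algebra over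
`R`, `α' v = ρ (v, 1) e1` (`= ρ (1, v⁻¹) e1`: by `RB`, `x (v e1) = x v` (`= ρ (1, v⁻¹) x`) and
`(v e1) x = v x`, `(e1 v) x = v x`, `x (e1 v) = x v`; so `v e1 = (e1 v) e1 = e1 v`),
`ρ (u, v) x = α' u x α' v⁻¹`. -/
def RgvStmt : Prop :=
  ∀ (R F V A M : Type) [CommRing R] [Field F] (c : Cdv R F) [CommGroup V]
    [Ring A] [Algebra F A] [AddCommGroup M] [Module R M] [Module.Finite R M] [Module.Free R M]
    (α : V →* A) (ρ : V × V →* (M →ₗ[R] M)) (q : M →+ A) (_ : RedM c ρ (bw F α) q)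
    (β : M →ₗ[R] M →ₗ[R] M), RB ρ β → (∀ x y, q (β x y) = q x * q y) →
    (∀ x y z, asr β x y z = 0) →
    ∃ (A' : Type) (_ : Ring A') (_ : Algebra R A') (φ : M ≃ₗ[R] A') (α' : V →* A'),
      (∀ x y, φ (β x y) = φ x * φ y) ∧ (∀ u v x, φ (ρ (u, v) x) = α' u * φ x * α' v⁻¹) ∧
      (∀ v, q (φ.symm (α' v)) = α v) ∧ q (φ.symm 1) = 1

/-- FLV: the form lifts.

Proof.  Successive approximation (`D2.SugStmt` for the finite free module `A' →ₗ[R] R`): `P n l` :=
there is `l'` with `l - l'` divisible by `π^n`, `κ (l' x) = lam (q x)`, `l' (g x) = l' (x g)` for `g`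
in `V`, and `l' (x y) - l' (y x)` divisible by `π^n`.
Start: `l0 = ∑ cc ω (·) r ω`, `r ω = s (lam (q (b ω)))` with a section `s` of `κ`
(`r ((v,v) ω) = r ω`, so `l0` is invariant under conjugation by `V`; `l0 x ≡ lam (q x)`).
Step: `l' (x y) - l' (y x) = π^n d(x,y)`; the reduction `d₀` on `A` (well defined, bilinear)
satisfies `d₀(x,y) = - d₀(y,x)`, `d₀(xy,z) + d₀(yz,x) + d₀(zx,y) = 0`, `d₀(x, g) = 0` for `g` in `V`,
hence `d₀(x g, z) = d₀(x, g z)`.  `τ₀ x = ∑_i d₀(u_i, v_i x)`: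
`∑ d₀(u_i, v_i y x) = ∑ d₀(y u_i, v_i x)` (Casimir), and by the cyclic identity for
`(y, u_i, v_i x)`: `d₀(y u_i, v_i x) = - d₀(u_i v_i x, y) - d₀(v_i x y, u_i)
= - d₀(u_i v_i x, y) + d₀(u_i, v_i x y)`; sum: `τ₀(xy) - τ₀(yx) = d₀(x,y)`.  In particular `τ₀` is
invariant under conjugation by `V`; lift it to an invariant `τ` (as `l0`), `l' - π^n τ`.
The limit `l` satisfies all identities modulo all `π^n`. -/
def FlvStmt : Prop :=
  ∀ (R F V A A' Ω K : Type) [CommRing R] [IsDomain R] [Field F] (c : Cdv R F) [CommGroup V]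
    [Ring A] [Algebra F A] [Ring A'] [Algebra R A'] [Module.Finite R A'] [Module.Free R A']
    [Fintype Ω] [MulAction (V × V) Ω] [Fintype K] (α : V →* A) (α' : V →* A')
    (f : FibG A' A c) (b : Ω → A') (cc : Ω → (A' →ₗ[R] R)) (lam : A →ₗ[F] F) (u v : K → A),
    (∀ v, f.q (α' v) = α v) → FrR (bw R α') b cc → Csm F α u v →
    (∀ x y, lam (x * y) = lam (y * x)) →
    ∃ lam' : A' →ₗ[R] R, (∀ x y, lam' (x * y) = lam' (y * x)) ∧
      ∀ x, c.κ (lam' x) = lam (f.q x)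

/-- the lift of an algebra with all its data -/
structure LiftV {R F V A A' K Ω : Type} [CommRing R] [Field F] (c : Cdv R F) [CommGroup V]
    [Fintype V] [Ring A] [Algebra F A] [Ring A'] [Algebra R A'] [Fintype K] [Fintype Ω]
    [MulAction (V × V) Ω] (α : V →* A) (lam : A →ₗ[F] F) (x y : K → A) (b : Ω → A)
    (cc : Ω → (A →ₗ[F] F)) (f : FibG A' A c) (α' : V →* A') (lam' : A' →ₗ[R] R) (x' y' : K → A')
    (b' : Ω → A') (cc' : Ω → (A' →ₗ[R] R)) : Prop where
  qa : ∀ v, f.q (α' v) = α v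
  ql : ∀ a, c.κ (lam' a) = lam (f.q a)
  qx : ∀ t, f.q (x' t) = x t
  qy : ∀ t, f.q (y' t) = y t
  qb : ∀ ω, f.q (b' ω) = b ω
  qc : ∀ ω a, c.κ (cc' ω a) = cc ω (f.q a)
  rf : RF R α' lam' x' y'
  fr : FrR (bw R α') b' cc'

/-- LFT (the O-lift, E5).

Proof.  MOL (`G = V × V`, `M₀ = A`), BVL, CSU, ALV, RGV; transport the frame by `φ`; `f.q = q ∘ φ⁻¹`
(a ring homomorphism: additive, multiplicative by `q (β x y) = q x * q y`, `1` by RGV).  FLV, RFL
(`p = π`; `1 + π r` is a unit by `c.loc`). -/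
def LftStmt : Prop :=
  ∀ (R F V A K Ω : Type) [CommRing R] [IsDomain R] [IsPrincipalIdealRing R] [Field F]
    (c : Cdv R F) [CommGroup V] [Fintype V] [Ring A] [Algebra F A] [Fintype K] [Fintype Ω]
    [MulAction (V × V) Ω] (α : V →* A) (lam : A →ₗ[F] F) (x y : K → A) (b : Ω → A)
    (cc : Ω → (A →ₗ[F] F)) (u : A), FiniteDimensional F A → RF F α lam x y →
    FrR (bw F α) b cc → u * rt x y 1 = 1 →
    ∃ (A' : Type) (_ : Ring A') (_ : Algebra R A') (_ : Module.Finite R A')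
      (_ : Module.Free R A') (f : FibG A' A c) (α' : V →* A') (lam' : A' →ₗ[R] R)
      (x' y' : K → A') (b' : Ω → A') (cc' : Ω → (A' →ₗ[R] R)) (u' : A'),
      LiftV c α lam x y b cc f α' lam' x' y' b' cc' ∧ u' * rt x' y' 1 = 1

/-- UZL: `rt 1` is a unit in the lift (used in LFT), and the centre and the fixed vectors lift.

Proof.  (1) `u₁` a lift of `u`: `u₁ * rt x' y' 1` is congruent to `1`, so the right multiplication by
it is congruent to the identity, so bijective (UNJ); `rt x' y' 1` is central, so a left inverse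
exists.  (2) fixed vectors: choose lifts of the coordinates by a section of `κ` (as in FLV).
(3) `z₀` central in `A`: lift `z` with `g z = z g` for `g` in `V` (2);
`z a - a z = π D a` (`A'` free, `D` linear), `D` is a derivation which kills `V`.
`D a = y₁ a - a y₁` for `y₁ = - ∑ u_i D(v_i)`, `(u_i, v_i)` the Casimir families of `A'` (CSU):
`a ∑ u_i D(v_i) = ∑ u_i D(v_i a) = ∑ u_i D(v_i) a + D a`.  `z - π y₁` is central. -/
def UzlStmt : Prop :=
  ∀ (R F V A A' K Ω : Type) [CommRing R] [IsDomain R] [Field F]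
    (c : Cdv R F) [CommGroup V] [Fintype V] [Ring A] [Algebra F A] [Ring A'] [Algebra R A']
    [Module.Finite R A'] [Module.Free R A'] [Fintype K] [Fintype Ω]
    [MulAction (V × V) Ω] (α : V →* A) (lam : A →ₗ[F] F) (x y : K → A) (b : Ω → A)
    (cc : Ω → (A →ₗ[F] F)) (f : FibG A' A c) (α' : V →* A') (lam' : A' →ₗ[R] R)
    (x' y' : K → A') (b' : Ω → A') (cc' : Ω → (A' →ₗ[R] R)) (u : A),
    LiftV c α lam x y b cc f α' lam' x' y' b' cc' → u * rt x y 1 = 1 →
    (∃ u' : A', u' * rt x' y' 1 = 1) ∧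
    (∀ X : Subgroup (V × V), ∀ a ∈ FxR (bw F α) X, ∃ a' ∈ FxR (bw R α') X, f.q a' = a) ∧
    ∀ z₀ : A, (∀ a, z₀ * a = a * z₀) → ∃ z : A', (∀ a, z * a = a * z) ∧ f.q z = z₀

end Pool.Agent.PSS
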