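import Pool.Agent.PSS.StmtsS1a

/-!
# Squad PSS, block S1, part b (helper36): relative cohomology of an order

Complete proofs in the docstrings.  `i : A → B` is an `R`-order in a `K`-algebra (structure `KC`),
`V = ⟨z⟩ × W`, `n = orderOf z`.  Notation: `v` for `i (α v)`, `≡` = congruent modulo `i A` (products
of `≡` with elements of `i A` are allowed).  Results: `H^1(A|W; A) = 0` (H1V) and
`H^2(A|W; B/A) = 0` (H2V).  All sums are finite; the cochains are relative to `W` and normalised.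
-/

open scoped BigOperators TensorProduct

noncomputable section

namespace Pool.Agent.PSS

open Pool.Agent.PFD.D2b (FrR)
open Finset

/-- TAU: the projection `τ` onto a complement, `∑_(j<n) z^j τ (z^-j x) = x`.

Proof.  On `Ω` let `ω ~ ω'` iff `ω' = (z^j w, w') ω` for some `j`, `w, w'` in `W`; choose
representatives `r`, and `T₀` = the set of the `ω = (w, w') (r ω)` (`w, w'` in `W`).  If
`(z^j w, w') ω = ω` then by `StE` `z^j w = φ e w'` is in `W` (`stb`), so `z^j` is in `W`, `z^j = 1`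
(`dis`).  Hence every `ω` is `(z^j, 1) ω'` for exactly one pair `j < n`, `ω'` in `T₀` (existence:
`ω = (z^j w, w') r`, reduce `j` modulo `n`).  `τ x = ∑_(ω in T₀) cK ω x • i (b ω)`.
`z^j τ (z^-j x) = ∑_(ω in T₀) cK ω (z^-j x) • i (b ((z^j,1) ω)) = ∑ cK ((z^j,1) ω) x • i (b ((z^j,1) ω))`. -/
def TauStmt : Prop :=
  ∀ (R K V E A B κ Ω : Type) [CommRing R] [Field K] [CharZero K] [Algebra R K] [CommGroup V]
    [Fintype V] [Group E] [Ring A] [Algebra R A] [Ring B] [Algebra R B] [Algebra K B] [Fintype κ]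
    [Fintype Ω] [MulAction (V × V) Ω] (φ : E →* MulAut V) (W : Subgroup V) (z : V) (α : V →* A)
    (lam : A →ₗ[R] R) (x y : κ → A) (b : Ω → A) (c : Ω → (A →ₗ[R] R))
    (C : KC R K B α lam x y b c), Vz φ W z → StE φ Ω →
    ∃ τ : B →ₗ[K] B, (∀ a, In C.i (τ (C.i a))) ∧ WBl (ia C.i α) W τ ∧
      ∀ x, ∑ j ∈ range (orderOf z), C.i (α (z ^ j)) * τ (C.i (α (z ^ j)⁻¹) * x) = x

/-- FXL: vectors fixed modulo `i A` by a subgroup of `V × V` are congruent to fixed vectors.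

Proof.  `d ω = cK ω x`; for `g` in `X` `d (g ω) - d ω = cK (g ω) (x - g x)` is in the image of `R`
(`ck`).  Choose representatives `r` of the `X`-orbits, `d' ω = d (r ω)`, `y = ∑ d' ω • i (b ω)`:
fixed by `X`, and `y - x = ∑ (d' ω - d ω) • i (b ω)` is in `i A` (`tow`). -/
def FxlStmt : Prop :=
  ∀ (R K V A B κ Ω : Type) [CommRing R] [Field K] [CharZero K] [Algebra R K] [CommGroup V]
    [Fintype V] [Ring A] [Algebra R A] [Ring B] [Algebra R B] [Algebra K B] [Fintype κ]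
    [Fintype Ω] [MulAction (V × V) Ω] (α : V →* A)
    (lam : A →ₗ[R] R) (x y : κ → A) (b : Ω → A) (c : Ω → (A →ₗ[R] R))
    (C : KC R K B α lam x y b c) (X : Subgroup (V × V)) (s : B),
    (∀ g ∈ X, In C.i (bw K (ia C.i α) g s - s)) →
    ∃ t : B, (∀ g ∈ X, bw K (ia C.i α) g t = t) ∧ In C.i (t - s)

/-- HCB: a 2-cocycle modulo `i A` is cohomologous to one which vanishes on `V × A`.

Proof.  Write `c` for `cc`.  `f_j = c (z^j, z) z^-(j+1)` (commutes with `W` exactly, by `WB2`;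
`f_(j+n) = f_j`).  `γ = ∑_(j<n) f_j`.  The cocycle identity for `(z, z^j, z)` gives
`z f_j z⁻¹ ≡ f_(j+1) - h_(j+1) + h_j`, `h_j = c (z, z^j) z^-(j+1)`, so `z γ z⁻¹ ≡ γ`; with `gen` the
element `γ` is fixed modulo `i A` by the diagonal `{(v, v)}`, FXL: `γ'` commuting with `V`,
`γ' ≡ γ`.  `e = - n⁻¹ • γ'` and `γ_j = (j • e + ∑_(l<j) f_l) z^j` (`j : ℕ`).  Then `γ_0 = 0`,
`γ_j w = w γ_j`, `γ_(j+n) = γ_j + (γ - γ') z^j ≡ γ_j`, and
(1) `γ_(j+k) ≡ z^k γ_j + γ_k z^j + c (z^k, z^j)`: induction on `j`, as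
`γ_(j+1) = γ_j z + e z^(j+1) + c (z^j, z)` and the cocycle identity for `(z^k, z^j, z)`.
With `τ` (TAU): `g₁ x = ∑_(j<n) (γ_j τ(z^-j x) + c (z^j, τ(z^-j x)))`, `K`-linear, `W`-`W`-linear.
(2) for `x` in `i A`: `g₁ (z^k x) ≡ z^k g₁ x + γ_k x + c (z^k, x)`: the summand of `g₁ (z^k x)` is
periodic in `j` modulo `n` up to `≡`, so `g₁ (z^k x) ≡ ∑_(j<n) (γ_(j+k) x_j + c (z^(j+k), x_j))`,
`x_j = τ(z^-j x)` in `i A`; use (1), the cocycle identity for `(z^k, z^j, x_j)`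
(`c (z^(j+k), x_j) ≡ z^k c (z^j, x_j) + c (z^k, z^j x_j) - c (z^k, z^j) x_j`), `∑ z^j x_j = x`.
`e' = g₁ 1` commutes with `W`; `g x = g₁ x - e' x`: `g 1 = 0`, and
`d1 g (z^k, x) = z^k g₁ x - g₁ (z^k x) + g₁ (z^k) x - z^k e' x ≡ - γ_k x - c (z^k, x) +
(z^k e' + γ_k + c (z^k, 1)) x - z^k e' x = - c (z^k, x)`.  For `v = z^k w`:
`c (z^k w, x) = c (z^k, w x)`, `d1 g (z^k w, x) = d1 g (z^k, w x)`. -/
def HcbStmt : Prop :=
  ∀ (R K V E A B κ Ω : Type) [CommRing R] [Field K] [CharZero K] [Algebra R K] [CommGroup V]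
    [Fintype V] [Group E] [Ring A] [Algebra R A] [Ring B] [Algebra R B] [Algebra K B] [Fintype κ]
    [Fintype Ω] [MulAction (V × V) Ω] (φ : E →* MulAut V) (W : Subgroup V) (z : V) (α : V →* A)
    (lam : A →ₗ[R] R) (x y : κ → A) (b : Ω → A) (c : Ω → (A →ₗ[R] R))
    (C : KC R K B α lam x y b c), Vz φ W z → StE φ Ω →
    ∀ cc : B →ₗ[K] B →ₗ[K] B, WB2 (ia C.i α) W (fun a b => cc a b) →
    Nrm (fun a b => cc a b) →
    (∀ a₁ a₂ a₃, In C.i (dl (fun a b => cc a b) (C.i a₁) (C.i a₂) (C.i a₃))) →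
    ∃ g : B →ₗ[K] B, WBl (ia C.i α) W g ∧ g 1 = 0 ∧
      ∀ v a, In C.i (cc (C.i (α v)) (C.i a) + d1 g (C.i (α v)) (C.i a))

/-- HCC: the contraction with the Casimir families.

Proof.  `g a = ∑_i u_i c (v_i, a)` (write `u_i` for `i (u_i)` ..).  The cocycle identity for
`(g, b, a₀)`, `g` in `V`, and `c (g, ·) ≡ 0` on `i A` give `c (g b, a₀) ≡ g c (b, a₀)`, so
`(a, b) ↦ a c (b, a₀)` with values in the `R`-module `B / i A` is balanced, and `Csm` applies: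
`∑ a u_i c (v_i, a₀) ≡ ∑ u_i c (v_i a, a₀)`.  Hence
`a g(b) - g(a b) + g(a) b ≡ ∑ u_i (c (v_i a, b) - c (v_i, a b) + c (v_i, a) b) ≡ ∑ u_i v_i c (a, b)
= c (a, b)` (cocycle identity for `(v_i, a, b)`).  Left `W`-linearity modulo `i A`:
`g (w a) = ∑ u_i c (v_i w, a) ≡ ∑ w u_i c (v_i, a)`; right: exact; `g 1 = 0`. -/
def HccStmt : Prop :=
  ∀ (R K V A B κ Ω : Type) [CommRing R] [Field K] [CharZero K] [Algebra R K] [CommGroup V]
    [Fintype V] [Ring A] [Algebra R A] [Ring B] [Algebra R B] [Algebra K B] [Fintype κ]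
    [Fintype Ω] [MulAction (V × V) Ω] (W : Subgroup V) (α : V →* A)
    (lam : A →ₗ[R] R) (x y : κ → A) (b : Ω → A) (c : Ω → (A →ₗ[R] R))
    (C : KC R K B α lam x y b c) (κ' : Type) [Fintype κ'] (u v : κ' → A), Csm R α u v →
    ∀ cc : B →ₗ[K] B →ₗ[K] B, WB2 (ia C.i α) W (fun a b => cc a b) →
    Nrm (fun a b => cc a b) →
    (∀ a₁ a₂ a₃, In C.i (dl (fun a b => cc a b) (C.i a₁) (C.i a₂) (C.i a₃))) →
    (∀ v a, In C.i (cc (C.i (α v)) (C.i a))) →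
    ∃ g : A →ₗ[R] B, (∀ w ∈ W, ∀ a, In C.i (g (α w * a) - C.i (α w) * g a) ∧
        In C.i (g (a * α w) - g a * C.i (α w))) ∧ In C.i (g 1) ∧
      ∀ a₁ a₂, In C.i (cc (C.i a₁) (C.i a₂) - (C.i a₁ * g a₂ - g (a₁ * a₂) + g a₁ * C.i a₂))

/-- LFG: a map which is `W`-`W`-linear modulo `i A` is congruent to a `W`-`W`-linear one.

Proof.  `W × W` acts on `Ω`; for a representative `ω₀` of an orbit, `g (b ω₀)` is fixed modulo `i A`
by the stabiliser of `ω₀` in `W × W`; FXL gives a fixed `h ω₀ ≡ g (b ω₀)`; put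
`h ((w, w') ω₀) = w (h ω₀) w'⁻¹` (well defined) `≡ g (b ((w, w') ω₀))`.
`H₁ x = ∑ cK ω x • h ω` is `W`-`W`-linear and `H₁ (i a) = ∑ c ω a • h ω ≡ g a`.  `e = H₁ 1` is in
`i A` and commutes with `W`: `H x = H₁ x - x e`. -/
def LfgStmt : Prop :=
  ∀ (R K V A B κ Ω : Type) [CommRing R] [Field K] [CharZero K] [Algebra R K] [CommGroup V]
    [Fintype V] [Ring A] [Algebra R A] [Ring B] [Algebra R B] [Algebra K B] [Fintype κ]
    [Fintype Ω] [MulAction (V × V) Ω] (W : Subgroup V) (α : V →* A)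
    (lam : A →ₗ[R] R) (x y : κ → A) (b : Ω → A) (c : Ω → (A →ₗ[R] R))
    (C : KC R K B α lam x y b c) (g : A →ₗ[R] B),
    (∀ w ∈ W, ∀ a, In C.i (g (α w * a) - C.i (α w) * g a) ∧
        In C.i (g (a * α w) - g a * C.i (α w))) → In C.i (g 1) →
    ∃ H : B →ₗ[K] B, WBl (ia C.i α) W H ∧ H 1 = 0 ∧ ∀ a, In C.i (H (C.i a) - g a)

/-- H2V: `H^2(A|W; B/A) = 0`.

Proof.  CSU for the Casimir families of `A` (`u * rt x y 1 = 1`).  HCB: `g₁`;
`c₁ = cc + d1 g₁` is `K`-bilinear, relative, normalised (`g₁ 1 = 0`), `dl c₁ = dl cc`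
(`dl (d1 g) = 0`), and `c₁ (v, a)` is in `i A`.  HCC: `g₂`, LFG: `H₂`.  `H = H₂ - g₁`:
`cc - d1 H = c₁ - d1 H₂ ≡ c₁ - d1 g₂ ≡ 0` on `i A`. -/
def H2vStmt : Prop :=
  ∀ (R K V E A B κ Ω : Type) [CommRing R] [Field K] [CharZero K] [Algebra R K] [CommGroup V]
    [Fintype V] [Group E] [Ring A] [Algebra R A] [Ring B] [Algebra R B] [Algebra K B] [Fintype κ]
    [Fintype Ω] [MulAction (V × V) Ω] (φ : E →* MulAut V) (W : Subgroup V) (z : V) (α : V →* A)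
    (lam : A →ₗ[R] R) (x y : κ → A) (b : Ω → A) (c : Ω → (A →ₗ[R] R))
    (C : KC R K B α lam x y b c) (u : A), Vz φ W z → StE φ Ω → u * rt x y 1 = 1 →
    ∀ cc : B →ₗ[K] B →ₗ[K] B, WB2 (ia C.i α) W (fun a b => cc a b) →
    Nrm (fun a b => cc a b) →
    (∀ a₁ a₂ a₃, In C.i (dl (fun a b => cc a b) (C.i a₁) (C.i a₂) (C.i a₃))) →
    ∃ H : B →ₗ[K] B, WBl (ia C.i α) W H ∧ H 1 = 0 ∧
      ∀ a₁ a₂, In C.i (cc (C.i a₁) (C.i a₂) - d1 H (C.i a₁) (C.i a₂))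

/-- H1V: `H^1(A|W; A) = 0`.

Proof.  `d_j = D(z^j) z^-j`, `d_(j+k) = d_j + z^j d_k z^-j`, `d_n = d_0 = 0`, `d_j` commutes with `W`.
In `B`: `y₀ = - n⁻¹ • ∑_(j<n) d_j`: `z y₀ z⁻¹ = y₀ + d_1` (`z d_j z⁻¹ = d_(j+1) - d_1`).  So `y₀` is
fixed modulo `i A` by the diagonal of `V` (`gen`; it commutes with `W`); FXL: `y' ≡ y₀` commuting
with `V`; `y₁ = y₀ - y'` is in `i A`, commutes with `W`, and `z y₁ z⁻¹ - y₁ = d_1`.
`D₁ a = D a - (a y₁ - y₁ a)` is a derivation which kills `W` and `z`, hence `V` (`gen`).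
`y₂ = ∑ u_i D₁(v_i)` (Casimir families of `A`, CSU): `a y₂ = ∑ u_i D₁(v_i a) = y₂ a + D₁ a`
(`Csm` for the balanced form `a' D₁(b')`), and `w y₂ = y₂ w`.  `y = y₁ + y₂`. -/
def H1vStmt : Prop :=
  ∀ (R K V E A B κ Ω : Type) [CommRing R] [Field K] [CharZero K] [Algebra R K] [CommGroup V]
    [Fintype V] [Group E] [Ring A] [Algebra R A] [Ring B] [Algebra R B] [Algebra K B] [Fintype κ]
    [Fintype Ω] [MulAction (V × V) Ω] (φ : E →* MulAut V) (W : Subgroup V) (z : V) (α : V →* A)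
    (lam : A →ₗ[R] R) (x y : κ → A) (b : Ω → A) (c : Ω → (A →ₗ[R] R))
    (_ : KC R K B α lam x y b c) (u : A), Vz φ W z → u * rt x y 1 = 1 →
    ∀ D : A →ₗ[R] A, (∀ a₁ a₂, D (a₁ * a₂) = D a₁ * a₂ + a₁ * D a₂) →
    (∀ w ∈ W, D (α w) = 0) →
    ∃ e : A, (∀ w ∈ W, e * α w = α w * e) ∧ ∀ a, D a = a * e - e * a

/-- KEX: existence of the context `KC` over the fraction field.

Proof.  `B = K ⊗[R] A`, `i = Algebra.TensorProduct.includeRight`, injective because `A` is free over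
the domain `R` (flat; `R → K` injective).  `lamK`, `cK` = base change of `lam`, `c ω`
(`LinearMap.baseChange` and `TensorProduct.rid`), the identities on pure tensors. -/
def KexStmt : Prop :=
  ∀ (R K V A κ Ω : Type) [CommRing R] [IsDomain R] [Field K] [Algebra R K] [IsFractionRing R K]
    [CommGroup V] [Fintype V] [Ring A] [Algebra R A] [Module.Finite R A] [Module.Free R A]
    [Fintype κ] [Fintype Ω] [MulAction (V × V) Ω] (α : V →* A) (lam : A →ₗ[R] R) (x y : κ → A)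
    (b : Ω → A) (c : Ω → (A →ₗ[R] R)), RF R α lam x y → FrR (bw R α) b c →
    Nonempty (KC R K (K ⊗[R] A) α lam x y b c)

end Pool.Agent.PSS
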