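import Pool.Agent.PSS.StmtsS1b

/-!
# Squad PSS, block S1, part c (helper36): the deformation

Complete proofs in the docstrings.  Over `K` the deformation is trivial: `P = 1 + s P_1 + ..`,
`P x · P y = P (x * y)`, `x * y = ∑ s^n m n x y` (structure `Trv`).  Step from `N` to `N + 1`: the
coefficient `m (N + 1)` is a 2-cocycle modulo the order, `H2V` corrects `P_(N+1)`.
-/

open scoped BigOperators TensorProduct

noncomputable section

namespace Pool.Agent.PSS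

open Pool.Agent.PFD.D2 (Cdv FibG)
open Pool.Agent.PFD.D2b (FrR)
open Finset

/-- TRX: existence of `m`.

Proof.  Strong recursion: `m n x y = ∑_(p in antidiagonal n) P p.1 x * P p.2 y -
∑_(p in antidiagonal n, p.1 ≠ 0) P p.1 (m p.2 x y)` (`p.2 < n` in the second sum). -/
def TrxStmt : Prop :=
  ∀ (K V B : Type) [Field K] [CommGroup V] [Ring B] [Algebra K B] (β : V →* B) (W : Subgroup V)
    (P : ℕ → (B →ₗ[K] B)), P 0 = LinearMap.id → (∀ n, WBl β W (P n)) →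
    (∀ n, P (n + 1) 1 = 0) → ∃ m : ℕ → (B →ₗ[K] B →ₗ[K] B), Trv β W P m

/-- TRA: `m` is a deformation over `K`.

Proof.  All by strong induction on `n`, using that `∑_(i+j=n) P i (e_j) = 0` and `e_j = 0` for
`j < n` give `e_n = P 0 e_n = 0`.  `n = 0`: `m 0 x y = x y`.  Associativity:
`e_j = ∑_(k+l=j) (m k (m l x y) z - m k x (m l y z))`; then
`∑_(i+k+l=n) P i (m k (m l x y) z) = ∑_(a+b+l=n) P a (m l x y) P b z = ∑_(a+b+c=n) P a x P b y P c z`
and the same for the other bracket.  Relative: `e_j = m j (w x) y - w (m j x y)`: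
`∑ P i (m j (w x) y) = ∑ P i (w x) P j y = w ∑ P i x P j y = w ∑ P i (m j x y) = ∑ P i (w (m j x y))`;
the same for the other two.  Normalised: `∑_(i+j=n) P i (m j 1 y) = ∑ P i 1 P j y = P n y` and the
term `j = 0` is `P n y`, so `e_0 = 0`, `e_j = m j 1 y` (`j > 0`). -/
def TraStmt : Prop :=
  ∀ (K V B : Type) [Field K] [CommGroup V] [Ring B] [Algebra K B] (β : V →* B) (W : Subgroup V)
    (P : ℕ → (B →ₗ[K] B)) (m : ℕ → (B →ₗ[K] B →ₗ[K] B)), Trv β W P m →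
    (∃ D : Dm K (aw β W), D.m = m) ∧ (∀ n, WB2 β W (fun a b => m n a b)) ∧
      ∀ n, Nrm (fun a b => m (n + 1) a b)

/-- TRC: change of `P`.

Proof.  Strong induction on `n`: if `P' i = P i` for all `i ≤ n` then the identities `pm` give
`∑_(i+j=n) P i (m' j x y - m j x y) = 0`, so `m' n = m n`.  For `n = N + 1` the identities differ by
`G x * y + x * G y = G (x y) + (m' (N+1) x y - m (N+1) x y)` (the terms with `i = N + 1`, and the term
`P 0 (m' (N+1) x y)`). -/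
def TrcStmt : Prop :=
  ∀ (K V B : Type) [Field K] [CommGroup V] [Ring B] [Algebra K B] (β : V →* B) (W : Subgroup V)
    (P P' : ℕ → (B →ₗ[K] B)) (m m' : ℕ → (B →ₗ[K] B →ₗ[K] B)) (N : ℕ), Trv β W P m →
    Trv β W P' m' → (∀ n ≤ N, P' n = P n) →
    (∀ n ≤ N, m' n = m n) ∧ ∀ x y, m' (N + 1) x y = m (N + 1) x y +
      d1 (fun a => P' (N + 1) a - P (N + 1) a) x y

/-- DLC: the coboundary of the coefficient `m (N + 1)`.

Proof.  Associativity (TRA) in degree `N + 1`; the terms `(0, N + 1)` and `(N + 1, 0)` give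
`m (N+1) x y * z + m (N+1) (x y) z` and `x * m (N+1) y z + m (N+1) x (y z)`. -/
def DlcStmt : Prop :=
  ∀ (K V B : Type) [Field K] [CommGroup V] [Ring B] [Algebra K B] (β : V →* B) (W : Subgroup V)
    (P : ℕ → (B →ₗ[K] B)) (m : ℕ → (B →ₗ[K] B →ₗ[K] B)) (N : ℕ), Trv β W P m →
    ∀ x y z, dl (fun a b => m (N + 1) a b) x y z =
      ∑ p ∈ (antidiagonal (N + 1)).filter (fun p => p.1 ≠ 0 ∧ p.2 ≠ 0),
        (m p.1 (m p.2 x y) z - m p.1 x (m p.2 y z))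

/-- STN: one step without target.

Proof.  `cc = m (N + 1)`: `WB2`, `Nrm` (TRA), `dl cc` maps `i A` to `i A` (DLC, all terms of the sum
have indices `≤ N`).  H2V: `H`.  `P' n = P n` for `n ≤ N`, `P' (N+1) = P (N+1) - H`, `P' n = P n`
(or `0`) for `n > N + 1`; TRX: `m'`; TRC: `m' (N+1) = m (N+1) - d1 H` on `B`, integral. -/
def StnStmt : Prop :=
  ∀ (R K V E A B κ Ω : Type) [CommRing R] [Field K] [CharZero K] [Algebra R K] [CommGroup V]
    [Fintype V] [Group E] [Ring A] [Algebra R A] [Ring B] [Algebra R B] [Algebra K B] [Fintype κ]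
    [Fintype Ω] [MulAction (V × V) Ω] (φ : E →* MulAut V) (W : Subgroup V) (z : V) (α : V →* A)
    (lam : A →ₗ[R] R) (x y : κ → A) (b : Ω → A) (c : Ω → (A →ₗ[R] R))
    (C : KC R K B α lam x y b c) (u : A), Vz φ W z → StE φ Ω → u * rt x y 1 = 1 →
    ∀ (P : ℕ → (B →ₗ[K] B)) (m : ℕ → (B →ₗ[K] B →ₗ[K] B)) (N : ℕ), Trv (ia C.i α) W P m →
    (∀ n ≤ N, ∀ a₁ a₂, In C.i (m n (C.i a₁) (C.i a₂))) →
    ∃ (P' : ℕ → (B →ₗ[K] B)) (m' : ℕ → (B →ₗ[K] B →ₗ[K] B)), Trv (ia C.i α) W P' m' ∧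
      (∀ n ≤ N, P' n = P n) ∧ ∀ n ≤ N + 1, ∀ a₁ a₂, In C.i (m' n (C.i a₁) (C.i a₂))

/-- BLT: relative normalised bilinear maps lift.

Proof.  BVL for `H = W` (the frame `b`, `c` restricted to `W × W`, `RedM` from `f`): a relative `μ`;
`RB` for `bw R (aw α W)` is `WB2`.  Normalisation: `μ' a a' = μ a a' - a (μ 1 a')` is relative
(`μ 1 (w a') = μ w a' = w μ 1 a'`), `μ' 1 a' = 0`; `μ'' a a' = μ' a a' - (μ' a 1) a'`
(`w` commutes: `μ' (a w) 1 = μ' a w = (μ' a 1) w`), `μ'' a 1 = 0`, `μ'' 1 a' = 0`; the corrections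
have reduction `0`, as `μ₀` is normalised. -/
def BltStmt : Prop :=
  ∀ (R F V A A₀ Ω : Type) [CommRing R] [Field F] [CommGroup V] [Ring A] [Algebra R A] [Ring A₀]
    [Algebra F A₀] [Fintype Ω] [MulAction (V × V) Ω] (W : Subgroup V) (α : V →* A)
    (b : Ω → A) (c : Ω → (A →ₗ[R] R)) (cv : Cdv R F) (f : FibG A A₀ cv) (α₀ : V →* A₀)
    (μ₀ : A₀ →ₗ[F] A₀ →ₗ[F] A₀), FrR (bw R α) b c → (∀ v, f.q (α v) = α₀ v) →
    WB2 α₀ W (fun a b => μ₀ a b) → Nrm (fun a b => μ₀ a b) →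
    ∃ μ : A →ₗ[R] A →ₗ[R] A, WB2 α W (fun a b => μ a b) ∧ Nrm (fun a b => μ a b) ∧
      ∀ a a', f.q (μ a a') = μ₀ (f.q a) (f.q a')

/-- STT: one step with target `D₀`.

Proof.  BLT for `D₀.m (N + 1)`: `μ` on `A`; extend it to `B`: `μB x y = ∑_(ω,ω') cK ω x * cK ω' y •
i (μ (b ω) (b ω'))`; it is `K`-bilinear, `μB (i a) (i a') = i (μ a a')`, relative and normalised (check
on the elements `i (b ω)`, which span `B` over `K`).  `cc = π⁻¹ • (m (N+1) - μB)` (`π` in `K`, not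
zero).  `dl cc` maps `i A` to `i A`: for `a_j` in `A`, `dl (m (N+1))` is by DLC the value of an
expression in the `m n`, `n ≤ N`, so it is `i e` with `q e` = the same expression for `D₀`, which is
`dl (D₀.m (N+1)) (q a₁) (q a₂) (q a₃)` (associativity of `D₀`), and this is `q` of `dl μ`; so the
difference is `i` of an element of `π A`.  H2V: `H` with `cc - d1 H` integral.
`P' (N+1) = P (N+1) - π • H`; `m' (N+1) = m (N+1) - π d1 H = μB + π (cc - d1 H)` on `i A` (TRC). -/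
def SttStmt : Prop :=
  ∀ (R K F V E A A₀ B κ Ω : Type) [CommRing R] [IsDomain R] [Field K] [CharZero K] [Algebra R K]
    [Field F] [CommGroup V] [Fintype V] [Group E] [Ring A] [Algebra R A] [Module.Finite R A]
    [Module.Free R A] [Ring A₀] [Algebra F A₀] [Ring B] [Algebra R B] [Algebra K B] [Fintype κ]
    [Fintype Ω] [MulAction (V × V) Ω] (φ : E →* MulAut V) (W : Subgroup V) (z : V) (α : V →* A)
    (lam : A →ₗ[R] R) (x y : κ → A) (b : Ω → A) (c : Ω → (A →ₗ[R] R))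
    (C : KC R K B α lam x y b c) (u : A) (cv : Cdv R F) (f : FibG A A₀ cv) (α₀ : V →* A₀)
    (D₀ : Dm F (aw α₀ W)), Vz φ W z → StE φ Ω → u * rt x y 1 = 1 → (∀ v, f.q (α v) = α₀ v) →
    ∀ (P : ℕ → (B →ₗ[K] B)) (m : ℕ → (B →ₗ[K] B →ₗ[K] B)) (N : ℕ), Trv (ia C.i α) W P m →
    (∀ n ≤ N, ∀ a₁ a₂, ∃ e, C.i e = m n (C.i a₁) (C.i a₂) ∧
      f.q e = D₀.m n (f.q a₁) (f.q a₂)) →
    ∃ (P' : ℕ → (B →ₗ[K] B)) (m' : ℕ → (B →ₗ[K] B →ₗ[K] B)), Trv (ia C.i α) W P' m' ∧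
      (∀ n ≤ N, P' n = P n) ∧ ∀ n ≤ N + 1, ∀ a₁ a₂, ∃ e, C.i e = m' n (C.i a₁) (C.i a₂) ∧
      f.q e = D₀.m n (f.q a₁) (f.q a₂)

/-- LIM: the limit of a sequence of approximations.

Proof.  Dependent choice: `f_N` with `Q (N₀ + N) f_N`, `f_(N+1) = f_N` on `n ≤ N₀ + N`;
`f n = f_(n - N₀) n` agrees with `f_N` on `n ≤ N₀ + N`. -/
def LimStmt : Prop :=
  ∀ (X : Type) (Q : ℕ → (ℕ → X) → Prop), (∀ N f g, (∀ n ≤ N, f n = g n) → Q N f → Q N g) →
    (∀ N f, Q N f → ∃ g, (∀ n ≤ N, g n = f n) ∧ Q (N + 1) g) →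
    ∀ (N₀ : ℕ) (f₀ : ℕ → X), Q N₀ f₀ → ∃ f, (∀ n ≤ N₀, f n = f₀ n) ∧ ∀ N, N₀ ≤ N → Q N f

/-- TGN: the deformation with given first order term.

Proof.  LIM for `X = (B →ₗ[K] B) × (B →ₗ[K] B →ₗ[K] B)`, `Q N` = for all `n ≤ N` the conditions of
`Trv` in degree `n` (`P 0 = 1`, `WBl (P n)`, `P n 1 = 0` for `n > 0`, `pm` in degree `n`) and the
integrality of `m n`.  Start `N₀ = 1`: `P = (1, g, 0, ..)`, `m` by TRX, `m 0 = mult`,
`m 1 x y = d1 g x y` (from `pm` in degree 1).  Step: replace `P n` by `0` for `n > N`, TRX, the new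
`m` agrees up to `N` (the argument of TRC), then STN. -/
def TgnStmt : Prop :=
  ∀ (R K V E A B κ Ω : Type) [CommRing R] [Field K] [CharZero K] [Algebra R K] [CommGroup V]
    [Fintype V] [Group E] [Ring A] [Algebra R A] [Ring B] [Algebra R B] [Algebra K B] [Fintype κ]
    [Fintype Ω] [MulAction (V × V) Ω] (φ : E →* MulAut V) (W : Subgroup V) (z : V) (α : V →* A)
    (lam : A →ₗ[R] R) (x y : κ → A) (b : Ω → A) (c : Ω → (A →ₗ[R] R))
    (C : KC R K B α lam x y b c) (u : A), Vz φ W z → StE φ Ω → u * rt x y 1 = 1 →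
    ∀ g : B →ₗ[K] B, WBl (ia C.i α) W g → g 1 = 0 →
    (∀ a₁ a₂, In C.i (d1 g (C.i a₁) (C.i a₂))) →
    ∃ (P : ℕ → (B →ₗ[K] B)) (m : ℕ → (B →ₗ[K] B →ₗ[K] B)), Trv (ia C.i α) W P m ∧ P 1 = g ∧
      ∀ n a₁ a₂, In C.i (m n (C.i a₁) (C.i a₂))

/-- TLF: every deformation of `A₀` lifts to a deformation of `A`.

Proof.  As TGN, start `N₀ = 0`, `P = (1, 0, ..)`, with STT. -/
def TlfStmt : Prop :=
  ∀ (R K F V E A A₀ B κ Ω : Type) [CommRing R] [IsDomain R] [Field K] [CharZero K] [Algebra R K]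
    [Field F] [CommGroup V] [Fintype V] [Group E] [Ring A] [Algebra R A] [Module.Finite R A]
    [Module.Free R A] [Ring A₀] [Algebra F A₀] [Ring B] [Algebra R B] [Algebra K B] [Fintype κ]
    [Fintype Ω] [MulAction (V × V) Ω] (φ : E →* MulAut V) (W : Subgroup V) (z : V) (α : V →* A)
    (lam : A →ₗ[R] R) (x y : κ → A) (b : Ω → A) (c : Ω → (A →ₗ[R] R))
    (C : KC R K B α lam x y b c) (u : A) (cv : Cdv R F) (f : FibG A A₀ cv) (α₀ : V →* A₀)
    (D₀ : Dm F (aw α₀ W)), Vz φ W z → StE φ Ω → u * rt x y 1 = 1 → (∀ v, f.q (α v) = α₀ v) →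
    ∃ (P : ℕ → (B →ₗ[K] B)) (m : ℕ → (B →ₗ[K] B →ₗ[K] B)), Trv (ia C.i α) W P m ∧
      ∀ n a₁ a₂, ∃ e, C.i e = m n (C.i a₁) (C.i a₂) ∧ f.q e = D₀.m n (f.q a₁) (f.q a₂)

/-- DMR: the deformation of the order.

Proof.  `D.m n a b` is the unique element of `A` with `i (D.m n a b) = m n (i a) (i b)` (`inj`); the
identities of `Dm` from TRA and the injectivity of `i`. -/
def DmrStmt : Prop :=
  ∀ (R K V A B : Type) [CommRing R] [Field K] [Algebra R K] [CommGroup V]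
    [Ring A] [Algebra R A] [Ring B] [Algebra R B] [Algebra K B] (W : Subgroup V) (α : V →* A)
    (i : A →ₐ[R] B), Function.Injective i → (∀ (r : R) (a : B), algebraMap R K r • a = r • a) →
    ∀ (P : ℕ → (B →ₗ[K] B)) (m : ℕ → (B →ₗ[K] B →ₗ[K] B)), Trv (ia i α) W P m →
    (∀ n a₁ a₂, In i (m n (i a₁) (i a₂))) →
    ∃ D : Dm R (aw α W), ∀ n a₁ a₂, i (D.m n a₁ a₂) = m n (i a₁) (i a₂)

/-- DMF: reduction of a deformation.

Proof.  `D₀.m n (q a) (q b) = q (D.m n a b)`: well defined since `q a = 0` gives `a = π • a'`. -/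
def DmfStmt : Prop :=
  ∀ (R F V A A₀ : Type) [CommRing R] [Field F] [CommGroup V] [Ring A] [Algebra R A] [Ring A₀]
    [Algebra F A₀] (W : Subgroup V) (α : V →* A) (cv : Cdv R F) (f : FibG A A₀ cv)
    (α₀ : V →* A₀) (D : Dm R (aw α W)), (∀ v, f.q (α v) = α₀ v) →
    ∃ D₀ : Dm F (aw α₀ W), ∀ n a₁ a₂, f.q (D.m n a₁ a₂) = D₀.m n (f.q a₁) (f.q a₂)

end Pool.Agent.PSS
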