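import Pool.Agent.PSS.StmtsS1c

/-!
# Squad PSS, block S1, part d (helper36): the ring of the deformation, centre, form, traces

Complete proofs in the docstrings.  Elements of `D.R` are sequences (`Dm.of`, `Dm.sq`,
`Dm.of_sq`, `Dm.sq_of`, `Dm.of_mul`, `Dm.of_smul`, ..), `Dm.of (cst a)` is the constant `a`.
`D.of f = ∑ X^n • D.of (cst (f n))` in the sense of coefficients; every `k⟦X⟧`-linear map from the
finite module `D.R` is determined by its values at the constants.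
-/

open scoped BigOperators TensorProduct

noncomputable section

namespace Pool.Agent.PSS

open Pool.Agent.PFD.D2 (Cdv FibG)
open Pool.Agent.PFD.D2b (FrR)
open Finset
open Dm (cst)

/-! ### General facts on the ring of a deformation -/

/-- RMP: ring homomorphisms.

Proof.  `ψ x = D₀.of (fun n => q (D.sq x n))`; multiplicative by `Dm.of_mul` (apply `q` to the sums
`Dm.mul`), `Dm.of_one`, semilinear by `Dm.of_smul`.  Surjective if `q` is.  Kernel: if `q (f n) = 0`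
for all `n` then `f n = p • g n`, `of f = C p • of g` (`smulq`). -/
def RmpStmt : Prop :=
  ∀ (k k₀ W A A₀ : Type) [CommRing k] [CommRing k₀] [Group W] [Ring A] [Algebra k A] [Ring A₀]
    [Algebra k₀ A₀] (om : W →* A) (om₀ : W →* A₀) (D : Dm k om) (D₀ : Dm k₀ om₀) (q : A →+* A₀)
    (κ : k →+* k₀), (∀ r : k, q (algebraMap k A r) = algebraMap k₀ A₀ (κ r)) →
    (∀ w, q (om w) = om₀ w) → (∀ n a a', q (D.m n a a') = D₀.m n (q a) (q a')) →
    ∃ ψ : D.R →+* D₀.R, (∀ f, ψ (D.of f) = D₀.of (fun n => q (f n))) ∧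
      (∀ (r : PowerSeries k) a, ψ (r • a) = (PowerSeries.map κ r) • ψ a) ∧
      (∀ w, ψ (D.w w) = D₀.w w) ∧ (Function.Surjective q → Function.Surjective ψ) ∧
      ∀ p : k, (∀ a, q a = 0 → ∃ a', a = p • a') →
        ∀ x, ψ x = 0 → ∃ y, x = (PowerSeries.C p) • y

/-- SPF: the special fibre `X = 0`.

Proof.  `π₀ x = D.sq x 0`; multiplicative: `Dm.mul f g 0 = m 0 (f 0) (g 0) = f 0 * g 0`.  If
`f 0 = 0` then `of f = X • of (fun n => f (n + 1))`. -/
def SpfStmt : Prop :=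
  ∀ (k W A : Type) [CommRing k] [Group W] [Ring A] [Algebra k A] (om : W →* A) (D : Dm k om),
    ∃ π₀ : D.R →+* A, (∀ f, π₀ (D.of f) = f 0) ∧
      (∀ r : PowerSeries k, π₀ (algebraMap (PowerSeries k) D.R r) =
        algebraMap k A (PowerSeries.constantCoeff r)) ∧
      Function.Surjective π₀ ∧ (∀ w, π₀ (D.w w) = om w) ∧
      ∀ x, π₀ x = 0 → ∃ y, x = (PowerSeries.X : PowerSeries k) • y

/-- FUN: linear forms from sequences of linear forms, and their uniqueness.

Proof.  `Λ (of f)` = the power series with coefficients `∑_(p in antidiagonal n) t p.1 (f p.2)`;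
linear by `Dm.of_smul` and the rearrangement of the double sum.  Uniqueness: put `f = cst a` for the
sequence `t n a = coeff n (Λ (of (cst a)))`; for a general linear `Λ`: `of f = (∑_(n<N) X^n •
of (cst (f n))) + X^N • of g`, so the coefficient of degree `n < N` of `Λ (of f)` is as stated. -/
def FunStmt : Prop :=
  ∀ (k W A : Type) [CommRing k] [Group W] [Ring A] [Algebra k A] (om : W →* A) (D : Dm k om),
    (∀ t : ℕ → (A →ₗ[k] k), ∃ Λ : D.R →ₗ[PowerSeries k] PowerSeries k,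
      ∀ f n, PowerSeries.coeff n (Λ (D.of f)) = ∑ p ∈ antidiagonal n, t p.1 (f p.2)) ∧
    ∀ Λ : D.R →ₗ[PowerSeries k] PowerSeries k, ∃ t : ℕ → (A →ₗ[k] k),
      ∀ f n, PowerSeries.coeff n (Λ (D.of f)) = ∑ p ∈ antidiagonal n, t p.1 (f p.2)

/-- CFR: the constant frame.

Proof.  FUN for the sequence `(c ω, 0, 0, ..)`: `cs ω`.  Equivariance: `D.w g * of f = of (g f)`
(`Dm.w_mul_of`), and in the same way `of f * D.w g = of (f g)` (`Dm.m_om_right`).
`∑ cs ω (of f) • of (cst (b ω))` has the coefficients `∑ c ω (f n) • b ω = f n` (`Dm.of_smul`). -/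
def CfrStmt : Prop :=
  ∀ (k W A Ω : Type) [CommRing k] [CommGroup W] [Ring A] [Algebra k A] [Fintype Ω]
    [MulAction (W × W) Ω] (om : W →* A) (D : Dm k om) (b : Ω → A) (c : Ω → (A →ₗ[k] k)),
    FrR (bw k om) b c → ∃ cs : Ω → (D.R →ₗ[PowerSeries k] PowerSeries k),
      FrR (bw (PowerSeries k) D.w) (fun ω => D.of (cst (b ω))) cs ∧
      ∀ ω f n, PowerSeries.coeff n (cs ω (D.of f)) = c ω (f n)

/-- FRE: `D.R` is finite and free.

Proof.  A finite basis `e i` of `A`; `D.R ≃ₗ (ι → k⟦X⟧)`, `of f ↦` (the power series with coefficients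
`repr (f n) i`). -/
def FreStmt : Prop :=
  ∀ (k W A : Type) [CommRing k] [Group W] [Ring A] [Algebra k A] [Module.Finite k A]
    [Module.Free k A] (om : W →* A) (D : Dm k om),
    Module.Finite (PowerSeries k) D.R ∧ Module.Free (PowerSeries k) D.R

/-- the property `H^1(A|W; A) = 0` -/
def H1P (k : Type) {W A : Type} [CommRing k] [Group W] [Ring A] [Algebra k A] (om : W →* A) :
    Prop :=
  ∀ δ : A →ₗ[k] A, (∀ a b, δ (a * b) = δ a * b + a * δ b) → (∀ w, δ (om w) = 0) →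
    ∃ e : A, (∀ w, e * om w = om w * e) ∧ ∀ a, δ a = a * e - e * a

/-- CEN: central elements lift.

Proof.  Recursion (LIM or `Nat.rec`): `z_0 = z`, all `z_n` commute with `om w`, and
`∑_(i+j=n) (m i (z_j) a - m i a (z_j)) = 0` for all `a` and `n ≤ N`.  Step: `δ a = ∑_(i+j=N+1, j≤N)
(m i (z_j) a - m i a (z_j))`.  With `Z_N = of (z_0, .., z_N, 0, ..)` the commutator
`[Z_N, of (cst a)]` is `X^(N+1) • (of (cst (δ a)) + X • ..)`, hence, by linearity, for all sequences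
`g`: `[Z_N, of g]` is `X^(N+1) • of h` with `h 0 = δ (g 0)`; apply it to the product
`of (cst a) * of (cst b) = of g`, `g 0 = a b`: `δ` is a derivation.  `δ (om w) = 0`
(`Dm.m_om_left`, `Dm.m_om_right`, as `i ≥ 1` in the sum).  `H1P`: `δ a = a e - e a`; `z_(N+1) = e`:
`m 0 e a - m 0 a e + δ a = 0`.  `Z = of z`; it commutes with all `of (cst a)`, hence with all
`of f` (coefficientwise). -/
def CenStmt : Prop :=
  ∀ (k W A : Type) [CommRing k] [Group W] [Ring A] [Algebra k A] (om : W →* A) (D : Dm k om),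
    H1P k om → ∀ z : A, (∀ a, z * a = a * z) →
    ∃ Z : D.R, (∀ a, Z * a = a * Z) ∧ D.sq Z 0 = z

/-- FMX: the symmetric form lifts.

Proof.  Recursion: `τ_0 = lam`, `∑_(i+j=n) τ_i (m_j a b)` symmetric in `a, b` for `n ≤ N`.
`d(a,b) = ∑_(i+j=N+1, i≤N) (τ_i (m_j a b) - τ_i (m_j b a))`.  With the linear form `T` on `D.R` given
by `(τ_0, .., τ_N, 0, ..)` (FUN): `T (xy - yx) = X^(N+1) (d (x_0, y_0) + X ..)` for all `x, y` in
`D.R` (`x_0 = sq x 0`).  So `d` is antisymmetric and, from `[xy, z] + [yz, x] + [zx, y] = 0`,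
`d(ab, c) + d(bc, a) + d(ca, b) = 0`; `d(a, om w) = 0` (`m_j a (om w) = 0` for `j ≥ 1`).
`lam` is perfect (RFE): `d(a, b) = lam (a δ(b))`, `δ` linear; `lam (a δ(bc)) = d(a, bc) = - d(bc, a)
= d(ab, c) + d(ca, b) = lam (a b δ(c)) + lam (c a δ(b))`, so `δ` is a derivation, `δ (om w) = 0`.
`H1P`: `δ b = b e - e b`, `d(a,b) = lam (a b e) - lam (a e b) = lam (a b e) - lam (b a e)`.
`τ_(N+1) a = - lam (a e)`.  FUN: `Λ`; symmetric on constants, hence on `D.R`. -/
def FmxStmt : Prop :=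
  ∀ (k W A K : Type) [CommRing k] [CommGroup W] [Fintype W] [Ring A] [Algebra k A] [Fintype K]
    (om : W →* A) (D : Dm k om) (lam : A →ₗ[k] k) (x y : K → A), H1P k om → RF k om lam x y →
    ∃ Λ : D.R →ₗ[PowerSeries k] PowerSeries k, (∀ a b, Λ (a * b) = Λ (b * a)) ∧
      ∀ f, PowerSeries.constantCoeff (Λ (D.of f)) = lam (f 0)

/-- RWV: dual families over `W` from dual families over `V`.

Proof.  `V` is the disjoint union of the `z^j W`, `j < orderOf z` (`gen`, `dis`); reindex the sums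
over `V`: `x_k v = (x_k z^j) w`, `v⁻¹ y_k = w⁻¹ (z^-j y_k)`. -/
def RwvStmt : Prop :=
  ∀ (k V E A K : Type) [CommRing k] [CommGroup V] [Fintype V] [Group E] [Ring A] [Algebra k A]
    [Fintype K] (φ : E →* MulAut V) (W : Subgroup V) [Fintype W] (z : V) (α : V →* A)
    (lam : A →ₗ[k] k) (x y : K → A), Vz φ W z → RF k α lam x y →
    RF k (aw α W) lam (fun p : K × Fin (orderOf z) => x p.1 * α (z ^ (p.2 : ℕ)))
      (fun p => α (z ^ (p.2 : ℕ))⁻¹ * y p.1)

/-- FSR: dual families of the deformation.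

Proof.  RFM for `R = k⟦X⟧`, `R₀ = k`, `p = X`, `κ = constantCoeff`, `A' = D.R`, `q = π₀` (SPF),
`V = W`, with FRE; `1 + X r` is a unit, `X` is a nonzero divisor. -/
def FsrStmt : Prop :=
  ∀ (k W A K : Type) [CommRing k] [CommGroup W] [Fintype W] [Ring A] [Algebra k A]
    [Module.Finite k A] [Module.Free k A] [Fintype K]
    (om : W →* A) (D : Dm k om) (lam : A →ₗ[k] k) (x y : K → A)
    (Λ : D.R →ₗ[PowerSeries k] PowerSeries k), RF k om lam x y →
    (∀ a b, Λ (a * b) = Λ (b * a)) →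
    (∀ f, PowerSeries.constantCoeff (Λ (D.of f)) = lam (f 0)) →
    ∃ y' : K → D.R, RF (PowerSeries k) D.w Λ (fun t => D.of (cst (x t))) y' ∧
      ∀ t, D.sq (y' t) 0 = y t

/-! ### The trace formula over `K` -/

/-- CRR: `ν · P (rt' w) = n rt_V(w)`.

Proof.  Let `T` be the trivial deformation (`m 0` = multiplication, `m n = 0` for `n > 0`, relative
to `W`).  `Φ (of f) = of (fun n => ∑_(p in antidiagonal n) P p.1 (f p.2))` is a `K⟦X⟧`-linear ring
isomorphism `D.R → T.R` (`pm`; bijective because `P 0 = 1`), `Φ (D.w w) = T.w w` (`p1`, `pw`).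
`Λ₁ = Λ ∘ Φ⁻¹` is symmetric on `T.R`.  `Λ₀` = the form on `T.R` given by `(lamK, 0, ..)` (FUN); the
families `of (cst (x k z^j))`, `of (cst (z^-j y k))` are dual over `W` for `Λ₀` (RWV and constants).
RFE: `Λ₁ = Λ₀ (N ·)`; `N` is central as both forms are symmetric and `Λ₀` is nondegenerate;
`ν = sq N`, `ν 0 = 1` by the constant coefficients; `ν n` is central in `B`.  `N` is a unit (its
constant coefficient is `1`; or: `Λ₁` is perfect because it has dual families, so `Λ₀ = Λ₁ (N' ·)`,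
`N N' = 1`).  `RF K⟦X⟧ T.w Λ₁ (Φ x') (Φ y')`.  RTC (with `lam = Λ₀`, `lam' = Λ₁`, `u = N`) for `V := W`,
`a = T.w w`: `N * ∑ Φ x' (T.w w) Φ y' = ∑_k ∑_(j<n) x_k z^j w z^-j y_k = n rt_V(w)`; the left side is
`N * Φ (rt x' y' (D.w w))`.  Take coefficients. -/
def CrrStmt : Prop :=
  ∀ (K V E B κ κ' : Type) [Field K] [CharZero K] [CommGroup V] [Fintype V] [Group E] [Ring B]
    [Algebra K B] [FiniteDimensional K B] [Fintype κ] [Fintype κ'] (φ : E →* MulAut V)
    (W : Subgroup V) [Fintype W] (z : V) (β : V →* B) (lamK : B →ₗ[K] K) (x y : κ → B)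
    (P : ℕ → (B →ₗ[K] B)) (m : ℕ → (B →ₗ[K] B →ₗ[K] B)) (D : Dm K (aw β W))
    (Λ : D.R →ₗ[PowerSeries K] PowerSeries K) (x' y' : κ' → D.R), Vz φ W z → Trv β W P m →
    D.m = m → RF K β lamK x y → RF (PowerSeries K) D.w Λ x' y' →
    (∀ f, PowerSeries.constantCoeff (Λ (D.of f)) = lamK (f 0)) →
    ∃ ν : ℕ → B, ν 0 = 1 ∧ (∀ n a, ν n * a = a * ν n) ∧
      (∀ n a, ∑ p ∈ antidiagonal n, lamK (ν p.1 * P p.2 a) =
        PowerSeries.coeff n (Λ (D.of (cst a)))) ∧
      ∀ w : W, ∀ N, ∑ p ∈ antidiagonal N, ∑ q ∈ antidiagonal p.2,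
        ν p.1 * P q.1 (D.sq (rt x' y' (D.w w)) q.2) =
          if N = 0 then (orderOf z : K) • rt x y (β w) else 0

/-- LKX: base change of the form and of the dual families from `R` to `K`.

Proof.  RMP for `i` (`κ = algebraMap R K`): `ψ : D.R → D'.R`.  `Λ` is given by a sequence
`t n : A → R` (FUN); `tK n s = ∑ cK ω s * algebraMap (t n (b ω))` extends it
(`tK n (i a) = algebraMap (t n a)`), FUN: `Λ'`, `Λ' (ψ a) = map (algebraMap R K) (Λ a)`.  Symmetric:
enough on constants `of (cst s)`, `s` in `B`, and by `K`-bilinearity for `s` in `i A`.  The identity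
`e1` for `a` in `D'.R`: both sides are `K⟦X⟧`-linear in `a`, and `D'.R` is spanned by the constants
`of (cst (i (b ω))) = ψ (of (cst (b ω)))` (frame), where it is the image of `e1` for `D.R`; then
RFE. -/
def LkxStmt : Prop :=
  ∀ (R K V A B κ κ' Ω : Type) [CommRing R] [Field K] [CharZero K] [Algebra R K] [CommGroup V]
    [Fintype V] [Ring A] [Algebra R A] [Ring B] [Algebra R B] [Algebra K B] [Fintype κ]
    [Fintype κ'] [Fintype Ω] [MulAction (V × V) Ω] (W : Subgroup V) [Fintype W] (α : V →* A)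
    (lam : A →ₗ[R] R) (x y : κ → A) (b : Ω → A) (c : Ω → (A →ₗ[R] R))
    (C : KC R K B α lam x y b c) (D : Dm R (aw α W)) (D' : Dm K (aw (ia C.i α) W))
    (Λ : D.R →ₗ[PowerSeries R] PowerSeries R) (x' y' : κ' → D.R),
    (∀ n a₁ a₂, C.i (D.m n a₁ a₂) = D'.m n (C.i a₁) (C.i a₂)) →
    RF (PowerSeries R) D.w Λ x' y' →
    ∃ (ψ : D.R →+* D'.R) (Λ' : D'.R →ₗ[PowerSeries K] PowerSeries K),
      (∀ f, ψ (D.of f) = D'.of (fun n => C.i (f n))) ∧ (∀ w, ψ (D.w w) = D'.w w) ∧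
      (∀ a, Λ' (ψ a) = PowerSeries.map (algebraMap R K) (Λ a)) ∧
      RF (PowerSeries K) D'.w Λ' (fun t => ψ (x' t)) (fun t => ψ (y' t))

/-- FOR: the relative trace to first order, over `R`.

Proof.  `B` is finite dimensional (frame).  TRA: `D' : Dm K` with `D'.m = m`; LKX; `constantCoeff (Λ' (of f)) = lamK (f 0)` (constants,
linearity).  CRR: `ν`.  With `r n = i (sq (rt x' y' (D.w w)) n)` (`ψ` of the relative trace):
degree 0: `r 0 = n rt_V(w)`; degree 1: `ν 1 r 0 + P 1 (r 0) + r 1 = 0`, so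
`r 1 = - (n ν 1 rt_V(w) + n P 1 (rt_V w))`.  For `a` in `A`:
`lamK (ν 1 (i a)) + lamK (P 1 (i a)) = coeff 1 (Λ' (of (cst (i a))))` is in the image of `R`; so
`lamK (n ν 1 (i a)) = n ρ(a) - lamK (n P 1 (i a))`; with `n P 1 (i a) = i (v₁ a)` this is in the image
of `R`, RFE for `lam`: there is `d` in `A` with `lam (d a) = n ρ(a) - lam (v₁ a)`, and
`i d = n ν 1` (nondegeneracy of `lamK`). -/
def ForStmt : Prop :=
  ∀ (R K V E A B κ Ω : Type) [CommRing R] [Field K] [CharZero K] [Algebra R K] [CommGroup V]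
    [Fintype V] [Group E] [Ring A] [Algebra R A] [Ring B] [Algebra R B] [Algebra K B] [Fintype κ]
    [Fintype Ω] [MulAction (V × V) Ω] (φ : E →* MulAut V) (W : Subgroup V) (z : V) (α : V →* A)
    (lam : A →ₗ[R] R) (x y : κ → A) (b : Ω → A) (c : Ω → (A →ₗ[R] R))
    (C : KC R K B α lam x y b c) (u : A), Vz φ W z → StE φ Ω → u * rt x y 1 = 1 → ∀ [Module.Finite R A] [Module.Free R A] [Fintype W] (κ' : Type) [Fintype κ']
    (P : ℕ → (B →ₗ[K] B)) (m : ℕ → (B →ₗ[K] B →ₗ[K] B)) (v₁ : A →ₗ[R] A)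
    (D : Dm R (aw α W)) (Λ : D.R →ₗ[PowerSeries R] PowerSeries R) (x' y' : κ' → D.R),
    Trv (ia C.i α) W P m → (∀ a, C.i (v₁ a) = (orderOf z : K) • P 1 (C.i a)) →
    (∀ n a₁ a₂, C.i (D.m n a₁ a₂) = m n (C.i a₁) (C.i a₂)) →
    RF (PowerSeries R) D.w Λ x' y' →
    (∀ f, PowerSeries.constantCoeff (Λ (D.of f)) = lam (f 0)) →
    ∃ d : A, (∀ a, ∃ ρ : R, lam (d * a) + lam (v₁ a) = (orderOf z : R) * ρ) ∧
      ∀ w : W, D.sq (rt x' y' (D.w w)) 0 = (orderOf z : R) • rt x y (α w) ∧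
        D.sq (rt x' y' (D.w w)) 1 = - (d * rt x y (α w) + v₁ (rt x y (α w)))

end Pool.Agent.PSS
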