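import Pool.Agent.PSS.StmtsS2

/-!
# Squad PSS, block S2, part b (helper75): the direction for the lift of an algebra of the class

`DRT` is the interface of block S2 with block S1 (rows LFT, FOR).
-/

open scoped BigOperators

noncomputable section

namespace Pool.Agent.PSS.S2

open Pool.Agent.PFC (tw IsTv)
open Pool.Agent.PFD.D2 (Cdv FibG)
open Pool.Agent.PFD.D2b (FrR)

/-- RDG (233). The reduction of `Gz`. Proof: apply `f.q` to `gz_apply`, `nh_apply` and use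
`qa`, `qx`, `qy`, `qb`, `qc` of `LiftV` (`f.q (r • a) = c.κ r • f.q a` by `f.sc`). -/
def RdgStmt : Prop :=
  ∀ (R F V A A' K Ω : Type) [CommRing R] [Field F] (c : Cdv R F) [CommGroup V] [Fintype V] [Ring A]
    [Algebra F A] [Ring A'] [Algebra R A'] [Fintype K] [Fintype Ω] [MulAction (V × V) Ω]
    (α : V →* A) (lam : A →ₗ[F] F) (x y : K → A) (b : Ω → A) (cc : Ω → (A →ₗ[F] F))
    (f : FibG A' A c) (α' : V →* A') (lam' : A' →ₗ[R] R) (x' y' : K → A') (b' : Ω → A')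
    (cc' : Ω → (A' →ₗ[R] R)) (z : V) (H : Ω → R),
    LiftV c α lam x y b cc f α' lam' x' y' b' cc' → ∀ a,
    f.q (Gz α' z x' y' (Nh H b' cc') a) =
      Gz α z x y (Nh (fun ω => c.κ (H ω)) b cc) (f.q a)

/-- DRT (234). Proof. `PrD R φ α' b' cc'` from `LiftV.fr` and the last hypothesis on the
stabilisers; `IsCompl (zpowers z) W` from `Vz`; VDR gives `H₀`, `v`, `χ₀`. `n = orderOf z` is a
power of `ℓ`, `≠ 1`, so `(n : F) = 0` and `(n : R) = π * s`; so `f.q (v a) = f.q (Gz .. a) =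
Gz α z x y N (f.q a)`, `N = Nh (fun ω => ((H₀ ω).val : F)) b cc` (RDG), and `N` is a connection
for `χ v = ((χ₀ v).val : F)` with `q = 0` (CNH), `χ z = 1`. For `d` as in the statement:
`lam (f.q d * a) = - lam (a * rt x y (α z⁻¹))` up to sign: from `lam' (v a) ≡ - lam' (a * rt (α' z⁻¹))`
modulo `n` and reduction `lam (f.q d * a) = lam (rt x y (α z⁻¹) * a)` for all `a` (`f.q`
surjective), so `f.q d = rt x y (α z⁻¹)` (nondegeneracy from RF.e2: `a = ∑ lam (a * (x k * α v)) • ..`).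
Then UNT for `w`. -/
def DrtStmt : Prop :=
  ∀ (ℓ : ℕ) [Fact ℓ.Prime] (R F V E A A' K Ω : Type) [CommRing R] [Field F] [IsAlgClosed F]
    [CharP F ℓ] (c : Cdv R F) [CommGroup V] [Fintype V] [Group E] [Ring A]
    [Algebra F A] [FiniteDimensional F A] [Ring A'] [Algebra R A'] [Fintype K] [Fintype Ω]
    [MulAction (V × V) Ω] (φ : E →* MulAut V) (W : Subgroup V) (z : V)
    (α : V →* A) (lam : A →ₗ[F] F) (x y : K → A) (b : Ω → A) (cc : Ω → (A →ₗ[F] F))
    (f : FibG A' A c) (α' : V →* A') (lam' : A' →ₗ[R] R) (x' y' : K → A') (b' : Ω → A')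
    (cc' : Ω → (A' →ₗ[R] R)) (u : A), IsPGroup ℓ V → Vz φ W z → z ≠ 1 →
    RF F α lam x y → PrD F φ α b cc → u * rt x y 1 = 1 →
    (∀ e : A, (∀ a', e * a' = a' * e) → e * e = e → e ∈ BKR (cw F α) ⊤ → e = 0) →
    LiftV c α lam x y b cc f α' lam' x' y' b' cc' →
    ∃ v : A' →ₗ[R] A',
      (∀ w ∈ W, ∀ a, v (α' w * a) = α' w * v a ∧ v (a * α' w) = v a * α' w) ∧
      (∀ a d, Cg (orderOf z : R) (v (a * d)) (v a * d + a * v d)) ∧
      ∀ d : A', (∀ a, ∃ ρ : R, lam' (d * a) + lam' (v a) = (orderOf z : R) * ρ) →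
        ∀ w : V, IsNilpotent (f.q (d * rt x' y' (α' w) + v (rt x' y' (α' w))) -
          rt x y 1 * rt x y 1)

end Pool.Agent.PSS.S2
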