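import Pool.Agent.PSS.StmtsS3

/-!
# Theorem (S+), block S3 (helper30): the generic fibre, general form

`F` a field of characteristic `ℓ`, `W` a finite abelian `ℓ`-group, `As` an `F⟦X⟧`-algebra in `C0`
(form with a relative Frobenius system, permutation frame, units).  If `∑ x k * y k` divides a power
of `X` and the relative traces `rt(w) - rt(1)` of all Brauer quotients `As(Q)` are nilpotent, then
`F' ⊗ As` is in the class `Cl`, for every field `F'` over `F⟦X⟧`.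
-/

open scoped BigOperators TensorProduct PowerSeries

noncomputable section

namespace Pool.Agent.PSS.S3

open Pool.Agent.PFC (tw IsTv)
open Pool.Agent.PFD.D2b (FrR)
open Pool.Agent.PSS.S0

/-- (N): in every Brauer quotient `Bs = As(Q)`, with the form and a system induced by `lam`, all
`rt(w) - rt(1)`, `w ∈ W`, are nilpotent. -/
def NilQ (R : Type) {W As : Type} [CommRing R] [CommGroup W] [Fintype W] [Ring As] [Algebra R As]
    (γ : W →* As) (lam : As →ₗ[R] R) : Prop :=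
  ∀ (Q : Subgroup W) (Bs KB : Type) [Ring Bs] [Algebra R Bs] [Fintype KB] (γB : W →* Bs)
    (βs : As → Bs) (lamB : Bs →ₗ[R] R) (xB yB : KB → Bs), IsBQ R γ Q γB βs →
    RF R γB lamB xB yB → (∀ a ∈ FxR (cw R γ) Q, lamB (βs a) = lam a) →
    ∀ w : W, IsNilpotent (∑ k, xB k * γB w * yB k - ∑ k, xB k * yB k)

/-- GFP (uses BLS, GFB, GFQ, S0: BQX, BPU, MCK, ZRT, FCO, FBK).  THE GENERIC FIBRE IS IN THE CLASS,
general form.  Proof.  `fin`, `per`, `uni`, the system: as in GFC.  `rt`: `u * rt(1) = X^m`.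
`blk`: downward induction on `Q` as in BLK (`Q = ⊤` trivial; the hypotheses at `Q' > Q` follow by
FCO, FBK).  BQX: `Bs = As(Q)`, `D = C(Q)`; `E1 = C_E(Q)`; BPU: `lamB`, `xB`, `yB`.  `u` is central
(`rt(1)` is central, `As` is `X`-torsion free), so in `As^Q`; MCK with `a = 1`:
`βs (rt(1)) = |T| rtB(1)`, so `|T| βs(u) rtB(1) = X^m`: `κ (rtB(1))` is a unit of `D` (GFQ).
`rtB(w) - rtB(1)` is nilpotent and commutes with `rtB(1)` (ZRT): `κ (rtB(w))` is a unit.  BLS with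
`w ∉ Q`: `βD e * κ (rtB(w)) = 0`, `βD e = 0`. -/
def GfpStmt : Prop :=
  ∀ (ℓ : ℕ) [Fact ℓ.Prime] (F F' W E As K : Type) [Field F] [CharP F ℓ] [Field F']
    [CharP F' ℓ] [Algebra F⟦X⟧ F'] [CommGroup W] [Fintype W] [Group E] [Finite E] [Ring As]
    [Algebra F⟦X⟧ As] [Fintype K] (ψ : E →* MulAut W) (γ : W →* As) (lam : As →ₗ[F⟦X⟧] F⟦X⟧)
    (x y : K → As), Function.Injective (algebraMap F⟦X⟧ F') → IsPGroup ℓ W →
    ¬ ℓ ∣ Nat.card E → Per F⟦X⟧ ψ γ → Uni ψ γ → RF F⟦X⟧ γ lam x y →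
    (∃ (m : ℕ) (u : As), u * ∑ k, x k * y k = (PowerSeries.X ^ m : F⟦X⟧) • (1 : As)) →
    NilQ F⟦X⟧ γ lam → Cl F' ψ (bcw (R := F⟦X⟧) (S := F') γ)

end Pool.Agent.PSS.S3
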